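import Pool.Agent.H73.ES.Rs

/-!
# [H73 ES Cau] Cauchy estimates for the jets

`nn_hom`: `nn (FF X (c • w)) = ‖c‖^d nn (FF X w)`. `n2 (u + t pp u) = 1 + ‖t‖^2` for unit `u`, so `nn (FF X (u + t pp u)) ≤ R (1 + ‖t‖^2)^(d/2) ≤ R e^(1/2) ≤ 2 R`
if `d ‖t‖^2 ≤ 1`. `cau_coeff`: Cauchy estimate for the coefficients of a polynomial (e.g. `Complex.norm_iteratedDeriv_le...`,
`Complex.norm_deriv_le_of_forall_mem_sphere_norm_le` iterated is worse; direct: `Polynomial` coefficient as circle integral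
`cauchyPowerSeries`/`hasFPowerSeriesOnBall`, or the mean over roots of unity `∑_(j<N) g(ρ ω^j) ω^(-jk) = N g_k ρ^k` for `N > deg g`, which is elementary).
`cau_jet`: for a unit vector `v` of `ℂ²` apply `cau_coeff` to `t ↦ hm (FF X (u + t pp u)) v` (a polynomial, `rs_eval`), `ρ = 1/√d`, and take
`v = jv X u k / nn (jv X u k)`. `nn_hm`: `‖hm a b‖ ≤ nn a * nn b`, `‖wd a b‖ ≤ nn a * nn b` (Lagrange identity `‖wd a b‖^2 + ‖hm a b‖^2 = n2 a * n2 b`).
-/

set_option autoImplicit false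

open Finset MeasureTheory

namespace Pool.Agent.H73.ES

open Pool.H70.SF

theorem lag (a b : ℂ × ℂ) : ‖wd a b‖ ^ 2 + ‖hm a b‖ ^ 2 = n2 a * n2 b := by
  unfold wd hm n2
  simp only [Complex.sq_norm, Complex.normSq_apply, Complex.sub_re, Complex.sub_im, Complex.mul_re,
    Complex.mul_im, Complex.add_re, Complex.add_im, Complex.conj_re, Complex.conj_im]
  ring

private theorem cau_n2_nonneg (a : ℂ × ℂ) : 0 ≤ n2 a := by
  unfold n2
  positivity

private theorem cau_nn_sq (a : ℂ × ℂ) : nn a ^ 2 = n2 a := Real.sq_sqrt (cau_n2_nonneg a)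

private theorem cau_nn_nonneg (a : ℂ × ℂ) : 0 ≤ nn a := Real.sqrt_nonneg _

theorem wd_le (a b : ℂ × ℂ) : ‖wd a b‖ ≤ nn a * nn b := by
  have h := lag a b
  refine (pow_le_pow_iff_left₀ (norm_nonneg _)
    (mul_nonneg (cau_nn_nonneg a) (cau_nn_nonneg b)) two_ne_zero).1 ?_
  rw [mul_pow, cau_nn_sq, cau_nn_sq]
  nlinarith [sq_nonneg ‖hm a b‖]

theorem hm_le (a b : ℂ × ℂ) : ‖hm a b‖ ≤ nn a * nn b := by
  have h := lag a b
  refine (pow_le_pow_iff_left₀ (norm_nonneg _)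
    (mul_nonneg (cau_nn_nonneg a) (cau_nn_nonneg b)) two_ne_zero).1 ?_
  rw [mul_pow, cau_nn_sq, cau_nn_sq]
  nlinarith [sq_nonneg ‖wd a b‖]

theorem nn_add (a b : ℂ × ℂ) : nn (a + b) ≤ nn a + nn b := by
  refine (pow_le_pow_iff_left₀ (cau_nn_nonneg _)
    (add_nonneg (cau_nn_nonneg a) (cau_nn_nonneg b)) two_ne_zero).1 ?_
  have h1 : n2 (a + b) = n2 a + n2 b + 2 * (hm a b).re := by
    unfold n2 hm
    simp only [Complex.sq_norm, Complex.normSq_apply, Complex.mul_re, Complex.add_re,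
      Complex.add_im, Complex.conj_re, Complex.conj_im, Prod.fst_add, Prod.snd_add]
    ring
  have h2 : (hm a b).re ≤ nn a * nn b := (Complex.re_le_norm _).trans (hm_le a b)
  rw [cau_nn_sq, h1, add_sq, cau_nn_sq, cau_nn_sq]
  linarith

theorem nn_smul (c : ℂ) (a : ℂ × ℂ) : nn (c • a) = ‖c‖ * nn a := by
  unfold nn
  have h1 : n2 (c • a) = ‖c‖ ^ 2 * n2 a := by
    unfold n2
    simp only [Prod.smul_fst, Prod.smul_snd, smul_eq_mul, norm_mul]
    ring
  rw [h1, Real.sqrt_mul (by positivity), Real.sqrt_sq (norm_nonneg _)]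

theorem nn_pp {u : ℂ × ℂ} (hu : IsU u) (t : ℂ) : n2 (u + t • pp u) = 1 + ‖t‖ ^ 2 := by
  unfold IsU at hu
  have h1 : n2 (u + t • pp u) = n2 u * (1 + ‖t‖ ^ 2) := by
    unfold n2 pp
    simp only [Complex.sq_norm, Complex.normSq_apply, Complex.mul_re, Complex.mul_im,
      Complex.add_re, Complex.add_im, Complex.conj_re, Complex.conj_im, Complex.neg_re,
      Complex.neg_im, Prod.fst_add, Prod.snd_add, Prod.smul_fst, Prod.smul_snd, smul_eq_mul]
    ring
  rw [h1, hu, one_mul]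

private theorem cau_iter (g : Polynomial ℂ) (k : ℕ) :
    iteratedDeriv k (fun t : ℂ => g.eval t) = fun t => (Polynomial.derivative^[k] g).eval t := by
  induction k with
  | zero => simp
  | succ k ih =>
    rw [iteratedDeriv_succ, ih]
    funext t
    rw [Polynomial.deriv, Function.iterate_succ_apply']

theorem cau_coeff (g : Polynomial ℂ) {ρ A : ℝ} (hρ : 0 < ρ)
    (h : ∀ t : ℂ, ‖t‖ ≤ ρ → ‖g.eval t‖ ≤ A) (k : ℕ) : ‖g.coeff k‖ ≤ A / ρ ^ k := by
  have h1 := Complex.norm_iteratedDeriv_le_of_forall_mem_sphere_norm_le (c := 0) (R := ρ) (C := A)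
    (f := fun t : ℂ => g.eval t) k hρ (g.differentiable.diffContOnCl)
    (fun z hz => h z (by
      rw [mem_sphere_zero_iff_norm] at hz
      exact hz.le))
  have h2 : iteratedDeriv k (fun t : ℂ => g.eval t) 0 = (k.factorial : ℂ) * g.coeff k := by
    rw [cau_iter]
    simp only
    rw [← Polynomial.coeff_zero_eq_eval_zero, Polynomial.coeff_iterate_derivative, zero_add,
      Nat.descFactorial_self, nsmul_eq_mul]
  rw [h2, norm_mul, Complex.norm_natCast] at h1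
  have h3 : (0 : ℝ) < k.factorial := by exact_mod_cast Nat.factorial_pos k
  have h4 : (k.factorial : ℝ) * A / ρ ^ k = (k.factorial : ℝ) * (A / ρ ^ k) := by ring
  rw [h4] at h1
  exact le_of_mul_le_mul_left h1 h3

theorem cau_sup {d : ℕ} (hd : 1 ≤ d) {X : CV d} {R : ℝ} (hR : ∀ u, IsU u → nn (FF X u) ≤ R)
    {u : ℂ × ℂ} (hu : IsU u) {t : ℂ} (ht : d * ‖t‖ ^ 2 ≤ 1) :
    nn (FF X (u + t • pp u)) ≤ 2 * R := by
  set w : ℂ × ℂ := u + t • pp u with hw
  have hn : n2 w = 1 + ‖t‖ ^ 2 := nn_pp hu t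
  have hnpos : 0 < 1 + ‖t‖ ^ 2 := by positivity
  set s : ℝ := Real.sqrt (1 + ‖t‖ ^ 2) with hs
  have hs0 : 0 < s := Real.sqrt_pos.2 hnpos
  have hs2 : s ^ 2 = 1 + ‖t‖ ^ 2 := Real.sq_sqrt hnpos.le
  have hR0 : 0 ≤ R := (cau_nn_nonneg _).trans (hR u hu)
  set v : ℂ × ℂ := ((s⁻¹ : ℝ) : ℂ) • w with hv
  have hvu : IsU v := by
    unfold IsU
    have h1 : n2 v = (s⁻¹) ^ 2 * n2 w := by
      rw [hv]
      unfold n2
      simp only [Prod.smul_fst, Prod.smul_snd, smul_eq_mul, norm_mul, Complex.norm_real,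
        Real.norm_of_nonneg (inv_nonneg.2 hs0.le)]
      ring
    rw [h1, hn, ← hs2]
    field_simp
  have hwv : w = ((s : ℝ) : ℂ) • v := by
    rw [hv, smul_smul, ← Complex.ofReal_mul, mul_inv_cancel₀ hs0.ne']
    simp
  have hFF : ∀ (c : ℂ) (x : ℂ × ℂ), FF X (c • x) = c ^ d • FF X x := fun c x => by
    unfold FF
    rw [hev_hom, hev_hom]
    rfl
  have hF : FF X w = ((s : ℝ) : ℂ) ^ d • FF X v := by
    rw [← hFF, ← hwv]
  rw [hF, nn_smul, norm_pow, Complex.norm_real, Real.norm_of_nonneg hs0.le]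
  have hsd : s ^ d ≤ 2 := by
    have h1 : (s ^ d) ^ 2 ≤ 2 ^ 2 := by
      calc (s ^ d) ^ 2 = (‖t‖ ^ 2 + 1) ^ d := by
            rw [← pow_mul, mul_comm d 2, pow_mul, hs2, add_comm]
        _ ≤ (Real.exp (‖t‖ ^ 2)) ^ d := by
            gcongr
            exact Real.add_one_le_exp _
        _ = Real.exp (d * ‖t‖ ^ 2) := by rw [← Real.exp_nat_mul]
        _ ≤ Real.exp 1 := Real.exp_le_exp.2 ht
        _ ≤ 2 ^ 2 := by
            have := Real.exp_one_lt_d9
            norm_num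
            linarith
    exact (pow_le_pow_iff_left₀ (by positivity) (by norm_num) two_ne_zero).1 h1
  exact mul_le_mul hsd (hR v hvu) (cau_nn_nonneg _) (by norm_num)

theorem cau_jet {d : ℕ} (hd : 1 ≤ d) {X : CV d} {R : ℝ} (hR : ∀ u, IsU u → nn (FF X u) ≤ R)
    {u : ℂ × ℂ} (hu : IsU u) (k : ℕ) : nn (jv X u k) ≤ 2 * R * Real.sqrt d ^ k := by
  set v : ℂ × ℂ := jv X u k with hv
  have hR0 : 0 ≤ R := (cau_nn_nonneg _).trans (hR u hu)
  have hdpos : (0 : ℝ) < d := by exact_mod_cast hd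
  have hsd : 0 < Real.sqrt d := Real.sqrt_pos.2 hdpos
  rcases (cau_nn_nonneg v).eq_or_lt with h0 | hpos
  · rw [← h0]
    positivity
  set g : Polynomial ℂ := Polynomial.C (starRingEnd ℂ v.1) * rsP X.1 u +
    Polynomial.C (starRingEnd ℂ v.2) * rsP X.2 u with hg
  have hgv : ∀ t : ℂ, g.eval t = hm (FF X (u + t • pp u)) v := by
    intro t
    rw [hg, Polynomial.eval_add, Polynomial.eval_mul, Polynomial.eval_mul, Polynomial.eval_C,
      Polynomial.eval_C, rs_eval, rs_eval]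
    unfold hm FF
    ring
  have hgk : g.coeff k = (n2 v : ℂ) := by
    rw [hg, Polynomial.coeff_add, Polynomial.coeff_C_mul, Polynomial.coeff_C_mul]
    have h1 : (rsP X.1 u).coeff k = v.1 := rfl
    have h2 : (rsP X.2 u).coeff k = v.2 := rfl
    rw [h1, h2, mul_comm, mul_comm _ v.2, Complex.mul_conj, Complex.mul_conj,
      Complex.normSq_eq_norm_sq, Complex.normSq_eq_norm_sq]
    unfold n2
    push_cast
    ring
  have h1 := cau_coeff g (ρ := (Real.sqrt d)⁻¹) (A := 2 * R * nn v) (by positivity) (fun t ht => by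
    rw [hgv]
    refine (hm_le _ _).trans (mul_le_mul_of_nonneg_right (cau_sup hd hR hu ?_) hpos.le)
    have h3 : ‖t‖ ^ 2 ≤ ((Real.sqrt d)⁻¹) ^ 2 := by gcongr
    rw [inv_pow, Real.sq_sqrt hdpos.le] at h3
    calc (d : ℝ) * ‖t‖ ^ 2 ≤ d * (d : ℝ)⁻¹ := by gcongr
      _ = 1 := mul_inv_cancel₀ hdpos.ne') k
  rw [hgk, Complex.norm_real, Real.norm_of_nonneg (cau_n2_nonneg v), ← cau_nn_sq, inv_pow,
    div_inv_eq_mul] at h1
  have h2 : nn v * nn v ≤ (2 * R * Real.sqrt d ^ k) * nn v := by nlinarith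
  exact le_of_mul_le_mul_right h2 hpos

end Pool.Agent.H73.ES
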