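import Pool.Agent.H73.ES.Cd

/-!
# [H73 ES Net] Nets on the sphere

`N` = all `(1, z)/√(1+|z|²)` and `(z, 1)/√(1+|z|²)` with `z ∈ η(ℤ + iℤ)`, `|z| ≤ 2`. Every unit vector is `φ (1, z)/√(1+|z|²)` or
`φ (z, 1)/√(1+|z|²)` with `|φ| = 1`, `|z| ≤ 1` (divide by the larger coordinate), and the chordal distance of two points of one chart is
`|z - z'| / (√(1+|z|²) √(1+|z'|²)) ≤ |z - z'|`; every `z`, `|z| ≤ 1`, is within `η` of a grid point of modulus `≤ 1 + η ≤ 2`.
Counting: the number of grid points in a disc of radius `ρ` is `≤ (2ρ/η + 1)²`. If `r ≥ 1/4`: each chart has `≤ (4/η + 1)² ≤ 25/η² ≤ 400 r²/η²`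
points. If `r < 1/4` and `u = φ (1, ζ)/√(1+|ζ|²)` (for the first chart; `u = (0, φ)` is at distance `1/√(1+|z'|²) ≥ 1/√5 > 1/4` from all its points) and
`|ζ - z'| ≤ r √(1+|ζ|²) √5`, `|z'| ≤ 2`, `r < 1/4`, then `|ζ| ≤ 6`, so `|ζ - z'| ≤ 14 r`: at most `(28 r/η + 1)² ≤ 900 r²/η²` points. The same for the
other chart. Total `≤ 1800 r²/η² ≤ 10000 r²/η²`.
-/

set_option autoImplicit false

open Finset MeasureTheory

namespace Pool.Agent.H73.ES

open Pool.H70.SF

private noncomputable def net_z (η : ℝ) (p : ℤ × ℤ) : ℂ := ⟨η * p.1, η * p.2⟩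

private noncomputable def net_box (η : ℝ) : Finset (ℤ × ℤ) :=
  Icc (-⌊2 / η⌋) ⌊2 / η⌋ ×ˢ Icc (-⌊2 / η⌋) ⌊2 / η⌋

private noncomputable def net_f1 (η : ℝ) (a : ℤ × ℤ) : ℂ × ℂ :=
  (((Real.sqrt (1 + ‖net_z η a‖ ^ 2))⁻¹ : ℝ) : ℂ) • (1, net_z η a)

private noncomputable def net_f2 (η : ℝ) (a : ℤ × ℤ) : ℂ × ℂ :=
  (((Real.sqrt (1 + ‖net_z η a‖ ^ 2))⁻¹ : ℝ) : ℂ) • (net_z η a, 1)

private theorem net_s (x : ℝ) : 0 < Real.sqrt (1 + x ^ 2) := Real.sqrt_pos.2 (by positivity)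

private theorem net_u1 (η : ℝ) (a : ℤ × ℤ) : IsU (net_f1 η a) := by
  have h := net_s ‖net_z η a‖
  unfold IsU n2 net_f1
  simp only [Prod.smul_fst, Prod.smul_snd, smul_eq_mul, norm_mul, Complex.norm_real,
    Real.norm_of_nonneg (inv_nonneg.2 h.le), mul_one, mul_pow, inv_pow]
  rw [Real.sq_sqrt (by positivity)]
  field_simp

private theorem net_u2 (η : ℝ) (a : ℤ × ℤ) : IsU (net_f2 η a) := by
  have h := net_s ‖net_z η a‖
  unfold IsU n2 net_f2
  simp only [Prod.smul_fst, Prod.smul_snd, smul_eq_mul, norm_mul, Complex.norm_real,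
    Real.norm_of_nonneg (inv_nonneg.2 h.le), mul_one, mul_pow, inv_pow]
  rw [Real.sq_sqrt (by positivity)]
  field_simp
  ring

private theorem net_w1 (η : ℝ) (a : ℤ × ℤ) (u : ℂ × ℂ) (r : ℝ) :
    ‖wd u (net_f1 η a)‖ ≤ r ↔
      ‖u.1 * net_z η a - u.2‖ ≤ r * Real.sqrt (1 + ‖net_z η a‖ ^ 2) := by
  have h := net_s ‖net_z η a‖
  have h1 : wd u (net_f1 η a) =
      (((Real.sqrt (1 + ‖net_z η a‖ ^ 2))⁻¹ : ℝ) : ℂ) * (u.1 * net_z η a - u.2) := by
    unfold wd net_f1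
    simp only [Prod.smul_fst, Prod.smul_snd, smul_eq_mul]
    ring
  rw [h1, norm_mul, Complex.norm_real, Real.norm_of_nonneg (inv_nonneg.2 h.le),
    inv_mul_le_iff₀ h, mul_comm r]

private theorem net_w2 (η : ℝ) (a : ℤ × ℤ) (u : ℂ × ℂ) (r : ℝ) :
    ‖wd u (net_f2 η a)‖ ≤ r ↔
      ‖u.2 * net_z η a - u.1‖ ≤ r * Real.sqrt (1 + ‖net_z η a‖ ^ 2) := by
  have h := net_s ‖net_z η a‖
  have h1 : wd u (net_f2 η a) =
      (((Real.sqrt (1 + ‖net_z η a‖ ^ 2))⁻¹ : ℝ) : ℂ) * -(u.2 * net_z η a - u.1) := by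
    unfold wd net_f2
    simp only [Prod.smul_fst, Prod.smul_snd, smul_eq_mul]
    ring
  rw [h1, norm_mul, norm_neg, Complex.norm_real, Real.norm_of_nonneg (inv_nonneg.2 h.le),
    inv_mul_le_iff₀ h, mul_comm r]

private theorem net_mem {η : ℝ} (h0 : 0 < η) (a : ℤ × ℤ) :
    a ∈ net_box η ↔ |η * a.1| ≤ 2 ∧ |η * a.2| ≤ 2 := by
  have key : ∀ k : ℤ, (-⌊2 / η⌋ ≤ k ∧ k ≤ ⌊2 / η⌋) ↔ |η * k| ≤ 2 := by
    intro k
    rw [abs_le, Int.le_floor, le_div_iff₀ h0, neg_le, Int.le_floor, le_div_iff₀ h0]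
    push_cast
    constructor
    · rintro ⟨h1, h2⟩
      constructor
      · linarith
      · linarith
    · rintro ⟨h1, h2⟩
      constructor
      · linarith
      · linarith
  unfold net_box
  rw [mem_product, mem_Icc, mem_Icc, key, key]

private theorem net_norm {η : ℝ} (h0 : 0 < η) {a : ℤ × ℤ} (ha : a ∈ net_box η) :
    ‖net_z η a‖ ^ 2 ≤ 8 := by
  obtain ⟨h1, h2⟩ := (net_mem h0 a).1 ha
  rw [← Complex.normSq_eq_norm_sq, Complex.normSq_apply]
  unfold net_z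
  simp only
  have h3 := abs_le.1 h1
  have h4 := abs_le.1 h2
  nlinarith

private theorem net_line {η c ρ : ℝ} (h0 : 0 < η) (hρ : 0 ≤ ρ) :
    ∃ s : Finset ℤ, (∀ a : ℤ, |η * a - c| ≤ ρ → a ∈ s) ∧ (s.card : ℝ) ≤ 2 * ρ / η + 1 := by
  refine ⟨Icc ⌈(c - ρ) / η⌉ ⌊(c + ρ) / η⌋, ?_, ?_⟩
  · intro a ha
    obtain ⟨h1, h2⟩ := abs_le.1 ha
    rw [mem_Icc, Int.ceil_le, Int.le_floor, div_le_iff₀ h0, le_div_iff₀ h0]
    constructor
    · linarith
    · linarith
  · rw [Int.card_Icc]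
    rcases le_total 0 (⌊(c + ρ) / η⌋ + 1 - ⌈(c - ρ) / η⌉) with h | h
    · have h1 : (((⌊(c + ρ) / η⌋ + 1 - ⌈(c - ρ) / η⌉).toNat : ℤ) : ℝ) =
          ((⌊(c + ρ) / η⌋ + 1 - ⌈(c - ρ) / η⌉ : ℤ) : ℝ) := by
        rw [Int.toNat_of_nonneg h]
      have h2 : (((⌊(c + ρ) / η⌋ + 1 - ⌈(c - ρ) / η⌉).toNat : ℕ) : ℝ) =
          (((⌊(c + ρ) / η⌋ + 1 - ⌈(c - ρ) / η⌉).toNat : ℤ) : ℝ) := by
        rw [Int.cast_natCast]
      rw [h2, h1]
      push_cast
      have h3 := Int.floor_le ((c + ρ) / η)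
      have h4 := Int.le_ceil ((c - ρ) / η)
      have h5 : (c + ρ) / η - (c - ρ) / η = 2 * ρ / η := by
        rw [← sub_div]
        congr 1
        ring
      linarith
    · rw [Int.toNat_of_nonpos h]
      have : 0 ≤ 2 * ρ / η := by positivity
      push_cast
      linarith

private theorem net_disc {η : ℝ} (h0 : 0 < η) (ζ : ℂ) {ρ : ℝ} (hρ : 0 ≤ ρ)
    (B : Finset (ℤ × ℤ)) (hB : ∀ a ∈ B, ‖net_z η a - ζ‖ ≤ ρ) :
    (B.card : ℝ) ≤ (2 * ρ / η + 1) ^ 2 := by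
  obtain ⟨s, hs, hs'⟩ := net_line (c := ζ.re) h0 hρ
  obtain ⟨t, ht, ht'⟩ := net_line (c := ζ.im) h0 hρ
  have h1 : B ⊆ s ×ˢ t := by
    intro a ha
    have h2 := hB a ha
    rw [mem_product]
    constructor
    · refine hs _ ?_
      have h3 := (Complex.abs_re_le_norm (net_z η a - ζ)).trans h2
      simpa [net_z] using h3
    · refine ht _ ?_
      have h3 := (Complex.abs_im_le_norm (net_z η a - ζ)).trans h2
      simpa [net_z] using h3
  have h2 : (B.card : ℝ) ≤ (s.card : ℝ) * t.card := by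
    have := card_le_card h1
    rw [card_product] at this
    exact_mod_cast this
  refine h2.trans ?_
  rw [sq]
  exact mul_le_mul hs' ht' (Nat.cast_nonneg _) (by positivity)

private theorem net_cnt {η : ℝ} (h0 : 0 < η) (h1 : η ≤ 1) {p q : ℂ}
    (hpq : ‖p‖ ^ 2 + ‖q‖ ^ 2 = 1) {r : ℝ} (hr : η ≤ r) :
    (((net_box η).filter fun a => ‖p * net_z η a - q‖ ≤
      r * Real.sqrt (1 + ‖net_z η a‖ ^ 2)).card : ℝ) ≤ 5000 * r ^ 2 / η ^ 2 := by
  have hr0 : 0 < r := by linarith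
  have hrη : 1 ≤ r / η := (one_le_div h0).2 hr
  have hs : ∀ a ∈ net_box η, Real.sqrt (1 + ‖net_z η a‖ ^ 2) ≤ 3 := by
    intro a ha
    have := net_norm h0 ha
    rw [Real.sqrt_le_left (by norm_num)]
    linarith
  have hD : ∀ a ∈ (net_box η).filter fun a => ‖p * net_z η a - q‖ ≤
      r * Real.sqrt (1 + ‖net_z η a‖ ^ 2), ‖p * net_z η a - q‖ ≤ 3 * r := by
    intro a ha
    obtain ⟨h2, h3⟩ := mem_filter.1 ha
    have h4 := mul_le_mul_of_nonneg_left (hs a h2) hr0.le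
    linarith
  have h5 : 5000 * r ^ 2 / η ^ 2 = 5000 * (r / η) ^ 2 := by
    rw [div_pow]
    ring
  rw [h5]
  rcases le_or_gt (1 / 5) ‖p‖ with hp | hp
  · have hp0 : 0 < ‖p‖ := by linarith
    have hpne : p ≠ 0 := norm_pos_iff.1 hp0
    have h2 := net_disc h0 (q / p) (ρ := 15 * r) (by positivity)
      ((net_box η).filter fun a => ‖p * net_z η a - q‖ ≤
        r * Real.sqrt (1 + ‖net_z η a‖ ^ 2)) (by
        intro a ha
        have h3 := hD a ha
        have h4 : p * net_z η a - q = p * (net_z η a - q / p) := by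
          field_simp
        rw [h4, norm_mul] at h3
        have h6 : 1 / 5 * ‖net_z η a - q / p‖ ≤ ‖p‖ * ‖net_z η a - q / p‖ :=
          mul_le_mul_of_nonneg_right hp (norm_nonneg _)
        linarith)
    refine h2.trans ?_
    have h3 : 2 * (15 * r) / η + 1 ≤ 31 * (r / η) := by
      have h4 : 2 * (15 * r) / η = 30 * (r / η) := by ring
      linarith
    have h4 : 0 ≤ 2 * (15 * r) / η + 1 := by positivity
    calc (2 * (15 * r) / η + 1) ^ 2 ≤ (31 * (r / η)) ^ 2 := pow_le_pow_left₀ h4 h3 2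
      _ ≤ 5000 * (r / η) ^ 2 := by nlinarith [sq_nonneg (r / η)]
  · rcases lt_or_ge r (1 / 8) with hr8 | hr8
    · have h2 : ((net_box η).filter fun a => ‖p * net_z η a - q‖ ≤
          r * Real.sqrt (1 + ‖net_z η a‖ ^ 2)) = ∅ := by
        rw [eq_empty_iff_forall_notMem]
        intro a ha
        have h3 := hD a ha
        have h4 := net_norm h0 (mem_filter.1 ha).1
        have h6 : ‖net_z η a‖ ≤ 283 / 100 := by
          have := norm_nonneg (net_z η a)
          nlinarith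
        have h7 : (97 / 100 : ℝ) ≤ ‖q‖ := by
          have h8 := norm_nonneg q
          have h9 := norm_nonneg p
          by_contra hlt
          push Not at hlt
          nlinarith
        have h8 : ‖q‖ ≤ ‖p * net_z η a - q‖ + ‖p * net_z η a‖ := by
          have h9 := norm_sub_le (p * net_z η a) (p * net_z η a - q)
          rw [sub_sub_cancel] at h9
          linarith
        have h9 : ‖p * net_z η a‖ ≤ 1 / 5 * (283 / 100) := by
          rw [norm_mul]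
          exact mul_le_mul hp.le h6 (norm_nonneg _) (by norm_num)
        linarith
      rw [h2, card_empty]
      push_cast
      positivity
    · have h2 := net_disc h0 0 (ρ := 3) (by norm_num) (net_box η) (by
        intro a ha
        have h3 := net_norm h0 ha
        rw [sub_zero]
        have := norm_nonneg (net_z η a)
        nlinarith)
      have h3 : (((net_box η).filter fun a => ‖p * net_z η a - q‖ ≤
          r * Real.sqrt (1 + ‖net_z η a‖ ^ 2)).card : ℝ) ≤ ((net_box η).card : ℝ) := by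
        exact_mod_cast card_filter_le _ _
      refine (h3.trans h2).trans ?_
      have h4 : 1 ≤ 1 / η := (one_le_div h0).2 h1
      have h6 : 2 * 3 / η + 1 ≤ 7 * (1 / η) := by
        have h7 : 2 * 3 / η = 6 * (1 / η) := by ring
        linarith
      have h7 : 1 / η ≤ 8 * (r / η) := by
        have h8 : 8 * (r / η) = (8 * r) / η := by ring
        rw [h8]
        exact div_le_div_of_nonneg_right (by linarith) h0.le
      have h8 : 0 ≤ 2 * 3 / η + 1 := by positivity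
      calc (2 * 3 / η + 1) ^ 2 ≤ (56 * (r / η)) ^ 2 :=
            pow_le_pow_left₀ h8 (by linarith) 2
        _ ≤ 5000 * (r / η) ^ 2 := by nlinarith [sq_nonneg (r / η)]

private theorem net_cov {η : ℝ} (h0 : 0 < η) (h1 : η ≤ 1) {p q : ℂ}
    (hpq : ‖p‖ ^ 2 + ‖q‖ ^ 2 = 1) (hqp : ‖q‖ ≤ ‖p‖) :
    ∃ a ∈ net_box η, ‖p * net_z η a - q‖ ≤ η * Real.sqrt (1 + ‖net_z η a‖ ^ 2) := by
  have hp0 : 0 < ‖p‖ := by
    by_contra hle
    push Not at hle
    have h2 := norm_nonneg p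
    have h3 := norm_nonneg q
    nlinarith
  have hpne : p ≠ 0 := norm_pos_iff.1 hp0
  have hp1 : ‖p‖ ≤ 1 := by
    have := sq_nonneg ‖q‖
    nlinarith
  set ζ : ℂ := q / p with hζ
  have hζ1 : ‖ζ‖ ≤ 1 := by
    rw [hζ, norm_div, div_le_one hp0]
    exact hqp
  have key : ∀ t : ℝ, |t| ≤ 1 → |η * ((round (t / η) : ℤ) : ℝ) - t| ≤ η / 2 ∧
      |η * ((round (t / η) : ℤ) : ℝ)| ≤ 2 := by
    intro t ht
    have h2 := abs_sub_round (t / η)
    have h3 : |η * ((round (t / η) : ℤ) : ℝ) - t| ≤ η / 2 := by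
      have h4 : η * ((round (t / η) : ℤ) : ℝ) - t = -(η * (t / η - round (t / η))) := by
        field_simp
        ring
      rw [h4, abs_neg, abs_mul, abs_of_pos h0]
      calc η * |t / η - round (t / η)| ≤ η * (1 / 2) := mul_le_mul_of_nonneg_left h2 h0.le
        _ = η / 2 := by ring
    refine ⟨h3, ?_⟩
    have h4 := abs_sub_abs_le_abs_sub (η * ((round (t / η) : ℤ) : ℝ)) t
    linarith
  obtain ⟨r1, r2⟩ := key ζ.re ((Complex.abs_re_le_norm ζ).trans hζ1)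
  obtain ⟨i1, i2⟩ := key ζ.im ((Complex.abs_im_le_norm ζ).trans hζ1)
  refine ⟨(round (ζ.re / η), round (ζ.im / η)), (net_mem h0 _).2 ⟨r2, i2⟩, ?_⟩
  set a : ℤ × ℤ := (round (ζ.re / η), round (ζ.im / η)) with ha
  have h2 : ‖net_z η a - ζ‖ ≤ η := by
    refine (Complex.norm_le_abs_re_add_abs_im _).trans ?_
    have h3 : (net_z η a - ζ).re = η * ((round (ζ.re / η) : ℤ) : ℝ) - ζ.re := by
      simp [net_z, ha]
    have h4 : (net_z η a - ζ).im = η * ((round (ζ.im / η) : ℤ) : ℝ) - ζ.im := by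
      simp [net_z, ha]
    rw [h3, h4]
    linarith
  have h4 : p * net_z η a - q = p * (net_z η a - ζ) := by
    rw [hζ]
    field_simp
  rw [h4, norm_mul]
  have h5 : 1 ≤ Real.sqrt (1 + ‖net_z η a‖ ^ 2) := by
    rw [Real.one_le_sqrt]
    have := sq_nonneg ‖net_z η a‖
    linarith
  calc ‖p‖ * ‖net_z η a - ζ‖ ≤ 1 * η := mul_le_mul hp1 h2 (norm_nonneg _) zero_le_one
    _ = η * 1 := by ring
    _ ≤ η * Real.sqrt (1 + ‖net_z η a‖ ^ 2) := mul_le_mul_of_nonneg_left h5 h0.le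

theorem exists_net {η : ℝ} (h0 : 0 < η) (h1 : η ≤ 1) : ∃ N : Finset (ℂ × ℂ), IsNet N η := by
  classical
  refine ⟨(net_box η).image (net_f1 η) ∪ (net_box η).image (net_f2 η), ?_, ?_, ?_⟩
  · intro w hw
    rcases mem_union.1 hw with h | h
    · obtain ⟨a, -, rfl⟩ := mem_image.1 h
      exact net_u1 η a
    · obtain ⟨a, -, rfl⟩ := mem_image.1 h
      exact net_u2 η a
  · intro u hu
    have hu' : ‖u.1‖ ^ 2 + ‖u.2‖ ^ 2 = 1 := hu
    rcases le_total ‖u.2‖ ‖u.1‖ with h | h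
    · obtain ⟨a, ha, ha'⟩ := net_cov h0 h1 hu' h
      exact ⟨net_f1 η a, mem_union_left _ (mem_image_of_mem _ ha), (net_w1 η a u η).2 ha'⟩
    · obtain ⟨a, ha, ha'⟩ := net_cov h0 h1 (p := u.2) (q := u.1) (by linarith) h
      exact ⟨net_f2 η a, mem_union_right _ (mem_image_of_mem _ ha), (net_w2 η a u η).2 ha'⟩
  · intro u hu r hr
    have hu' : ‖u.1‖ ^ 2 + ‖u.2‖ ^ 2 = 1 := hu
    have e1 := net_cnt h0 h1 hu' hr
    have e2 := net_cnt h0 h1 (p := u.2) (q := u.1) (by linarith) hr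
    rw [filter_union, filter_image, filter_image]
    have e3 : (((net_box η).filter fun a => ‖wd u (net_f1 η a)‖ ≤ r).image (net_f1 η) ∪
        ((net_box η).filter fun a => ‖wd u (net_f2 η a)‖ ≤ r).image (net_f2 η)).card ≤
        ((net_box η).filter fun a => ‖wd u (net_f1 η a)‖ ≤ r).card +
        ((net_box η).filter fun a => ‖wd u (net_f2 η a)‖ ≤ r).card :=
      (card_union_le _ _).trans (add_le_add card_image_le card_image_le)
    have e4 : ((net_box η).filter fun a => ‖wd u (net_f1 η a)‖ ≤ r) =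
        (net_box η).filter fun a => ‖u.1 * net_z η a - u.2‖ ≤
          r * Real.sqrt (1 + ‖net_z η a‖ ^ 2) :=
      filter_congr fun a _ => net_w1 η a u r
    have e5 : ((net_box η).filter fun a => ‖wd u (net_f2 η a)‖ ≤ r) =
        (net_box η).filter fun a => ‖u.2 * net_z η a - u.1‖ ≤
          r * Real.sqrt (1 + ‖net_z η a‖ ^ 2) :=
      filter_congr fun a _ => net_w2 η a u r
    have e6 : ((((net_box η).filter fun a => ‖wd u (net_f1 η a)‖ ≤ r).image (net_f1 η) ∪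
        ((net_box η).filter fun a => ‖wd u (net_f2 η a)‖ ≤ r).image (net_f2 η)).card : ℝ) ≤
        (((net_box η).filter fun a => ‖wd u (net_f1 η a)‖ ≤ r).card : ℝ) +
        (((net_box η).filter fun a => ‖wd u (net_f2 η a)‖ ≤ r).card : ℝ) := by
      exact_mod_cast e3
    rw [e4] at e6
    rw [e5] at e6
    rw [e4, e5]
    refine e6.trans ?_
    calc _ ≤ 5000 * r ^ 2 / η ^ 2 + 5000 * r ^ 2 / η ^ 2 := add_le_add e1 e2
      _ = 10000 * r ^ 2 / η ^ 2 := by ring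

end Pool.Agent.H73.ES
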