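import Pool.Agent.H70.SF.Def

/-!
# SMOOTHED FATOU, early stage (piece SF-6, proofs 286): definitions

Points of the sphere are unit vectors `u` of `ℂ × ℂ` (`IsU u`), `pp u` is the orthogonal unit vector, `hm u v` the
hermitian product, `wd u v` the wedge (`‖wd u v‖` = chordal distance for unit vectors), `nn` the euclidean norm.
`rsP p u` is the polynomial `t ↦ hev p (u + t • pp u)`, `jt p u k` its coefficient of `t ^ k`, `jv X u k ∈ ℂ × ℂ` the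
same for the pair `X` (`jv X u 0 = FF X u`). `CN` is the squared Kostlan (Bombieri) norm of one form (`BN2 X = CN X.1 + CN X.2`).
`pt X c 0 = c`, `pt X c (l + 1) = ob X c l` (the orbit of the critical point `c`). The Gaussian law is helper70's
`gau A X0 τ` (H70/SF/GA), `A` the normalizing constant.
-/

set_option autoImplicit false

open Finset MeasureTheory

namespace Pool.Agent.H73.ES

open Pool.H70.SF

/-- euclidean norm -/
noncomputable def nn (u : ℂ × ℂ) : ℝ := Real.sqrt (n2 u)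

/-- orthogonal vector -/
def pp (u : ℂ × ℂ) : ℂ × ℂ := (-(starRingEnd ℂ u.2), starRingEnd ℂ u.1)

/-- hermitian product -/
def hm (u v : ℂ × ℂ) : ℂ := u.1 * starRingEnd ℂ v.1 + u.2 * starRingEnd ℂ v.2

/-- restriction of a form to the line `u + t u'` -/
noncomputable def rsP {d : ℕ} (p : Fin (d + 1) → ℂ) (u : ℂ × ℂ) : Polynomial ℂ :=
  ∑ k : Fin (d + 1), Polynomial.C (p k) *
    (Polynomial.C u.1 + Polynomial.C (pp u).1 * Polynomial.X) ^ (k : ℕ) *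
    (Polynomial.C u.2 + Polynomial.C (pp u).2 * Polynomial.X) ^ (d - k)

/-- jets -/
noncomputable def jt {d : ℕ} (p : Fin (d + 1) → ℂ) (u : ℂ × ℂ) (k : ℕ) : ℂ := (rsP p u).coeff k

/-- jets of the pair -/
noncomputable def jv {d : ℕ} (X : CV d) (u : ℂ × ℂ) (k : ℕ) : ℂ × ℂ := (jt X.1 u k, jt X.2 u k)

/-- squared Kostlan norm of a form -/
noncomputable def CN {d : ℕ} (p : Fin (d + 1) → ℂ) : ℝ :=
  ∑ k : Fin (d + 1), ‖p k‖ ^ 2 / (d.choose k : ℝ)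

/-- the critical point and its orbit -/
noncomputable def pt {d : ℕ} (X : CV d) (c : ℂ × ℂ) : ℕ → ℂ × ℂ
  | 0 => c
  | l + 1 => ob X c l

/-- `1 / d ≤ |F| ≤ R` on the unit sphere -/
def GG {d : ℕ} (R : ℝ) (X : CV d) : Prop :=
  ∀ u, IsU u → (d : ℝ)⁻¹ ≤ nn (FF X u) ∧ nn (FF X u) ≤ R

/-- admissible exponents at the critical point `c` and along its orbit (`θ, hc` at `c`; `be l, h l, b l` at
`ob X c l`, `l ≤ n`): the second derivative orthogonal to `F(c)` is `≤ d ^ (1 - th)`, `|F(c)| ≤ d ^ (-hc)`, the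
derivative orthogonal to `F(y_l)` is `≤ d ^ (1/2 - be l)`, `|F(y_l)| ≤ d ^ (-h l)`, and `y_l` is at distance
`≤ d ^ (- b l)` from an earlier point (an exponent `0` is always admissible) -/
structure Adm {d : ℕ} (X : CV d) (c : ℂ × ℂ) (n : ℕ) (th hc : ℝ) (be h b : ℕ → ℝ) : Prop where
  th0 : 0 ≤ th ∧ th ≤ 1
  hc0 : 0 ≤ hc ∧ hc ≤ 1
  be0 : ∀ l, 0 ≤ be l ∧ be l ≤ 1
  h0 : ∀ l, 0 ≤ h l ∧ h l ≤ 1
  b0 : ∀ l, 0 ≤ b l ∧ b l ≤ 1
  cth : th = 0 ∨ 2 * ‖wd (FF X c) (jv X c 2)‖ ≤ (d : ℝ) ^ (1 - th) * nn (FF X c)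
  chc : hc = 0 ∨ nn (FF X c) ≤ (d : ℝ) ^ (-hc)
  cbe : ∀ l ≤ n, be l = 0 ∨ ‖wd (FF X (ob X c l)) (jv X (ob X c l) 1)‖ ≤
    (d : ℝ) ^ (1 / 2 - be l) * nn (FF X (ob X c l))
  ch : ∀ l ≤ n, h l = 0 ∨ nn (FF X (ob X c l)) ≤ (d : ℝ) ^ (-h l)
  cb : ∀ l ≤ n, b l = 0 ∨ ∃ i ≤ l, ‖wd (ob X c l) (pt X c i)‖ ≤ (d : ℝ) ^ (-b l)

end Pool.Agent.H73.ES
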