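import Pool.Agent.H73.ES.Cau

/-!
# [H73 ES Jl] Jets at two close points

`u, v` unit, `a = hm v u`, `b = wd u v`, `v = a u + b pp u` (`dec`), `‖a‖^2 + ‖b‖^2 = 1`, `pp v = conj a • pp u - conj b • u`. So (`kexp'`)
`hev p (v + t pp v) = ∑ k, jt p u k (a - t conj b)^(d-k) (b + t conj a)^k =: H(a - t conj b, b + t conj a)`,
`H(x, y) = hev p (x u + y pp u)`. `base` is this formula. For `b = 0` replaced in the formula the coefficient of `t^k` is `jt p u k a^(d-k) (conj a)^k`.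
`jl`: for `‖b‖ ≤ 1/(8√d)`, `‖t‖ ≤ 1/(4√d)`: `G(t) - G0(t) = H(a - t conj b, b + t conj a) - H(a, t conj a)` (for the pair `X`) has norm `≤ 100 R √d ‖b‖`: along
`σ ∈ [0,1]`, `(x, y) = (a - σ t conj b, σ b + t conj a)` (`‖x‖ ≥ 3/4`, `‖y/x‖ ≤ 1/(2√d)`, `‖x‖^d ≤ (1 + ‖t b‖)^d ≤ 2`), the derivative is
`- t conj b H_x + b H_y`; `H(x,y) = x^d Φ(y/x)`, `Φ(s) = F(u + s pp u)`, `‖Φ‖ ≤ 2R` on `‖s‖ ≤ 1/√d` (`cau_sup`), so `‖Φ'‖ ≤ 4 R √d` on `‖s‖ ≤ 1/(2√d)` (Cauchy),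
`H_y = x^(d-1) Φ'`, `H_x = d x^(d-1) Φ - y x^(d-2) Φ'`. Then `cau_coeff` on `‖t‖ ≤ 1/(4√d)`: coefficient of `t^k` of `G - G0` is `≤ 100 R √d ‖b‖ (4√d)^k`.
(Avoid derivatives if you like: `Φ(s) - Φ(s') `, `‖x^d - a^d‖` estimates directly.)
`ff_lip`: `k = 0`, both directions (exchange `u` and `v`). `wd_lip` : `‖wd (FF X u) (FF X v)‖ ≤ nn (FF X u) * (10^4 R √d ‖wd u v‖)` since `wd (F u) (a^d F u) = 0`.
`w1_lip` (`k = 1, 2`): with `FF X v = a^d FF X u + e0`, `jv X v k = a^(d-k) (conj a)^k jv X u k + ek`: `wd (FF X v) (jv X v k) = a^(d-k) (conj a)^k (a^d wd (FF X u) (jv X u k) + wd e0 (jv X u k)) + wd (FF X v) ek`, `‖a‖ ≤ 1`, `cau_jet`, `nn (FF X v) ≤ R`: the error is `≤ 3*10^4 R^2 √d^(k+1) ‖wd u v‖`.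
-/

set_option autoImplicit false

open Finset MeasureTheory

namespace Pool.Agent.H73.ES

open Pool.H70.SF

private theorem jl_pp {u : ℂ × ℂ} (hu : IsU u) (v : ℂ × ℂ) :
    pp v = starRingEnd ℂ (hm v u) • pp u - starRingEnd ℂ (wd u v) • u := by
  have h := dec hu v
  obtain ⟨a, ha⟩ : ∃ a, a = hm v u := ⟨_, rfl⟩
  obtain ⟨b, hb⟩ : ∃ b, b = wd u v := ⟨_, rfl⟩
  rw [← ha, ← hb] at h ⊢
  rw [h]
  apply Prod.ext
  · simp only [pp, Prod.fst_sub, Prod.smul_fst, Prod.snd_add, Prod.smul_snd, smul_eq_mul,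
      map_add, map_mul, Complex.conj_conj]
    ring
  · simp only [pp, Prod.snd_sub, Prod.smul_snd, Prod.fst_add, Prod.smul_fst, smul_eq_mul,
      map_add, map_mul, map_neg, Complex.conj_conj]
    ring

private theorem jl_pt {u : ℂ × ℂ} (hu : IsU u) (v : ℂ × ℂ) (t : ℂ) :
    v + t • pp v = (hm v u - t * starRingEnd ℂ (wd u v)) • u +
      (wd u v + t * starRingEnd ℂ (hm v u)) • pp u := by
  rw [jl_pp hu v]
  conv_lhs => rw [dec hu v]
  apply Prod.ext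
  · simp only [Prod.fst_add, Prod.smul_fst, Prod.fst_sub, smul_eq_mul]
    have h1 : hm (hm v u • u + wd u v • pp u) u = hm v u := by rw [← dec hu v]
    have h2 : wd u (hm v u • u + wd u v • pp u) = wd u v := by rw [← dec hu v]
    rw [h1, h2]
    ring
  · simp only [Prod.snd_add, Prod.smul_snd, Prod.snd_sub, smul_eq_mul]
    have h1 : hm (hm v u • u + wd u v • pp u) u = hm v u := by rw [← dec hu v]
    have h2 : wd u (hm v u • u + wd u v • pp u) = wd u v := by rw [← dec hu v]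
    rw [h1, h2]
    ring

theorem base {d : ℕ} (p : Fin (d + 1) → ℂ) {u v : ℂ × ℂ} (hu : IsU u) (hv : IsU v) (t : ℂ) :
    hev p (v + t • pp v) = ∑ k : Fin (d + 1), jt p u k *
      (hm v u - t * starRingEnd ℂ (wd u v)) ^ (d - (k : ℕ)) *
      (wd u v + t * starRingEnd ℂ (hm v u)) ^ (k : ℕ) := by
  rw [jl_pt hu v t]
  exact kexp' p u _ _

private theorem jl_nn0 : nn (0 : ℂ × ℂ) = 0 := by
  simp [nn, n2]

private theorem jl_nn_nonneg (a : ℂ × ℂ) : 0 ≤ nn a := Real.sqrt_nonneg _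

private theorem jl_nn_sum {ι : Type*} (s : Finset ι) (f : ι → ℂ × ℂ) :
    nn (∑ i ∈ s, f i) ≤ ∑ i ∈ s, nn (f i) := by
  classical
  induction s using Finset.induction_on with
  | empty => simp [jl_nn0]
  | insert i s hi ih =>
    rw [Finset.sum_insert hi, Finset.sum_insert hi]
    exact (nn_add _ _).trans (by linarith)

private theorem jl_pow (a b : ℂ) {M : ℝ} (ha : ‖a‖ ≤ M) (hb : ‖b‖ ≤ M) (n : ℕ) :
    ‖a ^ (n + 1) - b ^ (n + 1)‖ ≤ (n + 1) * M ^ n * ‖a - b‖ := by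
  have hM : 0 ≤ M := (norm_nonneg _).trans ha
  induction n with
  | zero => simp
  | succ n ih =>
    have h1 : a ^ (n + 1 + 1) - b ^ (n + 1 + 1) = a ^ (n + 1) * (a - b) +
        (a ^ (n + 1) - b ^ (n + 1)) * b := by ring
    rw [h1]
    have h2 : ‖a ^ (n + 1)‖ ≤ M ^ (n + 1) := by
      rw [norm_pow]
      exact pow_le_pow_left₀ (norm_nonneg _) ha _
    calc ‖a ^ (n + 1) * (a - b) + (a ^ (n + 1) - b ^ (n + 1)) * b‖
        ≤ ‖a ^ (n + 1)‖ * ‖a - b‖ + ‖a ^ (n + 1) - b ^ (n + 1)‖ * ‖b‖ := by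
          refine (norm_add_le _ _).trans ?_
          rw [norm_mul, norm_mul]
      _ ≤ M ^ (n + 1) * ‖a - b‖ + ((n + 1) * M ^ n * ‖a - b‖) * M := by
          gcongr
      _ = ((n + 1 : ℕ) + 1) * M ^ (n + 1) * ‖a - b‖ := by
          push_cast
          ring

private theorem jl_geo (n : ℕ) :
    ∑ k ∈ range n, (k : ℝ) * (1 / 2) ^ k = 2 - 2 * (n + 1) * (1 / 2) ^ n := by
  induction n with
  | zero => simp
  | succ n ih =>
    rw [Finset.sum_range_succ, ih, pow_succ]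
    push_cast
    ring

private theorem jl_phi_lip {d : ℕ} (hd : 2 ≤ d) {X : CV d} {R : ℝ}
    (hR : ∀ u, IsU u → nn (FF X u) ≤ R) {u : ℂ × ℂ} (hu : IsU u) {s s' : ℂ}
    (hs : 2 * Real.sqrt d * ‖s‖ ≤ 1) (hs' : 2 * Real.sqrt d * ‖s'‖ ≤ 1) :
    nn (FF X (u + s • pp u) - FF X (u + s' • pp u)) ≤ 8 * R * Real.sqrt d * ‖s - s'‖ := by
  have hd0 : (0 : ℝ) < d := by exact_mod_cast (by omega : 0 < d)
  have hD : 0 < Real.sqrt d := Real.sqrt_pos.2 hd0
  have hR0 : 0 ≤ R := (jl_nn_nonneg _).trans (hR u hu)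
  have hexp : ∀ (p : Fin (d + 1) → ℂ) (s : ℂ), hev p (u + s • pp u) =
      ∑ k : Fin (d + 1), jt p u k * s ^ (k : ℕ) := by
    intro p s
    have h1 := kexp' p u 1 s
    rw [one_smul] at h1
    rw [h1]
    refine Finset.sum_congr rfl fun k _ => ?_
    rw [one_pow, mul_one]
  have hdiff : FF X (u + s • pp u) - FF X (u + s' • pp u) =
      ∑ k : Fin (d + 1), (s ^ (k : ℕ) - s' ^ (k : ℕ)) • jv X u k := by
    apply Prod.ext
    · simp only [FF, Prod.fst_sub, hexp, jv, Prod.fst_sum, Prod.smul_fst, smul_eq_mul]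
      rw [← Finset.sum_sub_distrib]
      refine Finset.sum_congr rfl fun k _ => ?_
      ring
    · simp only [FF, Prod.snd_sub, hexp, jv, Prod.snd_sum, Prod.smul_snd, smul_eq_mul]
      rw [← Finset.sum_sub_distrib]
      refine Finset.sum_congr rfl fun k _ => ?_
      ring
  rw [hdiff]
  refine (jl_nn_sum _ _).trans ?_
  obtain ⟨r, hr⟩ : ∃ r : ℝ, r = 1 / (2 * Real.sqrt d) := ⟨_, rfl⟩
  have hrD : r * Real.sqrt d = 1 / 2 := by
    rw [hr]
    field_simp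
  have hr0 : 0 < r := by rw [hr]; positivity
  have hsr : ‖s‖ ≤ r := by
    rw [hr, le_div_iff₀ (by positivity)]
    linarith
  have hsr' : ‖s'‖ ≤ r := by
    rw [hr, le_div_iff₀ (by positivity)]
    linarith
  have hterm : ∀ k : ℕ, ‖s ^ k - s' ^ k‖ * nn (jv X u k) ≤
      (4 * R * Real.sqrt d * ‖s - s'‖) * ((k : ℝ) * (1 / 2) ^ k) := by
    intro k
    rcases k with _ | k
    · simp
    · have h1 := jl_pow s s' hsr hsr' k
      have h2 := cau_jet (by omega : 1 ≤ d) hR hu (k + 1)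
      calc ‖s ^ (k + 1) - s' ^ (k + 1)‖ * nn (jv X u (k + 1))
          ≤ ((k + 1) * r ^ k * ‖s - s'‖) * (2 * R * Real.sqrt d ^ (k + 1)) :=
            mul_le_mul h1 h2 (jl_nn_nonneg _) (by positivity)
        _ = (2 * R * Real.sqrt d * ‖s - s'‖) * ((k + 1) * (r * Real.sqrt d) ^ k) := by
            rw [mul_pow, pow_succ]
            ring
        _ = (4 * R * Real.sqrt d * ‖s - s'‖) * (((k + 1 : ℕ) : ℝ) * (1 / 2) ^ (k + 1)) := by
            rw [hrD, pow_succ]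
            push_cast
            ring
  calc ∑ k : Fin (d + 1), nn ((s ^ (k : ℕ) - s' ^ (k : ℕ)) • jv X u k)
      = ∑ k : Fin (d + 1), ‖s ^ (k : ℕ) - s' ^ (k : ℕ)‖ * nn (jv X u k) :=
        Finset.sum_congr rfl fun k _ => nn_smul _ _
    _ ≤ ∑ k : Fin (d + 1), (4 * R * Real.sqrt d * ‖s - s'‖) * (((k : ℕ) : ℝ) * (1 / 2) ^ (k : ℕ)) :=
        Finset.sum_le_sum fun k _ => hterm k
    _ = (4 * R * Real.sqrt d * ‖s - s'‖) * ∑ k ∈ range (d + 1), (k : ℝ) * (1 / 2) ^ k := by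
        rw [← Finset.mul_sum, Fin.sum_univ_eq_sum_range (fun k : ℕ => (k : ℝ) * (1 / 2) ^ k)]
    _ ≤ (4 * R * Real.sqrt d * ‖s - s'‖) * 2 := by
        apply mul_le_mul_of_nonneg_left _ (by positivity)
        rw [jl_geo]
        have : (0 : ℝ) ≤ 2 * (((d + 1 : ℕ) : ℝ) + 1) * (1 / 2) ^ (d + 1) := by positivity
        linarith
    _ = 8 * R * Real.sqrt d * ‖s - s'‖ := by ring

private theorem jl_hom {d : ℕ} (X : CV d) (u : ℂ × ℂ) {x : ℂ} (hx : x ≠ 0) (y : ℂ) :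
    FF X (x • u + y • pp u) = x ^ d • FF X (u + (y / x) • pp u) := by
  have h1 : x • u + y • pp u = x • (u + (y / x) • pp u) := by
    rw [smul_add, smul_smul, mul_div_cancel₀ _ hx]
  rw [h1]
  apply Prod.ext
  · simp only [FF, Prod.smul_fst, smul_eq_mul]
    exact hev_hom _ _ _
  · simp only [FF, Prod.smul_snd, smul_eq_mul]
    exact hev_hom _ _ _

private theorem jl_ab {u v : ℂ × ℂ} (hu : IsU u) (hv : IsU v) :
    ‖hm v u‖ ^ 2 + ‖wd u v‖ ^ 2 = 1 := by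
  have h1 := lag u v
  have h2 : hm v u = starRingEnd ℂ (hm u v) := by
    simp only [hm, map_add, map_mul, Complex.conj_conj]
    ring
  rw [h2, Complex.norm_conj]
  have h3 : n2 u = 1 := hu
  have h4 : n2 v = 1 := hv
  rw [h3, h4] at h1
  linarith

private theorem jl_powd {d : ℕ} (hd : 2 ≤ d) {D τ β : ℝ} (hDD : D * D = d) (hD : 0 < D)
    (hτ : 0 ≤ τ) (hβ : 0 ≤ β) (h1 : 4 * D * τ ≤ 1) (h2 : 8 * D * β ≤ 1) {x a : ℂ}
    (hx : ‖x‖ ≤ 1 + τ * β) (ha : ‖a‖ ≤ 1 + τ * β) (hxa : ‖x - a‖ = τ * β) :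
    ‖x ^ d - a ^ d‖ ≤ D * β / 2 := by
  obtain ⟨n, rfl⟩ : ∃ n, d = n + 1 := ⟨d - 1, by omega⟩
  have hτβ : 0 ≤ τ * β := mul_nonneg hτ hβ
  have e2 : D * τ ≤ 1 / 4 := by linarith
  have e3 : D * β ≤ 1 / 8 := by linarith
  have h3 := jl_pow x a hx ha n
  have h4 : (1 + τ * β) ^ n ≤ 2 := by
    have h5 : (1 + τ * β) ^ n ≤ (1 + τ * β) ^ (n + 1) :=
      pow_le_pow_right₀ (by linarith) (by omega)
    have h6 : (1 + τ * β) ^ (n + 1) ≤ Real.exp (τ * β) ^ (n + 1) := by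
      apply pow_le_pow_left₀ (by linarith)
      have := Real.add_one_le_exp (τ * β)
      linarith
    have h7 : Real.exp (τ * β) ^ (n + 1) = Real.exp (((n + 1 : ℕ) : ℝ) * (τ * β)) := by
      rw [Real.exp_nat_mul]
    have h8 : ((n + 1 : ℕ) : ℝ) * (τ * β) ≤ 1 / 32 := by
      rw [← hDD]
      calc D * D * (τ * β) = (D * τ) * (D * β) := by ring
        _ ≤ 1 / 4 * (1 / 8) := mul_le_mul e2 e3 (by positivity) (by norm_num)
        _ = 1 / 32 := by norm_num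
    have h9 : Real.exp (((n + 1 : ℕ) : ℝ) * (τ * β)) ≤ Real.exp (1 / 2) :=
      Real.exp_le_exp.2 (by linarith)
    have h10 : Real.exp (1 / 2) ≤ 2 := by
      have h5 := Real.exp_one_lt_d9
      have h6 : Real.exp (1 / 2) * Real.exp (1 / 2) = Real.exp 1 := by
        rw [← Real.exp_add]
        norm_num
      nlinarith [Real.exp_pos (1 / 2)]
    rw [h7] at h6
    linarith
  rw [hxa] at h3
  refine h3.trans ?_
  have h8 : ((n : ℝ) + 1) = D * D := by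
    rw [hDD]
    push_cast
    ring
  rw [h8]
  calc D * D * (1 + τ * β) ^ n * (τ * β)
      ≤ D * D * 2 * (τ * β) := by gcongr
    _ = 2 * (D * β) * (D * τ) := by ring
    _ ≤ 2 * (D * β) * (1 / 4) := mul_le_mul_of_nonneg_left e2 (by positivity)
    _ = D * β / 2 := by ring

private theorem jl_sup {d : ℕ} (hd : 2 ≤ d) {X : CV d} {R : ℝ}
    (hR : ∀ u, IsU u → nn (FF X u) ≤ R)
    {u v : ℂ × ℂ} (hu : IsU u) (hv : IsU v) (h : 8 * Real.sqrt d * ‖wd u v‖ ≤ 1) {t : ℂ}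
    (ht : 4 * Real.sqrt d * ‖t‖ ≤ 1) :
    nn (FF X (v + t • pp v) - FF X (hm v u • u + (t * starRingEnd ℂ (hm v u)) • pp u)) ≤
      17 * R * Real.sqrt d * ‖wd u v‖ := by
  have hab := jl_ab hu hv
  rw [jl_pt hu v t]
  obtain ⟨a, ha⟩ : ∃ a, a = hm v u := ⟨_, rfl⟩
  obtain ⟨b, hb⟩ : ∃ b, b = wd u v := ⟨_, rfl⟩
  rw [← ha, ← hb] at hab ⊢
  rw [← hb] at h
  have hd2 : (2 : ℝ) ≤ d := by exact_mod_cast hd
  have hd0 : (0 : ℝ) < d := by linarith
  have hD : 0 < Real.sqrt d := Real.sqrt_pos.2 hd0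
  have hDD : Real.sqrt d * Real.sqrt d = d := Real.mul_self_sqrt hd0.le
  obtain ⟨D, hDdef⟩ : ∃ D, D = Real.sqrt d := ⟨_, rfl⟩
  have hR0 : 0 ≤ R := (jl_nn_nonneg _).trans (hR u hu)
  have hphi := fun {s s' : ℂ} (hs : 2 * Real.sqrt d * ‖s‖ ≤ 1) (hs' : 2 * Real.sqrt d * ‖s'‖ ≤ 1) =>
    jl_phi_lip hd hR hu hs hs'
  rw [← hDdef] at hD hDD h ht ⊢
  have hD14 : 14 / 10 ≤ D := by nlinarith
  have hb0 := norm_nonneg b
  have ht0 := norm_nonneg t
  have ha0 := norm_nonneg a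
  have hbs : ‖b‖ ≤ 9 / 100 := by nlinarith
  have hts : ‖t‖ ≤ 18 / 100 := by nlinarith
  have hb2 : ‖b‖ ^ 2 ≤ 81 / 10000 := by nlinarith
  have ha99 : 99 / 100 ≤ ‖a‖ := by
    by_contra hcon
    push Not at hcon
    nlinarith
  have ha1 : ‖a‖ ≤ 1 := by
    by_contra hcon
    push Not at hcon
    nlinarith
  have htb : ‖t‖ * ‖b‖ ≤ 17 / 1000 := by nlinarith
  -- the points
  set x1 : ℂ := a - t * starRingEnd ℂ b with hx1
  set y1 : ℂ := b + t * starRingEnd ℂ a with hy1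
  have hxd : ‖x1 - a‖ = ‖t‖ * ‖b‖ := by
    have : x1 - a = -(t * starRingEnd ℂ b) := by rw [hx1]; ring
    rw [this, norm_neg, norm_mul, Complex.norm_conj]
  have hx1l : 97 / 100 ≤ ‖x1‖ := by
    have h1 : ‖a‖ ≤ ‖x1‖ + ‖x1 - a‖ := by
      have := norm_sub_norm_le a x1
      rw [norm_sub_rev a x1] at this
      linarith
    linarith
  have hx1u : ‖x1‖ ≤ 1 + ‖t‖ * ‖b‖ := by
    have h1 : ‖x1‖ ≤ ‖a‖ + ‖x1 - a‖ := by
      have := norm_sub_norm_le x1 a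
      linarith
    linarith
  have hx10 : x1 ≠ 0 := by
    intro h0
    rw [h0, norm_zero] at hx1l
    norm_num at hx1l
  have ha00 : a ≠ 0 := by
    intro h0
    rw [h0, norm_zero] at ha99
    norm_num at ha99
  rw [jl_hom X u hx10, jl_hom X u ha00]
  set s1 : ℂ := y1 / x1 with hs1
  set s0 : ℂ := t * starRingEnd ℂ a / a with hs0
  have hs0n : ‖s0‖ = ‖t‖ := by
    rw [hs0, norm_div, norm_mul, Complex.norm_conj]
    field_simp
  have hy1n : ‖y1‖ ≤ ‖b‖ + ‖t‖ := by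
    rw [hy1]
    refine (norm_add_le _ _).trans ?_
    rw [norm_mul, Complex.norm_conj]
    have : ‖t‖ * ‖a‖ ≤ ‖t‖ := mul_le_of_le_one_right ht0 ha1
    linarith
  have hs1n : 2 * D * ‖s1‖ ≤ 1 := by
    rw [hs1, norm_div, ← mul_div_assoc, div_le_one (by linarith)]
    nlinarith
  have hs0n' : 2 * D * ‖s0‖ ≤ 1 := by
    rw [hs0n]
    linarith
  have hsd : ‖s1 - s0‖ ≤ 2 * ‖b‖ := by
    have h1 : s1 - s0 = (a * b + t ^ 2 * (starRingEnd ℂ a * starRingEnd ℂ b)) / (a * x1) := by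
      rw [hs1, hs0, div_sub_div _ _ hx10 ha00, mul_comm x1 a]
      congr 1
      rw [hx1, hy1]
      ring
    rw [h1, norm_div, norm_mul a x1, div_le_iff₀ (by positivity)]
    calc ‖a * b + t ^ 2 * (starRingEnd ℂ a * starRingEnd ℂ b)‖
        ≤ ‖a‖ * ‖b‖ + ‖t‖ ^ 2 * (‖a‖ * ‖b‖) := by
          refine (norm_add_le _ _).trans (le_of_eq ?_)
          rw [norm_mul, norm_mul, norm_pow, norm_mul, Complex.norm_conj, Complex.norm_conj]
      _ = (‖a‖ * ‖b‖) * (1 + ‖t‖ ^ 2) := by ring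
      _ ≤ (‖a‖ * ‖b‖) * (2 * ‖x1‖) := by
          apply mul_le_mul_of_nonneg_left _ (by positivity)
          nlinarith
      _ = 2 * ‖b‖ * (‖a‖ * ‖x1‖) := by ring
  have hΦ1 : nn (FF X (u + s1 • pp u)) ≤ 2 * R := by
    apply cau_sup (by omega) hR hu
    rw [← hDD]
    have h1 : 0 ≤ D * ‖s1‖ := by positivity
    nlinarith
  have hlip : nn (FF X (u + s1 • pp u) - FF X (u + s0 • pp u)) ≤ 8 * R * D * ‖s1 - s0‖ := by
    rw [hDdef]
    exact hphi (by rw [← hDdef]; exact hs1n) (by rw [← hDdef]; exact hs0n')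
  have hpow : ‖x1 ^ d - a ^ d‖ ≤ D * ‖b‖ / 2 :=
    jl_powd hd hDD hD ht0 hb0 ht h hx1u (by linarith [mul_nonneg ht0 hb0]) hxd
  have had : ‖a ^ d‖ ≤ 1 := by
    rw [norm_pow]
    exact pow_le_one₀ ha0 ha1
  have hsplit : x1 ^ d • FF X (u + s1 • pp u) - a ^ d • FF X (u + s0 • pp u) =
      (x1 ^ d - a ^ d) • FF X (u + s1 • pp u) +
      a ^ d • (FF X (u + s1 • pp u) - FF X (u + s0 • pp u)) := by
    rw [sub_smul, smul_sub]
    abel
  rw [hsplit]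
  refine (nn_add _ _).trans ?_
  rw [nn_smul, nn_smul]
  have hl0 := jl_nn_nonneg (FF X (u + s1 • pp u) - FF X (u + s0 • pp u))
  calc ‖x1 ^ d - a ^ d‖ * nn (FF X (u + s1 • pp u)) +
        ‖a ^ d‖ * nn (FF X (u + s1 • pp u) - FF X (u + s0 • pp u))
      ≤ D * ‖b‖ / 2 * (2 * R) + 1 * (8 * R * D * (2 * ‖b‖)) := by
        apply add_le_add
        · exact mul_le_mul hpow hΦ1 (jl_nn_nonneg _) (by positivity)
        · apply mul_le_mul had _ hl0 zero_le_one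
          exact hlip.trans (mul_le_mul_of_nonneg_left hsd (by positivity))
    _ = 17 * R * D * ‖b‖ := by ring

theorem jl {d : ℕ} (hd : 2 ≤ d) {X : CV d} {R : ℝ} (hR : ∀ u, IsU u → nn (FF X u) ≤ R)
    {u v : ℂ × ℂ} (hu : IsU u) (hv : IsU v) (h : 8 * Real.sqrt d * ‖wd u v‖ ≤ 1) {k : ℕ}
    (hk : k ≤ 2) :
    nn (jv X v k - (hm v u ^ (d - k) * starRingEnd ℂ (hm v u) ^ k) • jv X u k) ≤
      10 ^ 4 * R * Real.sqrt d ^ (k + 1) * ‖wd u v‖ := by
  have hd0 : (0 : ℝ) < d := by exact_mod_cast (by omega : 0 < d)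
  have hD : 0 < Real.sqrt d := Real.sqrt_pos.2 hd0
  have hR0 : 0 ≤ R := (jl_nn_nonneg _).trans (hR u hu)
  set a : ℂ := hm v u with ha
  set e : ℂ × ℂ := jv X v k - (a ^ (d - k) * starRingEnd ℂ a ^ k) • jv X u k with he
  rcases eq_or_lt_of_le (jl_nn_nonneg e) with h0 | h0
  · rw [← h0]
    positivity
  -- the unit vector
  set w : ℂ × ℂ := (((nn e)⁻¹ : ℝ) : ℂ) • e with hw
  have hnw : nn w = 1 := by
    rw [hw, nn_smul, Complex.norm_real, Real.norm_eq_abs, abs_of_pos (inv_pos.2 h0)]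
    exact inv_mul_cancel₀ h0.ne'
  -- the polynomial
  let Q : (Fin (d + 1) → ℂ) → Polynomial ℂ := fun p =>
    ∑ j : Fin (d + 1), Polynomial.C (jt p u j * a ^ (d - (j : ℕ)) * starRingEnd ℂ a ^ (j : ℕ)) *
      Polynomial.X ^ (j : ℕ)
  have hQe : ∀ (p : Fin (d + 1) → ℂ) (t : ℂ), (Q p).eval t =
      hev p (a • u + (t * starRingEnd ℂ a) • pp u) := by
    intro p t
    rw [kexp']
    simp only [Q, Polynomial.eval_finsetSum, Polynomial.eval_mul, Polynomial.eval_C,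
      Polynomial.eval_pow, Polynomial.eval_X]
    refine Finset.sum_congr rfl fun j _ => ?_
    rw [mul_pow]
    ring
  have hQc : ∀ p : Fin (d + 1) → ℂ, (Q p).coeff k =
      jt p u k * a ^ (d - k) * starRingEnd ℂ a ^ k := by
    intro p
    simp only [Q, Polynomial.finsetSum_coeff, Polynomial.coeff_C_mul, Polynomial.coeff_X_pow]
    rw [Finset.sum_eq_single (⟨k, by omega⟩ : Fin (d + 1))]
    · simp
    · intro j _ hj
      have : k ≠ (j : ℕ) := fun h => hj (Fin.ext h.symm)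
      rw [if_neg this, mul_zero]
    · intro h
      exact absurd (Finset.mem_univ _) h
  let g : Polynomial ℂ := Polynomial.C (starRingEnd ℂ w.1) * (rsP X.1 v - Q X.1) +
    Polynomial.C (starRingEnd ℂ w.2) * (rsP X.2 v - Q X.2)
  have hge : ∀ t : ℂ, g.eval t = hm (FF X (v + t • pp v) -
      FF X (a • u + (t * starRingEnd ℂ a) • pp u)) w := by
    intro t
    simp only [g, Polynomial.eval_add, Polynomial.eval_mul, Polynomial.eval_C,
      Polynomial.eval_sub, rs_eval, hQe, hm, FF, Prod.fst_sub, Prod.snd_sub]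
    ring
  have hgc : g.coeff k = hm e w := by
    simp only [g, Polynomial.coeff_add, Polynomial.coeff_C_mul, Polynomial.coeff_sub, hQc, hm,
      he, jv, Prod.fst_sub, Prod.snd_sub, Prod.smul_fst, Prod.smul_snd, smul_eq_mul]
    change starRingEnd ℂ w.1 * (jt X.1 v k - _) + starRingEnd ℂ w.2 * (jt X.2 v k - _) = _
    ring
  have hcc := cau_coeff g (ρ := 1 / (4 * Real.sqrt d)) (A := 17 * R * Real.sqrt d * ‖wd u v‖)
    (by positivity) (by
      intro t ht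
      rw [hge]
      refine (hm_le _ _).trans ?_
      rw [hnw, mul_one]
      apply jl_sup hd hR hu hv h
      rw [le_div_iff₀ (by positivity)] at ht
      linarith) k
  rw [hgc] at hcc
  have hhm : hm e w = (nn e : ℂ) := by
    have h1 : hm e w = (((nn e)⁻¹ : ℝ) : ℂ) * ((n2 e : ℝ) : ℂ) := by
      simp only [hm, hw, Prod.smul_fst, Prod.smul_snd, smul_eq_mul, map_mul, Complex.conj_ofReal,
        n2, Complex.ofReal_add, Complex.ofReal_pow]
      have e1 := Complex.mul_conj' e.1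
      have e2 := Complex.mul_conj' e.2
      linear_combination ((((nn e)⁻¹ : ℝ) : ℂ)) * e1 + ((((nn e)⁻¹ : ℝ) : ℂ)) * e2
    have h2 : n2 e = nn e * nn e := by
      unfold nn
      rw [Real.mul_self_sqrt]
      unfold n2
      positivity
    rw [h1, h2, ← Complex.ofReal_mul, ← mul_assoc, inv_mul_cancel₀ h0.ne', one_mul]
  rw [hhm, Complex.norm_real, Real.norm_eq_abs, abs_of_pos h0] at hcc
  refine hcc.trans ?_
  have h3 : 17 * R * Real.sqrt d * ‖wd u v‖ / (1 / (4 * Real.sqrt d)) ^ k =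
      17 * 4 ^ k * (R * Real.sqrt d ^ (k + 1) * ‖wd u v‖) := by
    rw [one_div, inv_pow, div_inv_eq_mul, mul_pow, pow_succ]
    ring
  rw [h3]
  have h4 : (17 : ℝ) * 4 ^ k ≤ 10 ^ 4 := by
    have : (4 : ℝ) ^ k ≤ 4 ^ 2 := pow_le_pow_right₀ (by norm_num) hk
    norm_num at this ⊢
    linarith
  calc 17 * 4 ^ k * (R * Real.sqrt d ^ (k + 1) * ‖wd u v‖)
      ≤ 10 ^ 4 * (R * Real.sqrt d ^ (k + 1) * ‖wd u v‖) :=
        mul_le_mul_of_nonneg_right h4 (by positivity)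
    _ = 10 ^ 4 * R * Real.sqrt d ^ (k + 1) * ‖wd u v‖ := by ring

private theorem jl_a1 {u v : ℂ × ℂ} (hu : IsU u) (hv : IsU v) : ‖hm v u‖ ≤ 1 := by
  have h1 := jl_ab hu hv
  have h2 := norm_nonneg (hm v u)
  have h3 : 0 ≤ ‖wd u v‖ ^ 2 := by positivity
  by_contra hcon
  push Not at hcon
  nlinarith

private theorem jl_zero {d : ℕ} (hd : 2 ≤ d) {X : CV d} {R : ℝ}
    (hR : ∀ u, IsU u → nn (FF X u) ≤ R)
    {u v : ℂ × ℂ} (hu : IsU u) (hv : IsU v) (h : 8 * Real.sqrt d * ‖wd u v‖ ≤ 1) :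
    nn (FF X v - hm v u ^ d • FF X u) ≤ 10 ^ 4 * R * Real.sqrt d * ‖wd u v‖ := by
  have h1 := jl hd hR hu hv h (k := 0) (by norm_num)
  rw [jv_zero, jv_zero, Nat.sub_zero, pow_zero, mul_one, zero_add, pow_one] at h1
  exact h1

theorem ff_lip {d : ℕ} (hd : 2 ≤ d) {X : CV d} {R : ℝ} (hR : ∀ u, IsU u → nn (FF X u) ≤ R)
    {u v : ℂ × ℂ} (hu : IsU u) (hv : IsU v) (h : 8 * Real.sqrt d * ‖wd u v‖ ≤ 1) :
    nn (FF X v) ≤ nn (FF X u) + 10 ^ 4 * R * Real.sqrt d * ‖wd u v‖ := by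
  have h1 := jl_zero hd hR hu hv h
  have h2 : FF X v = hm v u ^ d • FF X u + (FF X v - hm v u ^ d • FF X u) := by abel
  have h3 : nn (FF X v) ≤ nn (hm v u ^ d • FF X u) + nn (FF X v - hm v u ^ d • FF X u) := by
    conv_lhs => rw [h2]
    exact nn_add _ _
  rw [nn_smul, norm_pow] at h3
  have h4 : ‖hm v u‖ ^ d ≤ 1 := pow_le_one₀ (norm_nonneg _) (jl_a1 hu hv)
  have h5 : ‖hm v u‖ ^ d * nn (FF X u) ≤ nn (FF X u) :=
    mul_le_of_le_one_left (jl_nn_nonneg _) h4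
  linarith

theorem wd_lip {d : ℕ} (hd : 2 ≤ d) {X : CV d} {R : ℝ} (hR : ∀ u, IsU u → nn (FF X u) ≤ R)
    {u v : ℂ × ℂ} (hu : IsU u) (hv : IsU v) (h : 8 * Real.sqrt d * ‖wd u v‖ ≤ 1) :
    ‖wd (FF X u) (FF X v)‖ ≤ nn (FF X u) * (10 ^ 4 * R * Real.sqrt d * ‖wd u v‖) := by
  have h1 := jl_zero hd hR hu hv h
  have h2 : wd (FF X u) (FF X v) = wd (FF X u) (FF X v - hm v u ^ d • FF X u) := by
    simp only [wd, Prod.fst_sub, Prod.snd_sub, Prod.smul_fst, Prod.smul_snd, smul_eq_mul]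
    ring
  rw [h2]
  exact (wd_le _ _).trans (mul_le_mul_of_nonneg_left h1 (jl_nn_nonneg _))

theorem w1_lip {d : ℕ} (hd : 2 ≤ d) {X : CV d} {R : ℝ} (hR : ∀ u, IsU u → nn (FF X u) ≤ R)
    {u v : ℂ × ℂ} (hu : IsU u) (hv : IsU v) (h : 8 * Real.sqrt d * ‖wd u v‖ ≤ 1) {k : ℕ}
    (hk : k ≤ 2) :
    ‖wd (FF X v) (jv X v k)‖ ≤ ‖wd (FF X u) (jv X u k)‖ +
      10 ^ 5 * R ^ 2 * Real.sqrt d ^ (k + 1) * ‖wd u v‖ := by
  have hd0 : (0 : ℝ) < d := by exact_mod_cast (by omega : 0 < d)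
  have hD : 0 < Real.sqrt d := Real.sqrt_pos.2 hd0
  have hR0 : 0 ≤ R := (jl_nn_nonneg _).trans (hR u hu)
  have h0 := jl_zero hd hR hu hv h
  have h1 := jl hd hR hu hv h hk
  have ha := jl_a1 hu hv
  set a : ℂ := hm v u with hadef
  set e0 : ℂ × ℂ := FF X v - a ^ d • FF X u with he0
  set c : ℂ := a ^ (d - k) * starRingEnd ℂ a ^ k with hc
  set ek : ℂ × ℂ := jv X v k - c • jv X u k with hek
  have hca : ‖c‖ ≤ 1 := by
    rw [hc, norm_mul, norm_pow, norm_pow, Complex.norm_conj]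
    exact mul_le_one₀ (pow_le_one₀ (norm_nonneg _) ha) (by positivity)
      (pow_le_one₀ (norm_nonneg _) ha)
  have had : ‖a ^ d‖ ≤ 1 := by
    rw [norm_pow]
    exact pow_le_one₀ (norm_nonneg _) ha
  have hsplit : wd (FF X v) (jv X v k) = c * (a ^ d * wd (FF X u) (jv X u k) +
      wd e0 (jv X u k)) + wd (FF X v) ek := by
    simp only [he0, hek, wd, Prod.fst_sub, Prod.snd_sub, Prod.smul_fst, Prod.smul_snd,
      smul_eq_mul]
    ring
  have hj := cau_jet (by omega : 1 ≤ d) hR hu k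
  have hv' := hR v hv
  have hw0 := norm_nonneg (wd (FF X u) (jv X u k))
  rw [hsplit]
  calc ‖c * (a ^ d * wd (FF X u) (jv X u k) + wd e0 (jv X u k)) + wd (FF X v) ek‖
      ≤ ‖c‖ * (‖a ^ d‖ * ‖wd (FF X u) (jv X u k)‖ + ‖wd e0 (jv X u k)‖) + ‖wd (FF X v) ek‖ := by
        refine (norm_add_le _ _).trans (add_le_add_left ?_ _)
        rw [norm_mul]
        apply mul_le_mul_of_nonneg_left _ (norm_nonneg _)
        refine (norm_add_le _ _).trans (le_of_eq ?_)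
        rw [norm_mul]
    _ ≤ 1 * (1 * ‖wd (FF X u) (jv X u k)‖ +
          (10 ^ 4 * R * Real.sqrt d * ‖wd u v‖) * (2 * R * Real.sqrt d ^ k)) +
          R * (10 ^ 4 * R * Real.sqrt d ^ (k + 1) * ‖wd u v‖) := by
        apply add_le_add
        · apply mul_le_mul hca _ (by positivity) zero_le_one
          apply add_le_add
          · exact mul_le_mul_of_nonneg_right had hw0
          · exact (wd_le _ _).trans (mul_le_mul h0 hj (jl_nn_nonneg _) (by positivity))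
        · exact (wd_le _ _).trans (mul_le_mul hv' h1 (jl_nn_nonneg _) hR0)
    _ = ‖wd (FF X u) (jv X u k)‖ + 3 * 10 ^ 4 * (R ^ 2 * Real.sqrt d ^ (k + 1) * ‖wd u v‖) := by
        rw [pow_succ (Real.sqrt d) k]
        ring
    _ ≤ ‖wd (FF X u) (jv X u k)‖ + 10 ^ 5 * (R ^ 2 * Real.sqrt d ^ (k + 1) * ‖wd u v‖) := by
        have h5 : 0 ≤ R ^ 2 * Real.sqrt d ^ (k + 1) * ‖wd u v‖ := by positivity
        linarith
    _ = _ := by ring

end Pool.Agent.H73.ES
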