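import Pool.Agent.H73.ES.Rs

/-!
# [H73 ES Kos] Rotation invariance of the Kostlan norm

`kos`: let `m a : Fin (d+1) → ℂ`, `m a k = binom d k * (conj a.1)^k * (conj a.2)^(d-k)`, so `hev (m a) w = hm w a ^ d` (binomial
theorem). (i) `∑ k, m a k * conj (m b k) / binom d k = hm b a ^ d` (binomial theorem). (ii) The jets of `m a` at `u`:
`hev (m a) (u + t pp u) = (hm u a + t hm (pp u) a)^d`, so `jt (m a) u k = binom d k * hm u a ^ (d-k) * hm (pp u) a ^ k`, and
`∑ k, jt (m a) u k * conj (jt (m b) u k) / binom d k = (hm u a * conj (hm u b) + hm (pp u) a * conj (hm (pp u) b))^d = hm b a ^ d`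
(`u, pp u` is an orthonormal basis of `ℂ²`: direct computation with `n2 u = 1`). (iii) So the two sesquilinear forms
`∑ p k conj (q k) / binom` and `∑ jt p u k conj (jt q u k) / binom` agree on all pairs `m a, m b`; the `m a` span
`Fin (d+1) → ℂ`: a linear functional `∑ c k p k` vanishing on all `m (1, conj x)`... i.e. `∑ c k binom d k x^(d-k) = 0` for all `x`,
so `c = 0` (a polynomial with infinitely many zeros; e.g. `Submodule.span` = ⊤ by `Submodule.exists_dual_map_eq_bot`-type
argument or Vandermonde on `d+1` points). Hence they agree for all `p = q`.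
`kos_surj`: the linear map `p ↦ (jt p u k)_k` is injective by `kos` (`CN p = 0 → p = 0`), hence surjective
(`LinearMap.injective_iff_surjective`).
-/

set_option autoImplicit false

open Finset MeasureTheory

namespace Pool.Agent.H73.ES

open Pool.H70.SF

/-- coherent states -/
private noncomputable def kosm (d : ℕ) (a : ℂ × ℂ) : Fin (d + 1) → ℂ :=
  fun k => (d.choose k : ℂ) * (starRingEnd ℂ a.1) ^ (k : ℕ) * (starRingEnd ℂ a.2) ^ (d - k)

private theorem kosm_hev (d : ℕ) (a w : ℂ × ℂ) : hev (kosm d a) w = hm w a ^ d := by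
  unfold hev kosm hm
  rw [add_pow, Finset.sum_range]
  refine Finset.sum_congr rfl fun k _ => ?_
  rw [mul_pow, mul_pow]
  ring

private theorem kosm_rs (d : ℕ) (a u : ℂ × ℂ) : rsP (kosm d a) u =
    ∑ k : Fin (d + 1), Polynomial.C ((d.choose k : ℂ) * hm u a ^ (d - (k : ℕ)) *
      hm (pp u) a ^ (k : ℕ)) * Polynomial.X ^ (k : ℕ) := by
  refine Polynomial.funext fun t => ?_
  rw [rs_eval, kosm_hev, Polynomial.eval_finsetSum]
  have h1 : hm (u + t • pp u) a = t * hm (pp u) a + hm u a := by
    unfold hm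
    simp only [Prod.fst_add, Prod.snd_add, Prod.smul_fst, Prod.smul_snd, smul_eq_mul]
    ring
  rw [h1, add_pow, Finset.sum_range]
  refine Finset.sum_congr rfl fun k _ => ?_
  rw [Polynomial.eval_mul, Polynomial.eval_C, Polynomial.eval_pow, Polynomial.eval_X, mul_pow]
  ring

private theorem kosm_jt (d : ℕ) (a u : ℂ × ℂ) (k : Fin (d + 1)) : jt (kosm d a) u k =
    (d.choose k : ℂ) * hm u a ^ (d - (k : ℕ)) * hm (pp u) a ^ (k : ℕ) := by
  unfold jt
  rw [kosm_rs, Polynomial.finsetSum_coeff, Finset.sum_eq_single k]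
  · rw [Polynomial.coeff_C_mul, Polynomial.coeff_X_pow_self, mul_one]
  · intro j _ hj
    rw [Polynomial.coeff_C_mul, Polynomial.coeff_X_pow, if_neg, mul_zero]
    intro h
    exact hj (Fin.ext h.symm)
  · intro h
    exact absurd (Finset.mem_univ k) h

private theorem kos_choose {d : ℕ} (k : Fin (d + 1)) : (d.choose k : ℂ) ≠ 0 := by
  have : 0 < d.choose k := Nat.choose_pos (by omega)
  exact_mod_cast this.ne'

private theorem kos_dual {d : ℕ} (D : (Fin (d + 1) → ℂ) →ₗ[ℂ] ℂ) (h : ∀ a, D (kosm d a) = 0) :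
    D = 0 := by
  classical
  set P : Polynomial ℂ := ∑ k : Fin (d + 1), Polynomial.C ((d.choose k : ℂ) *
    D (fun j => if k = j then 1 else 0)) * Polynomial.X ^ (k : ℕ) with hP
  have hP0 : P = 0 := by
    refine Polynomial.funext fun x => ?_
    rw [Polynomial.eval_zero, ← h (starRingEnd ℂ x, 1), LinearMap.pi_apply_eq_sum_univ D, hP,
      Polynomial.eval_finsetSum]
    refine Finset.sum_congr rfl fun k _ => ?_
    rw [Polynomial.eval_mul, Polynomial.eval_C, Polynomial.eval_pow, Polynomial.eval_X, smul_eq_mul]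
    unfold kosm
    simp only [Complex.conj_conj, map_one, one_pow, mul_one]
    ring
  have hk : ∀ k : Fin (d + 1), D (fun j => if k = j then 1 else 0) = 0 := by
    intro k
    have h1 : P.coeff k = (d.choose k : ℂ) * D (fun j => if k = j then 1 else 0) := by
      rw [hP, Polynomial.finsetSum_coeff, Finset.sum_eq_single k]
      · rw [Polynomial.coeff_C_mul, Polynomial.coeff_X_pow_self, mul_one]
      · intro j _ hj
        rw [Polynomial.coeff_C_mul, Polynomial.coeff_X_pow, if_neg, mul_zero]
        intro h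
        exact hj (Fin.ext h.symm)
      · intro h
        exact absurd (Finset.mem_univ k) h
    rw [hP0, Polynomial.coeff_zero] at h1
    exact (mul_eq_zero.1 h1.symm).resolve_left (kos_choose k)
  refine LinearMap.ext fun q => ?_
  rw [LinearMap.pi_apply_eq_sum_univ D, LinearMap.zero_apply]
  exact Finset.sum_eq_zero fun k _ => by rw [hk, smul_zero]

/-- the jets as a linear map -/
private noncomputable def kosJ (d : ℕ) (u : ℂ × ℂ) : (Fin (d + 1) → ℂ) →ₗ[ℂ] (Fin (d + 1) → ℂ) where
  toFun p := fun k => jt p u k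
  map_add' p q := by
    funext k
    exact jt_add p q u k
  map_smul' c p := by
    funext k
    exact jt_smul c p u k

theorem kos {d : ℕ} (p : Fin (d + 1) → ℂ) {u : ℂ × ℂ} (hu : IsU u) :
    ∑ k : Fin (d + 1), ‖jt p u k‖ ^ 2 / (d.choose k : ℝ) = CN p := by
  classical
  set D : (Fin (d + 1) → ℂ) →ₗ[ℂ] ℂ :=
    (∑ k : Fin (d + 1), (starRingEnd ℂ (jt p u k) / (d.choose k : ℂ)) •
      ((LinearMap.proj k : (Fin (d + 1) → ℂ) →ₗ[ℂ] ℂ) ∘ₗ kosJ d u)) -
    ∑ k : Fin (d + 1), (starRingEnd ℂ (p k) / (d.choose k : ℂ)) •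
      (LinearMap.proj k : (Fin (d + 1) → ℂ) →ₗ[ℂ] ℂ) with hD
  have hDq : ∀ q, D q = (∑ k : Fin (d + 1), starRingEnd ℂ (jt p u k) / (d.choose k : ℂ) * jt q u k) -
      ∑ k : Fin (d + 1), starRingEnd ℂ (p k) / (d.choose k : ℂ) * q k := by
    intro q
    rw [hD, LinearMap.sub_apply, LinearMap.sum_apply, LinearMap.sum_apply]
    rfl
  have h0 : D = 0 := by
    refine kos_dual D fun a => ?_
    have h1 : ∑ k : Fin (d + 1), starRingEnd ℂ (jt p u k) / (d.choose k : ℂ) * jt (kosm d a) u k =
        starRingEnd ℂ (hev p a) := by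
      rw [kexp p hu a, map_sum]
      refine Finset.sum_congr rfl fun k _ => ?_
      rw [kosm_jt, map_mul, map_mul, map_pow, map_pow]
      have e1 : starRingEnd ℂ (hm a u) = hm u a := by
        unfold hm
        simp only [map_add, map_mul, Complex.conj_conj]
        ring
      have e2 : starRingEnd ℂ (wd u a) = hm (pp u) a := by
        unfold hm wd pp
        simp only [map_sub, map_mul]
        ring
      rw [e1, e2]
      have := kos_choose k
      field_simp
    have h2 : ∑ k : Fin (d + 1), starRingEnd ℂ (p k) / (d.choose k : ℂ) * kosm d a k =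
        starRingEnd ℂ (hev p a) := by
      unfold hev kosm
      rw [map_sum]
      refine Finset.sum_congr rfl fun k _ => ?_
      rw [map_mul, map_mul, map_pow, map_pow]
      have := kos_choose k
      field_simp
    rw [hDq, h1, h2, sub_self]
  have h1 := hDq p
  rw [h0, LinearMap.zero_apply] at h1
  have h2 : (∑ k : Fin (d + 1), starRingEnd ℂ (jt p u k) / (d.choose k : ℂ) * jt p u k) =
      ((∑ k : Fin (d + 1), ‖jt p u k‖ ^ 2 / (d.choose k : ℝ) : ℝ) : ℂ) := by
    push_cast
    refine Finset.sum_congr rfl fun k _ => ?_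
    rw [div_mul_eq_mul_div, ← Complex.normSq_eq_conj_mul_self, Complex.normSq_eq_norm_sq]
    push_cast
    rfl
  have h3 : (∑ k : Fin (d + 1), starRingEnd ℂ (p k) / (d.choose k : ℂ) * p k) = ((CN p : ℝ) : ℂ) := by
    unfold CN
    push_cast
    refine Finset.sum_congr rfl fun k _ => ?_
    rw [div_mul_eq_mul_div, ← Complex.normSq_eq_conj_mul_self, Complex.normSq_eq_norm_sq]
    push_cast
    rfl
  rw [h2, h3] at h1
  have h4 := sub_eq_zero.1 h1.symm
  exact_mod_cast h4

theorem kos_surj {d : ℕ} {u : ℂ × ℂ} (hu : IsU u) (c : Fin (d + 1) → ℂ) :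
    ∃ p : Fin (d + 1) → ℂ, ∀ k : Fin (d + 1), jt p u k = c k := by
  have hinj : Function.Injective (kosJ d u) := by
    rw [← LinearMap.ker_eq_bot, LinearMap.ker_eq_bot']
    intro p hp
    have h1 : ∀ k : Fin (d + 1), jt p u k = 0 := fun k => congrFun hp k
    have h2 := kos p hu
    simp only [h1, norm_zero, ne_eq, OfNat.ofNat_ne_zero, not_false_eq_true, zero_pow, zero_div,
      Finset.sum_const_zero] at h2
    unfold CN at h2
    have h3 := (Finset.sum_eq_zero_iff_of_nonneg (fun k _ => by positivity)).1 h2.symm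
    funext k
    have h4 := h3 k (Finset.mem_univ k)
    have h5 : (0 : ℝ) < (d.choose k : ℝ) := by
      exact_mod_cast Nat.choose_pos (by omega)
    have h6 : ‖p k‖ ^ 2 = 0 := by
      rcases div_eq_zero_iff.1 h4 with h | h
      · exact h
      · exact absurd h h5.ne'
    simpa using h6
  obtain ⟨p, hp⟩ := (LinearMap.injective_iff_surjective.1 hinj) c
  exact ⟨p, fun k => congrFun hp k⟩

end Pool.Agent.H73.ES
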