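import Pool.Agent.H26.SF.Gau
import Pool.Agent.H73.ES.Net
import Pool.Agent.H73.ES.Kos
import Pool.Agent.H73.ES.Jl

/-!
# [H73 ES Infb] Lower bound for `|F|`

For a unit vector `w` let `λ` be the form with jets `(1, 0, 0, …)` at `w` (`kos_surj`), `CN λ = 1` (`kos`), `hev λ w = 1`. `Pool.H26.SF.sb1_gau` twice (`f = (λ, 0)`, `l X = hev X.1 w`, `S = univ`; then `f = (0, λ)`, `l X = hev X.2 w`,
`S = {‖hev X.1 w‖ ≤ r}`): `gau {‖hev X.1 w‖ ≤ r ∧ ‖hev X.2 w‖ ≤ r} ≤ r^4 / τ^4`. Take `r = 2/d` and a net of mesh `η = 1/(2*10^4 R d √d)` (`IsNet.cnt` with `r = 1`: `≤ 4*10^12 R^2 d^3` points):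
if `nn (FF X u) ≤ 1/d` at some `u`, then at the net point `w`, `‖wd u w‖ ≤ η` (`8 √d η ≤ 1`), `nn (FF X w) ≤ 1/d + 10^4 R √d η ≤ 2/d` (`ff_lip`). Total `≤ C R^2 d^3 (2/d)^4 / τ^4 = C' R^2 / (d τ^4)`.
-/

set_option autoImplicit false

open Finset MeasureTheory

namespace Pool.Agent.H73.ES

open Pool.H70.SF

private theorem infb_lam {d : ℕ} {w : ℂ × ℂ} (hw : IsU w) :
    ∃ p : Fin (d + 1) → ℂ, CN p = 1 ∧ hev p w = 1 := by
  obtain ⟨p, hp⟩ := kos_surj (d := d) hw (fun k => if (k : ℕ) = 0 then 1 else 0)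
  refine ⟨p, ?_, ?_⟩
  · rw [← kos p hw, Finset.sum_eq_single (0 : Fin (d + 1))]
    · have h0 := hp 0
      simp only [Fin.val_zero, if_true] at h0
      simp [h0]
    · intro k _ hk
      have h1 : (k : ℕ) ≠ 0 := fun h => hk (Fin.ext h)
      rw [hp k, if_neg h1]
      simp
    · intro h
      exact absurd (Finset.mem_univ _) h
  · rw [← jt_zero]
    have h0 := hp 0
    simpa using h0

private theorem infb_hev_add {d : ℕ} (p q : Fin (d + 1) → ℂ) (t : ℂ) (w : ℂ × ℂ) :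
    hev (p + t • q) w = hev p w + t * hev q w := by
  unfold hev
  rw [Finset.mul_sum, ← Finset.sum_add_distrib]
  apply Finset.sum_congr rfl
  intro k _
  simp only [Pi.add_apply, Pi.smul_apply, smul_eq_mul]
  ring

private theorem infb_cont1 {d : ℕ} (w : ℂ × ℂ) : Continuous fun X : CV d => hev X.1 w := by
  unfold hev
  fun_prop

private theorem infb_cont2 {d : ℕ} (w : ℂ × ℂ) : Continuous fun X : CV d => hev X.2 w := by
  unfold hev
  fun_prop

private theorem infb_pt {d : ℕ} {A : ℝ} {X0 : CV d} {τ : ℝ} (hA : 0 ≤ A) (ht : 0 < τ)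
    (h1 : gau A X0 τ Set.univ ≤ 1) {w : ℂ × ℂ} (hw : IsU w) {r : ℝ} (hr : 0 ≤ r) :
    gau A X0 τ {X | ‖hev X.1 w‖ ≤ r ∧ ‖hev X.2 w‖ ≤ r} ≤ ENNReal.ofReal (r ^ 4 / τ ^ 4) := by
  obtain ⟨p, hp1, hp2⟩ := infb_lam (d := d) hw
  have b1 : BN2 ((p, 0) : CV d) = 1 := by
    rw [← hp1]
    unfold BN2 CN
    simp
  have b2 : BN2 ((0, p) : CV d) = 1 := by
    rw [← hp1]
    unfold BN2 CN
    simp
  have g1 : gau A X0 τ {X | ‖hev X.1 w‖ ≤ r} ≤ ENNReal.ofReal (r ^ 2 / τ ^ 2) := by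
    have h2 := Pool.H26.SF.sb1_gau hA ht X0 ((p, 0) : CV d) (by rw [b1]; norm_num)
      (fun X => hev X.1 w) (infb_cont1 w).measurable
      (by
        intro X t
        have : (X + t • ((p, 0) : CV d)).1 = X.1 + t • p := rfl
        simp only [this, infb_hev_add, hp2, mul_one]) Set.univ MeasurableSet.univ
      (fun _ _ _ => Set.mem_univ _) hr
    rw [Set.univ_inter, b1, mul_one] at h2
    refine h2.trans ?_
    calc ENNReal.ofReal (r ^ 2 / τ ^ 2) * gau A X0 τ Set.univ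
        ≤ ENNReal.ofReal (r ^ 2 / τ ^ 2) * 1 := by gcongr
      _ = _ := mul_one _
  have hE : MeasurableSet {X : CV d | ‖hev X.1 w‖ ≤ r} :=
    (isClosed_le (infb_cont1 w).norm continuous_const).measurableSet
  have h3 := Pool.H26.SF.sb1_gau hA ht X0 ((0, p) : CV d) (by rw [b2]; norm_num)
    (fun X => hev X.2 w) (infb_cont2 w).measurable
    (by
      intro X t
      have : (X + t • ((0, p) : CV d)).2 = X.2 + t • p := rfl
      simp only [this, infb_hev_add, hp2, mul_one]) {X : CV d | ‖hev X.1 w‖ ≤ r} hE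
    (by
      intro X t hX
      have : (X + t • ((0, p) : CV d)).1 = X.1 + t • (0 : Fin (d + 1) → ℂ) := rfl
      simp only [Set.mem_ofPred_eq] at hX ⊢
      rw [this, smul_zero, add_zero]
      exact hX) hr
  rw [b2, mul_one] at h3
  refine h3.trans ?_
  calc ENNReal.ofReal (r ^ 2 / τ ^ 2) * gau A X0 τ {X | ‖hev X.1 w‖ ≤ r}
      ≤ ENNReal.ofReal (r ^ 2 / τ ^ 2) * ENNReal.ofReal (r ^ 2 / τ ^ 2) := by gcongr
    _ = ENNReal.ofReal (r ^ 4 / τ ^ 4) := by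
        rw [← ENNReal.ofReal_mul (by positivity)]
        congr 1
        ring

theorem infb : ∃ C : ℝ, 0 ≤ C ∧ ∀ d : ℕ, 2 ≤ d → ∀ (A : ℝ) (X0 : CV d) (τ : ℝ), 0 ≤ A → 0 < τ →
    τ ≤ 1 → gau A X0 τ Set.univ ≤ 1 → ∀ R : ℝ, 1 ≤ R →
      gau A X0 τ {X | (∀ u, IsU u → nn (FF X u) ≤ R) ∧ ∃ u, IsU u ∧ nn (FF X u) ≤ (d : ℝ)⁻¹} ≤
        ENNReal.ofReal (C * R ^ 2 / (d * τ ^ 4)) := by
  refine ⟨64 * 10 ^ 12, by norm_num, ?_⟩
  intro d hd A X0 τ hA ht _ h1 R hR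
  have hd' : (2 : ℝ) ≤ d := by exact_mod_cast hd
  have hd0 : (0 : ℝ) < d := by linarith
  have hR0 : 0 < R := by linarith
  have hs : 0 < Real.sqrt d := Real.sqrt_pos.2 hd0
  have hs1 : 1 ≤ Real.sqrt d := by
    rw [Real.one_le_sqrt]
    linarith
  have hss : Real.sqrt d ^ 2 = d := Real.sq_sqrt hd0.le
  set η : ℝ := 1 / (2 * 10 ^ 4 * R * d * Real.sqrt d) with hη
  have hη0 : 0 < η := by positivity
  have hden : 1 ≤ 2 * 10 ^ 4 * R * d * Real.sqrt d := by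
    have h2 : 1 ≤ R * d := by nlinarith
    have h3 : 1 ≤ R * d * Real.sqrt d := by nlinarith
    nlinarith
  have hη1 : η ≤ 1 := by
    rw [hη, div_le_one (by positivity)]
    exact hden
  obtain ⟨N, hN⟩ := exists_net hη0 hη1
  -- the number of points
  have hcard : (N.card : ℝ) ≤ 4 * 10 ^ 12 * R ^ 2 * d ^ 3 := by
    have hu : IsU ((1, 0) : ℂ × ℂ) := by
      simp [IsU, n2]
    have h2 := hN.cnt (1, 0) hu 1 hη1
    have h3 : N.filter (fun w => ‖wd (1, 0) w‖ ≤ 1) = N := by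
      apply Finset.filter_true_of_mem
      intro w hw
      have h4 := wd_le (1, 0) w
      have h5 : nn ((1, 0) : ℂ × ℂ) = 1 := by
        unfold nn
        rw [show n2 ((1, 0) : ℂ × ℂ) = 1 from hu, Real.sqrt_one]
      have h6 : nn w = 1 := by
        unfold nn
        rw [show n2 w = 1 from hN.unit w hw, Real.sqrt_one]
      rw [h5, h6, mul_one] at h4
      exact h4
    rw [h3] at h2
    refine h2.trans (le_of_eq ?_)
    rw [hη]
    have h7 : (2 * 10 ^ 4 * R * d * Real.sqrt d) ^ 2 = 4 * 10 ^ 8 * R ^ 2 * d ^ 2 * d := by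
      calc (2 * 10 ^ 4 * R * d * Real.sqrt d) ^ 2
          = 4 * 10 ^ 8 * R ^ 2 * d ^ 2 * Real.sqrt d ^ 2 := by ring
        _ = _ := by rw [hss]
    rw [div_pow, h7]
    field_simp
    ring
  -- the covering
  have hcov : {X : CV d | (∀ u, IsU u → nn (FF X u) ≤ R) ∧ ∃ u, IsU u ∧
      nn (FF X u) ≤ (d : ℝ)⁻¹} ⊆
      ⋃ w ∈ N, {X : CV d | ‖hev X.1 w‖ ≤ 2 / d ∧ ‖hev X.2 w‖ ≤ 2 / d} := by
    rintro X ⟨hX, u, hu, hXu⟩
    obtain ⟨w, hw, huw⟩ := hN.cov u hu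
    have hwu := hN.unit w hw
    have hsm : 8 * Real.sqrt d * ‖wd u w‖ ≤ 1 := by
      calc 8 * Real.sqrt d * ‖wd u w‖ ≤ 8 * Real.sqrt d * η :=
            mul_le_mul_of_nonneg_left huw (by positivity)
        _ = 4 / (10 ^ 4 * (R * d)) := by
            rw [hη]
            field_simp
            norm_num
        _ ≤ 1 := by
            rw [div_le_one (by positivity)]
            nlinarith
    have h2 := ff_lip hd hX hu hwu hsm
    have h3 : 10 ^ 4 * R * Real.sqrt d * ‖wd u w‖ ≤ (d : ℝ)⁻¹ := by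
      calc 10 ^ 4 * R * Real.sqrt d * ‖wd u w‖ ≤ 10 ^ 4 * R * Real.sqrt d * η :=
            mul_le_mul_of_nonneg_left huw (by positivity)
        _ = (1 / 2) * (d : ℝ)⁻¹ := by
            rw [hη]
            field_simp
        _ ≤ (d : ℝ)⁻¹ := by
            have : 0 < (d : ℝ)⁻¹ := by positivity
            linarith
    have h4 : nn (FF X w) ≤ 2 / d := by
      have : (2 : ℝ) / d = (d : ℝ)⁻¹ + (d : ℝ)⁻¹ := by
        rw [div_eq_mul_inv]
        ring
      linarith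
    have h5 : ‖hev X.1 w‖ ≤ nn (FF X w) := by
      unfold nn n2
      apply Real.le_sqrt_of_sq_le
      have : 0 ≤ ‖(FF X w).2‖ ^ 2 := by positivity
      have h6 : (FF X w).1 = hev X.1 w := rfl
      rw [h6]
      linarith
    have h6 : ‖hev X.2 w‖ ≤ nn (FF X w) := by
      unfold nn n2
      apply Real.le_sqrt_of_sq_le
      have : 0 ≤ ‖(FF X w).1‖ ^ 2 := by positivity
      have h6 : (FF X w).2 = hev X.2 w := rfl
      rw [h6]
      linarith
    rw [Set.mem_iUnion₂]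
    exact ⟨w, hw, h5.trans h4, h6.trans h4⟩
  refine (measure_mono hcov).trans ?_
  refine (measure_biUnion_finset_le _ _).trans ?_
  have h2 : ∀ w ∈ N, gau A X0 τ {X : CV d | ‖hev X.1 w‖ ≤ 2 / d ∧ ‖hev X.2 w‖ ≤ 2 / d} ≤
      ENNReal.ofReal ((2 / d) ^ 4 / τ ^ 4) := fun w hw =>
    infb_pt hA ht h1 (hN.unit w hw) (by positivity)
  refine (Finset.sum_le_sum h2).trans ?_
  rw [Finset.sum_const, nsmul_eq_mul, ← ENNReal.ofReal_natCast, ← ENNReal.ofReal_mul (by positivity)]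
  apply ENNReal.ofReal_le_ofReal
  calc (N.card : ℝ) * ((2 / d) ^ 4 / τ ^ 4)
      ≤ (4 * 10 ^ 12 * R ^ 2 * d ^ 3) * ((2 / d) ^ 4 / τ ^ 4) :=
        mul_le_mul_of_nonneg_right hcard (by positivity)
    _ = 64 * 10 ^ 12 * R ^ 2 / (d * τ ^ 4) := by
        field_simp
        norm_num

end Pool.Agent.H73.ES
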