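import Pool.Agent.H73.ES.Defs

/-!
# [H73 ES Rs] Jets of forms: elementary facts

`rs_eval`: `Polynomial.eval_finset_sum`. `jt` is linear in `p` (the polynomial is). `jt_zero`: evaluate at `0`.
`rs_deg`: each factor is a polynomial of degree `≤ 1`. `hev_hom`: `hev p (c w) = c ^ d hev p w`.
`kexp`: for a unit vector `u`, `w = hm w u • u + wd u w • pp u` (`hm w u = w1 conj u1 + w2 conj u2`, `wd u w = u1 w2 - u2 w1`);
and for all `a b`: `hev p (a • u + b • pp u) = ∑ k, jt p u k * a ^ (d - k) * b ^ k`: both sides are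
homogeneous: for `a ≠ 0` it is `a ^ d * (rsP p u).eval (b / a)` (`rs_eval`, `hev_hom`, `rs_deg`, `Polynomial.eval_eq_sum_range'`);
for `a = 0` use that both sides are continuous in `a` (or polynomials in `a`). `jt_cont`: `jt p u k` is a finite sum of
`p j * (coefficient of a fixed polynomial)`. `jt_smul_pt`: `pp (φ u) = conj φ • pp u`, so for `‖φ‖ = 1`: `rsP p (φ • u)` at `t` is
`hev p (φ (u + conj φ ^ 2 t pp u)) = φ ^ d (rsP p u)(conj φ ^ 2 t)`; compare coefficients (`Polynomial.funext` /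
`Polynomial.comp_C_mul_X_coeff`).
`hrel` (Euler): `d * wd (FF X u) (jv X u 1) = JJ X u` for unit `u`: `jt p u 1 = hev1 p u * (pp u).1 + hev2 p u * (pp u).2`,
`d * hev p u = u.1 * hev1 p u + u.2 * hev2 p u`, and `wd u (pp u) = 1`; then `ring`. So `‖aa X u‖ = ‖wd (FF X u) (jv X u 1)‖ / n2 (FF X u)`.
-/

set_option autoImplicit false

open Finset MeasureTheory

namespace Pool.Agent.H73.ES

open Pool.H70.SF

theorem rs_eval {d : ℕ} (p : Fin (d + 1) → ℂ) (u : ℂ × ℂ) (t : ℂ) :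
    (rsP p u).eval t = hev p (u + t • pp u) := by
  unfold rsP hev
  rw [Polynomial.eval_finset_sum]
  refine Finset.sum_congr rfl (fun k _ => ?_)
  simp only [Polynomial.eval_mul, Polynomial.eval_pow, Polynomial.eval_add, Polynomial.eval_C,
    Polynomial.eval_X, Prod.fst_add, Prod.snd_add, Prod.smul_fst, Prod.smul_snd, smul_eq_mul]
  rw [mul_comm (pp u).1 t, mul_comm (pp u).2 t]

theorem rs_deg {d : ℕ} (p : Fin (d + 1) → ℂ) (u : ℂ × ℂ) : (rsP p u).natDegree ≤ d := by
  unfold rsP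
  refine Polynomial.natDegree_sum_le_of_forall_le _ _ (fun k _ => ?_)
  have h1 : ∀ a b : ℂ, (Polynomial.C a + Polynomial.C b * Polynomial.X).natDegree ≤ 1 := by
    intro a b
    rw [add_comm]
    exact Polynomial.natDegree_linear_le
  have hk : (k : ℕ) ≤ d := Nat.lt_succ_iff.mp k.2
  calc (Polynomial.C (p k) * (Polynomial.C u.1 + Polynomial.C (pp u).1 * Polynomial.X) ^ (k : ℕ) *
        (Polynomial.C u.2 + Polynomial.C (pp u).2 * Polynomial.X) ^ (d - (k : ℕ))).natDegree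
      ≤ (Polynomial.C (p k) *
          (Polynomial.C u.1 + Polynomial.C (pp u).1 * Polynomial.X) ^ (k : ℕ)).natDegree +
        ((Polynomial.C u.2 + Polynomial.C (pp u).2 * Polynomial.X) ^ (d - (k : ℕ))).natDegree :=
        Polynomial.natDegree_mul_le
    _ ≤ (k : ℕ) * 1 + (d - (k : ℕ)) * 1 := by
        gcongr
        · refine (Polynomial.natDegree_C_mul_le _ _).trans ?_
          exact Polynomial.natDegree_pow_le_of_le _ (h1 _ _)
        · exact Polynomial.natDegree_pow_le_of_le _ (h1 _ _)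
    _ = d := by omega

theorem jt_zero {d : ℕ} (p : Fin (d + 1) → ℂ) (u : ℂ × ℂ) : jt p u 0 = hev p u := by
  unfold jt
  rw [Polynomial.coeff_zero_eq_eval_zero, rs_eval, zero_smul, add_zero]

theorem jv_zero {d : ℕ} (X : CV d) (u : ℂ × ℂ) : jv X u 0 = FF X u := by
  unfold jv FF
  rw [jt_zero, jt_zero]

private lemma rs_coeff {d : ℕ} (p : Fin (d + 1) → ℂ) (u : ℂ × ℂ) (k : ℕ) :
    jt p u k = ∑ j : Fin (d + 1), p j *
      ((Polynomial.C u.1 + Polynomial.C (pp u).1 * Polynomial.X) ^ (j : ℕ) *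
        (Polynomial.C u.2 + Polynomial.C (pp u).2 * Polynomial.X) ^ (d - (j : ℕ))).coeff k := by
  unfold jt rsP
  rw [Polynomial.finset_sum_coeff]
  refine Finset.sum_congr rfl (fun j _ => ?_)
  rw [mul_assoc, Polynomial.coeff_C_mul]

theorem jt_add {d : ℕ} (p q : Fin (d + 1) → ℂ) (u : ℂ × ℂ) (k : ℕ) :
    jt (p + q) u k = jt p u k + jt q u k := by
  rw [rs_coeff, rs_coeff, rs_coeff, ← Finset.sum_add_distrib]
  refine Finset.sum_congr rfl (fun j _ => ?_)
  rw [Pi.add_apply, add_mul]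

theorem jt_smul {d : ℕ} (c : ℂ) (p : Fin (d + 1) → ℂ) (u : ℂ × ℂ) (k : ℕ) :
    jt (c • p) u k = c * jt p u k := by
  rw [rs_coeff, rs_coeff, Finset.mul_sum]
  refine Finset.sum_congr rfl (fun j _ => ?_)
  rw [Pi.smul_apply, smul_eq_mul, mul_assoc]

theorem jt_cont {d : ℕ} (u : ℂ × ℂ) (k : ℕ) :
    Continuous fun p : Fin (d + 1) → ℂ => jt p u k := by
  simp only [rs_coeff]
  refine continuous_finset_sum _ (fun j _ => ?_)
  exact (continuous_apply j).mul continuous_const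

theorem hev_hom {d : ℕ} (p : Fin (d + 1) → ℂ) (c : ℂ) (w : ℂ × ℂ) :
    hev p (c • w) = c ^ d * hev p w := by
  unfold hev
  rw [Finset.mul_sum]
  refine Finset.sum_congr rfl (fun k _ => ?_)
  have hk : (k : ℕ) ≤ d := Nat.lt_succ_iff.mp k.2
  have hd : c ^ d = c ^ (k : ℕ) * c ^ (d - (k : ℕ)) := by
    rw [← pow_add]; congr 1; omega
  simp only [Prod.smul_fst, Prod.smul_snd, smul_eq_mul]
  rw [mul_pow, mul_pow, hd]
  ring

private lemma unit_eq {u : ℂ × ℂ} (hu : IsU u) :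
    u.1 * starRingEnd ℂ u.1 + u.2 * starRingEnd ℂ u.2 = 1 := by
  have h : ‖u.1‖ ^ 2 + ‖u.2‖ ^ 2 = 1 := hu
  rw [Complex.mul_conj, Complex.mul_conj, Complex.normSq_eq_norm_sq, Complex.normSq_eq_norm_sq,
    ← Complex.ofReal_add, h, Complex.ofReal_one]

theorem dec {u : ℂ × ℂ} (hu : IsU u) (w : ℂ × ℂ) : w = hm w u • u + wd u w • pp u := by
  have h := unit_eq hu
  ext
  · simp only [hm, wd, pp, Prod.fst_add, Prod.smul_fst, smul_eq_mul]
    linear_combination (-w.1) * h
  · simp only [hm, wd, pp, Prod.snd_add, Prod.smul_snd, smul_eq_mul]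
    linear_combination (-w.2) * h

private lemma hev_cont {d : ℕ} (p : Fin (d + 1) → ℂ) : Continuous fun w : ℂ × ℂ => hev p w := by
  unfold hev
  refine continuous_finset_sum _ (fun j _ => ?_)
  fun_prop

theorem kexp' {d : ℕ} (p : Fin (d + 1) → ℂ) (u : ℂ × ℂ) (a b : ℂ) :
    hev p (a • u + b • pp u) = ∑ k : Fin (d + 1), jt p u k * a ^ (d - (k : ℕ)) * b ^ (k : ℕ) := by
  have hmain : (fun a : ℂ => hev p (a • u + b • pp u)) =
      fun a : ℂ => ∑ k : Fin (d + 1), jt p u k * a ^ (d - (k : ℕ)) * b ^ (k : ℕ) := by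
    refine Continuous.ext_on (dense_compl_singleton (0 : ℂ)) ?_ ?_ ?_
    · exact (hev_cont p).comp ((continuous_id.smul continuous_const).add continuous_const)
    · refine continuous_finset_sum _ (fun j _ => ?_)
      fun_prop
    · intro a ha
      have ha0 : a ≠ 0 := ha
      have h1 : a • u + b • pp u = a • (u + (b / a) • pp u) := by
        rw [smul_add, smul_smul, mul_div_cancel₀ b ha0]
      show hev p (a • u + b • pp u) = _
      rw [h1, hev_hom, ← rs_eval, Polynomial.eval_eq_sum_range' (Nat.lt_succ_of_le (rs_deg p u)),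
        Finset.sum_range, Finset.mul_sum]
      refine Finset.sum_congr rfl (fun k _ => ?_)
      have hk : (k : ℕ) ≤ d := Nat.lt_succ_iff.mp k.2
      have hd : a ^ d = a ^ (d - (k : ℕ)) * a ^ (k : ℕ) := by
        rw [← pow_add]; congr 1; omega
      have hpow : a ^ (k : ℕ) ≠ 0 := pow_ne_zero _ ha0
      rw [hd, div_pow]
      unfold jt
      field_simp
  exact congrFun hmain a

theorem kexp {d : ℕ} (p : Fin (d + 1) → ℂ) {u : ℂ × ℂ} (hu : IsU u) (w : ℂ × ℂ) :
    hev p w = ∑ k : Fin (d + 1), jt p u k * hm w u ^ (d - (k : ℕ)) * wd u w ^ (k : ℕ) := by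
  rw [← kexp', ← dec hu]

theorem jt_smul_pt {d : ℕ} (p : Fin (d + 1) → ℂ) (u : ℂ × ℂ) {φ : ℂ} (hφ : ‖φ‖ = 1) (k : ℕ) :
    jt p (φ • u) k = φ ^ d * (starRingEnd ℂ φ ^ 2) ^ k * jt p u k := by
  have h1 : φ * starRingEnd ℂ φ = 1 := by
    rw [Complex.mul_conj, Complex.normSq_eq_norm_sq, hφ]; norm_num
  have h2 : pp (φ • u) = starRingEnd ℂ φ • pp u := by
    ext
    · simp [pp]
    · simp [pp]
  have h3 : rsP p (φ • u) =
      Polynomial.C (φ ^ d) * (rsP p u).comp (Polynomial.C (starRingEnd ℂ φ ^ 2) * Polynomial.X) := by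
    apply Polynomial.funext
    intro t
    rw [rs_eval, h2, Polynomial.eval_mul, Polynomial.eval_C, Polynomial.eval_comp,
      Polynomial.eval_mul, Polynomial.eval_C, Polynomial.eval_X, rs_eval, ← hev_hom]
    congr 1
    rw [smul_add, smul_smul, smul_smul]
    congr 2
    linear_combination (-(t * starRingEnd ℂ φ)) * h1
  unfold jt
  rw [h3, Polynomial.coeff_C_mul, Polynomial.comp_C_mul_X_coeff]
  ring

private lemma euler {d : ℕ} (p : Fin (d + 1) → ℂ) (u : ℂ × ℂ) :
    (d : ℂ) * hev p u = u.1 * hev1 p u + u.2 * hev2 p u := by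
  unfold hev hev1 hev2
  rw [Finset.mul_sum, Finset.mul_sum, Finset.mul_sum, ← Finset.sum_add_distrib]
  refine Finset.sum_congr rfl (fun k _ => ?_)
  have hk : (k : ℕ) ≤ d := Nat.lt_succ_iff.mp k.2
  obtain ⟨m, hm⟩ : ∃ m, d = (k : ℕ) + m := ⟨d - k, by omega⟩
  have e1 : ∀ (z : ℂ) (n : ℕ), z * ((n : ℂ) * z ^ (n - 1)) = n * z ^ n := by
    intro z n
    cases n with
    | zero => simp
    | succ n => rw [Nat.add_sub_cancel, pow_succ]; ring
  have hdm : d - (k : ℕ) = m := by omega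
  have hdc : (d : ℂ) = ((k : ℕ) : ℂ) + (m : ℂ) := by
    have := congrArg (fun n : ℕ => (n : ℂ)) hm
    simpa using this
  rw [hdm, hdc]
  have e2 := e1 u.1 k
  have e3 := e1 u.2 m
  linear_combination (-(p k * u.2 ^ m)) * e2 + (-(p k * u.1 ^ (k : ℕ))) * e3

private lemma jt_one {d : ℕ} (p : Fin (d + 1) → ℂ) (u : ℂ × ℂ) :
    jt p u 1 = hev1 p u * (pp u).1 + hev2 p u * (pp u).2 := by
  have h0 : jt p u 1 = (Polynomial.derivative (rsP p u)).eval 0 := by
    rw [← Polynomial.coeff_zero_eq_eval_zero, Polynomial.coeff_derivative]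
    simp [jt]
  rw [h0]
  unfold rsP hev1 hev2
  rw [Polynomial.derivative_sum, Polynomial.eval_finset_sum, Finset.sum_mul, Finset.sum_mul,
    ← Finset.sum_add_distrib]
  refine Finset.sum_congr rfl (fun k _ => ?_)
  simp only [Polynomial.derivative_mul, Polynomial.derivative_C, Polynomial.derivative_pow,
    Polynomial.derivative_add, Polynomial.derivative_X, Polynomial.eval_add, Polynomial.eval_mul,
    Polynomial.eval_C, Polynomial.eval_X, Polynomial.eval_pow, Polynomial.eval_zero,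
    Polynomial.eval_one, Polynomial.eval_natCast, zero_mul, mul_zero, zero_add, add_zero, mul_one]
  ring

theorem hrel {d : ℕ} (X : CV d) {u : ℂ × ℂ} (hu : IsU u) :
    (d : ℂ) * wd (FF X u) (jv X u 1) = JJ X u := by
  have h := unit_eq hu
  have e1 := euler X.1 u
  have e2 := euler X.2 u
  have j1 := jt_one X.1 u
  have j2 := jt_one X.2 u
  unfold wd FF jv JJ
  simp only
  rw [j1, j2]
  have hp1 : (pp u).1 = -(starRingEnd ℂ u.2) := rfl
  have hp2 : (pp u).2 = starRingEnd ℂ u.1 := rfl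
  rw [hp1, hp2]
  linear_combination (hev1 X.2 u * -(starRingEnd ℂ u.2) + hev2 X.2 u * starRingEnd ℂ u.1) * e1 -
    (hev1 X.1 u * -(starRingEnd ℂ u.2) + hev2 X.1 u * starRingEnd ℂ u.1) * e2 +
    (hev1 X.1 u * hev2 X.2 u - hev2 X.1 u * hev1 X.2 u) * h

end Pool.Agent.H73.ES
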