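import Pool.Agent.H73.ES.Defs
import Pool.Agent.H73.ES.Rs

/-!
# [H73 ES Opn] Open conditions

`(X, u) ↦ nn (FF X u)` and `X ↦ BN2 X` are continuous, the set of unit vectors is compact (closed and bounded; see also `Pool.Agent.H41.RF.unit_compact`, `FF_cont` in H41/RF/Meas, which may be imported). For a compact `K` and an open set `W` in `V × K`
the set `{X | ∀ u ∈ K, (X, u) ∈ W}` is open (tube lemma `generalized_tube_lemma`, or `IsCompact.isOpen...`/ `isClosed_map_fst`).
-/

set_option autoImplicit false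

open Finset MeasureTheory

namespace Pool.Agent.H73.ES

open Pool.H70.SF

private theorem opn_FF {d : ℕ} : Continuous fun p : CV d × (ℂ × ℂ) => nn (FF p.1 p.2) := by
  unfold nn n2 FF hev
  apply Real.continuous_sqrt.comp
  fun_prop

private theorem opn_BN {d : ℕ} (X0 : CV d) : Continuous fun X : CV d => BN2 (X - X0) := by
  unfold BN2
  refine continuous_finsetSum _ fun k _ => ?_
  apply Continuous.div_const
  simp only [Prod.fst_sub, Prod.snd_sub, Pi.sub_apply]
  fun_prop

private theorem opn_compact : IsCompact {u : ℂ × ℂ | IsU u} := by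
  apply Metric.isCompact_of_isClosed_isBounded
  · apply isClosed_eq _ continuous_const
    unfold n2
    fun_prop
  · refine (Metric.isBounded_closedBall (x := (0 : ℂ × ℂ)) (r := 1)).subset ?_
    intro u hu
    have hu' : ‖u.1‖ ^ 2 + ‖u.2‖ ^ 2 = 1 := hu
    rw [mem_closedBall_zero_iff, Prod.norm_def]
    have h1 := norm_nonneg u.1
    have h2 := norm_nonneg u.2
    exact max_le (by nlinarith) (by nlinarith)

theorem gg_open {d : ℕ} (X0 : CV d) (a b R : ℝ) :
    IsOpen {X : CV d | BN2 (X - X0) < b ∧ ∀ u, IsU u → a < nn (FF X u) ∧ nn (FF X u) < R} := by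
  rw [isOpen_iff_mem_nhds]
  rintro X ⟨h1, h2⟩
  have e1 : ∀ᶠ Y in nhds X, BN2 (Y - X0) < b :=
    (isOpen_lt (opn_BN X0) continuous_const).mem_nhds h1
  have e2 : ∀ᶠ Y in nhds X, ∀ u ∈ {u : ℂ × ℂ | IsU u}, a < nn (FF Y u) ∧ nn (FF Y u) < R := by
    refine opn_compact.eventually_forall_of_forall_eventually fun u hu => ?_
    exact ((isOpen_lt continuous_const opn_FF).inter (isOpen_lt opn_FF continuous_const)).mem_nhds
      (h2 u hu)
  filter_upwards [e1, e2] with Y h3 h4
  exact ⟨h3, fun u hu => h4 u hu⟩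

end Pool.Agent.H73.ES
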