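import Pool.Agent.H73.ES.Tl
import Pool.Agent.H73.ES.Net
import Pool.Agent.H73.ES.Kos
import Pool.Agent.H73.ES.Jl

/-!
# [H73 ES Supb] Upper bound for `|F|`

(1) For each coordinate vector `e` (`e = (√(binom d k) δ_k, 0)` or `(0, ·)`, `BN2 e = 1`): `gau {√d / 2 < ‖ipK (X - X0) e‖} ≤ 4 exp (-d/8)` (`gau_tl`, `τ ≤ 1`, `gau univ ≤ 1`), and
`BN2 Y = ∑ ‖ipK Y e‖^2` over these `2 (d+1)` vectors, so `BN2 (X - X0) ≤ (2d+2) d/4 ≤ d^2` outside a set of measure `8 (d+1) exp (-d/8)`.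
(2) For a unit vector `w` there is `e = (λ, 0)` with `ipK Y e = hev Y.1 w` and `BN2 e = 1`: `λ k = binom d k conj(w.1)^k conj(w.2)^(d-k)` (binomial theorem); the same for `Y.2`. `ff_le_bn`: Cauchy-Schwarz, or `kos` (`‖jt p w 0‖^2 ≤ CN p`).
`gau_tl` with `r = d^κ/8`: `nn (FF (X - X0) w) ≤ d^κ/4` outside a set of measure `8 exp (-d^(2κ)/128)`.
(3) Net of mesh `d^(-4)` (`10000 d^8` points, `IsNet.cnt` with `r = 1`): outside a set of measure `80000 d^8 exp (-d^(2κ)/128)` the bound holds at all net points; for arbitrary `u`, `‖wd u w‖ ≤ d^(-4)`, `ff_lip` for `X - X0`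
with `R = d` (`√(BN2) ≤ d`, `ff_le_bn`): `nn (FF (X-X0) u) ≤ d^κ/4 + 10^4 d √d d^(-4) < d^κ/2`. With the hypothesis on `X0`: `nn (FF X u) < d^κ`. The sum of the measures is `≤ 1/d` for `d ≥ d0(κ)`.
-/

set_option autoImplicit false

open Finset MeasureTheory

namespace Pool.Agent.H73.ES

open Pool.H70.SF

private theorem supb_bn {d : ℕ} (Y : CV d) : BN2 Y = CN Y.1 + CN Y.2 := by
  unfold BN2 CN
  rw [← Finset.sum_add_distrib]
  exact Finset.sum_congr rfl fun k _ => add_div _ _ _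

theorem ff_le_bn {d : ℕ} (Y : CV d) {w : ℂ × ℂ} (hw : IsU w) : n2 (FF Y w) ≤ BN2 Y := by
  have h : ∀ p : Fin (d + 1) → ℂ, ‖hev p w‖ ^ 2 ≤ CN p := by
    intro p
    rw [← kos p hw, ← jt_zero p w]
    have h1 := Finset.single_le_sum (f := fun k : Fin (d + 1) => ‖jt p w k‖ ^ 2 / (d.choose k : ℝ))
      (fun k _ => by positivity) (Finset.mem_univ (0 : Fin (d + 1)))
    simpa using h1
  rw [supb_bn]
  exact add_le_add (h _) (h _)

private theorem supb_choose {d : ℕ} (k : Fin (d + 1)) : (0 : ℝ) < (d.choose k : ℝ) := by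
  exact_mod_cast Nat.choose_pos (Nat.lt_succ_iff.1 k.2)

/-- the functional `Σ p k conj (lam k) / binom` -/
private noncomputable def supbL {d : ℕ} (lam p : Fin (d + 1) → ℂ) : ℂ :=
  ∑ k : Fin (d + 1), p k * starRingEnd ℂ (lam k) / (d.choose k : ℂ)

private theorem supb_tail {d : ℕ} {A : ℝ} (hA : 0 ≤ A) (X0 : CV d) {τ : ℝ} (hτ : 0 < τ)
    (hτ1 : τ ≤ 1) (hu : gau A X0 τ Set.univ ≤ 1) (lam : Fin (d + 1) → ℂ) (hl : CN lam = 1)
    {r : ℝ} (hr : 0 ≤ r) :
    gau A X0 τ {X | r < ‖supbL lam (X - X0).1‖} ≤ ENNReal.ofReal (4 * Real.exp (-(r ^ 2 / 2))) ∧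
    gau A X0 τ {X | r < ‖supbL lam (X - X0).2‖} ≤ ENNReal.ofReal (4 * Real.exp (-(r ^ 2 / 2))) := by
  have hexp : Real.exp (-(r ^ 2 / (2 * τ ^ 2))) ≤ Real.exp (-(r ^ 2 / 2)) := by
    apply Real.exp_le_exp.2
    apply neg_le_neg
    apply div_le_div_of_nonneg_left (by positivity) (by positivity)
    have : τ ^ 2 ≤ 1 := pow_le_one₀ hτ.le hτ1
    linarith
  have key : ∀ e : CV d, BN2 e = 1 → gau A X0 τ {X | r < ‖Pool.H26.SF.ipK (X - X0) e‖} ≤
      ENNReal.ofReal (4 * Real.exp (-(r ^ 2 / 2))) := by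
    intro e he
    refine (gau_tl hA X0 hτ he hr).trans ?_
    calc ENNReal.ofReal (4 * Real.exp (-(r ^ 2 / (2 * τ ^ 2)))) * gau A X0 τ Set.univ
        ≤ ENNReal.ofReal (4 * Real.exp (-(r ^ 2 / 2))) * 1 := by
          apply mul_le_mul' _ hu
          apply ENNReal.ofReal_le_ofReal
          linarith
      _ = _ := mul_one _
  constructor
  · have h1 := key (lam, 0) (by
      rw [supb_bn, hl]
      simp [CN])
    have h2 : ∀ X : CV d, Pool.H26.SF.ipK (X - X0) ((lam, 0) : CV d) = supbL lam (X - X0).1 := by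
      intro X
      unfold Pool.H26.SF.ipK supbL
      refine Finset.sum_congr rfl fun k _ => ?_
      simp
    simpa only [h2] using h1
  · have h1 := key (0, lam) (by
      rw [supb_bn, hl]
      simp [CN])
    have h2 : ∀ X : CV d, Pool.H26.SF.ipK (X - X0) ((0, lam) : CV d) = supbL lam (X - X0).2 := by
      intro X
      unfold Pool.H26.SF.ipK supbL
      refine Finset.sum_congr rfl fun k _ => ?_
      simp
    simpa only [h2] using h1

/-- coordinate vectors -/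
private theorem supb_coord {d : ℕ} (k : Fin (d + 1)) :
    CN (Pi.single k ((Real.sqrt (d.choose k : ℝ) : ℝ) : ℂ) : Fin (d + 1) → ℂ) = 1 ∧
    ∀ p : Fin (d + 1) → ℂ, ‖supbL (Pi.single k ((Real.sqrt (d.choose k : ℝ) : ℝ) : ℂ)) p‖ ^ 2 =
      ‖p k‖ ^ 2 / (d.choose k : ℝ) := by
  have hc := supb_choose k
  have hs := Real.sq_sqrt hc.le
  constructor
  · unfold CN
    rw [Finset.sum_eq_single k]
    · rw [Pi.single_eq_same, Complex.norm_real, Real.norm_eq_abs, sq_abs, hs, div_self hc.ne']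
    · intro j _ hj
      rw [Pi.single_eq_of_ne hj]
      simp
    · intro h
      exact absurd (Finset.mem_univ _) h
  · intro p
    unfold supbL
    rw [Finset.sum_eq_single k]
    · rw [Pi.single_eq_same, Complex.conj_ofReal, norm_div, norm_mul, Complex.norm_real,
        Real.norm_eq_abs, Complex.norm_natCast, div_pow, mul_pow, sq_abs, hs]
      field_simp
    · intro j _ hj
      rw [Pi.single_eq_of_ne hj]
      simp
    · intro h
      exact absurd (Finset.mem_univ _) h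

/-- evaluation vectors -/
private theorem supb_eval {d : ℕ} {w : ℂ × ℂ} (hw : IsU w) :
    CN (fun k : Fin (d + 1) => (d.choose k : ℂ) * (starRingEnd ℂ w.1) ^ (k : ℕ) *
      (starRingEnd ℂ w.2) ^ (d - (k : ℕ))) = 1 ∧
    ∀ p : Fin (d + 1) → ℂ, supbL (fun k : Fin (d + 1) => (d.choose k : ℂ) *
      (starRingEnd ℂ w.1) ^ (k : ℕ) * (starRingEnd ℂ w.2) ^ (d - (k : ℕ))) p = hev p w := by
  constructor
  · have h1 : (‖w.1‖ ^ 2 + ‖w.2‖ ^ 2) ^ d = 1 := by
      have h2 : ‖w.1‖ ^ 2 + ‖w.2‖ ^ 2 = 1 := hw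
      rw [h2, one_pow]
    rw [← h1, add_pow, ← Fin.sum_univ_eq_sum_range (fun m => (‖w.1‖ ^ 2) ^ m *
      (‖w.2‖ ^ 2) ^ (d - m) * (d.choose m : ℝ))]
    unfold CN
    refine Finset.sum_congr rfl fun k _ => ?_
    have hc := supb_choose k
    rw [norm_mul, norm_mul, norm_pow, norm_pow, Complex.norm_conj, Complex.norm_conj,
      Complex.norm_natCast, mul_pow, mul_pow]
    field_simp
    ring
  · intro p
    unfold supbL hev
    refine Finset.sum_congr rfl fun k _ => ?_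
    have hc : (d.choose k : ℂ) ≠ 0 := by
      have := (supb_choose k).ne'
      exact_mod_cast this
    simp only [map_mul, map_pow, Complex.conj_conj, map_natCast]
    field_simp

private theorem supb_asym {κ : ℝ} (hκ : 0 < κ) : ∃ d0 : ℕ, ∀ d ≥ d0,
    8 * ((d : ℝ) + 1) * Real.exp (-((d : ℝ) / 8)) + 80000 * (d : ℝ) ^ 8 *
      Real.exp (-(((d : ℝ) ^ κ) ^ 2 / 128)) ≤ 1 / d := by
  have h1 : Filter.Tendsto (fun d : ℕ => ((d : ℝ)) ^ (2 : ℝ) * Real.exp (-(1 / 8) * (d : ℝ)))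
      Filter.atTop (nhds 0) :=
    (tendsto_rpow_mul_exp_neg_mul_atTop_nhds_zero 2 (1 / 8) (by norm_num)).comp
      tendsto_natCast_atTop_atTop
  have h2 : Filter.Tendsto (fun d : ℕ => ((d : ℝ) ^ (2 * κ)) ^ (9 / (2 * κ)) *
      Real.exp (-(1 / 128) * ((d : ℝ) ^ (2 * κ)))) Filter.atTop (nhds 0) :=
    (tendsto_rpow_mul_exp_neg_mul_atTop_nhds_zero (9 / (2 * κ)) (1 / 128) (by norm_num)).comp
      ((tendsto_rpow_atTop (by linarith : 0 < 2 * κ)).comp tendsto_natCast_atTop_atTop)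
  have h3 := h1.eventually (gt_mem_nhds (show (0 : ℝ) < 1 / 32 by norm_num))
  have h4 := h2.eventually (gt_mem_nhds (show (0 : ℝ) < 1 / 160000 by norm_num))
  obtain ⟨d0, hd0⟩ := Filter.eventually_atTop.1 ((h3.and h4).and (Filter.eventually_ge_atTop 1))
  refine ⟨d0, fun d hd => ?_⟩
  obtain ⟨⟨e1, e2⟩, e3⟩ := hd0 d hd
  have hdp : (1 : ℝ) ≤ d := by exact_mod_cast e3
  have hd0' : (0 : ℝ) < d := by linarith
  have f1 : ((d : ℝ) ^ (2 * κ)) ^ (9 / (2 * κ)) = (d : ℝ) ^ 9 := by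
    rw [← Real.rpow_mul hd0'.le, mul_div_cancel₀ _ (by linarith : 2 * κ ≠ 0)]
    exact_mod_cast Real.rpow_natCast (d : ℝ) 9
  have f2 : ((d : ℝ) ^ κ) ^ 2 = (d : ℝ) ^ (2 * κ) := by
    rw [← Real.rpow_natCast, ← Real.rpow_mul hd0'.le]
    congr 1
    push_cast
    ring
  have f3 : (d : ℝ) ^ (2 : ℝ) = (d : ℝ) ^ 2 := by exact_mod_cast Real.rpow_natCast (d : ℝ) 2
  rw [f1] at e2
  rw [f3] at e1
  rw [f2]
  have g1 : -((d : ℝ) / 8) = -(1 / 8) * (d : ℝ) := by ring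
  have g2 : -((d : ℝ) ^ (2 * κ) / 128) = -(1 / 128) * (d : ℝ) ^ (2 * κ) := by ring
  rw [g1, g2]
  set E1 := Real.exp (-(1 / 8) * (d : ℝ)) with hE1
  set E2 := Real.exp (-(1 / 128) * (d : ℝ) ^ (2 * κ)) with hE2
  have hE1p : 0 < E1 := Real.exp_pos _
  rw [le_div_iff₀ hd0']
  have k1 : 8 * ((d : ℝ) + 1) * E1 * d ≤ 16 * ((d : ℝ) ^ 2 * E1) := by
    have : ((d : ℝ) + 1) ≤ 2 * d := by linarith
    calc 8 * ((d : ℝ) + 1) * E1 * d ≤ 8 * (2 * d) * E1 * d := by gcongr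
      _ = 16 * ((d : ℝ) ^ 2 * E1) := by ring
  have k2 : 80000 * (d : ℝ) ^ 8 * E2 * d = 80000 * ((d : ℝ) ^ 9 * E2) := by ring
  rw [add_mul, k2]
  linarith

theorem supb {κ : ℝ} (hκ : 0 < κ) : ∃ d0 : ℕ, ∀ d ≥ d0, ∀ (A : ℝ) (X0 : CV d) (τ : ℝ), 0 ≤ A →
    0 < τ → τ ≤ 1 → gau A X0 τ Set.univ ≤ 1 → (∀ u, IsU u → nn (FF X0 u) ≤ (d : ℝ) ^ κ / 2) →
      gau A X0 τ {X | ¬ (BN2 (X - X0) ≤ (d : ℝ) ^ 2 ∧ ∀ u, IsU u → nn (FF X u) < (d : ℝ) ^ κ)} ≤
        ENNReal.ofReal (1 / d) := by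
  classical
  obtain ⟨d1, hd1⟩ := supb_asym hκ
  refine ⟨max d1 100, fun d hd A X0 τ hA hτ hτ1 hu hX0 => ?_⟩
  have hd100 : 100 ≤ d := (le_max_right _ _).trans hd
  have hasy := hd1 d ((le_max_left _ _).trans hd)
  have hdR : (100 : ℝ) ≤ d := by exact_mod_cast hd100
  have hd0 : (0 : ℝ) < d := by linarith
  have hdκ : 1 ≤ (d : ℝ) ^ κ := Real.one_le_rpow (by linarith) hκ.le
  -- the net
  obtain ⟨N, hN⟩ := exists_net (η := ((d : ℝ) ^ 4)⁻¹) (by positivity)
    (inv_le_one_of_one_le₀ (one_le_pow₀ (by linarith)))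
  have hcard : (N.card : ℝ) ≤ 10000 * (d : ℝ) ^ 8 := by
    have hu1 : IsU (1, 0) := by
      simp [IsU, n2]
    have h1 := hN.cnt (1, 0) hu1 1 (inv_le_one_of_one_le₀ (one_le_pow₀ (by linarith)))
    have h2 : N.filter (fun w => ‖wd (1, 0) w‖ ≤ 1) = N := by
      apply Finset.filter_true_of_mem
      intro w hw
      have h3 := wd_le (1, 0) w
      have h4 : nn (1, 0) = 1 := by unfold nn; rw [hu1]; exact Real.sqrt_one
      have h5 : nn w = 1 := by unfold nn; rw [hN.unit w hw]; exact Real.sqrt_one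
      rw [h4, h5, one_mul] at h3
      exact h3
    rw [h2] at h1
    refine h1.trans (le_of_eq ?_)
    field_simp
  -- the coordinate and evaluation vectors
  let cv : Fin (d + 1) → Fin (d + 1) → ℂ := fun k =>
    Pi.single k ((Real.sqrt (d.choose k : ℝ) : ℝ) : ℂ)
  let ew : ℂ × ℂ → Fin (d + 1) → ℂ := fun w k => (d.choose k : ℂ) *
      (starRingEnd ℂ w.1) ^ (k : ℕ) * (starRingEnd ℂ w.2) ^ (d - (k : ℕ))
  let r1 : ℝ := Real.sqrt d / 2
  let r2 : ℝ := (d : ℝ) ^ κ / 8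
  let S1 : Fin (d + 1) → Set (CV d) := fun k =>
    {X | r1 < ‖supbL (cv k) (X - X0).1‖} ∪ {X | r1 < ‖supbL (cv k) (X - X0).2‖}
  let S2 : ℂ × ℂ → Set (CV d) := fun w =>
    {X | r2 < ‖supbL (ew w) (X - X0).1‖} ∪ {X | r2 < ‖supbL (ew w) (X - X0).2‖}
  have hr1 : 0 ≤ r1 := by positivity
  have hr2 : 0 ≤ r2 := by positivity
  have hsub : {X | ¬ (BN2 (X - X0) ≤ (d : ℝ) ^ 2 ∧ ∀ u, IsU u → nn (FF X u) < (d : ℝ) ^ κ)} ⊆
      (⋃ k ∈ (Finset.univ : Finset (Fin (d + 1))), S1 k) ∪ ⋃ w ∈ N, S2 w := by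
    intro X hX
    by_contra hcon
    rw [Set.mem_union, not_or] at hcon
    obtain ⟨hc1, hc2⟩ := hcon
    simp only [Set.mem_iUnion, not_exists] at hc1 hc2
    apply hX
    have hBN : BN2 (X - X0) ≤ (d : ℝ) ^ 2 := by
      have h1 : ∀ k : Fin (d + 1), (‖(X - X0).1 k‖ ^ 2 + ‖(X - X0).2 k‖ ^ 2) /
          (d.choose k : ℝ) ≤ d / 2 := by
        intro k
        have h2 := hc1 k (Finset.mem_univ k)
        simp only [S1, Set.mem_union, Set.mem_ofPred_eq, not_or, not_lt] at h2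
        have h3 := (supb_coord k).2
        have h4 : ∀ p : Fin (d + 1) → ℂ, ‖supbL (cv k) p‖ ≤ r1 →
            ‖p k‖ ^ 2 / (d.choose k : ℝ) ≤ d / 4 := by
          intro p hp
          rw [← h3 p]
          calc ‖supbL (cv k) p‖ ^ 2 ≤ r1 ^ 2 := pow_le_pow_left₀ (norm_nonneg _) hp 2
            _ = d / 4 := by
              simp only [r1]
              rw [div_pow, Real.sq_sqrt hd0.le]
              norm_num
        have h5 := h4 _ h2.1
        have h6 := h4 _ h2.2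
        rw [add_div]
        linarith
      unfold BN2
      calc _ ≤ ∑ _k : Fin (d + 1), (d : ℝ) / 2 := Finset.sum_le_sum fun k _ => h1 k
        _ = ((d : ℝ) + 1) * (d / 2) := by
            rw [Finset.sum_const, Finset.card_univ, Fintype.card_fin, nsmul_eq_mul]
            push_cast
            ring
        _ ≤ (d : ℝ) ^ 2 := by nlinarith
    refine ⟨hBN, fun u hu => ?_⟩
    -- bound at the net points
    have hnet : ∀ w ∈ N, nn (FF (X - X0) w) ≤ (d : ℝ) ^ κ / 4 := by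
      intro w hw
      have h2 := hc2 w hw
      simp only [S2, Set.mem_union, Set.mem_ofPred_eq, not_or, not_lt] at h2
      have h3 := (supb_eval (d := d) (hN.unit w hw)).2
      have h4 : ‖hev (X - X0).1 w‖ ≤ r2 := by
        rw [← h3]
        exact h2.1
      have h5 : ‖hev (X - X0).2 w‖ ≤ r2 := by
        rw [← h3]
        exact h2.2
      unfold nn
      apply Real.sqrt_le_iff.2
      refine ⟨by positivity, ?_⟩
      change ‖hev (X - X0).1 w‖ ^ 2 + ‖hev (X - X0).2 w‖ ^ 2 ≤ ((d : ℝ) ^ κ / 4) ^ 2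
      have h6 : ‖hev (X - X0).1 w‖ ^ 2 ≤ r2 ^ 2 := pow_le_pow_left₀ (norm_nonneg _) h4 2
      have h7 : ‖hev (X - X0).2 w‖ ^ 2 ≤ r2 ^ 2 := pow_le_pow_left₀ (norm_nonneg _) h5 2
      have h8 : ((d : ℝ) ^ κ / 4) ^ 2 = 4 * r2 ^ 2 := by
        simp only [r2]
        ring
      have h9 : 0 ≤ r2 ^ 2 := by positivity
      rw [h8]
      linarith
    have hR : ∀ v, IsU v → nn (FF (X - X0) v) ≤ d := by
      intro v hv
      unfold nn
      apply Real.sqrt_le_iff.2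
      exact ⟨hd0.le, (ff_le_bn _ hv).trans hBN⟩
    obtain ⟨w, hw, hwu⟩ := hN.cov u hu
    have hwd : ‖wd w u‖ ≤ ((d : ℝ) ^ 4)⁻¹ := by
      have : wd w u = -wd u w := by
        simp only [wd]
        ring
      rw [this, norm_neg]
      exact hwu
    have hsd : Real.sqrt d ≤ d := by
      rw [Real.sqrt_le_left hd0.le]
      nlinarith
    have hdinv : (d : ℝ) ^ 2 * ((d : ℝ) ^ 4)⁻¹ ≤ 1 / 10000 := by
      rw [← div_eq_mul_inv, div_le_div_iff₀ (by positivity) (by norm_num)]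
      have : (10000 : ℝ) ≤ d ^ 2 := by nlinarith
      nlinarith [sq_nonneg ((d : ℝ) ^ 2)]
    have h8 : 8 * Real.sqrt d * ‖wd w u‖ ≤ 1 := by
      calc 8 * Real.sqrt d * ‖wd w u‖ ≤ 8 * d * ((d : ℝ) ^ 4)⁻¹ := by gcongr
        _ ≤ 8 * (d : ℝ) ^ 2 * ((d : ℝ) ^ 4)⁻¹ := by
            gcongr
            nlinarith
        _ ≤ 1 := by linarith
    have hlip := ff_lip (by omega : 2 ≤ d) hR (hN.unit w hw) hu h8
    have hnw := hnet w hw
    have herr : 10 ^ 4 * (d : ℝ) * Real.sqrt d * ‖wd w u‖ ≤ 1 / 8 := by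
      have hs10 : Real.sqrt d * 10 ≤ d := by
        have h1 : Real.sqrt d * Real.sqrt d = d := Real.mul_self_sqrt hd0.le
        have h2 : (10 : ℝ) ≤ Real.sqrt d := by
          apply Real.le_sqrt_of_sq_le
          linarith
        nlinarith [Real.sqrt_nonneg (d : ℝ)]
      calc 10 ^ 4 * (d : ℝ) * Real.sqrt d * ‖wd w u‖
          ≤ 10 ^ 4 * (d : ℝ) * (d / 10) * ((d : ℝ) ^ 4)⁻¹ := by
            gcongr
            linarith
        _ = 1000 * ((d : ℝ) ^ 2 * ((d : ℝ) ^ 4)⁻¹) := by ring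
        _ ≤ 1 / 8 := by linarith
    have hlin : FF X u = FF X0 u + FF (X - X0) u := by
      apply Prod.ext
      · simp only [FF, hev, Prod.fst_add, Prod.fst_sub, Pi.sub_apply]
        rw [← Finset.sum_add_distrib]
        refine Finset.sum_congr rfl fun k _ => ?_
        ring
      · simp only [FF, hev, Prod.snd_add, Prod.snd_sub, Pi.sub_apply]
        rw [← Finset.sum_add_distrib]
        refine Finset.sum_congr rfl fun k _ => ?_
        ring
    have h9 : nn (FF X u) ≤ nn (FF X0 u) + nn (FF (X - X0) u) := by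
      rw [hlin]
      exact nn_add _ _
    have h10 := hX0 u hu
    linarith
  -- measures
  have hm1 : ∀ k : Fin (d + 1), gau A X0 τ (S1 k) ≤
      ENNReal.ofReal (8 * Real.exp (-((d : ℝ) / 8))) := by
    intro k
    obtain ⟨h1, h2⟩ := supb_tail hA X0 hτ hτ1 hu (cv k) (supb_coord k).1 hr1
    refine (measure_union_le _ _).trans ((add_le_add h1 h2).trans ?_)
    rw [← ENNReal.ofReal_add (by positivity) (by positivity)]
    apply ENNReal.ofReal_le_ofReal
    have h3 : r1 ^ 2 / 2 = (d : ℝ) / 8 := by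
      simp only [r1]
      rw [div_pow, Real.sq_sqrt hd0.le]
      ring
    rw [h3]
    linarith
  have hm2 : ∀ w ∈ N, gau A X0 τ (S2 w) ≤
      ENNReal.ofReal (8 * Real.exp (-(((d : ℝ) ^ κ) ^ 2 / 128))) := by
    intro w hw
    obtain ⟨h1, h2⟩ := supb_tail hA X0 hτ hτ1 hu (ew w) (supb_eval (hN.unit w hw)).1 hr2
    refine (measure_union_le _ _).trans ((add_le_add h1 h2).trans ?_)
    rw [← ENNReal.ofReal_add (by positivity) (by positivity)]
    apply ENNReal.ofReal_le_ofReal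
    have h3 : r2 ^ 2 / 2 = ((d : ℝ) ^ κ) ^ 2 / 128 := by
      simp only [r2]
      ring
    rw [h3]
    linarith
  refine (measure_mono hsub).trans ((measure_union_le _ _).trans ?_)
  have hM1 : gau A X0 τ (⋃ k ∈ (Finset.univ : Finset (Fin (d + 1))), S1 k) ≤
      ENNReal.ofReal (((d : ℝ) + 1) * (8 * Real.exp (-((d : ℝ) / 8)))) := by
    refine (measure_biUnion_finset_le _ _).trans ?_
    refine (Finset.sum_le_sum fun k _ => hm1 k).trans (le_of_eq ?_)
    rw [Finset.sum_const, Finset.card_univ, Fintype.card_fin, nsmul_eq_mul,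
      ENNReal.ofReal_mul (p := (d : ℝ) + 1) (by positivity)]
    congr 1
    rw [← ENNReal.ofReal_natCast]
    congr 1
    push_cast
    ring
  have hM2 : gau A X0 τ (⋃ w ∈ N, S2 w) ≤
      ENNReal.ofReal ((10000 * (d : ℝ) ^ 8) * (8 * Real.exp (-(((d : ℝ) ^ κ) ^ 2 / 128)))) := by
    refine (measure_biUnion_finset_le _ _).trans ?_
    refine (Finset.sum_le_sum fun w hw => hm2 w hw).trans ?_
    rw [Finset.sum_const, nsmul_eq_mul,
      ENNReal.ofReal_mul (p := 10000 * (d : ℝ) ^ 8) (by positivity)]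
    refine mul_le_mul' ?_ le_rfl
    rw [← ENNReal.ofReal_natCast]
    exact ENNReal.ofReal_le_ofReal hcard
  refine (add_le_add hM1 hM2).trans ?_
  rw [← ENNReal.ofReal_add (by positivity) (by positivity)]
  apply ENNReal.ofReal_le_ofReal
  refine le_trans (le_of_eq ?_) hasy
  ring

end Pool.Agent.H73.ES
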