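import Pool.Agent.H73.ES.Cd

/-!
# [H73 ES Det] The finite list of bad patterns (deterministic part)

`PA T`: `b T = 1/2 + κ`, `bb = 1/2`, the rest `0`. `PB T1 T2`: `b T1 = b T2 = 1/2`, `bb T1 = 1/2 + κ`, otherwise `bb = 1/2`, the rest `0`. `PC N m k`: grid exponents `k · / N` at indices `≤ n`, `bb m = 1/2 + κ`,
otherwise `bb = 1/2` (`m = n + 1`: no near index `≤ n`).
Let `X ∈ GG R`, `c` critical. Call `l ≤ n` near if `‖wd (ob X c l) (pt X c i)‖ < d^(-1/2)` for some `i ≤ l`. (i) First near `T`: if some distance at `T` is `≤ d^(-1/2-κ)`, then `X ∈ BadP R (PA T) T` (all `l < T` are not near: distances `≥ d^(-1/2)`).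
(ii) First near `T1`, next near `T2 > T1`: `X ∈ BadP R (PB T1 T2) T2`. (iii) Otherwise at most one near index `m`, whose distances are `≥ d^(-1/2-κ)` (`m = n+1` if there is none). If `Adm` holds with cost
`> 1 + ε`, put `k = ⌊N · exponent⌋` for each exponent: all conditions of `BadP R (PC ..) (n+1)` hold (the bounds get weaker, `1 ≤ d`; an exponent whose floor is `0` gives no condition; the exponents are `≤ 1`, so `k ≤ N`), and
the cost of the grid exponents is `> 1 + ε - (8 n + 16)/N`. `b (n+1) = 0`.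
-/

set_option autoImplicit false

open Finset MeasureTheory

namespace Pool.Agent.H73.ES

open Pool.H70.SF

/-- first near index too near -/
noncomputable def PA (κ : ℝ) (T : ℕ) : Pat where
  th := 0
  hc := 0
  be := fun _ => 0
  h := fun _ => 0
  b := fun l => if l = T then 1 / 2 + κ else 0
  bb := fun _ => 1 / 2

/-- two near indices -/
noncomputable def PB (κ : ℝ) (T1 T2 : ℕ) : Pat where
  th := 0
  hc := 0
  be := fun _ => 0
  h := fun _ => 0
  b := fun l => if l = T1 ∨ l = T2 then 1 / 2 else 0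
  bb := fun l => if l = T1 then 1 / 2 + κ else 1 / 2

/-- grid patterns: `k 0 0`, `k 1 0` for `th`, `hc`, `k 2 l`, `k 3 l`, `k 4 l` for `be`, `h`, `b` -/
noncomputable def PC (κ : ℝ) (N n m : ℕ) (k : ℕ → ℕ → ℕ) : Pat where
  th := (k 0 0 : ℝ) / N
  hc := (k 1 0 : ℝ) / N
  be := fun l => if l ≤ n then (k 2 l : ℝ) / N else 0
  h := fun l => if l ≤ n then (k 3 l : ℝ) / N else 0
  b := fun l => if l ≤ n then (k 4 l : ℝ) / N else 0
  bb := fun l => if l = m then 1 / 2 + κ else 1 / 2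

/-- cost of the grid exponents -/
noncomputable def cosC (N n : ℕ) (k : ℕ → ℕ → ℕ) : ℝ :=
  4 * ((k 0 0 : ℝ) / N) + 4 * ((k 1 0 : ℝ) / N) +
    ∑ l ∈ range (n + 1), (2 * ((k 2 l : ℝ) / N) + 4 * ((k 3 l : ℝ) / N) + 2 * ((k 4 l : ℝ) / N))

private theorem rp_mono {d : ℕ} (hd : 1 ≤ d) {a b : ℝ} (h : a ≤ b) :
    (d : ℝ) ^ a ≤ (d : ℝ) ^ b :=
  Real.rpow_le_rpow_of_exponent_le (by exact_mod_cast hd) h

/-- rounding down an exponent -/
private theorem fl {N : ℕ} (hN : 1 ≤ N) {x : ℝ} (h0 : 0 ≤ x) (h1 : x ≤ 1) :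
    ⌊(N : ℝ) * x⌋₊ ≤ N ∧ ((⌊(N : ℝ) * x⌋₊ : ℕ) : ℝ) / N ≤ x ∧
      x - 1 / N ≤ ((⌊(N : ℝ) * x⌋₊ : ℕ) : ℝ) / N := by
  have hN' : (0 : ℝ) < N := by exact_mod_cast hN
  have h2 : 0 ≤ (N : ℝ) * x := by positivity
  refine ⟨?_, ?_, ?_⟩
  · apply Nat.floor_le_of_le
    nlinarith
  · rw [div_le_iff₀ hN', mul_comm x]
    exact Nat.floor_le h2
  · rw [le_div_iff₀ hN', sub_mul, one_div_mul_cancel hN'.ne']
    have := Nat.lt_floor_add_one ((N : ℝ) * x)
    linarith

/-- the exponents as one function -/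
private noncomputable def ex (th hh : ℝ) (be h b : ℕ → ℝ) (i l : ℕ) : ℝ :=
  if i = 0 then th else if i = 1 then hh else if i = 2 then be l else if i = 3 then h l
    else if i = 4 then b l else 0

/-- the distances along the orbit -/
private theorem dich {d n : ℕ} {κ R : ℝ} {X : CV d} (hX : GG R X)
    (hA : ∀ T ≤ n, X ∉ BadP R (PA κ T) T)
    (hB : ∀ T1 T2, T1 < T2 → T2 ≤ n → X ∉ BadP R (PB κ T1 T2) T2)
    {c : ℂ × ℂ} (hc : IsU c) (hJ : JJ X c = 0) :
    ∃ m ≤ n + 1, ∀ l ≤ n, ∀ i ≤ l,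
      (d : ℝ) ^ (-(if l = m then 1 / 2 + κ else 1 / 2 : ℝ)) ≤ ‖wd (ob X c l) (pt X c i)‖ := by
  classical
  by_cases hex : ∃ T, T ≤ n ∧ ∃ i ≤ T, ‖wd (ob X c T) (pt X c i)‖ < (d : ℝ) ^ (-(1 / 2) : ℝ)
  · obtain ⟨T1, ⟨hT1, i1, hi1, hn1⟩, hmin⟩ :
        ∃ T1, (T1 ≤ n ∧ ∃ i ≤ T1, ‖wd (ob X c T1) (pt X c i)‖ < (d : ℝ) ^ (-(1 / 2) : ℝ)) ∧
          ∀ l < T1, ¬ (l ≤ n ∧ ∃ i ≤ l, ‖wd (ob X c l) (pt X c i)‖ < (d : ℝ) ^ (-(1 / 2) : ℝ)) :=
      ⟨Nat.find hex, Nat.find_spec hex, fun l hl => Nat.find_min hex hl⟩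
    have hfar : ∀ l < T1, ∀ i ≤ l,
        (d : ℝ) ^ (-(1 / 2) : ℝ) ≤ ‖wd (ob X c l) (pt X c i)‖ := by
      intro l hl i hi
      by_contra hcon
      exact hmin l hl ⟨by omega, i, hi, not_le.1 hcon⟩
    have hfar1 : ∀ i ≤ T1, (d : ℝ) ^ (-(1 / 2 + κ) : ℝ) ≤ ‖wd (ob X c T1) (pt X c i)‖ := by
      intro i hi
      by_contra hcon
      refine hA T1 hT1 ⟨hX, c, hc, hJ, Or.inl rfl, Or.inl rfl, fun l hl => ⟨Or.inl rfl,
        Or.inl rfl, fun i hi => ?_⟩, fun l hl => ?_⟩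
      · exact hfar l hl i hi
      · by_cases h : l = T1
        · right
          refine ⟨i, by omega, ?_⟩
          have hb : (PA κ T1).b l = 1 / 2 + κ := by
            simp only [PA]
            rw [if_pos h]
          rw [hb, h]
          exact (not_le.1 hcon).le
        · left
          simp only [PA]
          rw [if_neg h]
    by_cases hex2 : ∃ T, T ≤ n ∧ T1 < T ∧
        ∃ i ≤ T, ‖wd (ob X c T) (pt X c i)‖ < (d : ℝ) ^ (-(1 / 2) : ℝ)
    · exfalso
      obtain ⟨T2, ⟨hT2, hT12, i2, hi2, hn2⟩, hmin2⟩ :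
          ∃ T2, (T2 ≤ n ∧ T1 < T2 ∧
            ∃ i ≤ T2, ‖wd (ob X c T2) (pt X c i)‖ < (d : ℝ) ^ (-(1 / 2) : ℝ)) ∧
            ∀ l < T2, ¬ (l ≤ n ∧ T1 < l ∧
              ∃ i ≤ l, ‖wd (ob X c l) (pt X c i)‖ < (d : ℝ) ^ (-(1 / 2) : ℝ)) :=
        ⟨Nat.find hex2, Nat.find_spec hex2, fun l hl => Nat.find_min hex2 hl⟩
      refine hB T1 T2 hT12 hT2 ⟨hX, c, hc, hJ, Or.inl rfl, Or.inl rfl, fun l hl => ⟨Or.inl rfl,
        Or.inl rfl, fun i hi => ?_⟩, fun l hl => ?_⟩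
      · have hbb : (PB κ T1 T2).bb l = if l = T1 then 1 / 2 + κ else 1 / 2 := rfl
        rw [hbb]
        by_cases h : l = T1
        · rw [if_pos h]
          subst h
          exact hfar1 i hi
        · rw [if_neg h]
          by_contra hcon
          rcases lt_or_gt_of_ne h with h' | h'
          · exact hcon (hfar l h' i hi)
          · exact hmin2 l hl ⟨by omega, h', i, hi, not_le.1 hcon⟩
      · by_cases h : l = T1 ∨ l = T2
        · right
          have hb : (PB κ T1 T2).b l = 1 / 2 := by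
            simp only [PB]
            rw [if_pos h]
          rw [hb]
          rcases h with h | h
          · subst h
            exact ⟨i1, hi1, hn1.le⟩
          · subst h
            exact ⟨i2, hi2, hn2.le⟩
        · left
          simp only [PB]
          rw [if_neg h]
    · refine ⟨T1, by omega, fun l hl i hi => ?_⟩
      by_cases h : l = T1
      · rw [if_pos h]
        subst h
        exact hfar1 i hi
      · rw [if_neg h]
        by_contra hcon
        rcases lt_or_gt_of_ne h with h' | h'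
        · exact hcon (hfar l h' i hi)
        · exact hex2 ⟨l, hl, h', i, hi, not_le.1 hcon⟩
  · refine ⟨n + 1, le_refl _, fun l hl i hi => ?_⟩
    rw [if_neg (by omega)]
    by_contra hcon
    exact hex ⟨l, hl, i, hi, not_le.1 hcon⟩

theorem det {d n N : ℕ} (hd : 1 ≤ d) (hN : 1 ≤ N) {κ ε R : ℝ} (hκ : 0 < κ) (hκ1 : κ ≤ 1 / 2)
    {X : CV d} (hX : GG R X)
    (hA : ∀ T ≤ n, X ∉ BadP R (PA κ T) T)
    (hB : ∀ T1 T2, T1 < T2 → T2 ≤ n → X ∉ BadP R (PB κ T1 T2) T2)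
    (hC : ∀ m ≤ n + 1, ∀ k : ℕ → ℕ → ℕ, (∀ i l, k i l ≤ N) →
      1 + ε - (8 * n + 16) / N < cosC N n k → X ∉ BadP R (PC κ N n m k) (n + 1))
    {c : ℂ × ℂ} (hc : IsU c) (hJ : JJ X c = 0) {th hh : ℝ} {be h b : ℕ → ℝ}
    (ha : Adm X c n th hh be h b) :
    4 * th + 4 * hh + ∑ l ∈ range (n + 1), (2 * be l + 4 * h l + 2 * b l) ≤ 1 + ε := by
  by_contra hcost
  rw [not_le] at hcost
  obtain ⟨m, hm, hdist⟩ := dich hX hA hB hc hJ
  have hN' : (0 : ℝ) < N := by exact_mod_cast hN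
  have hex : ∀ i l, 0 ≤ ex th hh be h b i l ∧ ex th hh be h b i l ≤ 1 := by
    intro i l
    unfold ex
    split_ifs
    · exact ha.th0
    · exact ha.hc0
    · exact ha.be0 l
    · exact ha.h0 l
    · exact ha.b0 l
    · exact ⟨le_refl _, zero_le_one⟩
  obtain ⟨k, hk⟩ : ∃ k : ℕ → ℕ → ℕ, k = fun i l => ⌊(N : ℝ) * ex th hh be h b i l⌋₊ := ⟨_, rfl⟩
  have hkle : ∀ i l, k i l ≤ N := fun i l => by
    rw [hk]
    exact (fl hN (hex i l).1 (hex i l).2).1
  have hk0 : ∀ l, k 0 l = ⌊(N : ℝ) * th⌋₊ := fun l => by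
    rw [hk]
    rfl
  have hk1 : ∀ l, k 1 l = ⌊(N : ℝ) * hh⌋₊ := fun l => by
    rw [hk]
    rfl
  have hk2 : ∀ l, k 2 l = ⌊(N : ℝ) * be l⌋₊ := fun l => by
    rw [hk]
    rfl
  have hk3 : ∀ l, k 3 l = ⌊(N : ℝ) * h l⌋₊ := fun l => by
    rw [hk]
    rfl
  have hk4 : ∀ l, k 4 l = ⌊(N : ℝ) * b l⌋₊ := fun l => by
    rw [hk]
    rfl
  have q0 := fl hN ha.th0.1 ha.th0.2
  have q1 := fl hN ha.hc0.1 ha.hc0.2
  have q2 := fun l => fl hN (ha.be0 l).1 (ha.be0 l).2
  have q3 := fun l => fl hN (ha.h0 l).1 (ha.h0 l).2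
  have q4 := fun l => fl hN (ha.b0 l).1 (ha.b0 l).2
  refine hC m hm k hkle ?_ ⟨hX, c, hc, hJ, ?_, ?_, fun l hl => ⟨?_, ?_, fun i hi => ?_⟩,
    fun l hl => ?_⟩
  · -- the cost
    unfold cosC
    rw [hk0, hk1]
    have hs : ∑ l ∈ range (n + 1), (2 * be l + 4 * h l + 2 * b l) - 8 * (n + 1) / N ≤
        ∑ l ∈ range (n + 1), (2 * ((k 2 l : ℝ) / N) + 4 * ((k 3 l : ℝ) / N) +
          2 * ((k 4 l : ℝ) / N)) := by
      have h1 : ∑ l ∈ range (n + 1), (2 * be l + 4 * h l + 2 * b l) - 8 * (n + 1) / N =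
          ∑ l ∈ range (n + 1), (2 * be l + 4 * h l + 2 * b l - 8 * (1 / (N : ℝ))) := by
        rw [sum_sub_distrib, sum_const, card_range, nsmul_eq_mul]
        push_cast
        ring
      rw [h1]
      refine sum_le_sum fun l _ => ?_
      rw [hk2, hk3, hk4]
      have e2 := (q2 l).2.2
      have e3 := (q3 l).2.2
      have e4 := (q4 l).2.2
      linarith
    have h2 : ((8 : ℝ) * n + 16) / N = 8 * (n + 1) / N + 8 * (1 / N) := by
      field_simp
      ring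
    rw [h2]
    have e0 := q0.2.2
    have e1 := q1.2.2
    linarith
  · -- th
    have hp : (PC κ N n m k).th = ((⌊(N : ℝ) * th⌋₊ : ℕ) : ℝ) / N := by
      simp only [PC]
      rw [hk0]
    rw [hp]
    rcases ha.cth with h0 | h0
    · left
      rw [h0]
      simp
    · right
      refine h0.trans (mul_le_mul_of_nonneg_right (rp_mono hd ?_) (Real.sqrt_nonneg _))
      linarith [q0.2.1]
  · have hp : (PC κ N n m k).hc = ((⌊(N : ℝ) * hh⌋₊ : ℕ) : ℝ) / N := by
      simp only [PC]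
      rw [hk1]
    rw [hp]
    rcases ha.chc with h0 | h0
    · left
      rw [h0]
      simp
    · right
      refine h0.trans (rp_mono hd ?_)
      linarith [q1.2.1]
  · have hp : (PC κ N n m k).be l = ((⌊(N : ℝ) * be l⌋₊ : ℕ) : ℝ) / N := by
      simp only [PC]
      rw [if_pos (by omega), hk2]
    rw [hp]
    rcases ha.cbe l (by omega) with h0 | h0
    · left
      rw [h0]
      simp
    · right
      refine h0.trans (mul_le_mul_of_nonneg_right (rp_mono hd ?_) (Real.sqrt_nonneg _))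
      linarith [(q2 l).2.1]
  · have hp : (PC κ N n m k).h l = ((⌊(N : ℝ) * h l⌋₊ : ℕ) : ℝ) / N := by
      simp only [PC]
      rw [if_pos (by omega), hk3]
    rw [hp]
    rcases ha.ch l (by omega) with h0 | h0
    · left
      rw [h0]
      simp
    · right
      refine h0.trans (rp_mono hd ?_)
      linarith [(q3 l).2.1]
  · exact hdist l (by omega) i hi
  · by_cases hln : l ≤ n
    · have hp : (PC κ N n m k).b l = ((⌊(N : ℝ) * b l⌋₊ : ℕ) : ℝ) / N := by
        simp only [PC]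
        rw [if_pos hln, hk4]
      rw [hp]
      rcases ha.cb l hln with h0 | ⟨i, hi, h0⟩
      · left
        rw [h0]
        simp
      · right
        refine ⟨i, hi, h0.trans (rp_mono hd ?_)⟩
        linarith [(q4 l).2.1]
    · left
      simp only [PC]
      rw [if_neg hln]

end Pool.Agent.H73.ES
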