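import Pool.Agent.H73.ES.Pb
import Pool.Agent.H73.ES.Supb
import Pool.Agent.H73.ES.Infb
import Pool.Agent.H73.ES.Det
import Pool.Agent.H73.ES.Opn

/-!
# [H73 ES Main] The early stage theorem

`κ1 = ε/(100 (n+2))` (the `κ` of `Det`), `N = ⌈100 (n+2)/ε⌉₊`, `κ = κ1 / (56 (n + 2))`, `R = d^κ`, `τ ≥ d^(-κ)`: `(R/τ)^(6T+8) ≤ d^(2κ(6n+14)) ≤ d^(κ1/2)` for `T ≤ n + 1`.
`bdE (PA κ1 T) T = 1 - (1 + 2κ1) = -2 κ1`; `bdE (PB κ1 T1 T2) T2 = 1 - 2 + 18 (T2+1) κ1 ≤ -1/2`; `bdE (PC κ1 N n m k) (n+1) ≤ 1 - cosC + 18 (n+2) κ1 ≤ -ε + (8n+16)/N + 18 (n+2) κ1 ≤ -ε/2` if `cosC > 1 + ε - (8n+16)/N`. All patterns are `ok`.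
So by `pb` each bad set is contained in a closed set of measure `≤ C d^(κ1/2 - 2κ1) = C d^(-3κ1/2)` (`ε/2 ≥ 2 κ1`, `1/2 ≥ 2κ1`). There are at most `(n+1) + (n+1)^2 + (n+2) (N+1)^(2 + 3(n+1))` of them (`PC` depends only on `k 0 0, k 1 0, k i l`, `i = 2,3,4`, `l ≤ n`:
index by `Fin 5 → Fin (n+1) → Fin (N+1)`). Add the exceptional sets of `supb` (`1/d`) and `infb` (`C d^(2κ) d^(4κ) / d ≤ d^(-1/2)`). With `a = κ1` the sum is `≤ d^(-a)` for `d ≥ d0`.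
`O = {X | BN2 (X - X0) < d^2 + 1 ∧ ∀ u, IsU u → 1/d < nn (FF X u) ∧ nn (FF X u) < R}` (`gg_open`) minus the finitely many closed sets; `det` gives the conclusion.
-/

set_option autoImplicit false

open Finset MeasureTheory

namespace Pool.Agent.H73.ES

open Pool.H70.SF

private theorem bd_PA (κ : ℝ) (T : ℕ) : bdE (PA κ T) T = -(2 * κ) := by
  unfold bdE
  simp only [PA]
  have h1 : ∑ l ∈ range (T + 1), 2 * (if l = T then 1 / 2 + κ else 0) = 2 * (1 / 2 + κ) := by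
    rw [sum_eq_single T]
    · rw [if_pos rfl]
    · intro l _ hl
      rw [if_neg hl, mul_zero]
    · intro h
      exact absurd (mem_range.2 (Nat.lt_succ_self T)) h
  rw [h1]
  simp
  ring

private theorem sum_bb {κ : ℝ} (hκ : 0 ≤ κ) (m T : ℕ) :
    ∑ l ∈ range T, max 0 ((if l = m then 1 / 2 + κ else 1 / 2) - 1 / 2) ≤ κ := by
  have h1 : ∀ l ∈ range T, max 0 ((if l = m then 1 / 2 + κ else 1 / 2) - 1 / 2) =
      if l = m then κ else 0 := by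
    intro l _
    by_cases h : l = m
    · rw [if_pos h, if_pos h]
      have : (1 / 2 + κ) - 1 / 2 = κ := by ring
      rw [this, max_eq_right hκ]
    · rw [if_neg h, if_neg h]
      simp
  rw [sum_congr rfl h1, sum_ite_eq']
  split_ifs
  · exact le_refl _
  · exact hκ

private theorem bd_PB {κ : ℝ} (hκ : 0 ≤ κ) {T1 T2 : ℕ} (h : T1 < T2) :
    bdE (PB κ T1 T2) T2 ≤ -1 + 18 * (T2 + 1) * κ := by
  unfold bdE
  simp only [PB]
  have h1 : (2 : ℝ) ≤ ∑ l ∈ range (T2 + 1), 2 * (if l = T1 ∨ l = T2 then 1 / 2 else 0 : ℝ) := by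
    have h2 : ({T1, T2} : Finset ℕ) ⊆ range (T2 + 1) := by
      intro x hx
      rw [mem_insert, mem_singleton] at hx
      rw [mem_range]
      omega
    refine le_trans ?_ (sum_le_sum_of_subset_of_nonneg h2 fun l _ _ => ?_)
    · rw [sum_pair h.ne, if_pos (Or.inl rfl), if_pos (Or.inr rfl)]
      norm_num
    · split_ifs <;> norm_num
  have h3 := sum_bb hκ T1 T2
  have h4 : (0 : ℝ) ≤ 18 * ((T2 : ℝ) + 1) := by positivity
  have h5 := mul_le_mul_of_nonneg_left h3 h4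
  have h6 : ∑ l ∈ range T2, (4 * (0 : ℝ) + 2 * 0) = 0 := by simp
  rw [h6]
  linarith

private theorem bd_PC {κ : ℝ} (hκ : 0 ≤ κ) (N n m : ℕ) (k : ℕ → ℕ → ℕ) :
    bdE (PC κ N n m k) (n + 1) ≤ 1 - cosC N n k + 18 * (n + 2) * κ := by
  unfold bdE cosC
  simp only [PC]
  have h1 : ∑ l ∈ range (n + 1), (4 * (if l ≤ n then (k 3 l : ℝ) / N else 0) +
      2 * (if l ≤ n then (k 2 l : ℝ) / N else 0)) =
      ∑ l ∈ range (n + 1), (4 * ((k 3 l : ℝ) / N) + 2 * ((k 2 l : ℝ) / N)) := by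
    refine sum_congr rfl fun l hl => ?_
    have h2 : l ≤ n := by
      have := mem_range.1 hl
      omega
    rw [if_pos h2, if_pos h2]
  have h3 : ∑ l ∈ range (n + 1 + 1), 2 * (if l ≤ n then (k 4 l : ℝ) / N else 0) =
      ∑ l ∈ range (n + 1), 2 * ((k 4 l : ℝ) / N) := by
    rw [sum_range_succ, if_neg (by omega), mul_zero, add_zero]
    refine sum_congr rfl fun l hl => ?_
    have h2 : l ≤ n := by
      have := mem_range.1 hl
      omega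
    rw [if_pos h2]
  have h4 : ∑ l ∈ range (n + 1), (2 * ((k 2 l : ℝ) / N) + 4 * ((k 3 l : ℝ) / N) +
      2 * ((k 4 l : ℝ) / N)) = ∑ l ∈ range (n + 1), (4 * ((k 3 l : ℝ) / N) + 2 * ((k 2 l : ℝ) / N)) +
      ∑ l ∈ range (n + 1), 2 * ((k 4 l : ℝ) / N) := by
    rw [← sum_add_distrib]
    refine sum_congr rfl fun l _ => ?_
    ring
  have h5 := sum_bb hκ m (n + 1)
  have h6 : (0 : ℝ) ≤ 18 * (((n + 1 : ℕ) : ℝ) + 1) := by positivity
  have h7 := mul_le_mul_of_nonneg_left h5 h6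
  have h8 : 18 * (((n + 1 : ℕ) : ℝ) + 1) * κ = 18 * (n + 2) * κ := by
    push_cast
    ring
  rw [h1, h3, h4]
  rw [h8] at h7
  linarith

/-- the list of bad patterns -/
private def pats (κ ε : ℝ) (N n : ℕ) : Set (Pat × ℕ) :=
  {q | (∃ T ≤ n, q = (PA κ T, T)) ∨ (∃ T1 T2, T1 < T2 ∧ T2 ≤ n ∧ q = (PB κ T1 T2, T2)) ∨
    ∃ m ≤ n + 1, ∃ k : ℕ → ℕ → ℕ, (∀ i l, k i l ≤ N) ∧ 1 + ε - (8 * n + 16) / N < cosC N n k ∧
      q = (PC κ N n m k, n + 1)}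

private theorem PC_congr {κ : ℝ} {N n m : ℕ} {k k' : ℕ → ℕ → ℕ} (h0 : k 0 0 = k' 0 0)
    (h1 : k 1 0 = k' 1 0) (h2 : ∀ l ≤ n, k 2 l = k' 2 l) (h3 : ∀ l ≤ n, k 3 l = k' 3 l)
    (h4 : ∀ l ≤ n, k 4 l = k' 4 l) : PC κ N n m k = PC κ N n m k' := by
  have e : ∀ i, (∀ l ≤ n, k i l = k' i l) → (fun l => if l ≤ n then (k i l : ℝ) / N else 0) =
      fun l => if l ≤ n then (k' i l : ℝ) / N else 0 := by
    intro i hi
    funext l
    by_cases hl : l ≤ n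
    · rw [if_pos hl, if_pos hl, hi l hl]
    · rw [if_neg hl, if_neg hl]
  unfold PC
  rw [h0, h1, e 2 h2, e 3 h3, e 4 h4]

private theorem pats_fin (κ ε : ℝ) (N n : ℕ) : (pats κ ε N n).Finite := by
  have f1 : (Set.range (fun T : Fin (n + 1) => (PA κ T, (T : ℕ)))).Finite := Set.finite_range _
  have f2 : (Set.range (fun q : Fin (n + 1) × Fin (n + 1) =>
    (PB κ q.1 q.2, (q.2 : ℕ)))).Finite := Set.finite_range _
  have f3 : (Set.range (fun q : Fin (n + 2) × (Fin 5 → Fin (n + 1) → Fin (N + 1)) =>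
    (PC κ N n q.1 (fun i l => if h : i < 5 ∧ l < n + 1 then (q.2 ⟨i, h.1⟩ ⟨l, h.2⟩ : ℕ) else 0),
      n + 1))).Finite := Set.finite_range _
  refine ((f1.union f2).union f3).subset ?_
  rintro q (⟨T, hT, rfl⟩ | ⟨T1, T2, h12, hT, rfl⟩ | ⟨m, hm, k, hk, -, rfl⟩)
  · exact Or.inl (Or.inl ⟨⟨T, by omega⟩, rfl⟩)
  · exact Or.inl (Or.inr ⟨(⟨T1, by omega⟩, ⟨T2, by omega⟩), rfl⟩)
  · right
    refine ⟨(⟨m, by omega⟩, fun i l => ⟨k i l, by have := hk i l; omega⟩), ?_⟩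
    have hk' : ∀ i l, i < 5 → l ≤ n →
        (if _h : i < 5 ∧ l < n + 1 then k i l else 0) = k i l := by
      intro i l hi hl
      rw [dif_pos ⟨hi, by omega⟩]
    exact Prod.ext (PC_congr
      (k := fun i l => if _h : i < 5 ∧ l < n + 1 then k i l else 0) (k' := k)
      (hk' 0 0 (by norm_num) (by omega)) (hk' 1 0 (by norm_num) (by omega))
      (fun l hl => hk' 2 l (by norm_num) hl) (fun l hl => hk' 3 l (by norm_num) hl)
      (fun l hl => hk' 4 l (by norm_num) hl)) rfl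

private theorem pats_spec {κ ε : ℝ} {N n : ℕ} (hκ : 0 ≤ κ) (hκ1 : κ * (100 * (n + 2)) = ε)
    (hε1 : ε ≤ 1 / 10) (hN : 1 ≤ N) (hN1 : 100 * (n + 2) / ε ≤ N) (hε : 0 < ε) {q : Pat × ℕ}
    (hq : q ∈ pats κ ε N n) : q.1.ok ∧ q.2 ≤ n + 1 ∧ bdE q.1 q.2 ≤ -(2 * κ) := by
  have hn : (0 : ℝ) ≤ n := Nat.cast_nonneg n
  have hκ2 : κ ≤ 1 / 2000 := by nlinarith
  have hκn : 18 * ((n : ℝ) + 2) * κ ≤ 18 / 100 * ε := by linarith
  have hN' : (0 : ℝ) < N := by exact_mod_cast hN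
  rcases hq with ⟨T, hT, rfl⟩ | ⟨T1, T2, h12, hT, rfl⟩ | ⟨m, hm, k, hk, hc, rfl⟩
  · refine ⟨⟨by simp [PA], by simp [PA], fun l => by simp [PA], fun l => by simp [PA],
      fun l => ?_, fun l => ?_⟩, by omega, (bd_PA κ T).le⟩
    · simp only [PA]
      split_ifs
      · constructor <;> linarith
      · constructor <;> norm_num
    · simp only [PA]
      constructor <;> norm_num
  · refine ⟨⟨by simp [PB], by simp [PB], fun l => by simp [PB], fun l => by simp [PB],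
      fun l => ?_, fun l => ?_⟩, by omega, (bd_PB hκ h12).trans ?_⟩
    · simp only [PB]
      split_ifs <;> constructor <;> norm_num
    · simp only [PB]
      split_ifs
      · constructor <;> linarith
      · constructor <;> norm_num
    · have hT' : (T2 : ℝ) ≤ n := by exact_mod_cast hT
      have h1 : 18 * ((T2 : ℝ) + 1) * κ ≤ 18 * ((n : ℝ) + 2) * κ := by
        apply mul_le_mul_of_nonneg_right _ hκ
        linarith
      linarith
  · have hk' : ∀ i l, 0 ≤ (k i l : ℝ) / N ∧ (k i l : ℝ) / N ≤ 1 := by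
      intro i l
      have h1 : (k i l : ℝ) ≤ N := by exact_mod_cast hk i l
      exact ⟨by positivity, (div_le_one hN').2 h1⟩
    refine ⟨⟨hk' 0 0, hk' 1 0, fun l => ?_, fun l => ?_, fun l => ?_, fun l => ?_⟩,
      le_refl _, (bd_PC hκ N n m k).trans ?_⟩
    · simp only [PC]
      split_ifs
      · exact hk' 2 l
      · constructor <;> norm_num
    · simp only [PC]
      split_ifs
      · exact hk' 3 l
      · constructor <;> norm_num
    · simp only [PC]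
      split_ifs
      · exact hk' 4 l
      · constructor <;> norm_num
    · simp only [PC]
      split_ifs
      · constructor <;> linarith
      · constructor <;> norm_num
    · have h1 : (8 * (n : ℝ) + 16) / N ≤ 8 / 100 * ε := by
        rw [div_le_iff₀ hN']
        rw [div_le_iff₀ hε] at hN1
        nlinarith
      have h2 : 2 * κ ≤ ε / 10 := by
        have : ε = κ * (100 * (n + 2)) := hκ1.symm
        nlinarith
      linarith

theorem es_main (n : ℕ) {ε : ℝ} (hε : 0 < ε) (hε1 : ε ≤ 1 / 10) : ∃ κ a : ℝ, 0 < κ ∧ κ ≤ ε ∧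
    0 < a ∧ ∃ d0 : ℕ, ∀ d ≥ d0, ∀ (A : ℝ) (X0 : CV d) (τ : ℝ), 0 ≤ A → (d : ℝ) ^ (-κ) ≤ τ →
    τ ≤ 1 → gau A X0 τ Set.univ ≤ 1 → (∀ u, IsU u → nn (FF X0 u) ≤ (d : ℝ) ^ κ / 2) →
    ∃ O : Set (CV d), IsOpen O ∧ gau A X0 τ Oᶜ ≤ ENNReal.ofReal ((d : ℝ) ^ (-a)) ∧ ∀ X ∈ O,
      BN2 (X - X0) ≤ (d : ℝ) ^ 2 + 1 ∧ GG ((d : ℝ) ^ κ) X ∧
      ∀ c, IsU c → JJ X c = 0 → ∀ (th hc : ℝ) (be h b : ℕ → ℝ), Adm X c n th hc be h b →
        4 * th + 4 * hc + ∑ l ∈ range (n + 1), (2 * be l + 4 * h l + 2 * b l) ≤ 1 + ε := by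
  classical
  have hn : (0 : ℝ) ≤ n := Nat.cast_nonneg n
  obtain ⟨κ1, hκ1⟩ : ∃ κ1 : ℝ, κ1 = ε / (100 * (n + 2)) := ⟨_, rfl⟩
  have hκe : κ1 * (100 * (n + 2)) = ε := by
    rw [hκ1]
    field_simp
  have hκ1p : 0 < κ1 := by
    rw [hκ1]
    positivity
  have hκ1s : κ1 ≤ 1 / 2000 := by nlinarith
  have hκ1ε : κ1 ≤ ε := by nlinarith
  obtain ⟨N, hN⟩ : ∃ N : ℕ, N = ⌈100 * ((n : ℝ) + 2) / ε⌉₊ := ⟨_, rfl⟩
  have hN1 : 100 * ((n : ℝ) + 2) / ε ≤ N := by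
    rw [hN]
    exact Nat.le_ceil _
  have hN0 : 1 ≤ N := by
    rw [hN, Nat.one_le_ceil_iff]
    positivity
  obtain ⟨κ, hκ⟩ : ∃ κ : ℝ, κ = κ1 / (56 * (n + 2)) := ⟨_, rfl⟩
  have hκm : κ * (56 * (n + 2)) = κ1 := by
    rw [hκ]
    field_simp
  have hκp : 0 < κ := by
    rw [hκ]
    positivity
  have hκs : κ * 112 ≤ κ1 := by nlinarith
  obtain ⟨C1, d1, hC1, hpb⟩ := pb n
  obtain ⟨d2, hsup⟩ := supb hκp
  obtain ⟨C3, hC3, hinf⟩ := infb
  obtain ⟨S, hS⟩ : ∃ S : Finset (Pat × ℕ), S = (pats_fin κ1 ε N n).toFinset := ⟨_, rfl⟩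
  have hSm : ∀ q, q ∈ S ↔ q ∈ pats κ1 ε N n := by
    intro q
    rw [hS, Set.Finite.mem_toFinset]
  obtain ⟨d3, hd3⟩ : ∃ d3 : ℕ, ∀ d : ℕ, d3 ≤ d → 1 + C3 + S.card * C1 ≤ (d : ℝ) ^ (κ1 / 2) := by
    have h1 : Filter.Tendsto (fun d : ℕ => (d : ℝ) ^ (κ1 / 2)) Filter.atTop Filter.atTop :=
      (tendsto_rpow_atTop (by positivity)).comp tendsto_natCast_atTop_atTop
    exact Filter.eventually_atTop.1 (h1.eventually_ge_atTop _)
  refine ⟨κ, κ1, hκp, by linarith, hκ1p, max (max 2 d1) (max d2 d3),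
    fun d hd A X0 τ hA hτ hτ1 hg hX0 => ?_⟩
  have hd2' : 2 ≤ d := le_trans (le_trans (le_max_left _ _) (le_max_left _ _)) hd
  have hdd1 : d1 ≤ d := le_trans (le_trans (le_max_right _ _) (le_max_left _ _)) hd
  have hdd2 : d2 ≤ d := le_trans (le_trans (le_max_left _ _) (le_max_right _ _)) hd
  have hdd3 : d3 ≤ d := le_trans (le_trans (le_max_right _ _) (le_max_right _ _)) hd
  have hd1r : (1 : ℝ) ≤ d := by
    have : (2 : ℝ) ≤ d := by exact_mod_cast hd2'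
    linarith
  have hd0 : (0 : ℝ) < d := by linarith
  have hmono : ∀ {x y : ℝ}, x ≤ y → (d : ℝ) ^ x ≤ (d : ℝ) ^ y := fun h =>
    Real.rpow_le_rpow_of_exponent_le hd1r h
  have hτ0 : 0 < τ := lt_of_lt_of_le (Real.rpow_pos_of_pos hd0 _) hτ
  obtain ⟨R, hR⟩ : ∃ R : ℝ, R = (d : ℝ) ^ κ := ⟨_, rfl⟩
  have hR1 : 1 ≤ R := by
    rw [hR]
    exact Real.one_le_rpow hd1r hκp.le
  have hRd : R ≤ d := by
    rw [hR]
    calc (d : ℝ) ^ κ ≤ (d : ℝ) ^ (1 : ℝ) := hmono (by linarith)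
      _ = d := Real.rpow_one _
  obtain ⟨t, ht⟩ : ∃ t : ℝ, t = (d : ℝ) ^ (-(3 * κ1 / 2)) := ⟨_, rfl⟩
  have ht0 : 0 < t := by
    rw [ht]
    exact Real.rpow_pos_of_pos hd0 _
  have hRτ : R / τ ≤ (d : ℝ) ^ (2 * κ) := by
    rw [div_le_iff₀ hτ0, hR]
    calc (d : ℝ) ^ κ = (d : ℝ) ^ (2 * κ) * (d : ℝ) ^ (-κ) := by
          rw [← Real.rpow_add hd0]
          congr 1
          ring
      _ ≤ (d : ℝ) ^ (2 * κ) * τ :=
          mul_le_mul_of_nonneg_left hτ (Real.rpow_nonneg hd0.le _)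
  have hRτ1 : 1 ≤ (d : ℝ) ^ (2 * κ) := Real.one_le_rpow hd1r (by linarith)
  -- the bad sets
  have hZ : ∀ q ∈ S, ∃ Z : Set (CV d), IsClosed Z ∧ BadP R q.1 q.2 ⊆ Z ∧
      gau A X0 τ Z ≤ ENNReal.ofReal (C1 * t) := by
    intro q hq
    obtain ⟨h1, h2, h3⟩ := pats_spec hκ1p.le hκe hε1 hN0 hN1 hε ((hSm q).1 hq)
    obtain ⟨Z, hZ1, hZ2, hZ3⟩ := hpb d hdd1 A X0 τ hA hτ0 hτ1 hg R hR1 hRd q.1 h1 q.2 h2
    refine ⟨Z, hZ1, hZ2, hZ3.trans (ENNReal.ofReal_le_ofReal ?_)⟩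
    rw [mul_assoc]
    apply mul_le_mul_of_nonneg_left _ hC1
    have h4 : (R / τ) ^ (6 * q.2 + 8) ≤ (d : ℝ) ^ (κ1 / 2) := by
      calc (R / τ) ^ (6 * q.2 + 8) ≤ ((d : ℝ) ^ (2 * κ)) ^ (6 * q.2 + 8) :=
            pow_le_pow_left₀ (by positivity) hRτ _
        _ ≤ ((d : ℝ) ^ (2 * κ)) ^ (6 * n + 14) := pow_le_pow_right₀ hRτ1 (by omega)
        _ = (d : ℝ) ^ (2 * κ * (6 * n + 14)) := by
            rw [← Real.rpow_natCast, ← Real.rpow_mul hd0.le]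
            congr 2
            push_cast
            ring
        _ ≤ (d : ℝ) ^ (κ1 / 2) := by
            apply hmono
            nlinarith
    calc (R / τ) ^ (6 * q.2 + 8) * (d : ℝ) ^ bdE q.1 q.2
        ≤ (d : ℝ) ^ (κ1 / 2) * (d : ℝ) ^ (-(2 * κ1)) :=
          mul_le_mul h4 (hmono h3) (Real.rpow_nonneg hd0.le _) (Real.rpow_nonneg hd0.le _)
      _ = t := by
          rw [← Real.rpow_add hd0, ht]
          congr 1
          ring
  choose! Z hZc hZs hZm using hZ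
  obtain ⟨O1, hO1⟩ : ∃ O1 : Set (CV d), O1 = {X : CV d | BN2 (X - X0) < (d : ℝ) ^ 2 + 1 ∧
    ∀ u, IsU u → (d : ℝ)⁻¹ < nn (FF X u) ∧ nn (FF X u) < R} := ⟨_, rfl⟩
  have hO1o : IsOpen O1 := by
    rw [hO1]
    exact gg_open X0 _ _ _
  obtain ⟨E1, hE1⟩ : ∃ E1 : Set (CV d), E1 = {X : CV d | ¬ (BN2 (X - X0) ≤ (d : ℝ) ^ 2 ∧
    ∀ u, IsU u → nn (FF X u) < (d : ℝ) ^ κ)} := ⟨_, rfl⟩
  obtain ⟨E2, hE2⟩ : ∃ E2 : Set (CV d), E2 = {X : CV d | (∀ u, IsU u → nn (FF X u) ≤ R) ∧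
    ∃ u, IsU u ∧ nn (FF X u) ≤ (d : ℝ)⁻¹} := ⟨_, rfl⟩
  have m1 : gau A X0 τ E1 ≤ ENNReal.ofReal t := by
    rw [hE1]
    refine (hsup d hdd2 A X0 τ hA hτ0 hτ1 hg hX0).trans (ENNReal.ofReal_le_ofReal ?_)
    rw [ht, one_div, ← Real.rpow_neg_one]
    exact hmono (by linarith)
  have m2 : gau A X0 τ E2 ≤ ENNReal.ofReal (C3 * t) := by
    rw [hE2]
    refine (hinf d hd2' A X0 τ hA hτ0 hτ1 hg R hR1).trans (ENNReal.ofReal_le_ofReal ?_)
    rw [mul_div_assoc]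
    apply mul_le_mul_of_nonneg_left _ hC3
    have h1 : ((d : ℝ) ^ (-κ)) ^ 4 ≤ τ ^ 4 :=
      pow_le_pow_left₀ (Real.rpow_nonneg hd0.le _) hτ 4
    have h2 : ((d : ℝ) ^ (-κ)) ^ 4 = (d : ℝ) ^ (-(4 * κ)) := by
      rw [← Real.rpow_natCast, ← Real.rpow_mul hd0.le]
      congr 1
      push_cast
      ring
    have h3 : R ^ 2 = (d : ℝ) ^ (2 * κ) := by
      rw [hR, ← Real.rpow_natCast, ← Real.rpow_mul hd0.le]
      congr 1
      push_cast
      ring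
    rw [h2] at h1
    rw [div_le_iff₀ (by positivity), h3]
    calc (d : ℝ) ^ (2 * κ) ≤ (d : ℝ) ^ (-(3 * κ1 / 2) + 1 + -(4 * κ)) := hmono (by linarith)
      _ = t * (d * (d : ℝ) ^ (-(4 * κ))) := by
          rw [Real.rpow_add hd0, Real.rpow_add hd0, Real.rpow_one, ht]
          ring
      _ ≤ t * (d * τ ^ 4) := by
          apply mul_le_mul_of_nonneg_left _ ht0.le
          exact mul_le_mul_of_nonneg_left h1 hd0.le
  refine ⟨O1 \ ⋃ q ∈ S, Z q, ?_, ?_, ?_⟩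
  · exact hO1o.sdiff (isClosed_biUnion_finset hZc)
  · have hsub : (O1 \ ⋃ q ∈ S, Z q)ᶜ ⊆ (E1 ∪ E2) ∪ ⋃ q ∈ S, Z q := by
      intro X hX
      by_cases hXZ : X ∈ ⋃ q ∈ S, Z q
      · exact Or.inr hXZ
      · left
        have hXO : X ∉ O1 := fun h => hX ⟨h, hXZ⟩
        by_cases hXE : X ∈ E1
        · exact Or.inl hXE
        · right
          rw [hE1] at hXE
          have hXE := not_not.1 hXE
          obtain ⟨h1, h2⟩ := hXE
          rw [hE2]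
          rw [← hR] at h2
          refine ⟨fun u hu => (h2 u hu).le, ?_⟩
          by_contra hcon
          apply hXO
          rw [hO1]
          refine ⟨by linarith, fun u hu => ⟨?_, h2 u hu⟩⟩
          by_contra h3
          exact hcon ⟨u, hu, not_lt.1 h3⟩
    refine (measure_mono hsub).trans ((measure_union_le _ _).trans ?_)
    refine (add_le_add ((measure_union_le _ _).trans (add_le_add m1 m2))
      ((measure_biUnion_finset_le S Z).trans (sum_le_sum hZm))).trans ?_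
    rw [sum_const, ← ENNReal.ofReal_nsmul, ← ENNReal.ofReal_add ht0.le (by positivity),
      ← ENNReal.ofReal_add (by positivity) (by positivity)]
    apply ENNReal.ofReal_le_ofReal
    rw [nsmul_eq_mul]
    calc t + C3 * t + S.card * (C1 * t) = (1 + C3 + S.card * C1) * t := by ring
      _ ≤ (d : ℝ) ^ (κ1 / 2) * t := mul_le_mul_of_nonneg_right (hd3 d hdd3) ht0.le
      _ = (d : ℝ) ^ (-κ1) := by
          rw [ht, ← Real.rpow_add hd0]
          congr 1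
          ring
  · rintro X ⟨hXO, hXZ⟩
    rw [hO1] at hXO
    obtain ⟨h1, h2⟩ := hXO
    have hGG : GG R X := fun u hu => ⟨(h2 u hu).1.le, (h2 u hu).2.le⟩
    have hbad : ∀ q ∈ pats κ1 ε N n, X ∉ BadP R q.1 q.2 := by
      intro q hq hXq
      apply hXZ
      rw [Set.mem_iUnion₂]
      exact ⟨q, (hSm q).2 hq, hZs q ((hSm q).2 hq) hXq⟩
    refine ⟨h1.le, ?_, ?_⟩
    · rw [← hR]
      exact hGG
    · intro c hc hJ th hh be h b ha
      refine det (R := R) (N := N) (κ := κ1) (by omega) hN0 hκ1p (by linarith) hGG ?_ ?_ ?_ hc hJ ha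
      · intro T hT
        exact hbad (PA κ1 T, T) (Or.inl ⟨T, hT, rfl⟩)
      · intro T1 T2 h12 hT
        exact hbad (PB κ1 T1 T2, T2) (Or.inr (Or.inl ⟨T1, T2, h12, hT, rfl⟩))
      · intro m hm k hk hcos
        exact hbad (PC κ1 N n m k, n + 1) (Or.inr (Or.inr ⟨m, hm, k, hk, hcos, rfl⟩))

end Pool.Agent.H73.ES
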