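import Mathlib

/-!
# [H73 ES Np] A submultiplicative norm on polynomials

`NP x g = ∑ j, ‖g.coeff j‖ x ^ j` (`x ≥ 0`; the sum over `range (natDegree + 1)`). `np_mul`: `Polynomial.coeff_mul`, triangle
inequality, exchange the sums (both sides are evaluations at `x` of the polynomials with coefficients `‖g.coeff j‖`;
`NP x g = (g.sum ...)`; useful: for every `n ≥ natDegree`, `NP x g = ∑ j ∈ range (n+1), ...`).
`np_lin`: `natDegree ≤ 1`. `np_pow`: induction. `np_norm`: `binom d j ≥ (d / j)^j ≥ (d/k)^j` for `1 ≤ j ≤ k ≤ d`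
(`Nat.pow_le_choose`-type: `(d/j)^j ≤ binom d j` in `ℝ`, induct or product formula), so
`‖g_j‖^2 / binom d j ≤ k^j (‖g_j‖ d^(-j/2))^2 ≤ k^k (…)^2`, and a sum of squares of nonnegative numbers is `≤` the square
of the sum.
-/

set_option autoImplicit false

open Finset MeasureTheory

namespace Pool.Agent.H73.ES

open Polynomial in
/-- weighted `l^1` norm of the coefficients -/
noncomputable def NP (x : ℝ) (g : Polynomial ℂ) : ℝ :=
  ∑ j ∈ range (g.natDegree + 1), ‖g.coeff j‖ * x ^ j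

theorem np_eq_range (x : ℝ) (g : Polynomial ℂ) {n : ℕ} (hn : g.natDegree ≤ n) :
    NP x g = ∑ j ∈ range (n + 1), ‖g.coeff j‖ * x ^ j := by
  rw [NP]
  refine sum_subset (fun j hj => ?_) (fun j _ hj => ?_)
  · rw [mem_range] at hj ⊢
    omega
  · rw [mem_range] at hj
    rw [Polynomial.coeff_eq_zero_of_natDegree_lt (by omega), norm_zero, zero_mul]

theorem np_nonneg {x : ℝ} (hx : 0 ≤ x) (g : Polynomial ℂ) : 0 ≤ NP x g := by
  rw [NP]
  exact sum_nonneg fun j _ => mul_nonneg (norm_nonneg _) (pow_nonneg hx j)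

/-- the polynomial with coefficients `‖g.coeff j‖` -/
noncomputable def nPoly (g : Polynomial ℂ) : Polynomial ℝ :=
  ∑ j ∈ range (g.natDegree + 1), Polynomial.C ‖g.coeff j‖ * Polynomial.X ^ j

theorem nPoly_coeff (g : Polynomial ℂ) (j : ℕ) : (nPoly g).coeff j = ‖g.coeff j‖ := by
  rw [nPoly, Polynomial.finsetSum_coeff]
  simp only [Polynomial.coeff_C_mul, Polynomial.coeff_X_pow, mul_ite, mul_one, mul_zero,
    sum_ite_eq, mem_range]
  split_ifs with h
  · rfl
  · rw [Polynomial.coeff_eq_zero_of_natDegree_lt (by omega), norm_zero]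

theorem nPoly_natDegree (g : Polynomial ℂ) : (nPoly g).natDegree ≤ g.natDegree := by
  rw [Polynomial.natDegree_le_iff_coeff_eq_zero]
  intro j hj
  rw [nPoly_coeff, Polynomial.coeff_eq_zero_of_natDegree_lt hj, norm_zero]

theorem nPoly_eval (x : ℝ) (g : Polynomial ℂ) : (nPoly g).eval x = NP x g := by
  rw [Polynomial.eval_eq_sum_range' (Nat.lt_succ_of_le (nPoly_natDegree g)), NP]
  simp only [nPoly_coeff]

theorem np_mul {x : ℝ} (hx : 0 ≤ x) (g h : Polynomial ℂ) : NP x (g * h) ≤ NP x g * NP x h := by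
  have h1 : (nPoly g * nPoly h).natDegree ≤ g.natDegree + h.natDegree :=
    Polynomial.natDegree_mul_le.trans (add_le_add (nPoly_natDegree g) (nPoly_natDegree h))
  rw [← nPoly_eval x g, ← nPoly_eval x h, ← Polynomial.eval_mul,
    Polynomial.eval_eq_sum_range' (Nat.lt_succ_of_le h1), np_eq_range x (g * h)
      (Polynomial.natDegree_mul_le)]
  refine sum_le_sum fun n _ => mul_le_mul_of_nonneg_right ?_ (pow_nonneg hx n)
  rw [Polynomial.coeff_mul, Polynomial.coeff_mul]
  refine (norm_sum_le _ _).trans (le_of_eq ?_)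
  refine sum_congr rfl fun y _ => ?_
  rw [norm_mul, nPoly_coeff, nPoly_coeff]

theorem np_lin {x : ℝ} (hx : 0 ≤ x) (ρ : ℂ) :
    NP x (1 + Polynomial.C ρ * Polynomial.X) ≤ 1 + ‖ρ‖ * x := by
  have h1 : (1 + Polynomial.C ρ * Polynomial.X : Polynomial ℂ).natDegree ≤ 1 := by
    refine (Polynomial.natDegree_add_le _ _).trans ?_
    refine max_le (by simp) ?_
    exact (Polynomial.natDegree_C_mul_le _ _).trans Polynomial.natDegree_X_le
  rw [np_eq_range x _ h1, sum_range_succ, sum_range_one]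
  simp [Polynomial.coeff_one]

theorem np_X {x : ℝ} (hx : 0 ≤ x) : NP x Polynomial.X ≤ x := by
  rw [np_eq_range x _ Polynomial.natDegree_X_le, sum_range_succ, sum_range_one]
  simp

theorem np_pow {x : ℝ} (hx : 0 ≤ x) (g : Polynomial ℂ) (n : ℕ) : NP x (g ^ n) ≤ NP x g ^ n := by
  induction n with
  | zero =>
    rw [pow_zero, pow_zero, np_eq_range x _ (n := 0) (by simp), sum_range_one]
    simp
  | succ n ih =>
    rw [pow_succ, pow_succ]
    exact (np_mul hx _ _).trans (mul_le_mul_of_nonneg_right ih (np_nonneg hx g))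

theorem pow_le_choose_np {d j : ℕ} (hj : j ≤ d) : d ^ j ≤ j ^ j * d.choose j := by
  have h1 : d ^ j * j.factorial ≤ j ^ j * d.descFactorial j := by
    have e1 : d ^ j = ∏ _i ∈ range j, d := by rw [prod_const, card_range]
    have e2 : j ^ j = ∏ _i ∈ range j, j := by rw [prod_const, card_range]
    rw [← Nat.descFactorial_self, Nat.descFactorial_eq_prod_range,
      Nat.descFactorial_eq_prod_range, e1, e2, ← prod_mul_distrib, ← prod_mul_distrib]
    refine prod_le_prod' fun i hi => ?_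
    rw [mem_range] at hi
    rw [Nat.mul_sub, Nat.mul_sub, mul_comm j d]
    have h2 : j * i ≤ d * i := Nat.mul_le_mul_right _ hj
    omega
  rw [Nat.descFactorial_eq_factorial_mul_choose] at h1
  have h2 : d ^ j * j.factorial ≤ (j ^ j * d.choose j) * j.factorial := by
    calc _ ≤ _ := h1
      _ = _ := by ring
  exact Nat.le_of_mul_le_mul_right h2 (Nat.factorial_pos j)

theorem np_norm {d k : ℕ} (hk : 1 ≤ k) (hkd : k ≤ d) (g : Polynomial ℂ) (hg : g.natDegree ≤ k) :
    ∑ j : Fin (d + 1), ‖g.coeff j‖ ^ 2 / (d.choose j : ℝ) ≤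
      (k : ℝ) ^ k * NP ((Real.sqrt d)⁻¹) g ^ 2 := by
  have hd0 : (0 : ℝ) < d := by exact_mod_cast (by omega : 0 < d)
  have hk1 : (1 : ℝ) ≤ k := by exact_mod_cast hk
  set x : ℝ := (Real.sqrt d)⁻¹ with hx
  have hx0 : 0 ≤ x := by positivity
  have hx2 : x ^ 2 = (d : ℝ)⁻¹ := by
    rw [hx, inv_pow, Real.sq_sqrt hd0.le]
  rw [Fin.sum_univ_eq_sum_range (fun j => ‖g.coeff j‖ ^ 2 / (d.choose j : ℝ)) (d + 1),
    np_eq_range x g (n := d) (hg.trans hkd)]
  set a : ℕ → ℝ := fun j => ‖g.coeff j‖ * x ^ j with ha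
  have ha0 : ∀ j, 0 ≤ a j := fun j => by positivity
  have h1 : ∀ j ∈ range (d + 1), ‖g.coeff j‖ ^ 2 / (d.choose j : ℝ) ≤ (k : ℝ) ^ k * a j ^ 2 := by
    intro j hj
    rw [mem_range] at hj
    by_cases hjk : j ≤ k
    · have hch : 0 < d.choose j := Nat.choose_pos (by omega)
      have hch' : (0 : ℝ) < d.choose j := by exact_mod_cast hch
      rw [div_le_iff₀ hch']
      have h2 : ((d : ℝ)) ^ j ≤ (k : ℝ) ^ k * d.choose j := by
        have h3 := pow_le_choose_np (d := d) (j := j) (by omega)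
        have h4 : (j : ℕ) ^ j ≤ k ^ k :=
          (Nat.pow_le_pow_left hjk j).trans (Nat.pow_le_pow_right (by omega) hjk)
        have h5 : d ^ j ≤ k ^ k * d.choose j := h3.trans (Nat.mul_le_mul_right _ h4)
        exact_mod_cast h5
      have h6 : a j ^ 2 = ‖g.coeff j‖ ^ 2 * ((d : ℝ) ^ j)⁻¹ := by
        rw [ha]
        simp only
        rw [mul_pow, ← pow_mul, mul_comm j 2, pow_mul, hx2, inv_pow]
      rw [h6]
      have hdj : (0 : ℝ) < (d : ℝ) ^ j := by positivity
      calc ‖g.coeff j‖ ^ 2 = ‖g.coeff j‖ ^ 2 * ((d : ℝ) ^ j)⁻¹ * (d : ℝ) ^ j := by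
            field_simp
        _ ≤ ‖g.coeff j‖ ^ 2 * ((d : ℝ) ^ j)⁻¹ * ((k : ℝ) ^ k * d.choose j) :=
            mul_le_mul_of_nonneg_left h2 (by positivity)
        _ = _ := by ring
    · rw [Polynomial.coeff_eq_zero_of_natDegree_lt (by omega), norm_zero]
      rw [zero_pow two_ne_zero, zero_div]
      positivity
  refine (sum_le_sum h1).trans ?_
  rw [← mul_sum]
  refine mul_le_mul_of_nonneg_left ?_ (by positivity)
  set S := ∑ j ∈ range (d + 1), a j with hS
  have h2 : ∀ j ∈ range (d + 1), a j ^ 2 ≤ a j * S := by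
    intro j hj
    rw [sq]
    exact mul_le_mul_of_nonneg_left (single_le_sum (fun i _ => ha0 i) hj) (ha0 j)
  refine (sum_le_sum h2).trans (le_of_eq ?_)
  rw [← sum_mul, sq]

end Pool.Agent.H73.ES
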