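import Pool.Agent.H73.ES.Rs

/-!
# [H73 ES Van] Forms vanishing at a point to a given order

`u, w` unit vectors, `wd u w ≠ 0`, `ρ = wd (pp u) w / wd u w`. If the jets of `p` at `u` are the coefficients of `g * (1 + ρ X)^r`,
`natDegree g + r ≤ d`, then the jets of order `< r` of `p` at `w` vanish. Proof: by `kexp'`, for all `a b`:
`hev p (a u + b pp u) = ∑ k ≤ d, coeff_k (g (1 + ρX)^r) a^(d-k) b^k = G(a,b) (a + ρ b)^r` with
`G(a,b) = ∑ j ≤ d - r, g.coeff j * a^(d-r-j) b^j` (multiply out; or: both sides are polynomials in `a`, equal for `a ≠ 0` because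
they are `a^d` times the value at `b/a`, continuity for `a = 0`). For `z = w + t pp w`, `a = hm z u`, `b = wd u z`:
`wd z w = a wd u w + b wd (pp u) w` (from `z = a u + b pp u`, `dec`), so `a + ρ b = wd z w / wd u w`, and
`wd z w = t wd (pp w) w = - t` (`n2 w = 1`). So `hev p (w + t pp w) = (polynomial in t) * (-t / wd u w)^r`: `X^r` divides `rsP p w`
(`Polynomial.funext`, `rs_eval`; the polynomial is `G(hm w u + t hm (pp w) u, wd u w + t wd u (pp w))`), so
`jt p w j = 0` for `j < r` (`Polynomial.X_pow_dvd_iff`).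
`rho_le`: `‖wd (pp u) w‖ ≤ 1` for unit vectors, so `‖ρ‖ ≤ 1 / ‖wd u w‖`.
-/

set_option autoImplicit false

open Finset MeasureTheory

namespace Pool.Agent.H73.ES

open Pool.H70.SF

private theorem van_n2 (a : ℂ × ℂ) : ((n2 a : ℝ) : ℂ) = a.1 * starRingEnd ℂ a.1 +
    a.2 * starRingEnd ℂ a.2 := by
  unfold n2
  rw [Complex.mul_conj, Complex.mul_conj, Complex.normSq_eq_norm_sq, Complex.normSq_eq_norm_sq]
  push_cast
  rfl

theorem rho_le {u w : ℂ × ℂ} (hu : IsU u) (hw : IsU w) :
    ‖wd (pp u) w / wd u w‖ ≤ 1 / ‖wd u w‖ := by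
  rw [norm_div]
  refine div_le_div_of_nonneg_right ?_ (norm_nonneg _)
  have h1 : ‖wd (pp u) w‖ ^ 2 + ‖wd u w‖ ^ 2 = n2 u * n2 w := by
    unfold wd pp n2
    simp only [Complex.sq_norm, Complex.normSq_apply, Complex.sub_re, Complex.sub_im,
      Complex.mul_re, Complex.mul_im, Complex.conj_re, Complex.conj_im, Complex.neg_re,
      Complex.neg_im]
    ring
  unfold IsU at hu hw
  rw [hu, hw] at h1
  nlinarith [sq_nonneg ‖wd u w‖, norm_nonneg (wd (pp u) w)]

/-- one factor -/
private theorem van_step (A B G : Polynomial ℂ) (ρ : ℂ) {n : ℕ} (hG : G.natDegree ≤ n) :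
    ∑ k ∈ range (n + 2), Polynomial.C ((G * (1 + Polynomial.C ρ * Polynomial.X)).coeff k) *
      A ^ (n + 1 - k) * B ^ k =
    (∑ k ∈ range (n + 1), Polynomial.C (G.coeff k) * A ^ (n - k) * B ^ k) *
      (A + Polynomial.C ρ * B) := by
  have h1 : ∀ k, (G * (1 + Polynomial.C ρ * Polynomial.X)).coeff k =
      G.coeff k + ρ * (G * Polynomial.X).coeff k := by
    intro k
    have : G * (1 + Polynomial.C ρ * Polynomial.X) = G + Polynomial.C ρ * (G * Polynomial.X) := by
      ring
    rw [this, Polynomial.coeff_add, Polynomial.coeff_C_mul]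
  have h2 : ∑ k ∈ range (n + 2), Polynomial.C (G.coeff k) * A ^ (n + 1 - k) * B ^ k =
      (∑ k ∈ range (n + 1), Polynomial.C (G.coeff k) * A ^ (n - k) * B ^ k) * A := by
    rw [sum_range_succ, Polynomial.coeff_eq_zero_of_natDegree_lt (by omega), map_zero, zero_mul,
      zero_mul, add_zero, sum_mul]
    refine sum_congr rfl fun k hk => ?_
    rw [mem_range] at hk
    have : n + 1 - k = (n - k) + 1 := by omega
    rw [this, pow_succ]
    ring
  have h3 : ∑ k ∈ range (n + 2), Polynomial.C (ρ * (G * Polynomial.X).coeff k) *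
      A ^ (n + 1 - k) * B ^ k =
      (∑ k ∈ range (n + 1), Polynomial.C (G.coeff k) * A ^ (n - k) * B ^ k) *
        (Polynomial.C ρ * B) := by
    rw [sum_range_succ', Polynomial.mul_coeff_zero, Polynomial.coeff_X_zero, mul_zero, mul_zero,
      map_zero, zero_mul, zero_mul, add_zero, sum_mul]
    refine sum_congr rfl fun k hk => ?_
    rw [Polynomial.coeff_mul_X]
    have : n + 1 - (k + 1) = n - k := by omega
    rw [this, pow_succ, map_mul]
    ring
  have h4 : (∑ k ∈ range (n + 1), Polynomial.C (G.coeff k) * A ^ (n - k) * B ^ k) *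
      (A + Polynomial.C ρ * B) =
      (∑ k ∈ range (n + 1), Polynomial.C (G.coeff k) * A ^ (n - k) * B ^ k) * A +
      (∑ k ∈ range (n + 1), Polynomial.C (G.coeff k) * A ^ (n - k) * B ^ k) *
        (Polynomial.C ρ * B) := mul_add _ _ _
  rw [h4, ← h2, ← h3, ← sum_add_distrib]
  refine sum_congr rfl fun k _ => ?_
  rw [h1, map_add]
  ring

private theorem van_deg (g : Polynomial ℂ) (ρ : ℂ) (r : ℕ) :
    (g * (1 + Polynomial.C ρ * Polynomial.X) ^ r).natDegree ≤ g.natDegree + r := by
  refine Polynomial.natDegree_mul_le.trans (Nat.add_le_add_left ?_ _)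
  refine Polynomial.natDegree_pow_le.trans ?_
  have h1 : (1 + Polynomial.C ρ * Polynomial.X : Polynomial ℂ).natDegree ≤ 1 := by
    refine (Polynomial.natDegree_add_le _ _).trans (max_le (by simp) ?_)
    exact (Polynomial.natDegree_C_mul_le _ _).trans Polynomial.natDegree_X_le
  calc r * (1 + Polynomial.C ρ * Polynomial.X : Polynomial ℂ).natDegree ≤ r * 1 :=
        Nat.mul_le_mul_left r h1
    _ = r := mul_one r

private theorem van_all (A B g : Polynomial ℂ) (ρ : ℂ) {n : ℕ} (hg : g.natDegree ≤ n) (r : ℕ) :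
    ∑ k ∈ range (n + r + 1), Polynomial.C ((g * (1 + Polynomial.C ρ * Polynomial.X) ^ r).coeff k) *
      A ^ (n + r - k) * B ^ k =
    (∑ k ∈ range (n + 1), Polynomial.C (g.coeff k) * A ^ (n - k) * B ^ k) *
      (A + Polynomial.C ρ * B) ^ r := by
  induction r with
  | zero => simp
  | succ r ih =>
    have h1 := van_step A B (g * (1 + Polynomial.C ρ * Polynomial.X) ^ r) ρ (n := n + r)
      ((van_deg g ρ r).trans (by omega))
    rw [mul_assoc, ← pow_succ] at h1
    have h2 : n + (r + 1) + 1 = n + r + 2 := by omega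
    have h3 : n + (r + 1) = n + r + 1 := by omega
    rw [h2, h3, h1, ih, pow_succ]
    ring

theorem van {d r : ℕ} {u w : ℂ × ℂ} (hu : IsU u) (hw : IsU w) (huw : wd u w ≠ 0)
    (g : Polynomial ℂ) (hg : g.natDegree + r ≤ d) (p : Fin (d + 1) → ℂ)
    (hp : ∀ k : Fin (d + 1), jt p u k =
      (g * (1 + Polynomial.C (wd (pp u) w / wd u w) * Polynomial.X) ^ r).coeff k)
    {j : ℕ} (hj : j < r) : jt p w j = 0 := by
  set ρ : ℂ := wd (pp u) w / wd u w with hρ
  set A : Polynomial ℂ := Polynomial.C (hm w u) + Polynomial.C (hm (pp w) u) * Polynomial.X with hA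
  set B : Polynomial ℂ := Polynomial.C (wd u w) + Polynomial.C (wd u (pp w)) * Polynomial.X with hB
  obtain ⟨n, hn⟩ : ∃ n, d = n + r := ⟨d - r, by omega⟩
  have hgn : g.natDegree ≤ n := by omega
  have h1 : rsP p w = ∑ k ∈ range (n + r + 1),
      Polynomial.C ((g * (1 + Polynomial.C ρ * Polynomial.X) ^ r).coeff k) *
      A ^ (n + r - k) * B ^ k := by
    refine Polynomial.funext fun t => ?_
    rw [rs_eval, dec hu (w + t • pp w), kexp', Polynomial.eval_finsetSum, ← hn,
      Finset.sum_range]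
    refine sum_congr rfl fun k _ => ?_
    rw [hp k, Polynomial.eval_mul, Polynomial.eval_mul, Polynomial.eval_C, Polynomial.eval_pow,
      Polynomial.eval_pow]
    have e1 : A.eval t = hm (w + t • pp w) u := by
      rw [hA, Polynomial.eval_add, Polynomial.eval_C, Polynomial.eval_mul, Polynomial.eval_C,
        Polynomial.eval_X]
      unfold hm
      simp only [Prod.fst_add, Prod.snd_add, Prod.smul_fst, Prod.smul_snd, smul_eq_mul]
      ring
    have e2 : B.eval t = wd u (w + t • pp w) := by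
      rw [hB, Polynomial.eval_add, Polynomial.eval_C, Polynomial.eval_mul, Polynomial.eval_C,
        Polynomial.eval_X]
      unfold wd
      simp only [Prod.fst_add, Prod.snd_add, Prod.smul_fst, Prod.smul_snd, smul_eq_mul]
      ring
    rw [e1, e2]
  rw [van_all A B g ρ hgn r] at h1
  have hAB : A + Polynomial.C ρ * B = Polynomial.C (-(wd u w)⁻¹) * Polynomial.X := by
    have c0 : hm w u + ρ * wd u w = 0 := by
      rw [hρ, div_mul_cancel₀ _ huw]
      unfold hm wd pp
      simp only
      ring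
    have c1 : hm (pp w) u + ρ * wd u (pp w) = -(wd u w)⁻¹ := by
      rw [hρ]
      have huc := van_n2 u
      have hwc := van_n2 w
      unfold IsU at hu hw
      rw [hu] at huc
      rw [hw] at hwc
      have h3 : (hm (pp w) u * wd u w + wd (pp u) w * wd u (pp w)) = -1 := by
        have h4 : (hm (pp w) u * wd u w + wd (pp u) w * wd u (pp w)) =
            -((u.1 * starRingEnd ℂ u.1 + u.2 * starRingEnd ℂ u.2) *
              (w.1 * starRingEnd ℂ w.1 + w.2 * starRingEnd ℂ w.2)) := by
          unfold hm wd pp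
          simp only
          ring
        rw [h4, ← huc, ← hwc]
        simp
      have h5 : hm (pp w) u + wd (pp u) w / wd u w * wd u (pp w) =
          (hm (pp w) u * wd u w + wd (pp u) w * wd u (pp w)) / wd u w := by
        field_simp
      rw [h5, h3, neg_div, one_div]
    have h6 : A + Polynomial.C ρ * B = Polynomial.C (hm w u + ρ * wd u w) +
        Polynomial.C (hm (pp w) u + ρ * wd u (pp w)) * Polynomial.X := by
      rw [hA, hB]
      simp only [map_add, map_mul]
      ring
    rw [h6, c0, c1, map_zero, zero_add]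
  have hdvd : Polynomial.X ^ r ∣ rsP p w := by
    rw [h1, hAB, mul_pow]
    exact ⟨(∑ k ∈ range (n + 1), Polynomial.C (g.coeff k) * A ^ (n - k) * B ^ k) *
      Polynomial.C (-(wd u w)⁻¹) ^ r, by ring⟩
  exact (Polynomial.X_pow_dvd_iff.1 hdvd) j hj

end Pool.Agent.H73.ES
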