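import Pool.Agent.H73.ES.Kos
import Pool.Agent.H73.ES.Np
import Pool.Agent.H73.ES.Van

/-!
# [H73 ES Dual] Dual vectors

`dual_step`: `M = 2 m + 1` factors: `g0 = (1 + ρ_0 X)^3 * ∏_{1 ≤ i < m} (1 + ρ_i X)^2`, `ρ_i = wd (pp (u m)) (u i) / wd (u m) (u i)`, of degree
`≤ 2m + 1`, and `g1 = X * g0` of degree `≤ 2 m + 2 ≤ d`. `p0`, `p1` = the forms with jets `g0`, `g1` at `u m` (`kos_surj`); the
coefficient of `X^0` in `g0` is `1`, in `g1` it is `0`, and the coefficient of `X^1` in `g1` is `1`. They vanish at the `u i` by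
`van` (write `g0 = g * (1 + ρ_i X)^r`). Norms: `kos`, `np_norm` with `k = 2m+2`, `np_mul`, `np_pow`, `np_lin`, `rho_le`, `x = 1/√d`:
`NP x g0 ≤ ∏_i (1 + 1/(√d ‖wd (u m) (u i)‖))^3`, `NP x g1 ≤ x NP x g0`.
`dual_start`: the forms with jets `1`, `X`, `X^2` at `z`; `CN = 1, 1/d, 1/binom d 2 = 2/(d(d-1)) ≤ 4/d^2`.
-/

set_option autoImplicit false

open Finset MeasureTheory

namespace Pool.Agent.H73.ES

open Pool.H70.SF

/-- the loss factor at the point `u m` -/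
noncomputable def KK (d : ℕ) (u : ℕ → ℂ × ℂ) (m : ℕ) : ℝ :=
  ∏ i ∈ range m, (1 + 1 / (Real.sqrt d * ‖wd (u m) (u i)‖)) ^ 3

/-- all jets of order `≤ 2` at `u 0` and of order `≤ 1` at `u i`, `1 ≤ i < m`, vanish -/
def IsVan {d : ℕ} (u : ℕ → ℂ × ℂ) (m : ℕ) (p : Fin (d + 1) → ℂ) : Prop :=
  (jt p (u 0) 0 = 0 ∧ jt p (u 0) 1 = 0 ∧ jt p (u 0) 2 = 0) ∧
    ∀ i, 1 ≤ i → i < m → jt p (u i) 0 = 0 ∧ jt p (u i) 1 = 0

private theorem dual_np_one {x : ℝ} : NP x 1 = 1 := by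
  unfold NP
  simp

private theorem dual_np_prod {x : ℝ} (hx : 0 ≤ x) (s : Finset ℕ) (f : ℕ → Polynomial ℂ) :
    NP x (∏ i ∈ s, f i) ≤ ∏ i ∈ s, NP x (f i) := by
  classical
  induction s using Finset.induction_on with
  | empty => simp [dual_np_one]
  | insert a s ha ih =>
    rw [prod_insert ha, prod_insert ha]
    exact (np_mul hx _ _).trans (mul_le_mul_of_nonneg_left ih (np_nonneg hx _))

private theorem dual_unit {d k : ℕ} (hk : k ≤ d) {z : ℂ × ℂ} (hz : IsU z) :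
    ∃ p : Fin (d + 1) → ℂ, (∀ j ≤ d, jt p z j = if j = k then 1 else 0) ∧
      CN p = 1 / (d.choose k : ℝ) := by
  obtain ⟨p, hp⟩ := kos_surj hz (fun j : Fin (d + 1) => if (j : ℕ) = k then (1 : ℂ) else 0)
  refine ⟨p, fun j hj => hp ⟨j, by omega⟩, ?_⟩
  rw [← kos p hz]
  simp only [hp]
  rw [sum_eq_single (⟨k, by omega⟩ : Fin (d + 1))]
  · simp
  · intro j _ hj
    have h1 : (j : ℕ) ≠ k := fun h => hj (Fin.ext h)
    simp [h1]
  · intro h
    exact absurd (mem_univ _) h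

theorem dual_step {d m : ℕ} (hm : 1 ≤ m) (hd : 2 * m + 2 ≤ d) {u : ℕ → ℂ × ℂ}
    (hu : ∀ i ≤ m, IsU (u i)) (hw : ∀ i < m, wd (u m) (u i) ≠ 0) :
    ∃ p0 p1 : Fin (d + 1) → ℂ, jt p0 (u m) 0 = 1 ∧ jt p1 (u m) 0 = 0 ∧ jt p1 (u m) 1 = 1 ∧
      IsVan u m p0 ∧ IsVan u m p1 ∧
      CN p0 ≤ ((2 * m + 2 : ℕ) : ℝ) ^ (2 * m + 2) * KK d u m ^ 2 ∧
      CN p1 ≤ ((2 * m + 2 : ℕ) : ℝ) ^ (2 * m + 2) * KK d u m ^ 2 / d := by
  set z := u m with hz
  have hzu : IsU z := hu m le_rfl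
  have hd0 : (0 : ℝ) < d := by
    have : 0 < d := by omega
    exact_mod_cast this
  set x : ℝ := (Real.sqrt d)⁻¹ with hx
  have hx0 : 0 ≤ x := inv_nonneg.2 (Real.sqrt_nonneg _)
  have hxx : x ^ 2 = 1 / d := by
    rw [hx, inv_pow, Real.sq_sqrt hd0.le, one_div]
  let e : ℕ → ℕ := fun i => if i = 0 then 3 else 2
  have he2 : ∀ i, 2 ≤ e i ∧ e i ≤ 3 := by
    intro i
    by_cases h : i = 0
    · simp [e, h]
    · simp [e, h]
  have hes : ∑ i ∈ range m, e i = 2 * m + 1 := by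
    have h1 : ∀ i, e i = 2 + (if i = 0 then 1 else 0) := by
      intro i
      by_cases h : i = 0
      · simp [e, h]
      · simp [e, h]
    simp only [h1, sum_add_distrib, sum_const, card_range, smul_eq_mul, sum_ite_eq', mem_range]
    rw [if_pos (by omega)]
    omega
  let ρ : ℕ → ℂ := fun i => wd (pp z) (u i) / wd z (u i)
  let L : ℕ → Polynomial ℂ := fun i => 1 + Polynomial.C (ρ i) * Polynomial.X
  have hLdeg : ∀ s : Finset ℕ, (∏ i ∈ s, L i ^ e i).natDegree ≤ ∑ i ∈ s, e i := by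
    intro s
    refine (Polynomial.natDegree_prod_le _ _).trans (sum_le_sum fun i _ => ?_)
    refine Polynomial.natDegree_pow_le.trans ?_
    have h1 : (L i).natDegree ≤ 1 := by
      refine (Polynomial.natDegree_add_le _ _).trans ?_
      rw [Polynomial.natDegree_one]
      exact max_le (Nat.zero_le _) ((Polynomial.natDegree_C_mul_le _ _).trans Polynomial.natDegree_X_le)
    calc e i * (L i).natDegree ≤ e i * 1 := Nat.mul_le_mul_left _ h1
      _ = e i := mul_one _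
  set g0 : Polynomial ℂ := ∏ i ∈ range m, L i ^ e i with hg0
  set g1 : Polynomial ℂ := Polynomial.X * g0 with hg1
  have hg0d : g0.natDegree ≤ 2 * m + 1 := by
    have := hLdeg (range m)
    rwa [hes] at this
  have hg1d : g1.natDegree ≤ 2 * m + 2 := by
    refine Polynomial.natDegree_mul_le.trans ?_
    have := Polynomial.natDegree_X_le (R := ℂ)
    omega
  have hg00 : g0.coeff 0 = 1 := by
    rw [Polynomial.coeff_zero_eq_eval_zero, hg0, Polynomial.eval_prod]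
    apply prod_eq_one
    intro i _
    simp [L]
  obtain ⟨p0, hp0⟩ := kos_surj hzu (fun k => g0.coeff k)
  obtain ⟨p1, hp1⟩ := kos_surj hzu (fun k => g1.coeff k)
  have hvan : ∀ (q : Polynomial ℂ) (hq : q.natDegree ≤ 1) (p : Fin (d + 1) → ℂ),
      (∀ k : Fin (d + 1), jt p z k = (q * g0).coeff k) → IsVan u m p := by
    intro q hq p hp
    have h1 : ∀ i < m, ∀ j < e i, jt p (u i) j = 0 := by
      intro i hi j hj
      refine van hzu (hu i hi.le) (hw i hi) (q * ∏ k ∈ (range m).erase i, L k ^ e k) ?_ p ?_ hj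
      · have h2 := hLdeg ((range m).erase i)
        have h3 := sum_erase_add (range m) e (mem_range.2 hi)
        have h4 := Polynomial.natDegree_mul_le (p := q) (q := ∏ k ∈ (range m).erase i, L k ^ e k)
        omega
      · intro k
        rw [hp k, hg0, ← prod_erase_mul (range m) _ (mem_range.2 hi), mul_assoc]
    refine ⟨⟨h1 0 (by omega) 0 ?_, h1 0 (by omega) 1 ?_, h1 0 (by omega) 2 ?_⟩, fun i hi hi' =>
      ⟨h1 i hi' 0 ?_, h1 i hi' 1 ?_⟩⟩
    · simp [e]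
    · simp [e]
    · simp [e]
    · have := (he2 i).1
      omega
    · have := (he2 i).1
      omega
  have hNP0 : NP x g0 ≤ KK d u m := by
    refine (dual_np_prod hx0 (range m) _).trans ?_
    unfold KK
    refine prod_le_prod (fun i _ => np_nonneg hx0 _) fun i hi => ?_
    have hwi := hw i (mem_range.1 hi)
    have h1 : NP x (L i) ≤ 1 + 1 / (Real.sqrt d * ‖wd (u m) (u i)‖) := by
      refine (np_lin hx0 _).trans ?_
      have h2 := rho_le hzu (hu i (mem_range.1 hi).le)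
      have h3 := mul_le_mul_of_nonneg_right h2 hx0
      have h4 : 1 / ‖wd z (u i)‖ * x = 1 / (Real.sqrt d * ‖wd (u m) (u i)‖) := by
        rw [hx, ← hz, mul_comm (Real.sqrt d), ← one_div, div_mul_div_comm, one_mul]
      rw [h4] at h3
      linarith
    have h5 : 1 ≤ 1 + 1 / (Real.sqrt d * ‖wd (u m) (u i)‖) := by
      have : 0 ≤ 1 / (Real.sqrt d * ‖wd (u m) (u i)‖) := by positivity
      linarith
    calc NP x (L i ^ e i) ≤ NP x (L i) ^ e i := np_pow hx0 _ _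
      _ ≤ (1 + 1 / (Real.sqrt d * ‖wd (u m) (u i)‖)) ^ e i :=
        pow_le_pow_left₀ (np_nonneg hx0 _) h1 _
      _ ≤ (1 + 1 / (Real.sqrt d * ‖wd (u m) (u i)‖)) ^ 3 := pow_le_pow_right₀ h5 (he2 i).2
  have hNP1 : NP x g1 ≤ x * KK d u m := by
    refine (np_mul hx0 _ _).trans ?_
    exact mul_le_mul (np_X hx0) hNP0 (np_nonneg hx0 _) hx0
  have hCN0 : CN p0 ≤ ((2 * m + 2 : ℕ) : ℝ) ^ (2 * m + 2) * NP x g0 ^ 2 := by
    rw [← kos p0 hzu]
    simp only [hp0]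
    exact np_norm (by omega) hd g0 (by omega)
  have hCN1 : CN p1 ≤ ((2 * m + 2 : ℕ) : ℝ) ^ (2 * m + 2) * NP x g1 ^ 2 := by
    rw [← kos p1 hzu]
    simp only [hp1]
    exact np_norm (by omega) hd g1 hg1d
  refine ⟨p0, p1, ?_, ?_, ?_, ?_, ?_, ?_, ?_⟩
  · have := hp0 ⟨0, by omega⟩
    exact this.trans hg00
  · have := hp1 ⟨0, by omega⟩
    exact this.trans (Polynomial.coeff_X_mul_zero g0)
  · have := hp1 ⟨1, by omega⟩
    exact this.trans ((Polynomial.coeff_X_mul g0 0).trans hg00)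
  · refine hvan 1 ?_ p0 fun k => ?_
    · rw [Polynomial.natDegree_one]
      exact Nat.zero_le _
    · rw [one_mul]
      exact hp0 k
  · exact hvan Polynomial.X Polynomial.natDegree_X_le p1 hp1
  · refine hCN0.trans ?_
    exact mul_le_mul_of_nonneg_left (pow_le_pow_left₀ (np_nonneg hx0 _) hNP0 2) (by positivity)
  · refine hCN1.trans ?_
    have h1 := pow_le_pow_left₀ (np_nonneg hx0 _) hNP1 2
    rw [mul_pow, hxx] at h1
    calc ((2 * m + 2 : ℕ) : ℝ) ^ (2 * m + 2) * NP x g1 ^ 2 ≤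
        ((2 * m + 2 : ℕ) : ℝ) ^ (2 * m + 2) * (1 / d * KK d u m ^ 2) :=
          mul_le_mul_of_nonneg_left h1 (by positivity)
      _ = _ := by ring

theorem dual_start {d : ℕ} (hd : 2 ≤ d) {z : ℂ × ℂ} (hz : IsU z) :
    ∃ p0 p1 p2 : Fin (d + 1) → ℂ, jt p0 z 0 = 1 ∧ (jt p1 z 0 = 0 ∧ jt p1 z 1 = 1) ∧
      (jt p2 z 0 = 0 ∧ jt p2 z 1 = 0 ∧ jt p2 z 2 = 1) ∧
      CN p0 ≤ 1 ∧ CN p1 ≤ 1 / d ∧ CN p2 ≤ 4 / (d : ℝ) ^ 2 := by
  obtain ⟨p0, h0, c0⟩ := dual_unit (k := 0) (Nat.zero_le d) hz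
  obtain ⟨p1, h1, c1⟩ := dual_unit (k := 1) (by omega : 1 ≤ d) hz
  obtain ⟨p2, h2, c2⟩ := dual_unit (k := 2) hd hz
  have hd2 : (2 : ℝ) ≤ d := by exact_mod_cast hd
  refine ⟨p0, p1, p2, ?_, ⟨?_, ?_⟩, ⟨?_, ?_, ?_⟩, ?_, ?_, ?_⟩
  · rw [h0 0 (by omega), if_pos rfl]
  · rw [h1 0 (by omega), if_neg (by norm_num)]
  · rw [h1 1 (by omega), if_pos rfl]
  · rw [h2 0 (by omega), if_neg (by norm_num)]
  · rw [h2 1 (by omega), if_neg (by norm_num)]
  · rw [h2 2 (by omega), if_pos rfl]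
  · rw [c0, Nat.choose_zero_right]
    norm_num
  · rw [c1, Nat.choose_one_right]
  · rw [c2, Nat.cast_choose_two, div_le_div_iff₀ (by nlinarith) (by positivity)]
    nlinarith

end Pool.Agent.H73.ES
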