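import Pool.Agent.H26.SF.Gau
import Pool.Agent.H73.ES.Dual

/-!
# [H73 ES Meas] The measure of one step

`m_step`: let `p0, p1` be the dual vectors (`dual_step`) and, for `a = (a1, a2) ∈ ℂ²`, `p ⊗ a = (a1 • p, a2 • p) ∈ CV d`, `BN2 (p ⊗ a) = n2 a * CN p`. With
`a = -pp w`: `wd a w = 1`, `hm a w = 0`; with `a = w`: `wd a w = 0`, `hm a w = 1`. Apply `Pool.H26.SF.sb1_gau` three times (`BN2 f > 0` since `l (0 + f) = l 0 + 1` gives `f ≠ 0`):
(1) to `S`, `f = p0 ⊗ (-pp w)`, `l X = wd (FF X (u m)) w` (`FF (X + t f) (u m) = FF X (u m) + t • a` since `hev = jt 0`, linear);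
(2) to `S ∩ {‖wd (FF X (u m)) w‖ ≤ r1}`, `f = p0 ⊗ w`, `l X = hm (FF X (u m)) w` (`wd w w = 0`: the first condition is invariant);
(3) to the set obtained, `f = p1 ⊗ (-pp w)`, `l X = wd (jv X (u m) 1) w` (`p1` has value `0` at `u m`: the first two conditions are invariant).
The sets are invariant under the three translations because of `hinv` (`IsVan` is stable under scalars). Sets are measurable: all
functionals are continuous (`jt_cont`). Finally `ofReal` products and `CN p0 ≤ C KK^2`, `CN p1 ≤ C KK^2 / d`.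
`m_start`: the same with `S = univ` and the four dual vectors `p0 ⊗ (-pp w), p0 ⊗ w, p1 ⊗ (-pp w), p2 ⊗ (-pp w)` of `dual_start`.
-/

set_option autoImplicit false

open Finset MeasureTheory

namespace Pool.Agent.H73.ES

open Pool.H70.SF

theorem ff_cont {d : ℕ} (u : ℂ × ℂ) : Continuous fun X : CV d => FF X u := by
  unfold FF hev
  fun_prop

theorem jv_cont {d : ℕ} (u : ℂ × ℂ) (k : ℕ) : Continuous fun X : CV d => jv X u k := by
  exact ((jt_cont u k).comp continuous_fst).prodMk ((jt_cont u k).comp continuous_snd)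

private noncomputable def meas_T {d : ℕ} (p : Fin (d + 1) → ℂ) (a : ℂ × ℂ) : CV d :=
  (a.1 • p, a.2 • p)

private theorem meas_bn {d : ℕ} (p : Fin (d + 1) → ℂ) (a : ℂ × ℂ) :
    BN2 (meas_T p a) = n2 a * CN p := by
  unfold BN2 CN n2 meas_T
  rw [mul_sum]
  refine sum_congr rfl fun k _ => ?_
  simp only [Pi.smul_apply, smul_eq_mul, norm_mul]
  ring

private theorem meas_jv {d : ℕ} (X : CV d) (p : Fin (d + 1) → ℂ) (a : ℂ × ℂ) (t : ℂ)
    (u : ℂ × ℂ) (k : ℕ) :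
    jv (X + t • meas_T p a) u k = jv X u k + (t * jt p u k) • a := by
  unfold jv meas_T
  ext
  · show jt (X.1 + t • (a.1 • p)) u k = jt X.1 u k + (t * jt p u k) * a.1
    rw [jt_add, jt_smul, jt_smul]
    ring
  · show jt (X.2 + t • (a.2 • p)) u k = jt X.2 u k + (t * jt p u k) * a.2
    rw [jt_add, jt_smul, jt_smul]
    ring

private theorem meas_cwd {α : Type*} [TopologicalSpace α] {f : α → ℂ × ℂ} (hf : Continuous f)
    (w : ℂ × ℂ) : Continuous fun X => wd (f X) w := by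
  unfold wd
  fun_prop

private theorem meas_chm {α : Type*} [TopologicalSpace α] {f : α → ℂ × ℂ} (hf : Continuous f)
    (w : ℂ × ℂ) : Continuous fun X => hm (f X) w := by
  unfold hm
  fun_prop

private theorem meas_wda (v a w : ℂ × ℂ) (s : ℂ) : wd (v + s • a) w = wd v w + s * wd a w := by
  unfold wd
  simp only [Prod.fst_add, Prod.snd_add, Prod.smul_fst, Prod.smul_snd, smul_eq_mul]
  ring

private theorem meas_hma (v a w : ℂ × ℂ) (s : ℂ) : hm (v + s • a) w = hm v w + s * hm a w := by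
  unfold hm
  simp only [Prod.fst_add, Prod.snd_add, Prod.smul_fst, Prod.smul_snd, smul_eq_mul]
  ring

private theorem meas_cn {w : ℂ × ℂ} (hw : IsU w) :
    w.1 * starRingEnd ℂ w.1 + w.2 * starRingEnd ℂ w.2 = 1 := by
  rw [Complex.mul_conj, Complex.mul_conj, Complex.normSq_eq_norm_sq, Complex.normSq_eq_norm_sq]
  have h : n2 w = 1 := hw
  unfold n2 at h
  exact_mod_cast h

private theorem meas_wd {w : ℂ × ℂ} (hw : IsU w) : wd (-pp w) w = 1 := by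
  rw [← meas_cn hw]
  unfold wd pp
  simp only [Prod.fst_neg, Prod.snd_neg]
  ring

private theorem meas_wdw (w : ℂ × ℂ) : wd w w = 0 := by
  unfold wd
  ring

private theorem meas_hmw {w : ℂ × ℂ} (hw : IsU w) : hm w w = 1 := meas_cn hw

private theorem meas_n2 {w : ℂ × ℂ} (hw : IsU w) : n2 (-pp w) = 1 := by
  have h : n2 w = 1 := hw
  unfold n2 at h
  unfold n2 pp
  simp only [Prod.fst_neg, Prod.snd_neg, norm_neg, RCLike.norm_conj]
  linarith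

private theorem meas_van {d m : ℕ} {u : ℕ → ℂ × ℂ} {p : Fin (d + 1) → ℂ} (hp : IsVan u m p)
    (c : ℂ) : IsVan u m (c • p) := by
  obtain ⟨⟨h0, h1, h2⟩, h3⟩ := hp
  refine ⟨⟨?_, ?_, ?_⟩, fun i hi hi' => ⟨?_, ?_⟩⟩
  · rw [jt_smul, h0, mul_zero]
  · rw [jt_smul, h1, mul_zero]
  · rw [jt_smul, h2, mul_zero]
  · rw [jt_smul, (h3 i hi hi').1, mul_zero]
  · rw [jt_smul, (h3 i hi hi').2, mul_zero]

private theorem meas_one {d : ℕ} {A : ℝ} (hA : 0 ≤ A) (X0 : CV d) {τ : ℝ} (hτ : 0 < τ)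
    {z : ℂ × ℂ} (hz : IsU z) {p : Fin (d + 1) → ℂ} {k : ℕ} (hk : k ≤ d) (hp : jt p z k = 1)
    {a : ℂ × ℂ} (ha : n2 a = 1) (l : CV d → ℂ) (hl : Continuous l)
    (hlf : ∀ X, ∀ t : ℂ, l (X + t • meas_T p a) = l X + t) (E : Set (CV d))
    (hE : MeasurableSet E) (hEf : ∀ X, ∀ t : ℂ, X ∈ E → X + t • meas_T p a ∈ E) {r : ℝ}
    (hr : 0 ≤ r) {B : ℝ} (hB : CN p ≤ B) :
    gau A X0 τ (E ∩ {X | ‖l X‖ ≤ r}) ≤ ENNReal.ofReal (r ^ 2 * B / τ ^ 2) * gau A X0 τ E := by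
  have h1 : BN2 (meas_T p a) = CN p := by rw [meas_bn, ha, one_mul]
  have h2 : 0 < CN p := by
    rw [← kos p hz]
    have h3 : ‖jt p z ((⟨k, by omega⟩ : Fin (d + 1)) : ℕ)‖ ^ 2 /
        (d.choose ((⟨k, by omega⟩ : Fin (d + 1)) : ℕ) : ℝ) ≤
        ∑ j : Fin (d + 1), ‖jt p z j‖ ^ 2 / (d.choose j : ℝ) :=
      single_le_sum (f := fun j : Fin (d + 1) => ‖jt p z j‖ ^ 2 / (d.choose j : ℝ))
        (fun j _ => by positivity) (mem_univ _)
    refine lt_of_lt_of_le ?_ h3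
    have h4 : 0 < d.choose k := Nat.choose_pos hk
    have h5 : (0 : ℝ) < d.choose k := by exact_mod_cast h4
    simp only [hp, norm_one]
    positivity
  refine (Pool.H26.SF.sb1_gau hA hτ X0 (meas_T p a) (by rw [h1]; exact h2) l hl.measurable hlf
    E hE hEf hr).trans ?_
  rw [h1]
  gcongr

theorem m_step {d m : ℕ} {A : ℝ} (hA : 0 ≤ A) (hm1 : 1 ≤ m) (hd : 2 * m + 2 ≤ d) (X0 : CV d) {τ : ℝ} (hτ : 0 < τ)
    {u : ℕ → ℂ × ℂ} (hu : ∀ i ≤ m, IsU (u i)) (hw0 : ∀ i < m, wd (u m) (u i) ≠ 0)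
    {w : ℂ × ℂ} (hw : IsU w) {S : Set (CV d)} (hS : MeasurableSet S)
    (hinv : ∀ (X f : CV d), IsVan u m f.1 → IsVan u m f.2 → (X + f ∈ S ↔ X ∈ S))
    {r1 r2 r3 : ℝ} (h1 : 0 ≤ r1) (h2 : 0 ≤ r2) (h3 : 0 ≤ r3) :
    gau A X0 τ (S ∩ {X | ‖wd (FF X (u m)) w‖ ≤ r1 ∧ ‖hm (FF X (u m)) w‖ ≤ r2 ∧
      ‖wd (jv X (u m) 1) w‖ ≤ r3}) ≤
      ENNReal.ofReal ((((2 * m + 2 : ℕ) : ℝ) ^ (2 * m + 2)) ^ 3 * KK d u m ^ 6 *
        (r1 * r2 * r3) ^ 2 / (d * τ ^ 6)) * gau A X0 τ S := by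
  obtain ⟨p0, p1, hj0, hj10, hj11, hv0, hv1, hc0, hc1⟩ := dual_step hm1 hd hu hw0
  have hz := hu m le_rfl
  set C : ℝ := ((2 * m + 2 : ℕ) : ℝ) ^ (2 * m + 2) with hC
  set Q : ℝ := KK d u m ^ 2 with hQ
  have hQ0 : 0 ≤ Q := sq_nonneg _
  have hC0 : 0 ≤ C := by positivity
  have hd0 : (0 : ℝ) < d := by
    have : 0 < d := by omega
    exact_mod_cast this
  have hS' : ∀ (p : Fin (d + 1) → ℂ) (a : ℂ × ℂ), IsVan u m p →
      ∀ X, ∀ t : ℂ, X ∈ S → X + t • meas_T p a ∈ S := by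
    intro p a hp X t hX
    refine (hinv X (t • meas_T p a) ?_ ?_).2 hX
    · exact meas_van (meas_van hp a.1) t
    · exact meas_van (meas_van hp a.2) t
  set F1 : Set (CV d) := {X | ‖wd (FF X (u m)) w‖ ≤ r1} with hF1
  set F2 : Set (CV d) := {X | ‖hm (FF X (u m)) w‖ ≤ r2} with hF2
  set F3 : Set (CV d) := {X | ‖wd (jv X (u m) 1) w‖ ≤ r3} with hF3
  have hwd1 : wd (-pp w) w = 1 := meas_wd hw
  have hc1' : Continuous fun X : CV d => wd (FF X (u m)) w := by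
    exact meas_cwd (ff_cont (u m)) w
  have hc2' : Continuous fun X : CV d => hm (FF X (u m)) w := by
    exact meas_chm (ff_cont (u m)) w
  have hc3' : Continuous fun X : CV d => wd (jv X (u m) 1) w := by
    exact meas_cwd (jv_cont (u m) 1) w
  have hm1' : MeasurableSet F1 := measurableSet_le hc1'.measurable.norm measurable_const
  have hm2' : MeasurableSet F2 := measurableSet_le hc2'.measurable.norm measurable_const
  have e1 : gau A X0 τ (S ∩ F1) ≤ ENNReal.ofReal (r1 ^ 2 * (C * Q) / τ ^ 2) * gau A X0 τ S := by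
    refine meas_one hA X0 hτ hz (k := 0) (by omega) hj0 (a := -pp w) (meas_n2 hw)
      (fun X => wd (FF X (u m)) w) hc1' ?_ S hS (hS' p0 _ hv0) h1 hc0
    intro X t
    rw [← jv_zero, ← jv_zero, meas_jv, hj0, mul_one, meas_wda, hwd1, mul_one]
  have e2 : gau A X0 τ (S ∩ F1 ∩ F2) ≤
      ENNReal.ofReal (r2 ^ 2 * (C * Q) / τ ^ 2) * gau A X0 τ (S ∩ F1) := by
    refine meas_one hA X0 hτ hz (k := 0) (by omega) hj0 (a := w) hw
      (fun X => hm (FF X (u m)) w) hc2' ?_ (S ∩ F1) (hS.inter hm1') ?_ h2 hc0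
    · intro X t
      rw [← jv_zero, ← jv_zero, meas_jv, hj0, mul_one, meas_hma, meas_hmw hw, mul_one]
    · rintro X t ⟨hX, hX1⟩
      refine ⟨hS' p0 w hv0 X t hX, ?_⟩
      show ‖wd (FF (X + t • meas_T p0 w) (u m)) w‖ ≤ r1
      rw [← jv_zero, meas_jv, meas_wda, meas_wdw, mul_zero, add_zero, jv_zero]
      exact hX1
  have e3 : gau A X0 τ (S ∩ F1 ∩ F2 ∩ F3) ≤
      ENNReal.ofReal (r3 ^ 2 * (C * Q / d) / τ ^ 2) * gau A X0 τ (S ∩ F1 ∩ F2) := by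
    refine meas_one hA X0 hτ hz (k := 1) (by omega) hj11 (a := -pp w) (meas_n2 hw)
      (fun X => wd (jv X (u m) 1) w) hc3' ?_ (S ∩ F1 ∩ F2) ((hS.inter hm1').inter hm2') ?_ h3 hc1
    · intro X t
      rw [meas_jv, hj11, mul_one, meas_wda, hwd1, mul_one]
    · rintro X t ⟨⟨hX, hX1⟩, hX2⟩
      refine ⟨⟨hS' p1 _ hv1 X t hX, ?_⟩, ?_⟩
      · show ‖wd (FF (X + t • meas_T p1 (-pp w)) (u m)) w‖ ≤ r1
        rw [← jv_zero, meas_jv, hj10, mul_zero, zero_smul, add_zero, jv_zero]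
        exact hX1
      · show ‖hm (FF (X + t • meas_T p1 (-pp w)) (u m)) w‖ ≤ r2
        rw [← jv_zero, meas_jv, hj10, mul_zero, zero_smul, add_zero, jv_zero]
        exact hX2
  have hset : S ∩ {X | ‖wd (FF X (u m)) w‖ ≤ r1 ∧ ‖hm (FF X (u m)) w‖ ≤ r2 ∧
      ‖wd (jv X (u m) 1) w‖ ≤ r3} = S ∩ F1 ∩ F2 ∩ F3 := by
    ext X
    simp only [Set.mem_inter_iff, Set.mem_setOf_eq, hF1, hF2, hF3]
    tauto
  rw [hset]
  calc gau A X0 τ (S ∩ F1 ∩ F2 ∩ F3) ≤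
      ENNReal.ofReal (r3 ^ 2 * (C * Q / d) / τ ^ 2) * gau A X0 τ (S ∩ F1 ∩ F2) := e3
    _ ≤ ENNReal.ofReal (r3 ^ 2 * (C * Q / d) / τ ^ 2) *
        (ENNReal.ofReal (r2 ^ 2 * (C * Q) / τ ^ 2) *
          (ENNReal.ofReal (r1 ^ 2 * (C * Q) / τ ^ 2) * gau A X0 τ S)) := by
      gcongr
      exact e2.trans (by gcongr)
    _ = ENNReal.ofReal (C ^ 3 * KK d u m ^ 6 * (r1 * r2 * r3) ^ 2 / (d * τ ^ 6)) *
        gau A X0 τ S := by
      rw [← mul_assoc, ← mul_assoc, ← ENNReal.ofReal_mul (by positivity),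
        ← ENNReal.ofReal_mul (by positivity)]
      congr 2
      rw [hQ]
      field_simp

theorem m_start {d : ℕ} {A : ℝ} (hA : 0 ≤ A) (hd : 2 ≤ d) (X0 : CV d) {τ : ℝ} (hτ : 0 < τ) {z w : ℂ × ℂ} (hz : IsU z)
    (hw : IsU w) {r1 r2 r3 r4 : ℝ} (h1 : 0 ≤ r1) (h2 : 0 ≤ r2) (h3 : 0 ≤ r3) (h4 : 0 ≤ r4) :
    gau A X0 τ {X | ‖wd (FF X z) w‖ ≤ r1 ∧ ‖hm (FF X z) w‖ ≤ r2 ∧ ‖wd (jv X z 1) w‖ ≤ r3 ∧
      ‖wd (jv X z 2) w‖ ≤ r4} ≤
      ENNReal.ofReal (4 * (r1 * r2 * r3 * r4) ^ 2 / ((d : ℝ) ^ 3 * τ ^ 8)) *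
        gau A X0 τ Set.univ := by
  obtain ⟨p0, p1, p2, hj0, ⟨hj10, hj11⟩, ⟨hj20, hj21, hj22⟩, hc0, hc1, hc2⟩ := dual_start hd hz
  have hd0 : (0 : ℝ) < d := by
    have : 0 < d := by omega
    exact_mod_cast this
  set F1 : Set (CV d) := {X | ‖wd (FF X z) w‖ ≤ r1} with hF1
  set F2 : Set (CV d) := {X | ‖hm (FF X z) w‖ ≤ r2} with hF2
  set F3 : Set (CV d) := {X | ‖wd (jv X z 1) w‖ ≤ r3} with hF3
  set F4 : Set (CV d) := {X | ‖wd (jv X z 2) w‖ ≤ r4} with hF4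
  have hwd1 : wd (-pp w) w = 1 := meas_wd hw
  have hc1' : Continuous fun X : CV d => wd (FF X z) w := by
    exact meas_cwd (ff_cont z) w
  have hc2' : Continuous fun X : CV d => hm (FF X z) w := by
    exact meas_chm (ff_cont z) w
  have hc3' : Continuous fun X : CV d => wd (jv X z 1) w := by
    exact meas_cwd (jv_cont z 1) w
  have hc4' : Continuous fun X : CV d => wd (jv X z 2) w := by
    exact meas_cwd (jv_cont z 2) w
  have hm1' : MeasurableSet F1 := measurableSet_le hc1'.measurable.norm measurable_const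
  have hm2' : MeasurableSet F2 := measurableSet_le hc2'.measurable.norm measurable_const
  have hm3' : MeasurableSet F3 := measurableSet_le hc3'.measurable.norm measurable_const
  have e1 : gau A X0 τ (Set.univ ∩ F1) ≤
      ENNReal.ofReal (r1 ^ 2 * 1 / τ ^ 2) * gau A X0 τ Set.univ := by
    refine meas_one hA X0 hτ hz (k := 0) (by omega) hj0 (a := -pp w) (meas_n2 hw)
      (fun X => wd (FF X z) w) hc1' ?_ Set.univ MeasurableSet.univ
      (fun X t _ => Set.mem_univ _) h1 hc0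
    intro X t
    rw [← jv_zero, ← jv_zero, meas_jv, hj0, mul_one, meas_wda, hwd1, mul_one]
  have e2 : gau A X0 τ (Set.univ ∩ F1 ∩ F2) ≤
      ENNReal.ofReal (r2 ^ 2 * 1 / τ ^ 2) * gau A X0 τ (Set.univ ∩ F1) := by
    refine meas_one hA X0 hτ hz (k := 0) (by omega) hj0 (a := w) hw
      (fun X => hm (FF X z) w) hc2' ?_ (Set.univ ∩ F1) (MeasurableSet.univ.inter hm1') ?_ h2 hc0
    · intro X t
      rw [← jv_zero, ← jv_zero, meas_jv, hj0, mul_one, meas_hma, meas_hmw hw, mul_one]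
    · rintro X t ⟨hX, hX1⟩
      refine ⟨Set.mem_univ _, ?_⟩
      show ‖wd (FF (X + t • meas_T p0 w) z) w‖ ≤ r1
      rw [← jv_zero, meas_jv, meas_wda, meas_wdw, mul_zero, add_zero, jv_zero]
      exact hX1
  have e3 : gau A X0 τ (Set.univ ∩ F1 ∩ F2 ∩ F3) ≤
      ENNReal.ofReal (r3 ^ 2 * (1 / d) / τ ^ 2) * gau A X0 τ (Set.univ ∩ F1 ∩ F2) := by
    refine meas_one hA X0 hτ hz (k := 1) (by omega) hj11 (a := -pp w) (meas_n2 hw)
      (fun X => wd (jv X z 1) w) hc3' ?_ (Set.univ ∩ F1 ∩ F2)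
      ((MeasurableSet.univ.inter hm1').inter hm2') ?_ h3 hc1
    · intro X t
      rw [meas_jv, hj11, mul_one, meas_wda, hwd1, mul_one]
    · rintro X t ⟨⟨hX, hX1⟩, hX2⟩
      refine ⟨⟨Set.mem_univ _, ?_⟩, ?_⟩
      · show ‖wd (FF (X + t • meas_T p1 (-pp w)) z) w‖ ≤ r1
        rw [← jv_zero, meas_jv, hj10, mul_zero, zero_smul, add_zero, jv_zero]
        exact hX1
      · show ‖hm (FF (X + t • meas_T p1 (-pp w)) z) w‖ ≤ r2
        rw [← jv_zero, meas_jv, hj10, mul_zero, zero_smul, add_zero, jv_zero]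
        exact hX2
  have e4 : gau A X0 τ (Set.univ ∩ F1 ∩ F2 ∩ F3 ∩ F4) ≤
      ENNReal.ofReal (r4 ^ 2 * (4 / (d : ℝ) ^ 2) / τ ^ 2) *
        gau A X0 τ (Set.univ ∩ F1 ∩ F2 ∩ F3) := by
    refine meas_one hA X0 hτ hz (k := 2) hd hj22 (a := -pp w) (meas_n2 hw)
      (fun X => wd (jv X z 2) w) hc4' ?_ (Set.univ ∩ F1 ∩ F2 ∩ F3)
      (((MeasurableSet.univ.inter hm1').inter hm2').inter hm3') ?_ h4 hc2
    · intro X t
      rw [meas_jv, hj22, mul_one, meas_wda, hwd1, mul_one]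
    · rintro X t ⟨⟨⟨hX, hX1⟩, hX2⟩, hX3⟩
      refine ⟨⟨⟨Set.mem_univ _, ?_⟩, ?_⟩, ?_⟩
      · show ‖wd (FF (X + t • meas_T p2 (-pp w)) z) w‖ ≤ r1
        rw [← jv_zero, meas_jv, hj20, mul_zero, zero_smul, add_zero, jv_zero]
        exact hX1
      · show ‖hm (FF (X + t • meas_T p2 (-pp w)) z) w‖ ≤ r2
        rw [← jv_zero, meas_jv, hj20, mul_zero, zero_smul, add_zero, jv_zero]
        exact hX2
      · show ‖wd (jv (X + t • meas_T p2 (-pp w)) z 1) w‖ ≤ r3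
        rw [meas_jv, hj21, mul_zero, zero_smul, add_zero]
        exact hX3
  have hset : {X : CV d | ‖wd (FF X z) w‖ ≤ r1 ∧ ‖hm (FF X z) w‖ ≤ r2 ∧
      ‖wd (jv X z 1) w‖ ≤ r3 ∧ ‖wd (jv X z 2) w‖ ≤ r4} = Set.univ ∩ F1 ∩ F2 ∩ F3 ∩ F4 := by
    ext X
    simp only [Set.mem_inter_iff, Set.mem_setOf_eq, hF1, hF2, hF3, hF4, Set.mem_univ, true_and]
    tauto
  rw [hset]
  calc gau A X0 τ (Set.univ ∩ F1 ∩ F2 ∩ F3 ∩ F4) ≤
      ENNReal.ofReal (r4 ^ 2 * (4 / (d : ℝ) ^ 2) / τ ^ 2) *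
        gau A X0 τ (Set.univ ∩ F1 ∩ F2 ∩ F3) := e4
    _ ≤ ENNReal.ofReal (r4 ^ 2 * (4 / (d : ℝ) ^ 2) / τ ^ 2) *
        (ENNReal.ofReal (r3 ^ 2 * (1 / d) / τ ^ 2) * (ENNReal.ofReal (r2 ^ 2 * 1 / τ ^ 2) *
          (ENNReal.ofReal (r1 ^ 2 * 1 / τ ^ 2) * gau A X0 τ Set.univ))) := by
      gcongr
      refine e3.trans ?_
      gcongr
      exact e2.trans (by gcongr)
    _ = ENNReal.ofReal (4 * (r1 * r2 * r3 * r4) ^ 2 / ((d : ℝ) ^ 3 * τ ^ 8)) *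
        gau A X0 τ Set.univ := by
      rw [← mul_assoc, ← mul_assoc, ← mul_assoc, ← ENNReal.ofReal_mul (by positivity),
        ← ENNReal.ofReal_mul (by positivity), ← ENNReal.ofReal_mul (by positivity)]
      congr 2
      field_simp

end Pool.Agent.H73.ES
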