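import Pool.Agent.H73.ES.Dual

/-!
# [H73 ES Cd] Patterns, meshes, disc conditions: definitions

`u 0` is the net point near the critical point, `u (l + 1)` the one near `y_l = ob X c l`. `et d B k` is the mesh for `u k`.
-/

set_option autoImplicit false

open Finset MeasureTheory

namespace Pool.Agent.H73.ES

open Pool.H70.SF

/-- a pattern of exponents -/
structure Pat where
  th : ℝ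
  hc : ℝ
  be : ℕ → ℝ
  h : ℕ → ℝ
  b : ℕ → ℝ
  bb : ℕ → ℝ

/-- all exponents are in `[0, 1]` -/
structure Pat.ok (p : Pat) : Prop where
  th0 : 0 ≤ p.th ∧ p.th ≤ 1
  hc0 : 0 ≤ p.hc ∧ p.hc ≤ 1
  be0 : ∀ l, 0 ≤ p.be l ∧ p.be l ≤ 1
  h0 : ∀ l, 0 ≤ p.h l ∧ p.h l ≤ 1
  b0 : ∀ l, 0 ≤ p.b l ∧ p.b l ≤ 1
  bb0 : ∀ l, 0 ≤ p.bb l ∧ p.bb l ≤ 1

/-- meshes -/
noncomputable def et (d B : ℕ) : ℕ → ℝ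
  | 0 => ((d : ℝ) ^ B)⁻¹
  | l + 1 => (d : ℝ) ^ (6 * (l + 1)) / (d : ℝ) ^ (2 * B)

/-- a net of mesh `η` -/
structure IsNet (N : Finset (ℂ × ℂ)) (η : ℝ) : Prop where
  unit : ∀ w ∈ N, IsU w
  cov : ∀ u, IsU u → ∃ w ∈ N, ‖wd u w‖ ≤ η
  cnt : ∀ u, IsU u → ∀ r, η ≤ r →
    ((N.filter fun w => ‖wd u w‖ ≤ r).card : ℝ) ≤ 10000 * r ^ 2 / η ^ 2

/-- disc conditions at the start -/
def St0 {d : ℕ} (K R : ℝ) (η : ℕ → ℝ) (p : Pat) (u : ℕ → ℂ × ℂ) (X : CV d) : Prop :=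
  ‖wd (FF X (u 0)) (u 1)‖ ≤ K * R * η 1 * (d : ℝ) ^ (-p.hc) ∧
    ‖hm (FF X (u 0)) (u 1)‖ ≤ K * R * (d : ℝ) ^ (-p.hc) ∧
    ‖wd (jv X (u 0) 1) (u 1)‖ ≤ K * R * (d : ℝ) ^ (1 - p.th) * η 0 ∧
    ‖wd (jv X (u 0) 2) (u 1)‖ ≤ K * R * (d : ℝ) ^ (1 - p.th)

/-- disc conditions of step `l` (at the point `u (l + 1)`, target `u (l + 2)`) -/
def St {d : ℕ} (K R : ℝ) (η : ℕ → ℝ) (p : Pat) (u : ℕ → ℂ × ℂ) (l : ℕ) (X : CV d) : Prop :=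
  ‖wd (FF X (u (l + 1))) (u (l + 2))‖ ≤ K * R * η (l + 2) * (d : ℝ) ^ (-p.h l) ∧
    ‖hm (FF X (u (l + 1))) (u (l + 2))‖ ≤ K * R * (d : ℝ) ^ (-p.h l) ∧
    ‖wd (jv X (u (l + 1)) 1) (u (l + 2))‖ ≤ K * R * (d : ℝ) ^ (1 / 2 - p.be l)

/-- `u (l + 1)` is close to an earlier point -/
def De (d : ℕ) (p : Pat) (u : ℕ → ℂ × ℂ) (l : ℕ) : Prop :=
  p.b l = 0 ∨ ∃ i ≤ l, ‖wd (u (l + 1)) (u i)‖ ≤ 2 * (d : ℝ) ^ (-p.b l)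

/-- `u (l + 1)` is not too close to the earlier points -/
def Dl (d : ℕ) (p : Pat) (u : ℕ → ℂ × ℂ) (l : ℕ) : Prop :=
  ∀ i ≤ l, (d : ℝ) ^ (-p.bb l) / 2 ≤ ‖wd (u (l + 1)) (u i)‖

/-- the exponent of the bound -/
noncomputable def bdE (p : Pat) (T : ℕ) : ℝ :=
  1 - 4 * p.th - 4 * p.hc - (∑ l ∈ range T, (4 * p.h l + 2 * p.be l)) -
    (∑ l ∈ range (T + 1), 2 * p.b l) + 18 * (T + 1) * ∑ l ∈ range T, max 0 (p.bb l - 1 / 2)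

/-- the coded set -/
def Cod {d : ℕ} (K R : ℝ) (η : ℕ → ℝ) (N : ℕ → Finset (ℂ × ℂ)) (p : Pat) (T : ℕ) :
    Set (CV d) :=
  {X | ∃ u : ℕ → ℂ × ℂ, (∀ k ≤ T + 1, u k ∈ N k) ∧ St0 K R η p u X ∧
    (∀ l < T, St K R η p u l X ∧ Dl d p u l) ∧ ∀ l ≤ T, De d p u l}

/-- the bad set of a pattern -/
def BadP {d : ℕ} (R : ℝ) (p : Pat) (T : ℕ) : Set (CV d) :=
  {X | GG R X ∧ ∃ c, IsU c ∧ JJ X c = 0 ∧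
    (p.th = 0 ∨ 2 * ‖wd (FF X c) (jv X c 2)‖ ≤ (d : ℝ) ^ (1 - p.th) * nn (FF X c)) ∧
    (p.hc = 0 ∨ nn (FF X c) ≤ (d : ℝ) ^ (-p.hc)) ∧
    (∀ l < T, (p.be l = 0 ∨ ‖wd (FF X (ob X c l)) (jv X (ob X c l) 1)‖ ≤
        (d : ℝ) ^ (1 / 2 - p.be l) * nn (FF X (ob X c l))) ∧
      (p.h l = 0 ∨ nn (FF X (ob X c l)) ≤ (d : ℝ) ^ (-p.h l)) ∧
      ∀ i ≤ l, (d : ℝ) ^ (-p.bb l) ≤ ‖wd (ob X c l) (pt X c i)‖) ∧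
    ∀ l ≤ T, p.b l = 0 ∨ ∃ i ≤ l, ‖wd (ob X c l) (pt X c i)‖ ≤ (d : ℝ) ^ (-p.b l)}

end Pool.Agent.H73.ES
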