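import Pool.Agent.H73.ES.Meas
import Pool.Agent.H73.ES.Cd

/-!
# [H73 ES Cnt] The counting induction

For `l ≤ T` and a sequence `u` put `EP l u = {X | St0 X u ∧ ∀ k < l, St X u k}` (it depends on `u 0, …, u (l+1)` only, is closed, and is invariant under
`f` with `IsVan u (l+1) f.1`, `IsVan u (l+1) f.2`: all functionals in it are jets of order `≤ 2` at `u 0` and `≤ 1` at `u i`, `1 ≤ i ≤ l`), and
`W l u = {X ∈ EP l u | ∃ u', (∀ i ≤ l+1, u' i = u i) ∧ (∀ k ≤ T+1, u' k ∈ N k) ∧ (∀ k < T, St X u' k ∧ Dl u' k) ∧ ∀ k ≤ T, De u' k}`.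
CLAIM (downward induction on `l`, `l ≤ T`): if `u i ∈ N i` for `i ≤ l + 1`, then
`gau (W l u) ≤ (∏ k ∈ [l, T), F k) * gau (EP l u)`, `F k = C' (R/τ)^6 d^(-(4 h k + 2 be k) - 2 b (k+1) + 18 (T+1) max 0 (bb k - 1/2))`.
`l = T`: `W ⊆ EP`. Step: if `Dl u l` or `De u l` fails then `W l u = ∅`; otherwise `W l u ⊆ ⋃ W (l+1) (Function.update u (l+2) w)` over the `w ∈ N (l+2)`
with `De` (for the updated sequence, index `l + 1`), i.e. `b (l+1) = 0` or `∃ i ≤ l+1, ‖wd w (u i)‖ ≤ 2 d^(-b (l+1))`; there are at most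
`10000 (l+2) (2 d^(-b (l+1)))^2 / η (l+2)^2` of them (`IsNet.cnt`; `r = 2 d^(-b) ≥ η (l+2)` as `b ≤ 1` and `η ≤ d^(-1)`; for `b = 0` use `r = 1`... or
`r = 2`, all `‖wd‖ ≤ 1`). And `EP (l+1) (update) = EP l u ∩ {step l discs}`, so by `m_step` (`m = l+1`, `S = EP l u`):
`gau (EP (l+1) _) ≤ C'' KK^6 (K R)^6 η (l+2)^2 d^(-4 h l) d^(1 - 2 be l) / (d τ^6) * gau (EP l u)`, and
`KK d u (l+1) ≤ (1 + 2 d^(bb l - 1/2))^(3(l+1)) ≤ (3 d^(max 0 (bb l - 1/2)))^(3 (T+1))` from `Dl`.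
START: `Cod ⊆ ⋃ over u0 ∈ N 0, u1 ∈ N 1 with De` of `W 0 u`, `EP 0 u` is bounded by `m_start`:
`4 (K R)^8 η 1^2 d^(-4 hc) d^(4 - 4 th) η 0^2 / (d^3 τ^8)`, times `(10000/η 0^2) (40000 d^(-2 b 0)/η 1^2)`.
All constants depend only on `n, K` (`T ≤ n + 1`); `R / τ ≥ 1`.
-/

set_option autoImplicit false

open Finset MeasureTheory

namespace Pool.Agent.H73.ES

open Pool.H70.SF

/-- conditions up to step `l` -/
private def EP {d : ℕ} (K R : ℝ) (η : ℕ → ℝ) (p : Pat) (l : ℕ) (u : ℕ → ℂ × ℂ) : Set (CV d) :=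
  {X | St0 K R η p u X ∧ ∀ k < l, St K R η p u k X}

/-- the coded set above the first `l + 2` points -/
private def WW {d : ℕ} (K R : ℝ) (η : ℕ → ℝ) (N : ℕ → Finset (ℂ × ℂ)) (p : Pat) (T l : ℕ)
    (u : ℕ → ℂ × ℂ) : Set (CV d) :=
  {X | X ∈ EP (d := d) K R η p l u ∧ ∃ u' : ℕ → ℂ × ℂ, (∀ i ≤ l + 1, u' i = u i) ∧
    (∀ k ≤ T + 1, u' k ∈ N k) ∧ (∀ k < T, St K R η p u' k X ∧ Dl d p u' k) ∧ ∀ k ≤ T, De d p u' k}

private theorem wd_le_one' {u w : ℂ × ℂ} (hu : IsU u) (hw : IsU w) : ‖wd u w‖ ≤ 1 := by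
  unfold IsU n2 at hu hw
  unfold wd
  have h := norm_sub_le (u.1 * w.2) (u.2 * w.1)
  rw [norm_mul, norm_mul] at h
  nlinarith [sq_nonneg (‖u.1‖ - ‖w.2‖), sq_nonneg (‖u.2‖ - ‖w.1‖)]

private theorem wd_comm' (u w : ℂ × ℂ) : ‖wd u w‖ = ‖wd w u‖ := by
  unfold wd
  rw [← norm_neg]
  congr 1
  ring

private theorem wd_cont' {d : ℕ} {f : CV d → ℂ × ℂ} (hf : Continuous f) (w : ℂ × ℂ) :
    Continuous fun X => ‖wd (f X) w‖ := by
  unfold wd
  fun_prop

private theorem hm_cont' {d : ℕ} {f : CV d → ℂ × ℂ} (hf : Continuous f) (w : ℂ × ℂ) :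
    Continuous fun X => ‖hm (f X) w‖ := by
  unfold hm
  fun_prop

private theorem EP_meas {d : ℕ} (K R : ℝ) (η : ℕ → ℝ) (p : Pat) (l : ℕ) (u : ℕ → ℂ × ℂ) :
    MeasurableSet (EP (d := d) K R η p l u) := by
  apply IsClosed.measurableSet
  have e : EP (d := d) K R η p l u =
      {X | St0 K R η p u X} ∩ ⋂ k ∈ {k | k < l}, {X | St K R η p u k X} := by
    ext X
    simp [EP]
  rw [e]
  refine IsClosed.inter ?_ (isClosed_biInter fun k _ => ?_)
  · exact (isClosed_le (wd_cont' (ff_cont _) _) continuous_const).inter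
      ((isClosed_le (hm_cont' (ff_cont _) _) continuous_const).inter
        ((isClosed_le (wd_cont' (jv_cont _ _) _) continuous_const).inter
          (isClosed_le (wd_cont' (jv_cont _ _) _) continuous_const)))
  · exact (isClosed_le (wd_cont' (ff_cont _) _) continuous_const).inter
      ((isClosed_le (hm_cont' (ff_cont _) _) continuous_const).inter
        (isClosed_le (wd_cont' (jv_cont _ _) _) continuous_const))

private theorem jv_van {d : ℕ} (X f : CV d) (v : ℂ × ℂ) (k : ℕ) (h1 : jt f.1 v k = 0)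
    (h2 : jt f.2 v k = 0) : jv (X + f) v k = jv X v k := by
  unfold jv
  rw [Prod.fst_add, Prod.snd_add, jt_add, jt_add, h1, h2, add_zero, add_zero]

private theorem ff_van {d : ℕ} (X f : CV d) (v : ℂ × ℂ) (h1 : jt f.1 v 0 = 0)
    (h2 : jt f.2 v 0 = 0) : FF (X + f) v = FF X v := by
  rw [← jv_zero, ← jv_zero, jv_van X f v 0 h1 h2]

private theorem EP_inv {d : ℕ} (K R : ℝ) (η : ℕ → ℝ) (p : Pat) (l : ℕ) (u : ℕ → ℂ × ℂ)
    (X f : CV d) (h1 : IsVan u (l + 1) f.1) (h2 : IsVan u (l + 1) f.2) :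
    X + f ∈ EP K R η p l u ↔ X ∈ EP K R η p l u := by
  have a0 := ff_van X f (u 0) h1.1.1 h2.1.1
  have a1 := jv_van X f (u 0) 1 h1.1.2.1 h2.1.2.1
  have a2 := jv_van X f (u 0) 2 h1.1.2.2 h2.1.2.2
  have b0 : ∀ k < l, FF (X + f) (u (k + 1)) = FF X (u (k + 1)) := fun k hk =>
    ff_van X f _ (h1.2 (k + 1) (by omega) (by omega)).1 (h2.2 (k + 1) (by omega) (by omega)).1
  have b1 : ∀ k < l, jv (X + f) (u (k + 1)) 1 = jv X (u (k + 1)) 1 := fun k hk =>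
    jv_van X f _ 1 (h1.2 (k + 1) (by omega) (by omega)).2 (h2.2 (k + 1) (by omega) (by omega)).2
  have c0 : St0 K R η p u (X + f) ↔ St0 K R η p u X := by
    unfold St0
    rw [a0, a1, a2]
  have c1 : ∀ k < l, (St K R η p u k (X + f) ↔ St K R η p u k X) := by
    intro k hk
    unfold St
    rw [b0 k hk, b1 k hk]
  unfold EP
  change _ ∧ _ ↔ _ ∧ _
  rw [c0]
  exact and_congr_right fun _ => forall_congr' fun k => forall_congr' fun hk => c1 k hk

private theorem st0_congr {d : ℕ} {K R : ℝ} {η : ℕ → ℝ} {p : Pat} {u v : ℕ → ℂ × ℂ} {X : CV d}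
    (h0 : u 0 = v 0) (h1 : u 1 = v 1) (h : St0 K R η p u X) : St0 K R η p v X := by
  unfold St0 at h ⊢
  rw [← h0, ← h1]
  exact h

private theorem st_congr {d : ℕ} {K R : ℝ} {η : ℕ → ℝ} {p : Pat} {u v : ℕ → ℂ × ℂ} {X : CV d}
    {k : ℕ} (h0 : u (k + 1) = v (k + 1)) (h1 : u (k + 2) = v (k + 2)) (h : St K R η p u k X) :
    St K R η p v k X := by
  unfold St at h ⊢
  rw [← h0, ← h1]
  exact h

private theorem card_bd {d m : ℕ} (hd : 1 ≤ d) {N : Finset (ℂ × ℂ)} {η : ℝ} (hN : IsNet N η)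
    (hη0 : 0 < η) (hη : η ≤ (d : ℝ)⁻¹) {u : ℕ → ℂ × ℂ} (hu : ∀ i ≤ m, IsU (u i)) {b : ℝ}
    (hb1 : b ≤ 1) (S : Finset (ℂ × ℂ))
    (hS : ∀ w ∈ S, w ∈ N ∧ (b = 0 ∨ ∃ i ≤ m, ‖wd w (u i)‖ ≤ 2 * (d : ℝ) ^ (-b))) :
    (S.card : ℝ) ≤ (m + 1) * 40000 * ((d : ℝ) ^ (-b)) ^ 2 / η ^ 2 := by
  have hd1 : (1 : ℝ) ≤ d := by exact_mod_cast hd
  have hd0 : (0 : ℝ) < d := by linarith
  have hle : η ≤ (d : ℝ) ^ (-b) := by
    refine hη.trans ?_
    rw [← Real.rpow_neg_one]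
    exact Real.rpow_le_rpow_of_exponent_le hd1 (by linarith)
  have hpos : 0 < (d : ℝ) ^ (-b) := Real.rpow_pos_of_pos hd0 _
  rcases eq_or_ne b 0 with hb | hb
  · have h1 := hN.cnt (u 0) (hu 0 (Nat.zero_le _)) 2
      (hη.trans ((inv_le_one_of_one_le₀ hd1).trans (by norm_num)))
    have h2 : S ⊆ N.filter fun w => ‖wd (u 0) w‖ ≤ 2 := by
      intro w hw
      rw [Finset.mem_filter]
      exact ⟨(hS w hw).1, (wd_le_one' (hu 0 (Nat.zero_le _)) (hN.unit w (hS w hw).1)).trans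
        (by norm_num)⟩
    have h3 : (S.card : ℝ) ≤ ((N.filter fun w => ‖wd (u 0) w‖ ≤ 2).card : ℝ) := by
      exact_mod_cast Finset.card_le_card h2
    refine h3.trans (h1.trans ?_)
    rw [hb, neg_zero, Real.rpow_zero]
    rw [div_le_div_iff_of_pos_right (by positivity)]
    have : (0 : ℝ) ≤ m := Nat.cast_nonneg m
    nlinarith
  · have h2 : S ⊆ (range (m + 1)).biUnion fun i =>
        N.filter fun w => ‖wd (u i) w‖ ≤ 2 * (d : ℝ) ^ (-b) := by
      intro w hw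
      obtain ⟨hwN, h⟩ := hS w hw
      rcases h with h | ⟨i, hi, h⟩
      · exact absurd h hb
      · rw [Finset.mem_biUnion]
        refine ⟨i, Finset.mem_range.2 (by omega), ?_⟩
        rw [Finset.mem_filter]
        refine ⟨hwN, ?_⟩
        rw [wd_comm']
        exact h
    have h3 : (S.card : ℝ) ≤ ∑ i ∈ range (m + 1),
        ((N.filter fun w => ‖wd (u i) w‖ ≤ 2 * (d : ℝ) ^ (-b)).card : ℝ) := by
      have := (Finset.card_le_card h2).trans Finset.card_biUnion_le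
      exact_mod_cast this
    refine h3.trans ?_
    have h4 : ∀ i ∈ range (m + 1),
        ((N.filter fun w => ‖wd (u i) w‖ ≤ 2 * (d : ℝ) ^ (-b)).card : ℝ) ≤
          10000 * (2 * (d : ℝ) ^ (-b)) ^ 2 / η ^ 2 := by
      intro i hi
      exact hN.cnt (u i) (hu i (by have := Finset.mem_range.1 hi; omega)) _ (by linarith)
    refine (Finset.sum_le_sum h4).trans (le_of_eq ?_)
    rw [Finset.sum_const, Finset.card_range, nsmul_eq_mul]
    push_cast
    ring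

private theorem et_pos {d B : ℕ} (hd : 1 ≤ d) (k : ℕ) : 0 < et d B k := by
  have hd0 : (0 : ℝ) < d := by exact_mod_cast hd
  cases k with
  | zero => unfold et; positivity
  | succ k => unfold et; positivity

private theorem et_le {d n k : ℕ} (hd : 1 ≤ d) (hk : k ≤ n + 2) :
    et d (6 * n + 30) k ≤ (d : ℝ)⁻¹ := by
  have hd1 : (1 : ℝ) ≤ d := by exact_mod_cast hd
  have hd0 : (0 : ℝ) < d := by linarith
  cases k with
  | zero =>
    unfold et
    exact inv_anti₀ hd0 (le_self_pow₀ hd1 (by omega))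
  | succ k =>
    unfold et
    rw [div_le_iff₀ (by positivity), ← div_eq_inv_mul, le_div_iff₀ hd0, ← pow_succ]
    exact pow_le_pow_right₀ hd1 (by omega)

private theorem kk_bd {d m T : ℕ} (hd : 1 ≤ d) {u : ℕ → ℂ × ℂ} {q : ℝ} (hm : m ≤ T + 1)
    (h : ∀ i < m, (d : ℝ) ^ (-q) / 2 ≤ ‖wd (u m) (u i)‖) :
    0 ≤ KK d u m ∧ KK d u m ^ 6 ≤
      3 ^ (18 * (T + 1)) * (d : ℝ) ^ (18 * ((T : ℝ) + 1) * max 0 (q - 1 / 2)) := by
  have hd1 : (1 : ℝ) ≤ d := by exact_mod_cast hd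
  have hd0 : (0 : ℝ) < d := by linarith
  set D : ℝ := (d : ℝ) ^ (max 0 (q - 1 / 2)) with hD
  have hD1 : 1 ≤ D := by
    rw [hD]
    exact Real.one_le_rpow hd1 (le_max_left _ _)
  have hfac : ∀ i ∈ range m, 0 ≤ (1 + 1 / (Real.sqrt d * ‖wd (u m) (u i)‖)) ^ 3 ∧
      (1 + 1 / (Real.sqrt d * ‖wd (u m) (u i)‖)) ^ 3 ≤ (3 * D) ^ 3 := by
    intro i hi
    have h1 := h i (Finset.mem_range.1 hi)
    have hs : 0 < Real.sqrt d := Real.sqrt_pos.2 hd0
    have hq : 0 < (d : ℝ) ^ (-q) := Real.rpow_pos_of_pos hd0 _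
    have hw : 0 < ‖wd (u m) (u i)‖ := by linarith
    have h0 : 0 ≤ 1 + 1 / (Real.sqrt d * ‖wd (u m) (u i)‖) := by positivity
    refine ⟨by positivity, pow_le_pow_left₀ h0 ?_ 3⟩
    have h2 : 1 / (Real.sqrt d * ‖wd (u m) (u i)‖) ≤ 1 / (Real.sqrt d * ((d : ℝ) ^ (-q) / 2)) :=
      one_div_le_one_div_of_le (by positivity) (mul_le_mul_of_nonneg_left h1 hs.le)
    have h3 : 1 / (Real.sqrt d * ((d : ℝ) ^ (-q) / 2)) = 2 * (d : ℝ) ^ (q - 1 / 2) := by
      rw [Real.sqrt_eq_rpow, Real.rpow_sub hd0, Real.rpow_neg hd0.le]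
      have e1 : 0 < (d : ℝ) ^ (1 / 2 : ℝ) := Real.rpow_pos_of_pos hd0 _
      have e2 : 0 < (d : ℝ) ^ q := Real.rpow_pos_of_pos hd0 _
      field_simp
    have h4 : (d : ℝ) ^ (q - 1 / 2) ≤ D := by
      rw [hD]
      exact Real.rpow_le_rpow_of_exponent_le hd1 (le_max_right _ _)
    linarith
  have hK0 : 0 ≤ KK d u m := by
    unfold KK
    exact Finset.prod_nonneg fun i hi => (hfac i hi).1
  have hK1 : KK d u m ≤ ((3 * D) ^ 3) ^ (T + 1) := by
    unfold KK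
    refine (Finset.prod_le_prod (fun i hi => (hfac i hi).1) fun i hi => (hfac i hi).2).trans ?_
    rw [Finset.prod_const, Finset.card_range]
    exact pow_le_pow_right₀ (one_le_pow₀ (by linarith)) hm
  refine ⟨hK0, (pow_le_pow_left₀ hK0 hK1 6).trans (le_of_eq ?_)⟩
  rw [← pow_mul, ← pow_mul, mul_pow]
  have e1 : 3 * ((T + 1) * 6) = 18 * (T + 1) := by ring
  rw [e1]
  congr 1
  rw [hD, ← Real.rpow_natCast, ← Real.rpow_mul hd0.le]
  congr 1
  push_cast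
  ring

/-- constant of one step -/
private noncomputable def C1 (n : ℕ) (K : ℝ) : ℝ :=
  40000 * ((n : ℝ) + 2) * (((2 * n + 4 : ℕ) : ℝ) ^ (2 * n + 4)) ^ 3 * 3 ^ (18 * (n + 2)) * K ^ 6

/-- factor of the step `k` -/
private noncomputable def Fk (n : ℕ) (K : ℝ) (d : ℕ) (ρ : ℝ) (p : Pat) (T k : ℕ) : ℝ :=
  C1 n K * ρ ^ 6 * (d : ℝ) ^ (-(4 * p.h k + 2 * p.be k) - 2 * p.b (k + 1) +
    18 * ((T : ℝ) + 1) * max 0 (p.bb k - 1 / 2))

private theorem pw_id {d : ℕ} (hd : 1 ≤ d) (h be b : ℝ) :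
    ((d : ℝ) ^ (-h)) ^ 4 * ((d : ℝ) ^ (1 / 2 - be)) ^ 2 / d * ((d : ℝ) ^ (-b)) ^ 2 =
      (d : ℝ) ^ (-(4 * h + 2 * be) - 2 * b) := by
  have hd0 : (0 : ℝ) < d := by exact_mod_cast hd
  rw [← Real.rpow_natCast, ← Real.rpow_mul hd0.le, ← Real.rpow_natCast, ← Real.rpow_mul hd0.le,
    ← Real.rpow_natCast, ← Real.rpow_mul hd0.le, ← Real.rpow_add hd0]
  nth_rewrite 2 [← Real.rpow_one (d : ℝ)]
  rw [← Real.rpow_sub hd0, ← Real.rpow_add hd0]
  congr 1
  push_cast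
  ring

private theorem alg_step {n l T d : ℕ} {K R τ η x y z D Q : ℝ} (hK : 1 ≤ K) (hR : 1 ≤ R)
    (hτ : 0 < τ) (hη : 0 < η) (hd : 1 ≤ d) (hl : l ≤ n) (hT : T ≤ n + 1) (hx : 0 < x) (hy : 0 < y)
    (hz : 0 < z) (hD : 0 ≤ D) (hQ0 : 0 ≤ Q) (hQ : Q ≤ 3 ^ (18 * (T + 1)) * D) :
    (((l + 1 : ℕ) : ℝ) + 1) * 40000 * z ^ 2 / η ^ 2 *
      ((((2 * (l + 1) + 2 : ℕ) : ℝ) ^ (2 * (l + 1) + 2)) ^ 3 * Q *
        (K * R * η * x * (K * R * x) * (K * R * y)) ^ 2 / (d * τ ^ 6)) ≤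
      C1 n K * (R / τ) ^ 6 * ((x ^ 4 * y ^ 2 / d * z ^ 2) * D) := by
  have hd0 : (0 : ℝ) < d := by exact_mod_cast hd
  have hM : (((2 * (l + 1) + 2 : ℕ) : ℝ) ^ (2 * (l + 1) + 2)) ≤
      (((2 * n + 4 : ℕ) : ℝ) ^ (2 * n + 4)) := by
    have h1 : ((2 * (l + 1) + 2 : ℕ) : ℝ) ≤ ((2 * n + 4 : ℕ) : ℝ) := by
      exact_mod_cast (by omega : 2 * (l + 1) + 2 ≤ 2 * n + 4)
    have h2 : (1 : ℝ) ≤ ((2 * n + 4 : ℕ) : ℝ) := by
      exact_mod_cast (by omega : 1 ≤ 2 * n + 4)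
    exact (pow_le_pow_left₀ (Nat.cast_nonneg _) h1 _).trans
      (pow_le_pow_right₀ h2 (by omega))
  have hM0 : 0 ≤ (((2 * (l + 1) + 2 : ℕ) : ℝ) ^ (2 * (l + 1) + 2)) := by positivity
  set M1 : ℝ := (((2 * (l + 1) + 2 : ℕ) : ℝ) ^ (2 * (l + 1) + 2)) with hM1
  have e : (((l + 1 : ℕ) : ℝ) + 1) * 40000 * z ^ 2 / η ^ 2 *
      (M1 ^ 3 * Q * (K * R * η * x * (K * R * x) * (K * R * y)) ^ 2 / (d * τ ^ 6)) =
      (40000 * ((l : ℝ) + 2) * M1 ^ 3 * K ^ 6 * Q) *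
        ((R / τ) ^ 6 * (x ^ 4 * y ^ 2 / d * z ^ 2)) := by
    push_cast
    field_simp
    ring
  rw [e]
  have h3 : (3 : ℝ) ^ (18 * (T + 1)) ≤ 3 ^ (18 * (n + 2)) :=
    pow_le_pow_right₀ (by norm_num) (by omega)
  have hl' : (l : ℝ) ≤ n := by exact_mod_cast hl
  have h4 : 40000 * ((l : ℝ) + 2) * M1 ^ 3 * K ^ 6 * Q ≤ C1 n K * D := by
    calc 40000 * ((l : ℝ) + 2) * M1 ^ 3 * K ^ 6 * Q
        ≤ 40000 * ((n : ℝ) + 2) * (((2 * n + 4 : ℕ) : ℝ) ^ (2 * n + 4)) ^ 3 * K ^ 6 *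
          (3 ^ (18 * (n + 2)) * D) := by
          gcongr
          exact hQ.trans (mul_le_mul_of_nonneg_right h3 hD)
      _ = C1 n K * D := by unfold C1; ring
  calc _ ≤ (C1 n K * D) * ((R / τ) ^ 6 * (x ^ 4 * y ^ 2 / d * z ^ 2)) := by
        refine mul_le_mul_of_nonneg_right h4 ?_
        positivity
    _ = _ := by ring

private theorem step {n : ℕ} {K : ℝ} (hK : 1 ≤ K) {d : ℕ} (hd : 2 * n + 10 ≤ d) {A : ℝ}
    (X0 : CV d) {τ : ℝ} (hA : 0 ≤ A) (hτ : 0 < τ) {R : ℝ} (hR : 1 ≤ R) {p : Pat} (hp : p.ok)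
    {T : ℕ} (hT : T ≤ n + 1) {N : ℕ → Finset (ℂ × ℂ)}
    (hN : ∀ k ≤ T + 1, IsNet (N k) (et d (6 * n + 30) k)) {l : ℕ} (hl : l < T) {P : ℝ}
    (hP : 0 ≤ P)
    (IH : ∀ u : ℕ → ℂ × ℂ, (∀ i ≤ l + 2, u i ∈ N i) →
      gau A X0 τ (WW K R (et d (6 * n + 30)) N p T (l + 1) u) ≤
        ENNReal.ofReal P * gau A X0 τ (EP K R (et d (6 * n + 30)) p (l + 1) u))
    (u : ℕ → ℂ × ℂ) (hu : ∀ i ≤ l + 1, u i ∈ N i) :
    gau A X0 τ (WW K R (et d (6 * n + 30)) N p T l u) ≤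
      ENNReal.ofReal (Fk n K d (R / τ) p T l * P) *
        gau A X0 τ (EP K R (et d (6 * n + 30)) p l u) := by
  classical
  set η := et d (6 * n + 30) with hη
  have hd1 : 1 ≤ d := by omega
  have hdR : (0 : ℝ) < d := by exact_mod_cast hd1
  by_cases hD : Dl d p u l
  swap
  · have h0 : (WW K R η N p T l u : Set (CV d)) = ∅ := by
      rw [Set.eq_empty_iff_forall_notMem]
      rintro X ⟨_, u', h1, _, h3, _⟩
      apply hD
      intro i hi
      have := (h3 l hl).2 i hi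
      rw [h1 (l + 1) le_rfl, h1 i (by omega)] at this
      exact this
    rw [h0, measure_empty]
    exact zero_le
  · have hU : ∀ i ≤ l + 1, IsU (u i) := fun i hi => (hN i (by omega)).unit _ (hu i hi)
    set S : Finset (ℂ × ℂ) := (N (l + 2)).filter fun w =>
      p.b (l + 1) = 0 ∨ ∃ i ≤ l + 1, ‖wd w (u i)‖ ≤ 2 * (d : ℝ) ^ (-p.b (l + 1)) with hS
    have hNl := hN (l + 2) (by omega)
    have hηpos : 0 < η (l + 2) := et_pos hd1 _
    have hcard := card_bd (m := l + 1) hd1 hNl hηpos (et_le hd1 (by omega)) hU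
      (b := p.b (l + 1)) (hp.b0 _).2 S (by
        intro w hw
        rw [hS, Finset.mem_filter] at hw
        exact hw)
    have hsub : (WW K R η N p T l u : Set (CV d)) ⊆
        ⋃ w ∈ S, WW K R η N p T (l + 1) (Function.update u (l + 2) w) := by
      rintro X ⟨hX, u', h1, h2, h3, h4⟩
      rw [Set.mem_iUnion₂]
      have hupd : ∀ i ≤ l + 2, u' i = Function.update u (l + 2) (u' (l + 2)) i := by
        intro i hi
        rcases eq_or_ne i (l + 2) with rfl | hne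
        · rw [Function.update_self]
        · rw [Function.update_of_ne hne]
          exact h1 i (by omega)
      refine ⟨u' (l + 2), ?_, ⟨?_, ?_⟩, u', ?_, h2, h3, h4⟩
      · rw [hS, Finset.mem_filter]
        refine ⟨h2 _ (by omega), ?_⟩
        rcases h4 (l + 1) (by omega) with h | ⟨i, hi, h⟩
        · exact Or.inl h
        · right
          refine ⟨i, hi, ?_⟩
          rw [← h1 i hi]
          exact h
      · refine st0_congr ?_ ?_ hX.1
        · rw [← h1 0 (by omega)]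
          exact hupd 0 (by omega)
        · rw [← h1 1 (by omega)]
          exact hupd 1 (by omega)
      · intro k hk
        exact st_congr (hupd (k + 1) (by omega)) (hupd (k + 2) (by omega)) (h3 k (by omega)).1
      · intro i hi
        exact hupd i (by omega)
    have hkk := kk_bd (d := d) (m := l + 1) (T := T) hd1 (u := u) (q := p.bb l) (by omega)
      (fun i hi => hD i (by omega))
    set x : ℝ := (d : ℝ) ^ (-p.h l) with hx
    set y : ℝ := (d : ℝ) ^ (1 / 2 - p.be l) with hy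
    set z : ℝ := (d : ℝ) ^ (-p.b (l + 1)) with hz
    set cm : ℝ := (((2 * (l + 1) + 2 : ℕ) : ℝ) ^ (2 * (l + 1) + 2)) ^ 3 * KK d u (l + 1) ^ 6 *
        (K * R * η (l + 2) * x * (K * R * x) * (K * R * y)) ^ 2 / (d * τ ^ 6) with hcm
    have hx0 : 0 < x := Real.rpow_pos_of_pos hdR _
    have hy0 : 0 < y := Real.rpow_pos_of_pos hdR _
    have hz0 : 0 < z := Real.rpow_pos_of_pos hdR _
    have hcm0 : 0 ≤ cm := by
      have := hkk.1
      positivity
    have hw0 : ∀ i < l + 1, wd (u (l + 1)) (u i) ≠ 0 := by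
      intro i hi h
      have h1 := hD i (by omega)
      rw [h, norm_zero] at h1
      have : 0 < (d : ℝ) ^ (-p.bb l) := Real.rpow_pos_of_pos hdR _
      linarith
    have hone : ∀ w ∈ S, gau A X0 τ (WW K R η N p T (l + 1) (Function.update u (l + 2) w)) ≤
        ENNReal.ofReal P * (ENNReal.ofReal cm * gau A X0 τ (EP K R η p l u)) := by
      intro w hw
      have hwN : w ∈ N (l + 2) := by
        rw [hS, Finset.mem_filter] at hw
        exact hw.1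
      have hupd : ∀ i ≤ l + 1, Function.update u (l + 2) w i = u i := by
        intro i hi
        rw [Function.update_of_ne (by omega)]
      refine (IH (Function.update u (l + 2) w) ?_).trans ?_
      · intro i hi
        rcases eq_or_ne i (l + 2) with rfl | hne
        · rw [Function.update_self]
          exact hwN
        · rw [hupd i (by omega)]
          exact hu i (by omega)
      · refine mul_le_mul_right ?_ _
        have hms := m_step (d := d) (m := l + 1) hA (by omega) (by omega) X0 hτ hU hw0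
          (hNl.unit w hwN) (EP_meas (d := d) K R η p l u)
          (fun X f h1 h2 => EP_inv K R η p l u X f h1 h2)
          (r1 := K * R * η (l + 2) * x) (r2 := K * R * x) (r3 := K * R * y)
          (by positivity) (by positivity) (by positivity)
        refine le_trans (measure_mono ?_) hms
        rintro X ⟨hX0, hX1⟩
        refine ⟨⟨?_, ?_⟩, ?_⟩
        · exact st0_congr (hupd 0 (by omega)) (hupd 1 (by omega)) hX0
        · intro k hk
          exact st_congr (hupd (k + 1) (by omega)) (hupd (k + 2) (by omega)) (hX1 k (by omega))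
        · have h5 := hX1 l (by omega)
          unfold St at h5
          rw [hupd (l + 1) le_rfl, Function.update_self] at h5
          exact h5
    have hfin : (S.card : ℝ) * P * cm ≤ Fk n K d (R / τ) p T l * P := by
      have h1 : (S.card : ℝ) * cm ≤ Fk n K d (R / τ) p T l := by
        refine (mul_le_mul_of_nonneg_right hcard hcm0).trans ?_
        refine (alg_step (n := n) (T := T) hK hR hτ hηpos hd1 (by omega) hT hx0 hy0 hz0
          (Real.rpow_nonneg hdR.le _) (pow_nonneg hkk.1 6) hkk.2).trans (le_of_eq ?_)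
        rw [hx, hy, hz, pw_id hd1, ← Real.rpow_add hdR]
        rfl
      calc (S.card : ℝ) * P * cm = ((S.card : ℝ) * cm) * P := by ring
        _ ≤ _ := mul_le_mul_of_nonneg_right h1 hP
    calc gau A X0 τ (WW K R η N p T l u)
        ≤ gau A X0 τ (⋃ w ∈ S, WW K R η N p T (l + 1) (Function.update u (l + 2) w)) :=
          measure_mono hsub
      _ ≤ ∑ w ∈ S, gau A X0 τ (WW K R η N p T (l + 1) (Function.update u (l + 2) w)) :=
          measure_biUnion_finset_le _ _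
      _ ≤ ∑ _w ∈ S, ENNReal.ofReal P * (ENNReal.ofReal cm * gau A X0 τ (EP K R η p l u)) :=
          Finset.sum_le_sum hone
      _ = ENNReal.ofReal ((S.card : ℝ) * P * cm) * gau A X0 τ (EP K R η p l u) := by
          rw [Finset.sum_const, nsmul_eq_mul, ENNReal.ofReal_mul (by positivity),
            ENNReal.ofReal_mul (by positivity), ENNReal.ofReal_natCast]
          ring
      _ ≤ _ := mul_le_mul_left (ENNReal.ofReal_le_ofReal hfin) _

private theorem C1_one (n : ℕ) {K : ℝ} (hK : 1 ≤ K) : 1 ≤ C1 n K := by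
  unfold C1
  have h1 : (1 : ℝ) ≤ 40000 * ((n : ℝ) + 2) := by
    have : (0 : ℝ) ≤ n := Nat.cast_nonneg n
    linarith
  have h2 : (1 : ℝ) ≤ (((2 * n + 4 : ℕ) : ℝ) ^ (2 * n + 4)) ^ 3 := by
    refine one_le_pow₀ (one_le_pow₀ ?_)
    exact_mod_cast (by omega : 1 ≤ 2 * n + 4)
  have h3 : (1 : ℝ) ≤ 3 ^ (18 * (n + 2)) := one_le_pow₀ (by norm_num)
  have h4 : (1 : ℝ) ≤ K ^ 6 := one_le_pow₀ hK
  exact one_le_mul_of_one_le_of_one_le
    (one_le_mul_of_one_le_of_one_le (one_le_mul_of_one_le_of_one_le h1 h2) h3) h4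

private theorem Fk_nonneg {n : ℕ} {K : ℝ} (hK : 1 ≤ K) {d : ℕ} {ρ : ℝ} (hρ : 0 ≤ ρ) (p : Pat)
    (T k : ℕ) : 0 ≤ Fk n K d ρ p T k := by
  unfold Fk
  have := C1_one n hK
  have h2 : (0 : ℝ) ≤ (d : ℝ) ^ (-(4 * p.h k + 2 * p.be k) - 2 * p.b (k + 1) +
    18 * ((T : ℝ) + 1) * max 0 (p.bb k - 1 / 2)) := Real.rpow_nonneg (Nat.cast_nonneg d) _
  positivity

private theorem ind {n : ℕ} {K : ℝ} (hK : 1 ≤ K) {d : ℕ} (hd : 2 * n + 10 ≤ d) {A : ℝ}
    (X0 : CV d) {τ : ℝ} (hA : 0 ≤ A) (hτ : 0 < τ) {R : ℝ} (hR : 1 ≤ R) {p : Pat} (hp : p.ok)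
    {T : ℕ} (hT : T ≤ n + 1) {N : ℕ → Finset (ℂ × ℂ)}
    (hN : ∀ k ≤ T + 1, IsNet (N k) (et d (6 * n + 30) k)) :
    ∀ j l : ℕ, l + j = T → ∀ u : ℕ → ℂ × ℂ, (∀ i ≤ l + 1, u i ∈ N i) →
      gau A X0 τ (WW K R (et d (6 * n + 30)) N p T l u) ≤
        ENNReal.ofReal (∏ k ∈ Ico l T, Fk n K d (R / τ) p T k) *
          gau A X0 τ (EP K R (et d (6 * n + 30)) p l u) := by
  have hρ : 0 ≤ R / τ := by positivity
  intro j
  induction j with
  | zero =>
    intro l hl u hu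
    have : l = T := by omega
    subst this
    rw [Finset.Ico_self, Finset.prod_empty, ENNReal.ofReal_one, one_mul]
    exact measure_mono fun X hX => hX.1
  | succ j ih =>
    intro l hl u hu
    have hlT : l < T := by omega
    rw [Finset.prod_eq_prod_Ico_succ_bot hlT]
    exact step hK hd X0 hA hτ hR hp hT hN hlT
      (Finset.prod_nonneg fun k _ => Fk_nonneg hK hρ p T k)
      (fun v hv => ih (l + 1) (by omega) v hv) u hu

private theorem prod_Fk {n : ℕ} {K : ℝ} {d : ℕ} (hd : 1 ≤ d) {ρ : ℝ} (p : Pat) (T : ℕ) :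
    ∏ k ∈ Ico 0 T, Fk n K d ρ p T k = C1 n K ^ T * ρ ^ (6 * T) *
      (d : ℝ) ^ (∑ k ∈ range T, (-(4 * p.h k + 2 * p.be k) - 2 * p.b (k + 1) +
        18 * ((T : ℝ) + 1) * max 0 (p.bb k - 1 / 2))) := by
  have hd0 : (0 : ℝ) < d := by exact_mod_cast hd
  rw [← Finset.range_eq_Ico]
  unfold Fk
  rw [Finset.prod_mul_distrib, Finset.prod_const, Finset.card_range, Real.rpow_sum_of_pos hd0,
    mul_pow, ← pow_mul]

private theorem exp_id (p : Pat) (T : ℕ) :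
    (1 - 4 * p.th - 4 * p.hc - 2 * p.b 0) +
      (∑ k ∈ range T, (-(4 * p.h k + 2 * p.be k) - 2 * p.b (k + 1) +
        18 * ((T : ℝ) + 1) * max 0 (p.bb k - 1 / 2))) = bdE p T := by
  unfold bdE
  rw [Finset.sum_range_succ' (fun l => 2 * p.b l), Finset.sum_add_distrib, Finset.sum_sub_distrib,
    Finset.sum_neg_distrib, ← Finset.mul_sum (f := fun k => max 0 (p.bb k - 1 / 2))]
  ring

private theorem pw_id0 {d : ℕ} (hd : 1 ≤ d) (hc th b : ℝ) :
    ((d : ℝ) ^ (-hc)) ^ 4 * ((d : ℝ) ^ (1 - th)) ^ 4 / (d : ℝ) ^ 3 * ((d : ℝ) ^ (-b)) ^ 2 =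
      (d : ℝ) ^ (1 - 4 * th - 4 * hc - 2 * b) := by
  have hd0 : (0 : ℝ) < d := by exact_mod_cast hd
  rw [← Real.rpow_natCast, ← Real.rpow_mul hd0.le, ← Real.rpow_natCast, ← Real.rpow_mul hd0.le,
    ← Real.rpow_natCast, ← Real.rpow_natCast, ← Real.rpow_mul hd0.le, ← Real.rpow_add hd0,
    ← Real.rpow_sub hd0, ← Real.rpow_add hd0]
  congr 1
  push_cast
  ring

private theorem alg_start {d : ℕ} {K R τ η0 η1 x t z P a b : ℝ} (hK : 1 ≤ K) (hR : 1 ≤ R)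
    (hτ : 0 < τ) (h0 : 0 < η0) (h1 : 0 < η1) (hd : 1 ≤ d) (hx : 0 < x) (ht : 0 < t)
    (hz : 0 < z) (hP : 0 ≤ P) (ha0 : 0 ≤ a) (ha : a ≤ 10000 * 1 ^ 2 / η0 ^ 2) (hb0 : 0 ≤ b)
    (hb : b ≤ (((0 : ℕ) : ℝ) + 1) * 40000 * z ^ 2 / η1 ^ 2) :
    a * (b * (P * (4 * (K * R * η1 * x * (K * R * x) * (K * R * t * η0) * (K * R * t)) ^ 2 /
      ((d : ℝ) ^ 3 * τ ^ 8)))) ≤
      1600000000 * K ^ 8 * (R / τ) ^ 8 * (x ^ 4 * t ^ 4 / (d : ℝ) ^ 3 * z ^ 2) * P := by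
  have hd0 : (0 : ℝ) < d := by exact_mod_cast hd
  calc a * (b * (P * (4 * (K * R * η1 * x * (K * R * x) * (K * R * t * η0) * (K * R * t)) ^ 2 /
      ((d : ℝ) ^ 3 * τ ^ 8))))
      ≤ (10000 * 1 ^ 2 / η0 ^ 2) * (((((0 : ℕ) : ℝ) + 1) * 40000 * z ^ 2 / η1 ^ 2) *
        (P * (4 * (K * R * η1 * x * (K * R * x) * (K * R * t * η0) * (K * R * t)) ^ 2 /
      ((d : ℝ) ^ 3 * τ ^ 8)))) := by gcongr
    _ = _ := by
      push_cast
      field_simp
      ring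

theorem cnt (n : ℕ) {K : ℝ} (hK : 1 ≤ K) : ∃ C : ℝ, 0 ≤ C ∧ ∀ d : ℕ, 2 * n + 10 ≤ d →
    ∀ (A : ℝ) (X0 : CV d) (τ : ℝ), 0 ≤ A → 0 < τ → τ ≤ 1 → gau A X0 τ Set.univ ≤ 1 →
    ∀ R : ℝ, 1 ≤ R → ∀ p : Pat, p.ok → ∀ T ≤ n + 1,
    ∀ N : ℕ → Finset (ℂ × ℂ), (∀ k ≤ T + 1, IsNet (N k) (et d (6 * n + 30) k)) →
      gau A X0 τ (Cod K R (et d (6 * n + 30)) N p T) ≤
        ENNReal.ofReal (C * (R / τ) ^ (6 * T + 8) * (d : ℝ) ^ bdE p T) := by
  classical
  refine ⟨C1 n K ^ (n + 1) * (1600000000 * K ^ 8), ?_, ?_⟩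
  · have := C1_one n hK
    positivity
  intro d hd A X0 τ hA hτ hτ1 hgau R hR p hp T hT N hN
  set η := et d (6 * n + 30) with hη
  have hd1 : 1 ≤ d := by omega
  have hdR : (0 : ℝ) < d := by exact_mod_cast hd1
  have hρ : 0 ≤ R / τ := by positivity
  have hη0 : 0 < η 0 := et_pos hd1 _
  have hη1 : 0 < η 1 := et_pos hd1 _
  have hC1 := C1_one n hK
  set x : ℝ := (d : ℝ) ^ (-p.hc) with hx
  set t : ℝ := (d : ℝ) ^ (1 - p.th) with ht
  set z : ℝ := (d : ℝ) ^ (-p.b 0) with hz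
  have hx0 : 0 < x := Real.rpow_pos_of_pos hdR _
  have ht0 : 0 < t := Real.rpow_pos_of_pos hdR _
  have hz0 : 0 < z := Real.rpow_pos_of_pos hdR _
  set P : ℝ := ∏ k ∈ Ico 0 T, Fk n K d (R / τ) p T k with hP
  have hP0 : 0 ≤ P := Finset.prod_nonneg fun k _ => Fk_nonneg hK hρ p T k
  set c0 : ℝ := 4 * (K * R * η 1 * x * (K * R * x) * (K * R * t * η 0) * (K * R * t)) ^ 2 /
      ((d : ℝ) ^ 3 * τ ^ 8) with hc0
  have hc00 : 0 ≤ c0 := by positivity
  set S1 : ℂ × ℂ → Finset (ℂ × ℂ) := fun a => (N 1).filter fun w =>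
      p.b 0 = 0 ∨ ∃ i ≤ 0, ‖wd w ((fun _ : ℕ => a) i)‖ ≤ 2 * (d : ℝ) ^ (-p.b 0) with hS1
  set vv : ℂ × ℂ → ℂ × ℂ → ℕ → ℂ × ℂ := fun a b i => if i = 0 then a else b with hvv
  have hsub : (Cod K R η N p T : Set (CV d)) ⊆
      ⋃ a ∈ N 0, ⋃ b ∈ S1 a, WW K R η N p T 0 (vv a b) := by
    rintro X ⟨u, h1, h2, h3, h4⟩
    rw [Set.mem_iUnion₂]
    refine ⟨u 0, h1 0 (by omega), ?_⟩
    rw [Set.mem_iUnion₂]
    have hv0 : vv (u 0) (u 1) 0 = u 0 := by simp [hvv]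
    have hv1 : vv (u 0) (u 1) 1 = u 1 := by simp [hvv]
    refine ⟨u 1, ?_, ⟨?_, ?_⟩, u, ?_, h1, h3, h4⟩
    · rw [hS1]
      simp only
      rw [Finset.mem_filter]
      refine ⟨h1 1 (by omega), ?_⟩
      rcases h4 0 (by omega) with h | ⟨i, hi, h⟩
      · exact Or.inl h
      · right
        refine ⟨0, le_rfl, ?_⟩
        have : i = 0 := by omega
        rw [this] at h
        exact h
    · exact st0_congr hv0.symm hv1.symm h2
    · intro k hk
      omega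
    · intro i hi
      have : i = 0 ∨ i = 1 := by omega
      rcases this with rfl | rfl
      · exact hv0.symm
      · exact hv1.symm
  have hcN : ((N 0).card : ℝ) ≤ 10000 * 1 ^ 2 / η 0 ^ 2 := by
    have hu1 : IsU ((1, 0) : ℂ × ℂ) := by
      unfold IsU n2
      simp
    have hle : η 0 ≤ 1 := (et_le (n := n) hd1 (by omega)).trans
      (inv_le_one_of_one_le₀ (by exact_mod_cast hd1))
    have h := (hN 0 (by omega)).cnt (1, 0) hu1 1 hle
    have h2 : ((N 0).filter fun w => ‖wd (1, 0) w‖ ≤ 1) = N 0 := by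
      rw [Finset.filter_eq_self]
      intro w hw
      exact wd_le_one' hu1 ((hN 0 (by omega)).unit w hw)
    rw [h2] at h
    exact h
  have hcS : ∀ a ∈ N 0, ((S1 a).card : ℝ) ≤ (((0 : ℕ) : ℝ) + 1) * 40000 * z ^ 2 / η 1 ^ 2 := by
    intro a ha
    exact card_bd (m := 0) hd1 (hN 1 (by omega)) hη1 (et_le hd1 (by omega))
      (u := fun _ => a) (fun i _ => (hN 0 (by omega)).unit a ha) (b := p.b 0) (hp.b0 _).2 (S1 a)
      (by
        intro w hw
        rw [hS1] at hw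
        simp only at hw
        rw [Finset.mem_filter] at hw
        exact hw)
  have hone : ∀ a ∈ N 0, ∀ b ∈ S1 a, gau A X0 τ (WW K R η N p T 0 (vv a b)) ≤
      ENNReal.ofReal (P * c0) := by
    intro a ha b hb
    have hbN : b ∈ N 1 := by
      rw [hS1] at hb
      simp only at hb
      rw [Finset.mem_filter] at hb
      exact hb.1
    have hv0 : vv a b 0 = a := by simp [hvv]
    have hv1 : vv a b 1 = b := by simp [hvv]
    refine (ind hK hd X0 hA hτ hR hp hT hN T 0 (by omega) (vv a b) ?_).trans ?_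
    · intro i hi
      have : i = 0 ∨ i = 1 := by omega
      rcases this with rfl | rfl
      · rw [hv0]
        exact ha
      · rw [hv1]
        exact hbN
    · rw [ENNReal.ofReal_mul hP0]
      refine mul_le_mul_right ?_ _
      have hms := m_start (d := d) hA (by omega) X0 hτ ((hN 0 (by omega)).unit a ha)
        ((hN 1 (by omega)).unit b hbN)
        (r1 := K * R * η 1 * x) (r2 := K * R * x) (r3 := K * R * t * η 0) (r4 := K * R * t)
        (by positivity) (by positivity) (by positivity) (by positivity)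
      have hm2 : ENNReal.ofReal c0 * gau A X0 τ Set.univ ≤ ENNReal.ofReal c0 :=
        (mul_le_mul_right hgau _).trans (le_of_eq (mul_one _))
      refine le_trans (measure_mono ?_) (hms.trans hm2)
      rintro X ⟨hX0, _⟩
      unfold St0 at hX0
      rw [hv0, hv1] at hX0
      exact hX0
  have hmain : gau A X0 τ (Cod K R η N p T) ≤
      ENNReal.ofReal (1600000000 * K ^ 8 * (R / τ) ^ 8 *
        (x ^ 4 * t ^ 4 / (d : ℝ) ^ 3 * z ^ 2) * P) := by
    have hb2 : 0 ≤ (((0 : ℕ) : ℝ) + 1) * 40000 * z ^ 2 / η 1 ^ 2 := by positivity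
    calc gau A X0 τ (Cod K R η N p T)
        ≤ gau A X0 τ (⋃ a ∈ N 0, ⋃ b ∈ S1 a, WW K R η N p T 0 (vv a b)) := measure_mono hsub
      _ ≤ ∑ a ∈ N 0, gau A X0 τ (⋃ b ∈ S1 a, WW K R η N p T 0 (vv a b)) :=
          measure_biUnion_finset_le _ _
      _ ≤ ∑ a ∈ N 0, ∑ b ∈ S1 a, gau A X0 τ (WW K R η N p T 0 (vv a b)) :=
          Finset.sum_le_sum fun a _ => measure_biUnion_finset_le _ _
      _ ≤ ∑ a ∈ N 0, ENNReal.ofReal ((((0 : ℕ) : ℝ) + 1) * 40000 * z ^ 2 / η 1 ^ 2 *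
            (P * c0)) := by
          refine Finset.sum_le_sum fun a ha => ?_
          refine (Finset.sum_le_sum (hone a ha)).trans ?_
          rw [Finset.sum_const, nsmul_eq_mul, ← ENNReal.ofReal_natCast,
            ← ENNReal.ofReal_mul (Nat.cast_nonneg _)]
          exact ENNReal.ofReal_le_ofReal
            (mul_le_mul_of_nonneg_right (hcS a ha) (mul_nonneg hP0 hc00))
      _ = ENNReal.ofReal (((N 0).card : ℝ) * ((((0 : ℕ) : ℝ) + 1) * 40000 * z ^ 2 / η 1 ^ 2 *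
            (P * c0))) := by
          rw [Finset.sum_const, nsmul_eq_mul, ← ENNReal.ofReal_natCast,
            ← ENNReal.ofReal_mul (Nat.cast_nonneg _)]
      _ ≤ _ := ENNReal.ofReal_le_ofReal
          (alg_start hK hR hτ hη0 hη1 hd1 hx0 ht0 hz0 hP0 (Nat.cast_nonneg _) hcN hb2 le_rfl)
  refine hmain.trans (ENNReal.ofReal_le_ofReal ?_)
  have hPe := prod_Fk (n := n) (K := K) hd1 (ρ := R / τ) p T
  rw [hP, hPe, hx, ht, hz, pw_id0 hd1, ← exp_id p T, Real.rpow_add hdR]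
  set e1 : ℝ := (d : ℝ) ^ (1 - 4 * p.th - 4 * p.hc - 2 * p.b 0) with he1
  set e2 : ℝ := (d : ℝ) ^ (∑ k ∈ range T, (-(4 * p.h k + 2 * p.be k) - 2 * p.b (k + 1) +
        18 * ((T : ℝ) + 1) * max 0 (p.bb k - 1 / 2))) with he2
  have he10 : 0 ≤ e1 := Real.rpow_nonneg hdR.le _
  have he20 : 0 ≤ e2 := Real.rpow_nonneg hdR.le _
  have hCT : C1 n K ^ T ≤ C1 n K ^ (n + 1) := pow_le_pow_right₀ hC1 hT
  have hC0 : 0 ≤ C1 n K := by linarith
  calc 1600000000 * K ^ 8 * (R / τ) ^ 8 * e1 * (C1 n K ^ T * (R / τ) ^ (6 * T) * e2)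
      = C1 n K ^ T * ((1600000000 * K ^ 8) * ((R / τ) ^ (6 * T + 8)) * (e1 * e2)) := by
        rw [pow_add]
        ring
    _ ≤ C1 n K ^ (n + 1) * ((1600000000 * K ^ 8) * ((R / τ) ^ (6 * T + 8)) * (e1 * e2)) := by
        refine mul_le_mul_of_nonneg_right hCT ?_
        positivity
    _ = _ := by ring

end Pool.Agent.H73.ES
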