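import Pool.Agent.H73.ES.Jl

/-!
# [H73 ES Co1] Coding, step

`y, u, w` unit, `‖wd y u‖ ≤ η`, `‖wd (nx X y) w‖ ≤ η'`, `d^6 η ≤ η' ≤ d^(-6)`. Everything for `d ≥ d0` large, `R ≤ d`, `GG R X`.
(1) `nn (FF X u) ≤ nn (FF X y) + 10^4 R √d η ≤ 2 R d^(-h)` (if `h > 0`: `nn (FF X y) ≤ d^(-h)`; if `h = 0`: `≤ R`; `d^(-h) ≥ d^(-1)`), and `nn (FF X y) ≤ 2 nn (FF X u)` (both are `≥ 1/d`).
(2) `‖wd (nx X u) (nx X y)‖ ≤ 10^4 R √d η * d ≤ η'` (`wd_lip`, divide by `nn (FF X y) nn (FF X u)`, `nn ≥ 1/d`), the triangle inequality for `‖wd · ·‖` of unit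
vectors (`‖wd a c‖ ≤ ‖wd a b‖ + ‖wd b c‖`: `wd a c = wd a b * hm c b… `, from `c = hm c b • b + wd b c • pp b`), so `‖wd (FF X u) w‖ = nn (FF X u) ‖wd (nx X u) w‖ ≤ nn (FF X u) 2 η' ≤ 4 R η' d^(-h)`.
(3) `‖hm (FF X u) w‖ ≤ nn (FF X u)` and `≥ nn (FF X u) / 2` (Lagrange identity `lag`, (2)).
(4) `‖wd (FF X u) (jv X u 1)‖ ≤ ‖wd (FF X y) (jv X y 1)‖ + 10^5 R^2 d η` (`w1_lip`). Write `FF X u = A w + B pp w`, `A = hm (FF X u) w`, `‖B‖ = ‖wd (FF X u) w‖ ≤ 2 η' nn (FF X u)`;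
`wd (FF X u) J = A wd w J + B wd (pp w) J` for `J = jv X u 1`, so `‖wd J w‖ ≤ (‖wd (FF X u) J‖ + ‖B‖ nn J) / ‖A‖`, `nn J ≤ 2 R √d` (`cau_jet`).
If `be > 0`: `‖wd (FF X y) (jv X y 1)‖ ≤ d^(1/2 - be) nn (FF X y) ≤ 2 d^(1/2-be) nn (FF X u)`: total `≤ 4 d^(1/2-be) + 2*10^5 R^2 d^2 η + 8 η' R √d ≤ K R d^(1/2 - be)`. If `be = 0`: `‖wd J w‖ ≤ nn J ≤ 2 R √d`.
-/

set_option autoImplicit false

open Finset MeasureTheory

namespace Pool.Agent.H73.ES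

open Pool.H70.SF

theorem co_n2_nonneg (u : ℂ × ℂ) : 0 ≤ n2 u := by
  unfold n2; positivity

theorem co_nn_nonneg (u : ℂ × ℂ) : 0 ≤ nn u := Real.sqrt_nonneg _

theorem co_nn_sq (u : ℂ × ℂ) : nn u ^ 2 = n2 u := Real.sq_sqrt (co_n2_nonneg u)

theorem co_nn_unit {u : ℂ × ℂ} (h : IsU u) : nn u = 1 := by
  have h' : n2 u = 1 := h
  unfold nn
  rw [h', Real.sqrt_one]

theorem co_pp_unit {u : ℂ × ℂ} (h : IsU u) : IsU (pp u) := by
  have h' : n2 u = 1 := h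
  show n2 (pp u) = 1
  unfold n2 pp
  unfold n2 at h'
  simp only [norm_neg, RCLike.norm_conj]
  linarith

theorem co_wd_comm (a b : ℂ × ℂ) : ‖wd a b‖ = ‖wd b a‖ := by
  have : wd a b = -wd b a := by unfold wd; ring
  rw [this, norm_neg]

theorem co_wd_smul_left (c : ℂ) (a b : ℂ × ℂ) : wd (c • a) b = c * wd a b := by
  unfold wd
  simp only [Prod.smul_fst, Prod.smul_snd, smul_eq_mul]
  ring

theorem co_wd_smul_right (c : ℂ) (a b : ℂ × ℂ) : wd a (c • b) = c * wd a b := by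
  unfold wd
  simp only [Prod.smul_fst, Prod.smul_snd, smul_eq_mul]
  ring

theorem co_wd_add_left (a a' b : ℂ × ℂ) : wd (a + a') b = wd a b + wd a' b := by
  unfold wd
  simp only [Prod.fst_add, Prod.snd_add]
  ring

theorem co_wd_add_right (a b b' : ℂ × ℂ) : wd a (b + b') = wd a b + wd a b' := by
  unfold wd
  simp only [Prod.fst_add, Prod.snd_add]
  ring

theorem wd_tri {a b c : ℂ × ℂ} (ha : IsU a) (hb : IsU b) (hc : IsU c) :
    ‖wd a c‖ ≤ ‖wd a b‖ + ‖wd b c‖ := by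
  have e : c = hm c b • b + wd b c • pp b := dec hb c
  have e1 : wd a c = hm c b * wd a b + wd b c * wd a (pp b) := by
    conv_lhs => rw [e]
    rw [co_wd_add_right, co_wd_smul_right, co_wd_smul_right]
  have h1 : ‖hm c b‖ ≤ 1 := by
    have := hm_le c b
    rwa [co_nn_unit hc, co_nn_unit hb, one_mul] at this
  have h2 : ‖wd a (pp b)‖ ≤ 1 := by
    have := wd_le a (pp b)
    rwa [co_nn_unit ha, co_nn_unit (co_pp_unit hb), one_mul] at this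
  rw [e1]
  refine (norm_add_le _ _).trans ?_
  rw [norm_mul, norm_mul]
  have h3 : ‖hm c b‖ * ‖wd a b‖ ≤ 1 * ‖wd a b‖ :=
    mul_le_mul_of_nonneg_right h1 (norm_nonneg _)
  have h4 : ‖wd b c‖ * ‖wd a (pp b)‖ ≤ ‖wd b c‖ * 1 :=
    mul_le_mul_of_nonneg_left h2 (norm_nonneg _)
  linarith

theorem co_nx {d : ℕ} (X : CV d) (u : ℂ × ℂ) :
    nx X u = (((nn (FF X u))⁻¹ : ℝ) : ℂ) • FF X u := rfl

theorem nx_unit {d : ℕ} {X : CV d} {u : ℂ × ℂ} (h : FF X u ≠ 0) : IsU (nx X u) := by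
  have hpos : 0 < n2 (FF X u) := by
    rcases (co_n2_nonneg (FF X u)).lt_or_eq with h1 | h1
    · exact h1
    · exfalso
      apply h
      unfold n2 at h1
      have h2 : ‖(FF X u).1‖ ^ 2 = 0 := by
        have := sq_nonneg ‖(FF X u).1‖
        have := sq_nonneg ‖(FF X u).2‖
        linarith
      have h3 : ‖(FF X u).2‖ ^ 2 = 0 := by
        have := sq_nonneg ‖(FF X u).1‖
        have := sq_nonneg ‖(FF X u).2‖
        linarith
      have h4 : (FF X u).1 = 0 := by simpa using h2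
      have h5 : (FF X u).2 = 0 := by simpa using h3
      exact Prod.ext h4 h5
  have hn : 0 < nn (FF X u) := Real.sqrt_pos.mpr hpos
  show n2 (nx X u) = 1
  rw [← co_nn_sq, co_nx, nn_smul, Complex.norm_real, Real.norm_of_nonneg (inv_nonneg.mpr hn.le),
    inv_mul_cancel₀ hn.ne']
  norm_num

/-- the algebra of the coding step -/
theorem co_core {F J w : ℂ × ℂ} (hw : IsU w) {e : ℝ} (he : e ≤ 1 / 2) (hF : 0 < nn F)
    (h : ‖wd F w‖ ≤ e * nn F) :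
    ‖hm F w‖ ≤ nn F ∧ ‖wd J w‖ ≤ nn J ∧
      ‖wd J w‖ ≤ 2 * ‖wd F J‖ / nn F + 2 * e * nn J := by
  have h1 : ‖hm F w‖ ≤ nn F := by
    have := hm_le F w
    rwa [co_nn_unit hw, mul_one] at this
  have h2 : ‖wd J w‖ ≤ nn J := by
    have := wd_le J w
    rwa [co_nn_unit hw, mul_one] at this
  refine ⟨h1, h2, ?_⟩
  have h3 : nn F / 2 ≤ ‖hm F w‖ := by
    have hl := lag F w
    have hw' : n2 w = 1 := hw
    rw [hw', mul_one, ← co_nn_sq] at hl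
    have h5 : ‖wd F w‖ ≤ nn F / 2 := by
      refine h.trans ?_
      have := mul_le_mul_of_nonneg_right he hF.le
      linarith
    by_contra hcon
    push Not at hcon
    have h6 : ‖wd F w‖ ^ 2 ≤ (nn F / 2) ^ 2 := by
      exact pow_le_pow_left₀ (norm_nonneg _) h5 2
    have h7 : ‖hm F w‖ ^ 2 ≤ (nn F / 2) ^ 2 := by
      exact pow_le_pow_left₀ (norm_nonneg _) hcon.le 2
    have h8 : 0 < nn F ^ 2 := by positivity
    nlinarith
  have e1 : F = hm F w • w + wd w F • pp w := dec hw F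
  have e2 : wd F J = hm F w * wd w J + wd w F * wd (pp w) J := by
    conv_lhs => rw [e1]
    rw [co_wd_add_left, co_wd_smul_left, co_wd_smul_left]
  have h9 : ‖hm F w‖ * ‖wd J w‖ ≤ ‖wd F J‖ + e * nn F * nn J := by
    have e3 : hm F w * wd w J = wd F J - wd w F * wd (pp w) J := by rw [e2]; ring
    have h10 : ‖hm F w‖ * ‖wd J w‖ = ‖wd F J - wd w F * wd (pp w) J‖ := by
      rw [← e3, norm_mul, co_wd_comm J w]
    rw [h10]
    refine (norm_sub_le _ _).trans ?_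
    rw [norm_mul, co_wd_comm w F]
    have h11 : ‖wd (pp w) J‖ ≤ nn J := by
      have := wd_le (pp w) J
      rwa [co_nn_unit (co_pp_unit hw), one_mul] at this
    have h12 : ‖wd F w‖ * ‖wd (pp w) J‖ ≤ e * nn F * nn J :=
      mul_le_mul h h11 (norm_nonneg _) ((norm_nonneg _).trans h)
    linarith
  have h13 : nn F / 2 * ‖wd J w‖ ≤ ‖wd F J‖ + e * nn F * nn J :=
    (mul_le_mul_of_nonneg_right h3 (norm_nonneg _)).trans h9
  have h14 : 2 * ‖wd F J‖ / nn F + 2 * e * nn J =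
      (‖wd F J‖ + e * nn F * nn J) / (nn F / 2) := by
    field_simp
  rw [h14, le_div_iff₀ (by positivity)]
  linarith

theorem co_nx_wd {d : ℕ} {X : CV d} {u : ℂ × ℂ} (h : 0 < nn (FF X u)) (w : ℂ × ℂ) :
    ‖wd (FF X u) w‖ = ‖wd (nx X u) w‖ * nn (FF X u) := by
  rw [co_nx, co_wd_smul_left, norm_mul, Complex.norm_real,
    Real.norm_of_nonneg (inv_nonneg.mpr h.le)]
  field_simp

theorem co_nx_wd2 {d : ℕ} {X : CV d} {u v : ℂ × ℂ} (hu : 0 < nn (FF X u))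
    (hv : 0 < nn (FF X v)) :
    ‖wd (nx X u) (nx X v)‖ = ‖wd (FF X u) (FF X v)‖ / (nn (FF X u) * nn (FF X v)) := by
  rw [co_nx, co_nx, co_wd_smul_left, co_wd_smul_right, norm_mul, norm_mul, Complex.norm_real,
    Complex.norm_real, Real.norm_of_nonneg (inv_nonneg.mpr hu.le),
    Real.norm_of_nonneg (inv_nonneg.mpr hv.le)]
  field_simp

/-- numbers -/
theorem co_num {D R η η' : ℝ} (hD : 1000 ≤ D) (hR : 1 ≤ R) (hRD : R ≤ D) (h0 : 0 ≤ η)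
    (h1 : D ^ 6 * η ≤ η') (h2 : D ^ 6 * η' ≤ 1) :
    8 * Real.sqrt D * η ≤ 1 ∧ 10 ^ 4 * R * Real.sqrt D * η ≤ D⁻¹ / 2 ∧
      10 ^ 4 * R * Real.sqrt D * η * D ≤ η' ∧ 2 * 10 ^ 5 * R ^ 2 * D * η * D ≤ D⁻¹ ∧
      8 * R * Real.sqrt D * η' ≤ D⁻¹ ∧ η' ≤ 1 / 4 ∧ 0 ≤ η' := by
  have hD0 : 0 < D := by linarith
  have hη' : 0 ≤ η' := le_trans (by positivity) h1
  have hs : Real.sqrt D ≤ D := by
    rw [Real.sqrt_le_left hD0.le]
    nlinarith
  have hs0 := Real.sqrt_nonneg D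
  have hD1 : 1 ≤ D := by linarith
  have k1 : 8 * Real.sqrt D * η ≤ 8 * D * η := by gcongr
  have k2 : 10 ^ 4 * R * Real.sqrt D * η ≤ 10 ^ 4 * D * D * η := by gcongr
  have k3 : 2 * 10 ^ 5 * R ^ 2 * D * η * D ≤ 2 * 10 ^ 5 * D ^ 2 * D * η * D := by gcongr
  have k4 : 8 * R * Real.sqrt D * η' ≤ 8 * D * D * η' := by gcongr
  have b1 : 1 ≤ D ^ 3 := one_le_pow₀ hD1
  have b2 : 1 ≤ D ^ 5 := one_le_pow₀ hD1
  have a3 : (2 * 10 ^ 5 : ℝ) ≤ D ^ 2 := by nlinarith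
  have a4 : (2 * 10 ^ 5 : ℝ) ≤ D ^ 3 := by
    calc (2 * 10 ^ 5 : ℝ) ≤ D ^ 2 := a3
      _ ≤ D ^ 3 := pow_le_pow_right₀ hD1 (by norm_num)
  have a5 : (8 : ℝ) ≤ D ^ 5 := by
    calc (8 : ℝ) ≤ 2 * 10 ^ 5 := by norm_num
      _ ≤ D ^ 2 := a3
      _ ≤ D ^ 5 := pow_le_pow_right₀ hD1 (by norm_num)
  have a6 : (4 : ℝ) ≤ D ^ 6 := by
    calc (4 : ℝ) ≤ 2 * 10 ^ 5 := by norm_num
      _ ≤ D ^ 2 := a3
      _ ≤ D ^ 6 := pow_le_pow_right₀ hD1 (by norm_num)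
  have c1 : 4 * η' ≤ 1 := by
    have := mul_le_mul_of_nonneg_right a6 hη'
    linarith
  have c2 : 8 * D * η ≤ 1 := by
    have h3 : 8 * D ≤ D ^ 6 := by
      have := mul_le_mul_of_nonneg_right a5 hD0.le
      linarith [this, (by ring : D ^ 5 * D = D ^ 6)]
    have := mul_le_mul_of_nonneg_right h3 h0
    linarith
  have c3 : 2 * 10 ^ 4 * D ^ 3 ≤ D ^ 6 := by
    have h3 : (2 * 10 ^ 4 : ℝ) ≤ D ^ 3 := by linarith
    have := mul_le_mul_of_nonneg_right h3 (by positivity : (0 : ℝ) ≤ D ^ 3)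
    linarith [this, (by ring : D ^ 3 * D ^ 3 = D ^ 6)]
  have c4 : 2 * 10 ^ 4 * D ^ 3 * η ≤ η' := by
    have := mul_le_mul_of_nonneg_right c3 h0
    linarith
  have c5 : 10 ^ 4 * D * D * η ≤ D⁻¹ / 2 := by
    have : 10 ^ 4 * D * D * η = D⁻¹ / 2 * (2 * 10 ^ 4 * D ^ 3 * η) := by
      field_simp
    rw [this]
    have h3 : 2 * 10 ^ 4 * D ^ 3 * η ≤ 1 := by linarith
    have h4 : (0 : ℝ) ≤ D⁻¹ / 2 := by positivity
    have := mul_le_mul_of_nonneg_left h3 h4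
    linarith
  have c6 : 10 ^ 4 * D * D * η * D ≤ η' := by
    have h3 : 0 ≤ D ^ 3 * η := by positivity
    have : 10 ^ 4 * D * D * η * D = 2 * 10 ^ 4 * D ^ 3 * η - 10 ^ 4 * (D ^ 3 * η) := by ring
    rw [this]
    linarith
  have c7 : D ^ 12 * η ≤ 1 := by
    have : D ^ 12 * η = D ^ 6 * (D ^ 6 * η) := by ring
    rw [this]
    exact (mul_le_mul_of_nonneg_left h1 (by positivity)).trans h2
  have c8 : 2 * 10 ^ 5 * D ^ 2 * D * η * D ≤ D⁻¹ := by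
    have : 2 * 10 ^ 5 * D ^ 2 * D * η * D = D⁻¹ * (2 * 10 ^ 5 * D ^ 5 * η) := by
      field_simp
    rw [this]
    have h3 : 2 * 10 ^ 5 * D ^ 5 * η ≤ D ^ 12 * η := by
      have h5 : 2 * 10 ^ 5 * D ^ 5 ≤ D ^ 12 := by
        have h6 := mul_le_mul_of_nonneg_right a3 (by positivity : (0 : ℝ) ≤ D ^ 5)
        have h7 : D ^ 7 ≤ D ^ 12 := pow_le_pow_right₀ hD1 (by norm_num)
        linarith [h6, (by ring : D ^ 2 * D ^ 5 = D ^ 7)]
      exact mul_le_mul_of_nonneg_right h5 h0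
    have h4 : (0 : ℝ) ≤ D⁻¹ := by positivity
    have := mul_le_mul_of_nonneg_left (h3.trans c7) h4
    linarith
  have c9 : 8 * D * D * η' ≤ D⁻¹ := by
    have : 8 * D * D * η' = D⁻¹ * (8 * D ^ 3 * η') := by
      field_simp
    rw [this]
    have h3 : 8 * D ^ 3 * η' ≤ D ^ 6 * η' := by
      have h5 : 8 * D ^ 3 ≤ D ^ 6 := by
        have h8 : (8 : ℝ) ≤ D ^ 3 := by linarith
        have h6 := mul_le_mul_of_nonneg_right h8 (by positivity : (0 : ℝ) ≤ D ^ 3)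
        linarith [h6, (by ring : D ^ 3 * D ^ 3 = D ^ 6)]
      exact mul_le_mul_of_nonneg_right h5 hη'
    have h4 : (0 : ℝ) ≤ D⁻¹ := by positivity
    have := mul_le_mul_of_nonneg_left (h3.trans h2) h4
    linarith
  refine ⟨k1.trans c2, k2.trans c5, ?_, k3.trans c8, k4.trans c9, by linarith, hη'⟩
  exact (mul_le_mul_of_nonneg_right k2 hD0.le).trans c6

/-- powers -/
theorem co_pow {D x : ℝ} (hD : 1 ≤ D) (hx : -1 ≤ x) : D⁻¹ ≤ D ^ x := by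
  rw [← Real.rpow_neg_one]
  exact Real.rpow_le_rpow_of_exponent_le hD hx

theorem co1 : ∃ (K : ℝ) (d0 : ℕ), 1 ≤ K ∧ ∀ d ≥ d0, ∀ R : ℝ, 1 ≤ R → R ≤ d →
    ∀ X : CV d, GG R X → ∀ y u w : ℂ × ℂ, IsU y → IsU u → IsU w → ∀ η η' : ℝ,
    ‖wd y u‖ ≤ η → ‖wd (nx X y) w‖ ≤ η' → (d : ℝ) ^ 6 * η ≤ η' → (d : ℝ) ^ 6 * η' ≤ 1 →
    ∀ be h : ℝ, 0 ≤ be → be ≤ 1 → 0 ≤ h → h ≤ 1 →
    (be = 0 ∨ ‖wd (FF X y) (jv X y 1)‖ ≤ (d : ℝ) ^ (1 / 2 - be) * nn (FF X y)) →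
    (h = 0 ∨ nn (FF X y) ≤ (d : ℝ) ^ (-h)) →
      ‖wd (FF X u) w‖ ≤ K * R * η' * (d : ℝ) ^ (-h) ∧
      ‖hm (FF X u) w‖ ≤ K * R * (d : ℝ) ^ (-h) ∧
      ‖wd (jv X u 1) w‖ ≤ K * R * (d : ℝ) ^ (1 / 2 - be) := by
  refine ⟨10, 1000, by norm_num, ?_⟩
  intro d hd R hR hRd X hG y u w hy hu hw η η' h1 h2 h3 h4 be h be0 be1 h0 h1' hbe hh
  have hD : (1000 : ℝ) ≤ d := by exact_mod_cast hd
  have hD0 : (0 : ℝ) < d := by linarith
  have hD1 : (1 : ℝ) ≤ d := by linarith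
  have hd2 : 2 ≤ d := by omega
  have hd1 : 1 ≤ d := by omega
  have hη : 0 ≤ η := (norm_nonneg _).trans h1
  obtain ⟨n1, n2', n3, n4, n5, n6, n7⟩ := co_num hD hR hRd hη h3 h4
  have hR0 : 0 < R := by linarith
  have hs0 := Real.sqrt_nonneg (d : ℝ)
  have hsd : Real.sqrt (d : ℝ) ^ 2 = d := Real.sq_sqrt hD0.le
  have hRR : ∀ u, IsU u → nn (FF X u) ≤ R := fun u hu => (hG u hu).2
  have hLL : ∀ u, IsU u → 0 < nn (FF X u) := fun u hu =>
    lt_of_lt_of_le (inv_pos.mpr hD0) (hG u hu).1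
  have hyu : 8 * Real.sqrt d * ‖wd y u‖ ≤ 1 := by
    have : 8 * Real.sqrt d * ‖wd y u‖ ≤ 8 * Real.sqrt d * η := by gcongr
    linarith
  have huy : 8 * Real.sqrt d * ‖wd u y‖ ≤ 1 := by rwa [co_wd_comm u y]
  have hsm : 10 ^ 4 * R * Real.sqrt d * ‖wd y u‖ ≤ 10 ^ 4 * R * Real.sqrt d * η := by gcongr
  have l1 := ff_lip hd2 hRR hy hu hyu
  have l2 := ff_lip hd2 hRR hu hy huy
  rw [co_wd_comm u y] at l2
  have gu := (hG u hu).1
  have gy := (hG y hy).1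
  have m1 : nn (FF X u) ≤ 2 * nn (FF X y) := by linarith
  have m2 : nn (FF X y) ≤ 2 * nn (FF X u) := by linarith
  have hpu := hLL u hu
  have hpy := hLL y hy
  have hph : (0 : ℝ) < (d : ℝ) ^ (-h) := Real.rpow_pos_of_pos hD0 _
  have my : nn (FF X y) ≤ R * (d : ℝ) ^ (-h) := by
    rcases hh with hh | hh
    · rw [hh, neg_zero, Real.rpow_zero, mul_one]
      exact hRR y hy
    · refine hh.trans ?_
      have := mul_le_mul_of_nonneg_right hR hph.le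
      linarith
  have mu : nn (FF X u) ≤ 2 * R * (d : ℝ) ^ (-h) := by linarith
  -- the wedge of the images
  have w1 : ‖wd (nx X u) (nx X y)‖ ≤ η' := by
    rw [co_nx_wd2 hpu hpy]
    have := wd_lip hd2 hRR hu hy huy
    rw [co_wd_comm u y] at this
    rw [div_le_iff₀ (by positivity)]
    refine this.trans ?_
    have q1 : 10 ^ 4 * R * Real.sqrt d * ‖wd y u‖ ≤ η' * nn (FF X y) := by
      have q2 : 10 ^ 4 * R * Real.sqrt d * η = (10 ^ 4 * R * Real.sqrt d * η * d) * (d : ℝ)⁻¹ := by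
        field_simp
      refine hsm.trans ?_
      rw [q2]
      exact mul_le_mul n3 gy (by positivity) n7
    have := mul_le_mul_of_nonneg_left q1 hpu.le
    linarith
  have hFu : FF X u ≠ 0 := by
    intro hcon
    rw [hcon] at hpu
    simp [nn, n2] at hpu
  have hFy : FF X y ≠ 0 := by
    intro hcon
    rw [hcon] at hpy
    simp [nn, n2] at hpy
  have w2 : ‖wd (nx X u) w‖ ≤ 2 * η' := by
    have := wd_tri (nx_unit hFu) (nx_unit hFy) hw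
    linarith
  have w3 : ‖wd (FF X u) w‖ ≤ 2 * η' * nn (FF X u) := by
    rw [co_nx_wd hpu]
    exact mul_le_mul_of_nonneg_right w2 hpu.le
  obtain ⟨c1, c2, c3⟩ := co_core (J := jv X u 1) hw (by linarith : 2 * η' ≤ 1 / 2) hpu w3
  refine ⟨?_, ?_, ?_⟩
  · refine w3.trans ?_
    have := mul_le_mul_of_nonneg_left mu (by positivity : 0 ≤ 2 * η')
    have q : 0 ≤ R * η' * (d : ℝ) ^ (-h) := by positivity
    linarith
  · refine c1.trans (mu.trans ?_)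
    have q : 0 ≤ R * (d : ℝ) ^ (-h) := by positivity
    linarith
  · have cj := cau_jet hd1 hRR hu 1
    rw [pow_one] at cj
    rcases hbe with hbe | hbe
    · rw [hbe, sub_zero, ← Real.sqrt_eq_rpow]
      refine c2.trans (cj.trans ?_)
      have q : 0 ≤ R * Real.sqrt d := by positivity
      linarith
    · have hpb : (0 : ℝ) < (d : ℝ) ^ (1 / 2 - be) := Real.rpow_pos_of_pos hD0 _
      have hpb' : (d : ℝ)⁻¹ ≤ (d : ℝ) ^ (1 / 2 - be) := co_pow hD1 (by linarith)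
      have l3 := w1_lip hd2 hRR hy hu hyu (k := 1) (by norm_num)
      rw [show (1 + 1 : ℕ) = 2 from rfl, hsd] at l3
      have l4 : 10 ^ 5 * R ^ 2 * (d : ℝ) * ‖wd y u‖ ≤ 10 ^ 5 * R ^ 2 * (d : ℝ) * η := by gcongr
      have l5 : ‖wd (FF X u) (jv X u 1)‖ ≤ 2 * (d : ℝ) ^ (1 / 2 - be) * nn (FF X u) +
          10 ^ 5 * R ^ 2 * (d : ℝ) * η * d * nn (FF X u) := by
        have q1 : (d : ℝ) ^ (1 / 2 - be) * nn (FF X y) ≤
            (d : ℝ) ^ (1 / 2 - be) * (2 * nn (FF X u)) := mul_le_mul_of_nonneg_left m2 hpb.le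
        have q2 : 10 ^ 5 * R ^ 2 * (d : ℝ) * η ≤
            10 ^ 5 * R ^ 2 * (d : ℝ) * η * d * nn (FF X u) := by
          have q3 : 1 ≤ (d : ℝ) * nn (FF X u) := by
            have := mul_le_mul_of_nonneg_left gu hD0.le
            rwa [mul_inv_cancel₀ hD0.ne'] at this
          have q4 : 0 ≤ 10 ^ 5 * R ^ 2 * (d : ℝ) * η := by positivity
          have := mul_le_mul_of_nonneg_left q3 q4
          linarith
        linarith
      have l6 : 2 * ‖wd (FF X u) (jv X u 1)‖ / nn (FF X u) ≤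
          4 * (d : ℝ) ^ (1 / 2 - be) + 2 * 10 ^ 5 * R ^ 2 * (d : ℝ) * η * d := by
        rw [div_le_iff₀ hpu]
        linarith
      have l7 : 2 * (2 * η') * nn (jv X u 1) ≤ 8 * R * Real.sqrt d * η' := by
        have := mul_le_mul_of_nonneg_left cj (by positivity : 0 ≤ 2 * (2 * η'))
        linarith
      have q : (d : ℝ) ^ (1 / 2 - be) ≤ R * (d : ℝ) ^ (1 / 2 - be) := by
        have := mul_le_mul_of_nonneg_right hR hpb.le
        linarith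
      linarith

end Pool.Agent.H73.ES
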