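import Pool.Agent.H73.ES.Crn
import Pool.Agent.H73.ES.Co1

/-!
# [H73 ES Co0] Coding, start

`c` critical, `‖wd c z‖ ≤ η`, `‖wd (nx X c) w‖ ≤ η0`, `d^6 η^2 ≤ η0`, `d^10 η0 ≤ η`, `d^10 η ≤ 1`; `d ≥ d0`, `R ≤ d`.
(1) as in `co1`: `nn (FF X z) ≤ 2 R d^(-hc)`, `nn (FF X c) ≤ 2 nn (FF X z)`. (2) `‖wd (nx X z) (nx X c)‖ ≤ 100 R d^2 η^2 ≤ η0` (`crn2`, `nn (FF X z) ≥ 1/d`), so `‖wd (FF X z) w‖ ≤ nn (FF X z) 2 η0`.
(3) `‖hm (FF X z) w‖ ≥ nn (FF X z)/2`. (4) `‖wd (jv X z 1) w‖ ≤ (‖wd (FF X z) (jv X z 1)‖ + ‖wd (FF X z) w‖ nn (jv X z 1)) / ‖hm (FF X z) w‖` as in `co1`, and `crn1`: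
`‖wd (FF X z) (jv X z 1)‖ ≤ 4 ‖wd (FF X c) (jv X c 2)‖ η + 1000 R^2 √d^3 η^2`, `2 ‖wd (FF X c) (jv X c 2)‖ ≤ d^(1-th) nn (FF X c)` (or, for `th = 0`, `≤ 4 R d nn (FF X c)` by `wd_le`, `cau_jet`),
so `‖wd (jv X z 1) w‖ ≤ 16 R d^(1-th) η + 2000 R^2 d^(5/2) η^2 + 8 η0 R √d ≤ K R d^(1-th) η`. (5) The same with `jv X z 2`: `w1_lip` (`k = 2`) gives
`‖wd (FF X z) (jv X z 2)‖ ≤ ‖wd (FF X c) (jv X c 2)‖ + 10^5 R^2 √d^3 η`.
-/

set_option autoImplicit false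

open Finset MeasureTheory

namespace Pool.Agent.H73.ES

open Pool.H70.SF

/-- numbers -/
theorem co_num0 {D R η η0 S : ℝ} (hD : 1000 ≤ D) (hR : 1 ≤ R) (hRD : R ≤ D) (h0 : 0 ≤ η)
    (hS : 0 ≤ S) (hSD : S ≤ D)
    (h1 : D ^ 6 * η ^ 2 ≤ η0) (h2 : D ^ 10 * η0 ≤ η) (h3 : D ^ 10 * η ≤ 1) :
    8 * S * η ≤ 1 ∧ 10 ^ 4 * R * S * η ≤ D⁻¹ / 2 ∧
      100 * R * D * η ^ 2 * D ≤ η0 ∧ 2000 * R ^ 2 * S ^ 3 * η ^ 2 * D ≤ R * η ∧
      8 * R * S * η0 ≤ R * η ∧ 2 * 10 ^ 5 * R ^ 2 * S ^ 3 * η * D ≤ R ∧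
      8 * R * D * η0 ≤ R ∧ η0 ≤ 1 / 4 ∧ 0 ≤ η0 := by
  have hD0 : 0 < D := by linarith
  have hR0 : 0 < R := by linarith
  have hη' : 0 ≤ η0 := le_trans (by positivity) h1
  have hD1 : 1 ≤ D := by linarith
  have a3 : (2 * 10 ^ 5 : ℝ) ≤ D ^ 2 := by nlinarith
  have pw : ∀ k : ℕ, 2 ≤ k → (2 * 10 ^ 5 : ℝ) ≤ D ^ k := fun k hk =>
    a3.trans (pow_le_pow_right₀ hD1 hk)
  have a1 : 8 * D ≤ D ^ 10 := by
    have := mul_le_mul_of_nonneg_right (pw 9 (by norm_num)) hD0.le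
    have e : D ^ 9 * D = D ^ 10 := by ring
    linarith
  have a2 : 8 * D * η ≤ 1 := (mul_le_mul_of_nonneg_right a1 h0).trans h3
  have a4 : 8 * D * η0 ≤ η := (mul_le_mul_of_nonneg_right a1 hη').trans h2
  have a5 : η ≤ 1 := by
    have := mul_le_mul_of_nonneg_right (pw 10 (by norm_num)) h0
    linarith
  have a6 : η0 ≤ 1 / 4 := by
    have := mul_le_mul_of_nonneg_right (pw 10 (by norm_num)) hη'
    linarith
  have a7 : 2 * 10 ^ 5 * D ^ 5 * η ≤ 1 := by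
    have h5 := mul_le_mul_of_nonneg_right (pw 5 (by norm_num)) (by positivity : 0 ≤ D ^ 5)
    have e : D ^ 5 * D ^ 5 = D ^ 10 := by ring
    rw [e] at h5
    exact (mul_le_mul_of_nonneg_right h5 h0).trans h3
  refine ⟨?_, ?_, ?_, ?_, ?_, ?_, ?_, a6, hη'⟩
  · calc 8 * S * η ≤ 8 * D * η := by gcongr
      _ ≤ 1 := a2
  · calc 10 ^ 4 * R * S * η ≤ 10 ^ 4 * D * D * η := by gcongr
      _ = D⁻¹ / 2 * (2 * 10 ^ 4 * D ^ 3 * η) := by field_simp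
      _ ≤ D⁻¹ / 2 * 1 := by
          refine mul_le_mul_of_nonneg_left ?_ (by positivity)
          have h5 : 2 * 10 ^ 4 * D ^ 3 * η ≤ 2 * 10 ^ 5 * D ^ 5 * η := by
            have h6 : D ^ 3 ≤ D ^ 5 := pow_le_pow_right₀ hD1 (by norm_num)
            gcongr
            all_goals norm_num
          linarith
      _ = D⁻¹ / 2 := by ring
  · calc 100 * R * D * η ^ 2 * D ≤ 100 * D * D * η ^ 2 * D := by gcongr
      _ = 100 * D ^ 3 * η ^ 2 := by ring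
      _ ≤ D ^ 6 * η ^ 2 := by
          refine mul_le_mul_of_nonneg_right ?_ (by positivity)
          have h5 := mul_le_mul_of_nonneg_right (pw 3 (by norm_num)) (by positivity : 0 ≤ D ^ 3)
          have e : D ^ 3 * D ^ 3 = D ^ 6 := by ring
          have : 0 ≤ D ^ 3 := by positivity
          linarith
      _ ≤ η0 := h1
  · calc 2000 * R ^ 2 * S ^ 3 * η ^ 2 * D = R * η * (2000 * R * S ^ 3 * η * D) := by ring
      _ ≤ R * η * (2000 * D * D ^ 3 * η * D) := by gcongr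
      _ = R * η * (2000 * D ^ 5 * η) := by ring
      _ ≤ R * η * 1 := by
          refine mul_le_mul_of_nonneg_left ?_ (by positivity)
          have : 0 ≤ D ^ 5 * η := by positivity
          linarith
      _ = R * η := by ring
  · calc 8 * R * S * η0 ≤ 8 * R * D * η0 := by gcongr
      _ = R * (8 * D * η0) := by ring
      _ ≤ R * η := mul_le_mul_of_nonneg_left a4 hR0.le
  · calc 2 * 10 ^ 5 * R ^ 2 * S ^ 3 * η * D = R * (2 * 10 ^ 5 * R * S ^ 3 * η * D) := by ring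
      _ ≤ R * (2 * 10 ^ 5 * D * D ^ 3 * η * D) := by gcongr
      _ = R * (2 * 10 ^ 5 * D ^ 5 * η) := by ring
      _ ≤ R * 1 := mul_le_mul_of_nonneg_left a7 hR0.le
      _ = R := by ring
  · calc 8 * R * D * η0 = R * (8 * D * η0) := by ring
      _ ≤ R * 1 := mul_le_mul_of_nonneg_left (a4.trans a5) hR0.le
      _ = R := by ring

theorem co0 : ∃ (K : ℝ) (d0 : ℕ), 1 ≤ K ∧ ∀ d ≥ d0, ∀ R : ℝ, 1 ≤ R → R ≤ d →
    ∀ X : CV d, GG R X → ∀ c z w : ℂ × ℂ, IsU c → IsU z → IsU w → JJ X c = 0 →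
    ∀ η η0 : ℝ, ‖wd c z‖ ≤ η → ‖wd (nx X c) w‖ ≤ η0 → (d : ℝ) ^ 6 * η ^ 2 ≤ η0 →
    (d : ℝ) ^ 10 * η0 ≤ η → (d : ℝ) ^ 10 * η ≤ 1 →
    ∀ th hc : ℝ, 0 ≤ th → th ≤ 1 → 0 ≤ hc → hc ≤ 1 →
    (th = 0 ∨ 2 * ‖wd (FF X c) (jv X c 2)‖ ≤ (d : ℝ) ^ (1 - th) * nn (FF X c)) →
    (hc = 0 ∨ nn (FF X c) ≤ (d : ℝ) ^ (-hc)) →
      ‖wd (FF X z) w‖ ≤ K * R * η0 * (d : ℝ) ^ (-hc) ∧
      ‖hm (FF X z) w‖ ≤ K * R * (d : ℝ) ^ (-hc) ∧
      ‖wd (jv X z 1) w‖ ≤ K * R * (d : ℝ) ^ (1 - th) * η ∧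
      ‖wd (jv X z 2) w‖ ≤ K * R * (d : ℝ) ^ (1 - th) := by
  refine ⟨40, 1000, by norm_num, ?_⟩
  intro d hd R hR hRd X hG c z w hc hz hw hJ η η0 h1 h2 h3 h4 h5 th h th0 th1 h0 h1' hth hh
  have hD : (1000 : ℝ) ≤ d := by exact_mod_cast hd
  have hD0 : (0 : ℝ) < d := by linarith
  have hD1 : (1 : ℝ) ≤ d := by linarith
  have hd2 : 2 ≤ d := by omega
  have hd1 : 1 ≤ d := by omega
  have hη : 0 ≤ η := (norm_nonneg _).trans h1
  have hs0 := Real.sqrt_nonneg (d : ℝ)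
  have hsD : Real.sqrt (d : ℝ) ≤ d := by
    rw [Real.sqrt_le_left hD0.le]
    nlinarith
  have hsd : Real.sqrt (d : ℝ) ^ 2 = d := Real.sq_sqrt hD0.le
  obtain ⟨n1, n2', n3, n4, n5, n6, n7, n8, n9⟩ := co_num0 hD hR hRd hη hs0 hsD h3 h4 h5
  have hR0 : 0 < R := by linarith
  have hRR : ∀ u, IsU u → nn (FF X u) ≤ R := fun u hu => (hG u hu).2
  have hLL : ∀ u, IsU u → 0 < nn (FF X u) := fun u hu =>
    lt_of_lt_of_le (inv_pos.mpr hD0) (hG u hu).1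
  have hcz : 8 * Real.sqrt d * ‖wd c z‖ ≤ 1 := by
    have : 8 * Real.sqrt d * ‖wd c z‖ ≤ 8 * Real.sqrt d * η := by gcongr
    linarith
  have hzc : 8 * Real.sqrt d * ‖wd z c‖ ≤ 1 := by rwa [co_wd_comm z c]
  have hsm : 10 ^ 4 * R * Real.sqrt d * ‖wd c z‖ ≤ 10 ^ 4 * R * Real.sqrt d * η := by gcongr
  have l1 := ff_lip hd2 hRR hc hz hcz
  have l2 := ff_lip hd2 hRR hz hc hzc
  rw [co_wd_comm z c] at l2
  have gz := (hG z hz).1
  have gc := (hG c hc).1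
  have m1 : nn (FF X z) ≤ 2 * nn (FF X c) := by linarith
  have m2 : nn (FF X c) ≤ 2 * nn (FF X z) := by linarith
  have hpz := hLL z hz
  have hpc := hLL c hc
  have hph : (0 : ℝ) < (d : ℝ) ^ (-h) := Real.rpow_pos_of_pos hD0 _
  have mc : nn (FF X c) ≤ R * (d : ℝ) ^ (-h) := by
    rcases hh with hh | hh
    · rw [hh, neg_zero, Real.rpow_zero, mul_one]
      exact hRR c hc
    · refine hh.trans ?_
      have := mul_le_mul_of_nonneg_right hR hph.le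
      linarith
  have mz : nn (FF X z) ≤ 2 * R * (d : ℝ) ^ (-h) := by linarith
  have w1 : ‖wd (nx X z) (nx X c)‖ ≤ η0 := by
    rw [co_wd_comm, co_nx_wd2 hpc hpz]
    have := crn2 hd2 hRR hc hz hJ hcz
    rw [div_le_iff₀ (by positivity)]
    refine this.trans ?_
    have q1 : 100 * R * (d : ℝ) * ‖wd c z‖ ^ 2 ≤ η0 * nn (FF X z) := by
      have q0 : 100 * R * (d : ℝ) * ‖wd c z‖ ^ 2 ≤ 100 * R * (d : ℝ) * η ^ 2 := by gcongr
      have q2 : 100 * R * (d : ℝ) * η ^ 2 = (100 * R * (d : ℝ) * η ^ 2 * d) * (d : ℝ)⁻¹ := by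
        field_simp
      refine q0.trans ?_
      rw [q2]
      exact mul_le_mul n3 gz (by positivity) n9
    have := mul_le_mul_of_nonneg_left q1 hpc.le
    linarith
  have hFz : FF X z ≠ 0 := by
    intro hcon
    rw [hcon] at hpz
    simp [nn, n2] at hpz
  have hFc : FF X c ≠ 0 := by
    intro hcon
    rw [hcon] at hpc
    simp [nn, n2] at hpc
  have w2 : ‖wd (nx X z) w‖ ≤ 2 * η0 := by
    have := wd_tri (nx_unit hFz) (nx_unit hFc) hw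
    linarith
  have w3 : ‖wd (FF X z) w‖ ≤ 2 * η0 * nn (FF X z) := by
    rw [co_nx_wd hpz]
    exact mul_le_mul_of_nonneg_right w2 hpz.le
  obtain ⟨c1, c2, c3⟩ := co_core (J := jv X z 1) hw (by linarith : 2 * η0 ≤ 1 / 2) hpz w3
  obtain ⟨-, d2, d3⟩ := co_core (J := jv X z 2) hw (by linarith : 2 * η0 ≤ 1 / 2) hpz w3
  have hP0 : (0 : ℝ) < (d : ℝ) ^ (1 - th) := Real.rpow_pos_of_pos hD0 _
  have hP1 : (1 : ℝ) ≤ (d : ℝ) ^ (1 - th) := Real.one_le_rpow hD1 (by linarith)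
  have hW : ‖wd (FF X c) (jv X c 2)‖ ≤ 4 * R * (d : ℝ) ^ (1 - th) * nn (FF X z) := by
    have hW1 : 2 * ‖wd (FF X c) (jv X c 2)‖ ≤ 4 * R * (d : ℝ) ^ (1 - th) * nn (FF X c) := by
      rcases hth with hth | hth
      · rw [hth, sub_zero, Real.rpow_one]
        have q1 := wd_le (FF X c) (jv X c 2)
        have q2 := cau_jet hd1 hRR hc 2
        rw [hsd] at q2
        have q3 := mul_le_mul_of_nonneg_left q2 hpc.le
        linarith
      · refine hth.trans ?_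
        have q1 : (d : ℝ) ^ (1 - th) * nn (FF X c) * 1 ≤
            (d : ℝ) ^ (1 - th) * nn (FF X c) * (4 * R) := by
          refine mul_le_mul_of_nonneg_left (by linarith) (by positivity)
        linarith
    have q : R * (d : ℝ) ^ (1 - th) * nn (FF X c) ≤
        R * (d : ℝ) ^ (1 - th) * (2 * nn (FF X z)) :=
      mul_le_mul_of_nonneg_left m2 (by positivity)
    linarith
  have hdz : 1 ≤ (d : ℝ) * nn (FF X z) := by
    have := mul_le_mul_of_nonneg_left gz hD0.le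
    rwa [mul_inv_cancel₀ hD0.ne'] at this
  refine ⟨?_, ?_, ?_, ?_⟩
  · refine w3.trans ?_
    have := mul_le_mul_of_nonneg_left mz (by positivity : 0 ≤ 2 * η0)
    have q : 0 ≤ R * η0 * (d : ℝ) ^ (-h) := by positivity
    linarith
  · refine c1.trans (mz.trans ?_)
    have q : 0 ≤ R * (d : ℝ) ^ (-h) := by positivity
    linarith
  · have cj := cau_jet hd1 hRR hz 1
    rw [pow_one] at cj
    have l3 := crn1 hd2 hRR hc hz hJ hcz
    have l5 : ‖wd (FF X z) (jv X z 1)‖ ≤ 16 * R * (d : ℝ) ^ (1 - th) * η * nn (FF X z) +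
        1000 * R ^ 2 * Real.sqrt d ^ 3 * η ^ 2 * d * nn (FF X z) := by
      have q1 : ‖wd (FF X c) (jv X c 2)‖ * ‖wd c z‖ ≤
          4 * R * (d : ℝ) ^ (1 - th) * nn (FF X z) * η :=
        mul_le_mul hW h1 (norm_nonneg _) (by positivity)
      have q2 : 1000 * R ^ 2 * Real.sqrt d ^ 3 * ‖wd c z‖ ^ 2 ≤
          1000 * R ^ 2 * Real.sqrt d ^ 3 * η ^ 2 := by gcongr
      have q4 : 0 ≤ 1000 * R ^ 2 * Real.sqrt d ^ 3 * η ^ 2 := by positivity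
      have q5 := mul_le_mul_of_nonneg_left hdz q4
      linarith
    have l6 : 2 * ‖wd (FF X z) (jv X z 1)‖ / nn (FF X z) ≤
        32 * R * (d : ℝ) ^ (1 - th) * η + 2000 * R ^ 2 * Real.sqrt d ^ 3 * η ^ 2 * d := by
      rw [div_le_iff₀ hpz]
      linarith
    have l7 : 2 * (2 * η0) * nn (jv X z 1) ≤ 8 * R * Real.sqrt d * η0 := by
      have := mul_le_mul_of_nonneg_left cj (by positivity : 0 ≤ 2 * (2 * η0))
      linarith
    have q : R * η ≤ R * (d : ℝ) ^ (1 - th) * η := by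
      have := mul_le_mul_of_nonneg_right hP1 (by positivity : 0 ≤ R * η)
      linarith
    have q' : 0 ≤ R * (d : ℝ) ^ (1 - th) * η := by positivity
    linarith
  · have cj := cau_jet hd1 hRR hz 2
    rw [hsd] at cj
    have l3 := w1_lip hd2 hRR hc hz hcz (k := 2) le_rfl
    rw [show (2 + 1 : ℕ) = 3 from rfl] at l3
    have l5 : ‖wd (FF X z) (jv X z 2)‖ ≤ 4 * R * (d : ℝ) ^ (1 - th) * nn (FF X z) +
        10 ^ 5 * R ^ 2 * Real.sqrt d ^ 3 * η * d * nn (FF X z) := by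
      have q2 : 10 ^ 5 * R ^ 2 * Real.sqrt d ^ 3 * ‖wd c z‖ ≤
          10 ^ 5 * R ^ 2 * Real.sqrt d ^ 3 * η := by gcongr
      have q4 : 0 ≤ 10 ^ 5 * R ^ 2 * Real.sqrt d ^ 3 * η := by positivity
      have q5 := mul_le_mul_of_nonneg_left hdz q4
      linarith
    have l6 : 2 * ‖wd (FF X z) (jv X z 2)‖ / nn (FF X z) ≤
        8 * R * (d : ℝ) ^ (1 - th) + 2 * 10 ^ 5 * R ^ 2 * Real.sqrt d ^ 3 * η * d := by
      rw [div_le_iff₀ hpz]
      linarith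
    have l7 : 2 * (2 * η0) * nn (jv X z 2) ≤ 8 * R * d * η0 := by
      have := mul_le_mul_of_nonneg_left cj (by positivity : 0 ≤ 2 * (2 * η0))
      linarith
    have q : R ≤ R * (d : ℝ) ^ (1 - th) := by
      have := mul_le_mul_of_nonneg_left hP1 hR0.le
      linarith
    linarith

end Pool.Agent.H73.ES
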