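import Pool.Agent.H73.ES.Cd
import Pool.Agent.H73.ES.Co0

/-!
# [H73 ES Codc] Coding of a bad pattern

`B = 6 n + 30`, `η = et d B`: `η 1 = d^6 η 0^2`, `η (l+2) = d^6 η (l+1)`, `d^10 η 1 ≤ η 0`, and `d^10 η k ≤ 1` for `k ≤ n + 2`. `K` = the maximum of the constants of `co0`, `co1`.
Let `X ∈ BadP R p T`, `c` the critical point. Choose `u 0 ∈ N 0` with `‖wd c (u 0)‖ ≤ η 0` and `u (l+1) ∈ N (l+1)` with `‖wd (ob X c l) (u (l+1))‖ ≤ η (l+1)` for `l ≤ T` (`IsNet.cov`; `ob X c l` is a unit vector: `nx_unit`, `GG`). `co0` with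
`(c, u 0, u 1, η 0, η 1)` gives `St0`; `co1` with `(ob X c l, u (l+1), u (l+2), η (l+1), η (l+2))` gives `St` (`nx X (ob X c l) = ob X c (l+1)`). `De`, `Dl`: `| ‖wd (u (l+1)) (u i)‖ - ‖wd (ob X c l) (pt X c i)‖ | ≤ η (l+1) + η i ≤ 2 d^(-10)`
(`wd_tri`; `‖wd a b‖ = ‖wd b a‖`), and `d^(-b), d^(-bb) ≥ d^(-1)`.
-/

set_option autoImplicit false

open Finset MeasureTheory

namespace Pool.Agent.H73.ES

open Pool.H70.SF

theorem et_pos {d B : ℕ} (hd : 1 ≤ d) (k : ℕ) : 0 < et d B k := by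
  have h : (0 : ℝ) < d := by exact_mod_cast hd
  cases k with
  | zero => unfold et; positivity
  | succ l => unfold et; positivity

theorem et_f1 {d B : ℕ} : (d : ℝ) ^ 6 * et d B 0 ^ 2 ≤ et d B 1 := by
  apply le_of_eq
  show (d : ℝ) ^ 6 * (((d : ℝ) ^ B)⁻¹) ^ 2 = (d : ℝ) ^ (6 * (0 + 1)) / (d : ℝ) ^ (2 * B)
  rw [inv_pow, ← pow_mul, mul_comm B 2, div_eq_mul_inv]

theorem et_f2 {d B : ℕ} (hd : 1 ≤ d) (hB : 16 ≤ B) : (d : ℝ) ^ 10 * et d B 1 ≤ et d B 0 := by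
  have h : (0 : ℝ) < d := by exact_mod_cast hd
  have h1 : (1 : ℝ) ≤ d := by exact_mod_cast hd
  show (d : ℝ) ^ 10 * ((d : ℝ) ^ (6 * (0 + 1)) / (d : ℝ) ^ (2 * B)) ≤ ((d : ℝ) ^ B)⁻¹
  rw [← mul_div_assoc, div_le_iff₀ (by positivity), two_mul B, pow_add, ← mul_assoc,
    inv_mul_cancel₀ (by positivity), one_mul, ← pow_add]
  exact pow_le_pow_right₀ h1 (by omega)

theorem et_f3 {d B : ℕ} (hd : 1 ≤ d) (hB : 10 ≤ B) : (d : ℝ) ^ 10 * et d B 0 ≤ 1 := by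
  have h : (0 : ℝ) < d := by exact_mod_cast hd
  have h1 : (1 : ℝ) ≤ d := by exact_mod_cast hd
  show (d : ℝ) ^ 10 * ((d : ℝ) ^ B)⁻¹ ≤ 1
  rw [← div_eq_mul_inv, div_le_one (by positivity)]
  exact pow_le_pow_right₀ h1 hB

theorem et_f4 {d B : ℕ} (l : ℕ) : (d : ℝ) ^ 6 * et d B (l + 1) ≤ et d B (l + 2) := by
  apply le_of_eq
  show (d : ℝ) ^ 6 * ((d : ℝ) ^ (6 * (l + 1)) / (d : ℝ) ^ (2 * B)) =
    (d : ℝ) ^ (6 * (l + 1 + 1)) / (d : ℝ) ^ (2 * B)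
  rw [← mul_div_assoc, ← pow_add]
  congr 2
  ring

theorem et_f5 {d n : ℕ} (hd : 1 ≤ d) {k : ℕ} (hk : k ≤ n + 2) :
    (d : ℝ) ^ 10 * et d (6 * n + 30) k ≤ 1 := by
  have h : (0 : ℝ) < d := by exact_mod_cast hd
  have h1 : (1 : ℝ) ≤ d := by exact_mod_cast hd
  cases k with
  | zero => exact et_f3 hd (by omega)
  | succ l =>
    show (d : ℝ) ^ 10 * ((d : ℝ) ^ (6 * (l + 1)) / (d : ℝ) ^ (2 * (6 * n + 30))) ≤ 1
    rw [← mul_div_assoc, div_le_one (by positivity), ← pow_add]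
    exact pow_le_pow_right₀ h1 (by omega)

theorem cod (n : ℕ) : ∃ (K : ℝ) (d0 : ℕ), 1 ≤ K ∧ ∀ d ≥ d0, ∀ R : ℝ, 1 ≤ R → R ≤ d →
    ∀ p : Pat, p.ok → ∀ T ≤ n + 1, ∀ N : ℕ → Finset (ℂ × ℂ),
    (∀ k ≤ T + 1, IsNet (N k) (et d (6 * n + 30) k)) →
      (BadP R p T : Set (CV d)) ⊆ Cod K R (et d (6 * n + 30)) N p T := by
  obtain ⟨K0, d00, hK0, H0⟩ := co0
  obtain ⟨K1, d01, hK1, H1⟩ := co1
  refine ⟨max K0 K1, max (max d00 d01) 1000, hK0.trans (le_max_left _ _), ?_⟩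
  intro d hd R hR hRd p hp T hT N hN X hX
  have hd00 : d00 ≤ d := ((le_max_left _ _).trans (le_max_left _ _)).trans hd
  have hd01 : d01 ≤ d := ((le_max_right _ _).trans (le_max_left _ _)).trans hd
  have hd1000 : 1000 ≤ d := (le_max_right _ _).trans hd
  have hd1 : 1 ≤ d := by omega
  have hD0 : (0 : ℝ) < d := by exact_mod_cast hd1
  have hD1 : (1 : ℝ) ≤ d := by exact_mod_cast hd1
  have hD : (1000 : ℝ) ≤ d := by exact_mod_cast hd1000
  obtain ⟨hG, c, hc, hJ, hth, hhc, hst, hb⟩ := hX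
  have hR0 : 0 < R := by linarith
  have hne : ∀ v, IsU v → FF X v ≠ 0 := by
    intro v hv hcon
    have h1 := (hG v hv).1
    rw [hcon] at h1
    have h2 : nn (0 : ℂ × ℂ) = 0 := by simp [nn, n2]
    rw [h2] at h1
    have : (0 : ℝ) < (d : ℝ)⁻¹ := by positivity
    linarith
  have hpt : ∀ k, IsU (pt X c k) := by
    intro k
    cases k with
    | zero => exact hc
    | succ l =>
      induction l with
      | zero => exact nx_unit (hne c hc)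
      | succ l ih => exact nx_unit (hne _ ih)
  set η := et d (6 * n + 30) with hηdef
  have hη0 : ∀ k, 0 < η k := fun k => et_pos hd1 k
  have hηs : ∀ k ≤ T + 1, η k ≤ (d : ℝ)⁻¹ / 4 := by
    intro k hk
    have h1 : (d : ℝ) ^ 10 * η k ≤ 1 := et_f5 hd1 (by omega)
    have h2 : 4 * (d : ℝ) ≤ (d : ℝ) ^ 10 := by
      have h3 : (4 : ℝ) ≤ (d : ℝ) ^ 9 := by
        calc (4 : ℝ) ≤ d := by linarith
          _ = (d : ℝ) ^ 1 := (pow_one _).symm
          _ ≤ (d : ℝ) ^ 9 := pow_le_pow_right₀ hD1 (by norm_num)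
      have h4 := mul_le_mul_of_nonneg_right h3 hD0.le
      have e : (d : ℝ) ^ 9 * d = (d : ℝ) ^ 10 := by ring
      linarith
    have h5 := mul_le_mul_of_nonneg_right h2 (hη0 k).le
    have h6 : η k = (d : ℝ)⁻¹ / 4 * (4 * d * η k) := by field_simp
    rw [h6]
    have h7 : (0 : ℝ) ≤ (d : ℝ)⁻¹ / 4 := by positivity
    have := mul_le_mul_of_nonneg_left (h5.trans h1) h7
    linarith
  have hex : ∀ k, ∃ w : ℂ × ℂ, k ≤ T + 1 → (w ∈ N k ∧ ‖wd (pt X c k) w‖ ≤ η k) := by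
    intro k
    by_cases hk : k ≤ T + 1
    · obtain ⟨w, h1, h2⟩ := (hN k hk).cov _ (hpt k)
      exact ⟨w, fun _ => ⟨h1, h2⟩⟩
    · exact ⟨0, fun h => absurd h hk⟩
  choose u hu using hex
  have huU : ∀ k ≤ T + 1, IsU (u k) := fun k hk => (hN k hk).unit _ (hu k hk).1
  have hT : ∀ x : ℝ, 0 ≤ x → K0 * x ≤ max K0 K1 * x := fun x hx =>
    mul_le_mul_of_nonneg_right (le_max_left _ _) hx
  have hT' : ∀ x : ℝ, 0 ≤ x → K1 * x ≤ max K0 K1 * x := fun x hx =>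
    mul_le_mul_of_nonneg_right (le_max_right _ _) hx
  refine ⟨u, fun k hk => (hu k hk).1, ?_, ?_, ?_⟩
  · obtain ⟨a1, a2, a3, a4⟩ := H0 d hd00 R hR hRd X hG c (u 0) (u 1) hc (huU 0 (by omega))
      (huU 1 (by omega)) hJ (η 0) (η 1) (hu 0 (by omega)).2 (hu 1 (by omega)).2
      et_f1 (et_f2 hd1 (by omega)) (et_f3 hd1 (by omega)) p.th p.hc hp.th0.1 hp.th0.2
      hp.hc0.1 hp.hc0.2 hth hhc
    have q1 : (0 : ℝ) < (d : ℝ) ^ (-p.hc) := Real.rpow_pos_of_pos hD0 _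
    have q2 : (0 : ℝ) < (d : ℝ) ^ (1 - p.th) := Real.rpow_pos_of_pos hD0 _
    have e0 := hη0 0
    have e1 := hη0 1
    refine ⟨a1.trans ?_, a2.trans ?_, a3.trans ?_, a4.trans ?_⟩
    · have := hT (R * η 1 * (d : ℝ) ^ (-p.hc)) (by positivity)
      linarith
    · have := hT (R * (d : ℝ) ^ (-p.hc)) (by positivity)
      linarith
    · have := hT (R * (d : ℝ) ^ (1 - p.th) * η 0) (by positivity)
      linarith
    · have := hT (R * (d : ℝ) ^ (1 - p.th)) (by positivity)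
      linarith
  · intro l hl
    obtain ⟨b1, b2, b3⟩ := hst l hl
    obtain ⟨a1, a2, a3⟩ := H1 d hd01 R hR hRd X hG (ob X c l) (u (l + 1)) (u (l + 2))
      (hpt (l + 1)) (huU (l + 1) (by omega)) (huU (l + 2) (by omega)) (η (l + 1)) (η (l + 2))
      (hu (l + 1) (by omega)).2 (hu (l + 2) (by omega)).2 (et_f4 l) (by
        have h1 : (d : ℝ) ^ 10 * η (l + 2) ≤ 1 := et_f5 hd1 (by omega)
        have h2 : (d : ℝ) ^ 6 * η (l + 2) ≤ (d : ℝ) ^ 10 * η (l + 2) :=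
          mul_le_mul_of_nonneg_right (pow_le_pow_right₀ hD1 (by norm_num)) (hη0 _).le
        exact h2.trans h1) (p.be l) (p.h l) (hp.be0 l).1 (hp.be0 l).2 (hp.h0 l).1 (hp.h0 l).2
        b1 b2
    have q1 : (0 : ℝ) < (d : ℝ) ^ (-p.h l) := Real.rpow_pos_of_pos hD0 _
    have q2 : (0 : ℝ) < (d : ℝ) ^ (1 / 2 - p.be l) := Real.rpow_pos_of_pos hD0 _
    have e1 := hη0 (l + 2)
    refine ⟨⟨a1.trans ?_, a2.trans ?_, a3.trans ?_⟩, ?_⟩
    · have := hT' (R * η (l + 2) * (d : ℝ) ^ (-p.h l)) (by positivity)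
      linarith
    · have := hT' (R * (d : ℝ) ^ (-p.h l)) (by positivity)
      linarith
    · have := hT' (R * (d : ℝ) ^ (1 / 2 - p.be l)) (by positivity)
      linarith
    · intro i hi
      have t1 := wd_tri (hpt (l + 1)) (huU (l + 1) (by omega)) (hpt i)
      have t2 := wd_tri (huU (l + 1) (by omega)) (huU i (by omega)) (hpt i)
      have t3 := (hu (l + 1) (by omega)).2
      have t4 := (hu i (by omega)).2
      rw [co_wd_comm] at t4
      have t5 := hηs (l + 1) (by omega)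
      have t6 := hηs i (by omega)
      have t7 : (d : ℝ) ^ (-p.bb l) ≤ ‖wd (pt X c (l + 1)) (pt X c i)‖ := b3 i hi
      have t8 : (d : ℝ)⁻¹ ≤ (d : ℝ) ^ (-p.bb l) := co_pow hD1 (by
        have := (hp.bb0 l).2
        linarith)
      linarith
  · intro l hl
    rcases hb l hl with h | ⟨i, hi, h⟩
    · exact Or.inl h
    · refine Or.inr ⟨i, hi, ?_⟩
      have t1 := wd_tri (huU (l + 1) (by omega)) (hpt (l + 1)) (huU i (by omega))
      have t2 := wd_tri (hpt (l + 1)) (hpt i) (huU i (by omega))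
      have t3 := (hu (l + 1) (by omega)).2
      have t4 := (hu i (by omega)).2
      rw [co_wd_comm] at t3
      have t5 := hηs (l + 1) (by omega)
      have t6 := hηs i (by omega)
      have t7 : ‖wd (pt X c (l + 1)) (pt X c i)‖ ≤ (d : ℝ) ^ (-p.b l) := h
      have t8 : (d : ℝ)⁻¹ ≤ (d : ℝ) ^ (-p.b l) := co_pow hD1 (by
        have := (hp.b0 l).2
        linarith)
      have t9 : (0 : ℝ) < (d : ℝ) ^ (-p.b l) := Real.rpow_pos_of_pos hD0 _
      linarith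

end Pool.Agent.H73.ES
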