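import Pool.Agent.H73.ES.Cd
import Pool.Agent.H73.ES.Rs

/-!
# [H73 ES Codz] The coded set is closed

Finitely many choices of `(u 0, …, u (T+1))`, for each the conditions are closed in `X` (`FF X u` and `jv X u k` are continuous in `X`: `jt_cont`, `jv_zero`; `De`, `Dl` do not depend on `X`). `St0`, `St l` (`l < T`), `Dl l` (`l < T`), `De l` (`l ≤ T`) depend only on
`u 0, …, u (T+1)`: so `Cod` is the union over the finite type `∀ k : Fin (T+2), {x // x ∈ N k}` of the sets for the corresponding `u` (extended by an arbitrary value), `isClosed_iUnion_of_finite`.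
-/

set_option autoImplicit false

open Finset MeasureTheory

namespace Pool.Agent.H73.ES

open Pool.H70.SF

private lemma jv_cont {d : ℕ} (u : ℂ × ℂ) (k : ℕ) : Continuous fun X : CV d => jv X u k := by
  unfold jv
  exact ((jt_cont u k).comp continuous_fst).prodMk ((jt_cont u k).comp continuous_snd)

private lemma ff_cont {d : ℕ} (u : ℂ × ℂ) : Continuous fun X : CV d => FF X u := by
  simp only [← jv_zero]
  exact jv_cont u 0

private lemma wd_cont {d : ℕ} {f : CV d → ℂ × ℂ} (hf : Continuous f) (w : ℂ × ℂ) :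
    Continuous fun X => ‖wd (f X) w‖ := by
  unfold wd
  fun_prop

private lemma hm_cont {d : ℕ} {f : CV d → ℂ × ℂ} (hf : Continuous f) (w : ℂ × ℂ) :
    Continuous fun X => ‖hm (f X) w‖ := by
  unfold hm
  fun_prop

private lemma st0_closed {d : ℕ} (K R : ℝ) (η : ℕ → ℝ) (p : Pat) (u : ℕ → ℂ × ℂ) :
    IsClosed {X : CV d | St0 K R η p u X} := by
  unfold St0
  refine IsClosed.and (isClosed_le (wd_cont (ff_cont _) _) continuous_const) ?_
  refine IsClosed.and (isClosed_le (hm_cont (ff_cont _) _) continuous_const) ?_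
  exact IsClosed.and (isClosed_le (wd_cont (jv_cont _ _) _) continuous_const)
    (isClosed_le (wd_cont (jv_cont _ _) _) continuous_const)

private lemma st_closed {d : ℕ} (K R : ℝ) (η : ℕ → ℝ) (p : Pat) (u : ℕ → ℂ × ℂ) (l : ℕ) :
    IsClosed {X : CV d | St K R η p u l X} := by
  unfold St
  refine IsClosed.and (isClosed_le (wd_cont (ff_cont _) _) continuous_const) ?_
  exact IsClosed.and (isClosed_le (hm_cont (ff_cont _) _) continuous_const)
    (isClosed_le (wd_cont (jv_cont _ _) _) continuous_const)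

theorem cod_closed {d : ℕ} (K R : ℝ) (η : ℕ → ℝ) (N : ℕ → Finset (ℂ × ℂ)) (p : Pat) (T : ℕ) :
    IsClosed (Cod K R η N p T : Set (CV d)) := by
  classical
  set ext : (∀ k : Fin (T + 2), {x // x ∈ N k}) → ℕ → ℂ × ℂ :=
    fun v k => if h : k < T + 2 then (v ⟨k, h⟩ : ℂ × ℂ) else 0 with hext
  have heq : (Cod K R η N p T : Set (CV d)) =
      ⋃ v : (∀ k : Fin (T + 2), {x // x ∈ N k}), {X : CV d | St0 K R η p (ext v) X ∧
        (∀ l < T, St K R η p (ext v) l X ∧ Dl d p (ext v) l) ∧ ∀ l ≤ T, De d p (ext v) l} := by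
    ext X
    rw [Set.mem_iUnion]
    constructor
    · rintro ⟨u, h1, h2, h3, h4⟩
      refine ⟨fun k => ⟨u k, h1 k (by have := k.2; omega)⟩, ?_⟩
      have hu : ∀ k ≤ T + 1, ext (fun k => ⟨u k, h1 k (by have := k.2; omega)⟩) k = u k := by
        intro k hk
        rw [hext]
        simp only
        rw [dif_pos (by omega)]
      obtain ⟨w, hw⟩ : ∃ w, w = ext (fun k => ⟨u k, h1 k (by have := k.2; omega)⟩) := ⟨_, rfl⟩
      rw [← hw] at hu ⊢
      refine ⟨?_, fun l hl => ⟨?_, ?_⟩, fun l hl => ?_⟩
      · unfold St0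
        rw [hu 0 (by omega), hu 1 (by omega)]
        exact h2
      · unfold St
        rw [hu (l + 1) (by omega), hu (l + 2) (by omega)]
        exact (h3 l hl).1
      · intro i hi
        rw [hu (l + 1) (by omega), hu i (by omega)]
        exact (h3 l hl).2 i hi
      · rcases h4 l hl with h | ⟨i, hi, h⟩
        · exact Or.inl h
        · refine Or.inr ⟨i, hi, ?_⟩
          rw [hu (l + 1) (by omega), hu i (by omega)]
          exact h
    · rintro ⟨v, h2, h3, h4⟩
      refine ⟨ext v, fun k hk => ?_, h2, h3, h4⟩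
      rw [hext]
      simp only
      rw [dif_pos (by omega)]
      exact (v ⟨k, by omega⟩).2
  rw [heq]
  refine isClosed_iUnion_of_finite fun v => ?_
  refine IsClosed.and (st0_closed K R η p (ext v)) (IsClosed.and ?_ isClosed_const)
  simp only [Set.ofPred_forall]
  exact isClosed_iInter fun l => isClosed_iInter fun _ =>
    IsClosed.and (st_closed K R η p (ext v) l) isClosed_const

end Pool.Agent.H73.ES
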