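import Pool.Agent.H73.ES.Jl

/-!
# [H73 ES Crn] Near a critical point

`c` a unit vector with `JJ X c = 0`, so `wd (jv X c 0) (jv X c 1) = 0` (`hrel`, `d ≠ 0`). `z` unit, `a = hm z c`, `b = wd c z`, `ζ = b / a`,
`Φ(s) = FF X (c + s pp c) = ∑ jv X c k s^k`. `FF X z = a^d Φ(ζ)`.
`crn2`: `Φ(ζ) = Φ(0) + ζ Φ'(0) + O(8 R d ‖ζ‖^2)` (from `‖jv X c k‖ ≤ 2 R √d^k`, `‖ζ‖ √d ≤ 1/4`: geometric series), and `wd (Φ 0) (Φ' 0) = 0`.
`crn1`: by `base`, `G(t) = FF X (z + t pp z) = H(a - t conj b, b + t conj a)`, `jv X z 1 = G'(0) = - conj b H_x + conj a H_y` at `(a,b)`, and Euler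
`a H_x + b H_y = d H` gives `wd H (jv X z 1) = wd H H_y / a * (‖a‖^2 + ‖b‖^2) = a^(2d-2) wd (Φ ζ) (Φ' ζ)`. (Alternatively use `hrel` at `z`, `d wd (F z)(jv z 1) = JJ X z`, and
`JJ X (c + s pp c) = d wd (Φ s) (Φ' s)` (chain rule and Euler), `JJ X (x w) = x^(2d-2) JJ X w`.) The polynomial `W(s) = wd (Φ s) (Φ' s)` has `W 0 = 0`, `W' 0 = 2 wd (jv X c 0) (jv X c 2)`, `‖W‖ ≤ 16 R^2 √d` on
`‖s‖ ≤ 1/(2√d)`, so by `cau_coeff` `‖W s - W' 0 s‖ ≤ 16 R^2 √d (2√d ‖s‖)^2 * 2` for `‖s‖ ≤ 1/(4√d)`; `‖ζ‖ ≤ 2 ‖b‖`.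
-/

set_option autoImplicit false

open Finset MeasureTheory

namespace Pool.Agent.H73.ES

open Pool.H70.SF

private theorem crn_rem (g : Polynomial ℂ) {ρ A : ℝ} (hρ : 0 < ρ)
    (h : ∀ t : ℂ, ‖t‖ ≤ ρ → ‖g.eval t‖ ≤ A) {t : ℂ} (ht : 2 * ‖t‖ ≤ ρ) :
    ‖g.eval t - g.coeff 0 - g.coeff 1 * t‖ ≤ 2 * A * (‖t‖ / ρ) ^ 2 := by
  have hA : 0 ≤ A := (norm_nonneg _).trans (h 0 (by rw [norm_zero]; exact hρ.le))
  obtain ⟨M, hM⟩ : ∃ M, M = g.natDegree + 1 := ⟨_, rfl⟩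
  have h1 : g.eval t = ∑ k ∈ range (M + 2), g.coeff k * t ^ k :=
    Polynomial.eval_eq_sum_range' (by omega) t
  rw [sum_range_succ', sum_range_succ'] at h1
  have h2 : g.eval t - g.coeff 0 - g.coeff 1 * t =
      ∑ k ∈ range M, g.coeff (k + 1 + 1) * t ^ (k + 1 + 1) := by
    rw [h1, pow_zero, zero_add, pow_one]
    ring
  obtain ⟨x, hx⟩ : ∃ x : ℝ, x = ‖t‖ / ρ := ⟨_, rfl⟩
  have hx0 : 0 ≤ x := by rw [hx]; positivity
  have hx1 : x ≤ 1 / 2 := by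
    rw [hx, div_le_iff₀ hρ]
    linarith
  rw [h2, ← hx]
  refine (norm_sum_le _ _).trans ?_
  have h3 : ∀ k ∈ range M, ‖g.coeff (k + 1 + 1) * t ^ (k + 1 + 1)‖ ≤
      A * x ^ 2 * (1 / 2 : ℝ) ^ k := by
    intro k _
    rw [norm_mul, norm_pow]
    have h4 := cau_coeff g hρ h (k + 1 + 1)
    have h5 : ‖g.coeff (k + 1 + 1)‖ * ‖t‖ ^ (k + 1 + 1) ≤
        A / ρ ^ (k + 1 + 1) * ‖t‖ ^ (k + 1 + 1) :=
      mul_le_mul_of_nonneg_right h4 (by positivity)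
    refine h5.trans ?_
    have h6 : A / ρ ^ (k + 1 + 1) * ‖t‖ ^ (k + 1 + 1) = A * x ^ 2 * x ^ k := by
      rw [hx, div_pow, div_pow]
      field_simp
      ring
    rw [h6]
    exact mul_le_mul_of_nonneg_left (pow_le_pow_left₀ hx0 hx1 k) (by positivity)
  refine (sum_le_sum h3).trans ?_
  rw [← mul_sum]
  have h7 := sum_geometric_two_le M
  have h8 : 0 ≤ A * x ^ 2 := by positivity
  nlinarith

theorem crit_wd {d : ℕ} (hd : 1 ≤ d) {X : CV d} {c : ℂ × ℂ} (hc : IsU c) (hJ : JJ X c = 0) :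
    wd (FF X c) (jv X c 1) = 0 := by
  have h1 := hrel X hc
  rw [hJ] at h1
  have hd0 : (d : ℂ) ≠ 0 := by
    exact_mod_cast (by omega : d ≠ 0)
  exact (mul_eq_zero.1 h1).resolve_left hd0

/-- the geometric data -/
private theorem crn_geo {d : ℕ} (hd : 2 ≤ d) {c z : ℂ × ℂ} (hc : IsU c) (hz : IsU z)
    (h : 8 * Real.sqrt d * ‖wd c z‖ ≤ 1) :
    ∃ a ζ : ℂ, a ≠ 0 ∧ ‖a‖ ≤ 1 ∧ z = a • (c + ζ • pp c) ∧ ‖ζ‖ ≤ 2 * ‖wd c z‖ ∧
      4 * (Real.sqrt d * ‖ζ‖) ≤ 1 := by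
  have hs : 1 ≤ Real.sqrt d := by
    rw [Real.one_le_sqrt]
    exact_mod_cast (by omega : 1 ≤ d)
  obtain ⟨b, hb⟩ : ∃ b, b = wd c z := ⟨_, rfl⟩
  obtain ⟨a, ha⟩ : ∃ a, a = hm z c := ⟨_, rfl⟩
  rw [← hb] at h ⊢
  have hb8 : 8 * ‖b‖ ≤ 1 := by
    have : 0 ≤ ‖b‖ := norm_nonneg b
    nlinarith
  have hlag := lag c z
  have hcc : n2 c = 1 := hc
  have hzz : n2 z = 1 := hz
  rw [hcc, hzz, ← hb, mul_one] at hlag
  have hhm : ‖hm c z‖ = ‖a‖ := by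
    rw [ha]
    have : hm c z = starRingEnd ℂ (hm z c) := by
      unfold hm
      rw [map_add, map_mul, map_mul, Complex.conj_conj, Complex.conj_conj]
      ring
    rw [this, Complex.norm_conj]
  rw [hhm] at hlag
  have hb0 := norm_nonneg b
  have ha0 := norm_nonneg a
  have ha1 : ‖a‖ ≤ 1 := by nlinarith
  have ha2 : 1 / 2 ≤ ‖a‖ := by
    by_contra hcon
    push Not at hcon
    nlinarith
  have hane : a ≠ 0 := by
    intro h0
    rw [h0, norm_zero] at ha2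
    norm_num at ha2
  have hζ : ‖b / a‖ ≤ 2 * ‖b‖ := by
    rw [norm_div, div_le_iff₀ (by linarith)]
    nlinarith
  refine ⟨a, b / a, hane, ha1, ?_, hζ, ?_⟩
  · have h1 := dec hc z
    rw [← ha, ← hb] at h1
    rw [smul_add, smul_smul, mul_div_cancel₀ _ hane]
    exact h1
  · have h2 : Real.sqrt d * ‖b / a‖ ≤ Real.sqrt d * (2 * ‖b‖) :=
      mul_le_mul_of_nonneg_left hζ (by linarith)
    linarith

private theorem crn_hom {d : ℕ} (X : CV d) (a : ℂ) (w : ℂ × ℂ) :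
    FF X (a • w) = a ^ d • FF X w := by
  unfold FF
  rw [hev_hom, hev_hom]
  rfl

private theorem crn_wds (v w : ℂ × ℂ) (a : ℂ) : wd v (a • w) = a * wd v w := by
  unfold wd
  simp only [Prod.smul_fst, Prod.smul_snd, smul_eq_mul]
  ring

private theorem crn_dd {d : ℕ} (hd : 2 ≤ d) {t : ℂ} (h : Real.sqrt d * ‖t‖ ≤ 1) :
    (d : ℝ) * ‖t‖ ^ 2 ≤ 1 := by
  have hd0 : (0 : ℝ) ≤ d := Nat.cast_nonneg d
  have h1 : (d : ℝ) * ‖t‖ ^ 2 = (Real.sqrt d * ‖t‖) ^ 2 := by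
    rw [mul_pow, Real.sq_sqrt hd0]
  rw [h1]
  exact pow_le_one₀ (by positivity) h

/-- the scalar polynomial `wd v (Φ s)` -/
private theorem crn_v {d : ℕ} (hd : 2 ≤ d) {X : CV d} {R : ℝ}
    (hR : ∀ u, IsU u → nn (FF X u) ≤ R) {c : ℂ × ℂ} (hc : IsU c) (v : ℂ × ℂ) {t : ℂ}
    (ht : Real.sqrt d * ‖t‖ ≤ 1) :
    ‖(Polynomial.C v.1 * rsP X.2 c - Polynomial.C v.2 * rsP X.1 c).eval t‖ ≤ nn v * (2 * R) := by
  have h1 : (Polynomial.C v.1 * rsP X.2 c - Polynomial.C v.2 * rsP X.1 c).eval t =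
      wd v (FF X (c + t • pp c)) := by
    rw [Polynomial.eval_sub, Polynomial.eval_mul, Polynomial.eval_mul, Polynomial.eval_C,
      Polynomial.eval_C, rs_eval, rs_eval]
    rfl
  rw [h1]
  refine (wd_le _ _).trans ?_
  refine mul_le_mul_of_nonneg_left (cau_sup (by omega) hR hc (crn_dd hd ht)) ?_
  exact Real.sqrt_nonneg _

theorem crn2 {d : ℕ} (hd : 2 ≤ d) {X : CV d} {R : ℝ} (hR : ∀ u, IsU u → nn (FF X u) ≤ R)
    {c z : ℂ × ℂ} (hc : IsU c) (hz : IsU z) (hJ : JJ X c = 0)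
    (h : 8 * Real.sqrt d * ‖wd c z‖ ≤ 1) :
    ‖wd (FF X c) (FF X z)‖ ≤ nn (FF X c) * (100 * R * d * ‖wd c z‖ ^ 2) := by
  obtain ⟨a, ζ, ha0, ha1, hza, hζ, hζ1⟩ := crn_geo hd hc hz h
  obtain ⟨b, hb⟩ : ∃ b, b = ‖wd c z‖ := ⟨_, rfl⟩
  rw [← hb] at hζ ⊢
  have hn0 : 0 ≤ nn (FF X c) := Real.sqrt_nonneg _
  have hR0 : 0 ≤ R := hn0.trans (hR c hc)
  have hs : 1 ≤ Real.sqrt d := by
    rw [Real.one_le_sqrt]
    exact_mod_cast (by omega : 1 ≤ d)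
  have hs0 : 0 < Real.sqrt d := by linarith
  obtain ⟨g, hg⟩ : ∃ g : Polynomial ℂ, g = Polynomial.C (FF X c).1 * rsP X.2 c -
    Polynomial.C (FF X c).2 * rsP X.1 c := ⟨_, rfl⟩
  have hgb : ∀ t : ℂ, ‖t‖ ≤ 1 / Real.sqrt d → ‖g.eval t‖ ≤ nn (FF X c) * (2 * R) := by
    intro t ht
    rw [hg]
    refine crn_v hd hR hc (FF X c) ?_
    rw [le_div_iff₀ hs0] at ht
    linarith
  have hg0 : g.coeff 0 = 0 := by
    have h1 : (FF X c).1 = (rsP X.1 c).coeff 0 := (jt_zero X.1 c).symm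
    have h2 : (FF X c).2 = (rsP X.2 c).coeff 0 := (jt_zero X.2 c).symm
    rw [hg, Polynomial.coeff_sub, Polynomial.coeff_C_mul, Polynomial.coeff_C_mul, h1, h2]
    ring
  have hg1 : g.coeff 1 = 0 := by
    have h1 := crit_wd (by omega) hc hJ
    rw [hg, Polynomial.coeff_sub, Polynomial.coeff_C_mul, Polynomial.coeff_C_mul]
    exact h1
  have h1 := crn_rem g (by positivity) hgb (t := ζ) (by
    rw [le_div_iff₀ hs0]
    linarith)
  rw [hg0, hg1, zero_mul, sub_zero, sub_zero] at h1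
  have h2 : wd (FF X c) (FF X z) = a ^ d * g.eval ζ := by
    rw [hza, crn_hom, crn_wds, hg, Polynomial.eval_sub, Polynomial.eval_mul, Polynomial.eval_mul,
      Polynomial.eval_C, Polynomial.eval_C, rs_eval, rs_eval]
    rfl
  rw [h2, norm_mul, norm_pow]
  have h3 : ‖a‖ ^ d ≤ 1 := pow_le_one₀ (norm_nonneg a) ha1
  have h4 : ‖a‖ ^ d * ‖g.eval ζ‖ ≤ 1 * ‖g.eval ζ‖ :=
    mul_le_mul_of_nonneg_right h3 (norm_nonneg _)
  have h5 : (‖ζ‖ / (1 / Real.sqrt d)) ^ 2 = d * ‖ζ‖ ^ 2 := by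
    rw [div_div_eq_mul_div, div_one, mul_pow, Real.sq_sqrt (Nat.cast_nonneg d), mul_comm]
  rw [h5] at h1
  have h6 : ‖ζ‖ ^ 2 ≤ (2 * b) ^ 2 := pow_le_pow_left₀ (norm_nonneg _) hζ 2
  have hd0 : (0 : ℝ) ≤ d := Nat.cast_nonneg d
  calc ‖a‖ ^ d * ‖g.eval ζ‖ ≤ 2 * (nn (FF X c) * (2 * R)) * (d * ‖ζ‖ ^ 2) := by linarith
    _ ≤ 2 * (nn (FF X c) * (2 * R)) * (d * (2 * b) ^ 2) := by gcongr
    _ = nn (FF X c) * (16 * R * d * b ^ 2) := by ring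
    _ ≤ nn (FF X c) * (100 * R * d * b ^ 2) := by
      refine mul_le_mul_of_nonneg_left ?_ hn0
      have : 0 ≤ R * d * b ^ 2 := by positivity
      nlinarith

private theorem crn_pw (k : ℕ) (x : ℂ) : (k : ℂ) * x ^ (k - 1) * x = k * x ^ k := by
  rcases k with _ | k
  · simp
  · rw [Nat.add_sub_cancel, pow_succ]
    ring

private theorem crn_eul {d : ℕ} (p : Fin (d + 1) → ℂ) (w : ℂ × ℂ) :
    (d : ℂ) * hev p w = w.1 * hev1 p w + w.2 * hev2 p w := by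
  unfold hev hev1 hev2
  rw [mul_sum, mul_sum, mul_sum, ← sum_add_distrib]
  refine sum_congr rfl fun k _ => ?_
  have h1 := crn_pw (k : ℕ) w.1
  have h2 := crn_pw (d - (k : ℕ)) w.2
  have h3 : (d : ℂ) = ((k : ℕ) : ℂ) + ((d - (k : ℕ) : ℕ) : ℂ) := by
    rw [← Nat.cast_add]
    congr 1
    have := k.2
    omega
  calc (d : ℂ) * (p k * w.1 ^ (k : ℕ) * w.2 ^ (d - (k : ℕ))) =
        p k * (((k : ℕ) : ℂ) * w.1 ^ (k : ℕ)) * w.2 ^ (d - (k : ℕ)) +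
        p k * w.1 ^ (k : ℕ) * (((d - (k : ℕ) : ℕ) : ℂ) * w.2 ^ (d - (k : ℕ))) := by
        rw [h3]
        ring
    _ = _ := by
        rw [← h1, ← h2]
        ring

private theorem crn_hom1 {d : ℕ} (p : Fin (d + 1) → ℂ) (x : ℂ) (w : ℂ × ℂ) :
    hev1 p (x • w) = x ^ (d - 1) * hev1 p w := by
  unfold hev1
  rw [mul_sum]
  refine sum_congr rfl fun k _ => ?_
  simp only [Prod.smul_fst, Prod.smul_snd, smul_eq_mul]
  rcases Nat.eq_zero_or_pos (k : ℕ) with h0 | h0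
  · rw [h0]
    simp
  · have h1 : x ^ (d - 1) = x ^ ((k : ℕ) - 1) * x ^ (d - (k : ℕ)) := by
      rw [← pow_add]
      congr 1
      have := k.2
      omega
    rw [h1, mul_pow, mul_pow]
    ring

private theorem crn_hom2 {d : ℕ} (p : Fin (d + 1) → ℂ) (x : ℂ) (w : ℂ × ℂ) :
    hev2 p (x • w) = x ^ (d - 1) * hev2 p w := by
  unfold hev2
  rw [mul_sum]
  refine sum_congr rfl fun k _ => ?_
  simp only [Prod.smul_fst, Prod.smul_snd, smul_eq_mul]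
  rcases Nat.eq_zero_or_pos (d - (k : ℕ)) with h0 | h0
  · rw [h0]
    simp
  · have h1 : x ^ (d - 1) = x ^ (k : ℕ) * x ^ (d - (k : ℕ) - 1) := by
      rw [← pow_add]
      congr 1
      have := k.2
      omega
    rw [h1, mul_pow, mul_pow]
    ring

private theorem crn_der {d : ℕ} (p : Fin (d + 1) → ℂ) (u : ℂ × ℂ) (s : ℂ) :
    (Polynomial.derivative (rsP p u)).eval s =
      hev1 p (u + s • pp u) * (pp u).1 + hev2 p (u + s • pp u) * (pp u).2 := by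
  unfold rsP hev1 hev2
  rw [Polynomial.derivative_sum, Polynomial.eval_finsetSum, sum_mul, sum_mul, ← sum_add_distrib]
  refine sum_congr rfl fun k _ => ?_
  have e1 : ∀ x y : ℂ, Polynomial.eval s (Polynomial.C x + Polynomial.C y * Polynomial.X) =
      x + s * y := by
    intro x y
    rw [Polynomial.eval_add, Polynomial.eval_mul, Polynomial.eval_C, Polynomial.eval_C,
      Polynomial.eval_X]
    ring
  have e2 : ∀ (x y : ℂ) (n : ℕ), Polynomial.eval s (Polynomial.derivative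
      ((Polynomial.C x + Polynomial.C y * Polynomial.X) ^ n)) =
      (n : ℂ) * (x + s * y) ^ (n - 1) * y := by
    intro x y n
    rw [Polynomial.derivative_pow, Polynomial.eval_mul, Polynomial.eval_mul,
      Polynomial.eval_pow, e1, Polynomial.eval_C, Polynomial.derivative_add,
      Polynomial.derivative_C, Polynomial.derivative_C_mul, Polynomial.derivative_X, zero_add,
      mul_one, Polynomial.eval_C]
  rw [Polynomial.derivative_mul, Polynomial.derivative_C_mul, Polynomial.eval_add,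
    Polynomial.eval_mul, Polynomial.eval_mul, Polynomial.eval_mul, Polynomial.eval_mul,
    Polynomial.eval_C, Polynomial.eval_pow, Polynomial.eval_pow, e1, e1, e2, e2]
  simp only [Prod.fst_add, Prod.snd_add, Prod.smul_fst, Prod.smul_snd, smul_eq_mul]
  ring

/-- the Wronskian -/
private noncomputable def crnW {d : ℕ} (X : CV d) (c : ℂ × ℂ) : Polynomial ℂ :=
  rsP X.1 c * Polynomial.derivative (rsP X.2 c) - rsP X.2 c * Polynomial.derivative (rsP X.1 c)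

private theorem crn_JJ {d : ℕ} (X : CV d) {c : ℂ × ℂ} (hc : IsU c) (s : ℂ) :
    (d : ℂ) * (crnW X c).eval s = JJ X (c + s • pp c) := by
  have hcc : c.1 * starRingEnd ℂ c.1 + c.2 * starRingEnd ℂ c.2 = 1 := by
    rw [Complex.mul_conj, Complex.mul_conj, Complex.normSq_eq_norm_sq, Complex.normSq_eq_norm_sq,
      ← Complex.ofReal_add]
    have h1 : ‖c.1‖ ^ 2 + ‖c.2‖ ^ 2 = 1 := hc
    rw [h1, Complex.ofReal_one]
  unfold crnW
  rw [Polynomial.eval_sub, Polynomial.eval_mul, Polynomial.eval_mul, rs_eval, rs_eval, crn_der,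
    crn_der, mul_sub, ← mul_assoc, ← mul_assoc, crn_eul, crn_eul]
  obtain ⟨w, hw⟩ : ∃ w, w = c + s • pp c := ⟨_, rfl⟩
  have hw1 : w.1 * (pp c).2 - w.2 * (pp c).1 = 1 := by
    rw [hw]
    simp only [Prod.fst_add, Prod.snd_add, Prod.smul_fst, Prod.smul_snd, smul_eq_mul]
    have h2 : (c.1 + s * (pp c).1) * (pp c).2 - (c.2 + s * (pp c).2) * (pp c).1 =
        c.1 * (pp c).2 - c.2 * (pp c).1 := by ring
    rw [h2]
    unfold pp
    show c.1 * starRingEnd ℂ c.1 - c.2 * (-(starRingEnd ℂ c.2)) = 1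
    rw [← hcc]
    ring
  rw [← hw]
  unfold JJ
  calc (w.1 * hev1 X.1 w + w.2 * hev2 X.1 w) * (hev1 X.2 w * (pp c).1 + hev2 X.2 w * (pp c).2) -
        (w.1 * hev1 X.2 w + w.2 * hev2 X.2 w) * (hev1 X.1 w * (pp c).1 + hev2 X.1 w * (pp c).2) =
        (w.1 * (pp c).2 - w.2 * (pp c).1) *
          (hev1 X.1 w * hev2 X.2 w - hev2 X.1 w * hev1 X.2 w) := by ring
    _ = _ := by rw [hw1, one_mul]

private theorem crn_W {d : ℕ} (hd : 2 ≤ d) {X : CV d} {c z : ℂ × ℂ} (hc : IsU c) (hz : IsU z)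
    {a ζ : ℂ} (hza : z = a • (c + ζ • pp c)) :
    wd (FF X z) (jv X z 1) = (a ^ (d - 1)) ^ 2 * (crnW X c).eval ζ := by
  have hd0 : (d : ℂ) ≠ 0 := by
    exact_mod_cast (by omega : d ≠ 0)
  apply mul_left_cancel₀ hd0
  have h1 : (d : ℂ) * ((a ^ (d - 1)) ^ 2 * (crnW X c).eval ζ) =
      (a ^ (d - 1)) ^ 2 * ((d : ℂ) * (crnW X c).eval ζ) := by ring
  rw [h1, crn_JJ X hc, hrel X hz, hza]
  unfold JJ
  rw [crn_hom1, crn_hom1, crn_hom2, crn_hom2]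
  ring

private theorem crn_Wb {d : ℕ} (hd : 2 ≤ d) {X : CV d} {R : ℝ}
    (hR : ∀ u, IsU u → nn (FF X u) ≤ R) {c : ℂ × ℂ} (hc : IsU c) {s : ℂ}
    (hs : 2 * (Real.sqrt d * ‖s‖) ≤ 1) :
    ‖(crnW X c).eval s‖ ≤ 8 * R ^ 2 * Real.sqrt d := by
  have hn0 : 0 ≤ nn (FF X c) := Real.sqrt_nonneg _
  have hR0 : 0 ≤ R := hn0.trans (hR c hc)
  have hd1 : 1 ≤ Real.sqrt d := by
    rw [Real.one_le_sqrt]
    exact_mod_cast (by omega : 1 ≤ d)
  have hd0 : 0 < Real.sqrt d := by linarith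
  obtain ⟨v, hv⟩ : ∃ v, v = FF X (c + s • pp c) := ⟨_, rfl⟩
  obtain ⟨g, hg⟩ : ∃ g : Polynomial ℂ, g = Polynomial.C v.1 * rsP X.2 c -
    Polynomial.C v.2 * rsP X.1 c := ⟨_, rfl⟩
  have h1 : (crnW X c).eval s = (Polynomial.derivative g).eval s := by
    rw [hg, Polynomial.derivative_sub, Polynomial.derivative_C_mul, Polynomial.derivative_C_mul]
    unfold crnW
    rw [Polynomial.eval_sub, Polynomial.eval_mul, Polynomial.eval_mul, Polynomial.eval_sub,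
      Polynomial.eval_mul, Polynomial.eval_mul, Polynomial.eval_C, Polynomial.eval_C, rs_eval,
      rs_eval, hv]
    rfl
  have hvn : nn v ≤ 2 * R := by
    rw [hv]
    refine cau_sup (by omega) hR hc (crn_dd hd ?_)
    have : 0 ≤ Real.sqrt d * ‖s‖ := by positivity
    linarith
  have h2 : ‖deriv (fun t => g.eval t) s‖ ≤ (nn v * (2 * R)) / (1 / (2 * Real.sqrt d)) := by
    refine Complex.norm_deriv_le_of_forall_mem_sphere_norm_le (by positivity)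
      g.differentiable.diffContOnCl ?_
    intro t ht
    rw [hg]
    refine crn_v hd hR hc v ?_
    rw [mem_sphere_iff_norm] at ht
    have h3 : ‖t‖ ≤ ‖t - s‖ + ‖s‖ := by
      have := norm_add_le (t - s) s
      rwa [sub_add_cancel] at this
    rw [ht] at h3
    have h4 : Real.sqrt d * ‖t‖ ≤ Real.sqrt d * (1 / (2 * Real.sqrt d) + ‖s‖) :=
      mul_le_mul_of_nonneg_left h3 hd0.le
    have h5 : Real.sqrt d * (1 / (2 * Real.sqrt d) + ‖s‖) = 1 / 2 + Real.sqrt d * ‖s‖ := by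
      field_simp
    linarith
  rw [Polynomial.deriv] at h2
  rw [h1]
  refine h2.trans ?_
  rw [div_div_eq_mul_div, div_one]
  have h6 : nn v * (2 * R) ≤ 2 * R * (2 * R) := mul_le_mul_of_nonneg_right hvn (by linarith)
  calc nn v * (2 * R) * (2 * Real.sqrt d) ≤ 2 * R * (2 * R) * (2 * Real.sqrt d) :=
        mul_le_mul_of_nonneg_right h6 (by linarith)
    _ = 8 * R ^ 2 * Real.sqrt d := by ring

theorem crn1 {d : ℕ} (hd : 2 ≤ d) {X : CV d} {R : ℝ} (hR : ∀ u, IsU u → nn (FF X u) ≤ R)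
    {c z : ℂ × ℂ} (hc : IsU c) (hz : IsU z) (hJ : JJ X c = 0)
    (h : 8 * Real.sqrt d * ‖wd c z‖ ≤ 1) :
    ‖wd (FF X z) (jv X z 1)‖ ≤ 4 * ‖wd (FF X c) (jv X c 2)‖ * ‖wd c z‖ +
      1000 * R ^ 2 * Real.sqrt d ^ 3 * ‖wd c z‖ ^ 2 := by
  obtain ⟨a, ζ, ha0, ha1, hza, hζ, hζ1⟩ := crn_geo hd hc hz h
  obtain ⟨b, hb⟩ : ∃ b, b = ‖wd c z‖ := ⟨_, rfl⟩
  rw [← hb] at hζ ⊢
  have hd1 : 1 ≤ Real.sqrt d := by
    rw [Real.one_le_sqrt]
    exact_mod_cast (by omega : 1 ≤ d)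
  have hd0 : 0 < Real.sqrt d := by linarith
  obtain ⟨q, hq⟩ : ∃ q, q = Real.sqrt d := ⟨_, rfl⟩
  obtain ⟨g, hg⟩ : ∃ g : Polynomial ℂ, g = crnW X c := ⟨_, rfl⟩
  have hgb : ∀ t : ℂ, ‖t‖ ≤ 1 / (2 * Real.sqrt d) → ‖g.eval t‖ ≤ 8 * R ^ 2 * Real.sqrt d := by
    intro t ht
    rw [hg]
    refine crn_Wb hd hR hc ?_
    rw [le_div_iff₀ (by positivity)] at ht
    linarith
  have e1 : (FF X c).1 = (rsP X.1 c).coeff 0 := (jt_zero X.1 c).symm
  have e2 : (FF X c).2 = (rsP X.2 c).coeff 0 := (jt_zero X.2 c).symm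
  have hg0 : g.coeff 0 = 0 := by
    have h1 := crit_wd (by omega) hc hJ
    unfold wd jv jt at h1
    rw [e1, e2] at h1
    rw [hg, crnW, Polynomial.coeff_sub, Polynomial.mul_coeff_zero, Polynomial.mul_coeff_zero,
      Polynomial.coeff_derivative, Polynomial.coeff_derivative]
    simpa using h1
  have hg1 : g.coeff 1 = 2 * wd (FF X c) (jv X c 2) := by
    rw [hg, crnW, Polynomial.coeff_sub, Polynomial.mul_coeff_one, Polynomial.mul_coeff_one,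
      Polynomial.coeff_derivative, Polynomial.coeff_derivative, Polynomial.coeff_derivative,
      Polynomial.coeff_derivative]
    unfold wd jv jt
    rw [e1, e2]
    norm_num
    ring
  have h1 := crn_rem g (by positivity) hgb (t := ζ) (by
    rw [le_div_iff₀ (by positivity)]
    linarith)
  rw [hg0, hg1, sub_zero] at h1
  rw [crn_W hd hc hz hza, ← hg, norm_mul, norm_pow, norm_pow]
  have h3 : (‖a‖ ^ (d - 1)) ^ 2 ≤ 1 :=
    pow_le_one₀ (by positivity) (pow_le_one₀ (norm_nonneg a) ha1)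
  have h4 : (‖a‖ ^ (d - 1)) ^ 2 * ‖g.eval ζ‖ ≤ 1 * ‖g.eval ζ‖ :=
    mul_le_mul_of_nonneg_right h3 (norm_nonneg _)
  have h5 : (‖ζ‖ / (1 / (2 * Real.sqrt d))) ^ 2 = 4 * Real.sqrt d ^ 2 * ‖ζ‖ ^ 2 := by
    rw [div_div_eq_mul_div, div_one]
    ring
  rw [h5] at h1
  have h6 : ‖ζ‖ ^ 2 ≤ (2 * b) ^ 2 := pow_le_pow_left₀ (norm_nonneg _) hζ 2
  have h7 : ‖g.eval ζ‖ ≤ ‖g.eval ζ - 2 * wd (FF X c) (jv X c 2) * ζ‖ +
      ‖2 * wd (FF X c) (jv X c 2) * ζ‖ := by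
    have := norm_add_le (g.eval ζ - 2 * wd (FF X c) (jv X c 2) * ζ)
      (2 * wd (FF X c) (jv X c 2) * ζ)
    rwa [sub_add_cancel] at this
  have h8 : ‖2 * wd (FF X c) (jv X c 2) * ζ‖ ≤ 4 * ‖wd (FF X c) (jv X c 2)‖ * b := by
    rw [norm_mul, norm_mul, Complex.norm_ofNat]
    have h9 : 0 ≤ ‖wd (FF X c) (jv X c 2)‖ := norm_nonneg _
    nlinarith
  have h10 : 2 * (8 * R ^ 2 * Real.sqrt d) * (4 * Real.sqrt d ^ 2 * ‖ζ‖ ^ 2) ≤
      1000 * R ^ 2 * Real.sqrt d ^ 3 * b ^ 2 := by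
    have h11 : 2 * (8 * R ^ 2 * Real.sqrt d) * (4 * Real.sqrt d ^ 2 * ‖ζ‖ ^ 2) ≤
        2 * (8 * R ^ 2 * Real.sqrt d) * (4 * Real.sqrt d ^ 2 * (2 * b) ^ 2) := by gcongr
    have h12 : 0 ≤ R ^ 2 * Real.sqrt d ^ 3 * b ^ 2 := by positivity
    nlinarith
  linarith

end Pool.Agent.H73.ES
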