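import Pool.Agent.H73.ES.Goo
import Pool.Agent.H47.SF.Tra
import Pool.Agent.H47.SF.Grd
import Pool.Agent.H70.SF.PH

/-!
# [H73 ES Dir] One critical point: all but two grid directions are transversal

Directions `ei d i = (1, i / (8 d))`. For a critical point with the exponents `Ex n X c`, `10 ≤ n`, and `d` large, there are at most two
`i ≤ 8 d` for which `Ph X c k / d ^ 3 < |om (ei d i) X c k|` fails for some `10 ≤ k ≤ n`.
-/

set_option autoImplicit false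

open Finset MeasureTheory

namespace Pool.Agent.H73.ES

open Pool.H70.SF
open Pool.Agent.H47.SF (nuF Wc qq Sz f2 Good)

/-- exponents along a critical orbit, with the distance of the first two values -/
def Ex {d : ℕ} (n : ℕ) (X : CV d) (c : ℂ × ℂ) : Prop :=
  ∃ (s b : ℝ) (g h : ℕ → ℝ), 0 ≤ s ∧ 0 ≤ b ∧ (∀ l, 0 ≤ g l) ∧ (∀ l, 0 ≤ h l) ∧
    (d : ℝ) ^ (1 - s) ≤ f2 X c ∧ (∀ l ≤ n, (d : ℝ) ^ (1 / 2 - g l) ≤ ‖al X c l‖) ∧
    (∀ l ≤ n, (d : ℝ) ^ (-h l) ≤ nuF X (ob X c l)) ∧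
    (d : ℝ) ^ (-b) ≤ ‖wd (ob X c 0) (ob X c 1)‖ ∧
    2 * s + b + ∑ l ∈ range (n + 1), (g l + 2 * h l) ≤ 1 / 2 + 1 / 400

/-- the grid of directions -/
noncomputable def ei (d i : ℕ) : ℂ × ℂ := (1, (i : ℂ) / (8 * d))

theorem ei_n2 {d i : ℕ} (hd : 1 ≤ d) (hi : i ≤ 8 * d) : n2 (ei d i) ≤ 2 := by
  have hd0 : (0 : ℝ) < d := by exact_mod_cast hd
  unfold n2 ei
  have h1 : ‖(i : ℂ) / (8 * d)‖ = (i : ℝ) / (8 * d) := by
    rw [norm_div, norm_mul, Complex.norm_natCast, Complex.norm_natCast, Complex.norm_ofNat]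
  rw [h1, norm_one]
  have h2 : (i : ℝ) / (8 * d) ≤ 1 := by
    rw [div_le_one (by positivity)]
    exact_mod_cast hi
  have h3 : 0 ≤ (i : ℝ) / (8 * d) := by positivity
  nlinarith

/-- the transversality sum -/
noncomputable def Tm {d : ℕ} (e : ℂ × ℂ) (X : CV d) (c : ℂ × ℂ) (k : ℕ) : ℂ :=
  ∑ l ∈ range (k + 1), (wd e (ob X c l)) ^ 2 / ∏ j ∈ range l, al X c j

theorem om_Tm {d : ℕ} (e : ℂ × ℂ) (X : CV d) (c : ℂ × ℂ) (k : ℕ) (h : ∀ l < k, al X c l ≠ 0) :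
    ‖om e X c k‖ = Ph X c k * ‖Tm e X c k‖ := by
  rw [Pool.Agent.H47.SF.om_eq e X c k h, norm_mul, norm_neg, norm_prod]
  rfl

theorem ph_low {d n : ℕ} (hd : 1 ≤ d) {X : CV d} {c : ℂ × ℂ} {b : ℝ} {g : ℕ → ℝ}
    (hg : ∀ l, 0 ≤ g l) (ha : ∀ l ≤ n, (d : ℝ) ^ (1 / 2 - g l) ≤ ‖al X c l‖)
    (hs : b + ∑ l ∈ range (n + 1), g l ≤ 1 / 2 + 1 / 400) {l : ℕ} (hl : l ≤ n + 1) :
    (d : ℝ) ^ ((l : ℝ) / 2 - (1 / 2 + 1 / 400) + b) ≤ Ph X c l := by
  have hd0 : (0 : ℝ) < d := by exact_mod_cast hd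
  have hd1 : (1 : ℝ) ≤ d := by exact_mod_cast hd
  have h1 : (d : ℝ) ^ (∑ j ∈ range l, (1 / 2 - g j)) ≤ Ph X c l := by
    rw [Real.rpow_sum_of_pos hd0]
    unfold Ph
    refine Finset.prod_le_prod (fun j _ => by positivity) fun j hj => ?_
    exact ha j (by have := mem_range.1 hj; omega)
  refine le_trans ?_ h1
  refine Real.rpow_le_rpow_of_exponent_le hd1 ?_
  rw [Finset.sum_sub_distrib, Finset.sum_const, Finset.card_range, nsmul_eq_mul]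
  have h2 : ∑ j ∈ range l, g j ≤ ∑ j ∈ range (n + 1), g j :=
    Finset.sum_le_sum_of_subset_of_nonneg (range_subset_range.2 hl) fun j _ _ => hg j
  linarith

theorem dir_one {d n : ℕ} (hd : 2 ≤ d) (hn : 10 ≤ n)
    (hbig : 30000 * (2 * (n : ℝ) + 3) < (d : ℝ) ^ ((1 : ℝ) / 2 - 1 / 400)) {X : CV d}
    (hpos : ∀ u, IsU u → 0 < nn (FF X u)) {c : ℂ × ℂ} (hc : IsU c) (hE : Ex n X c)
    {S : Finset ℕ} (hS : ∀ i ∈ S, i ≤ 8 * d)
    (hbad : ∀ i ∈ S, ∃ k, 10 ≤ k ∧ k ≤ n ∧ ‖om (ei d i) X c k‖ ≤ Ph X c k * ((d : ℝ) ^ 3)⁻¹) :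
    S.card ≤ 2 := by
  obtain ⟨s, b, g, h, s0, b0, g0, h0, -, ha, -, hb, hsum⟩ := hE
  have hd0 : (0 : ℝ) < d := by exact_mod_cast (by omega : 0 < d)
  have hd1 : (1 : ℝ) ≤ d := by exact_mod_cast (by omega : 1 ≤ d)
  have hy : ∀ l, IsU (ob X c l) := fun l => ob_unit hpos hc l
  have hs : b + ∑ l ∈ range (n + 1), g l ≤ 1 / 2 + 1 / 400 := by
    have h1 : ∑ l ∈ range (n + 1), g l ≤ ∑ l ∈ range (n + 1), (g l + 2 * h l) :=
      Finset.sum_le_sum fun l _ => by have := h0 l; linarith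
    linarith
  have hbb : b ≤ 1 / 2 + 1 / 400 := by
    have := Finset.sum_nonneg fun l (_ : l ∈ range (n + 1)) => g0 l
    linarith
  have hal : ∀ l ≤ n, al X c l ≠ 0 := by
    intro l hl h1
    have h2 := ha l hl
    rw [h1, norm_zero] at h2
    have : 0 < (d : ℝ) ^ (1 / 2 - g l) := by positivity
    linarith
  have hph : ∀ l ≤ n + 1, (d : ℝ) ^ ((l : ℝ) / 2 - (1 / 2 + 1 / 400) + b) ≤ Ph X c l :=
    fun l hl => ph_low (by omega) g0 ha hs hl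
  obtain ⟨A, hA⟩ : ∃ A : ℕ → ℂ, A = fun l => ∏ j ∈ range l, al X c j := ⟨_, rfl⟩
  have hAn : ∀ l, ‖A l‖ = Ph X c l := by
    intro l
    rw [hA]
    exact norm_prod _ _
  have hAi : ∀ l, l ≤ n + 1 → ‖A l‖⁻¹ ≤ (d : ℝ) ^ (-b) * (d : ℝ) ^ (1 / 2 + 1 / 400 - (l : ℝ) / 2) := by
    intro l hl
    rw [hAn, ← Real.rpow_add hd0]
    refine (inv_anti₀ (by positivity) (hph l hl)).trans (le_of_eq ?_)
    rw [← Real.rpow_neg hd0.le]
    congr 1
    ring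
  obtain ⟨w, hw⟩ : ∃ w, w = ‖wd (ob X c 0) (ob X c 1)‖ := ⟨_, rfl⟩
  rw [← hw] at hb
  have hb1 : 0 < (d : ℝ) ^ (-b) := by positivity
  have hn0 : (0 : ℝ) ≤ n := Nat.cast_nonneg n
  obtain ⟨D, hD⟩ : ∃ D : ℝ, D = (d : ℝ) ^ ((1 : ℝ) / 2 - 1 / 400) := ⟨_, rfl⟩
  rw [← hD] at hbig
  have hD0 : 0 < D := by rw [hD]; positivity
  have hDi : (d : ℝ) ^ ((1 : ℝ) / 2 + 1 / 400 - 1) = D⁻¹ := by
    rw [hD, ← Real.rpow_neg hd0.le]
    congr 1
    ring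
  -- transversality at time 10
  have htra := Pool.Agent.H47.SF.tra (fun l => ob X c l) hy A (by rw [hA]; simp) (n := 10)
    (by norm_num) (by
      calc ∑ l ∈ Ico 2 (10 + 1), ‖A l‖⁻¹ ≤ ∑ l ∈ Ico 2 (10 + 1), (d : ℝ) ^ (-b) * D⁻¹ := by
            refine Finset.sum_le_sum fun l hl => ?_
            rw [mem_Ico] at hl
            refine (hAi l (by omega)).trans ?_
            refine mul_le_mul_of_nonneg_left ?_ hb1.le
            rw [← hDi]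
            refine Real.rpow_le_rpow_of_exponent_le hd1 ?_
            have : (2 : ℝ) ≤ l := by exact_mod_cast hl.1
            linarith
        _ = 9 * ((d : ℝ) ^ (-b) * D⁻¹) := by
            rw [Finset.sum_const, Nat.card_Ico, nsmul_eq_mul]
            norm_num
        _ ≤ (d : ℝ) ^ (-b) / 2 := by
            have h1 : D⁻¹ ≤ 1 / 18 := by
              rw [inv_le_comm₀ hD0 (by norm_num)]
              norm_num
              linarith
            nlinarith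
        _ ≤ ‖wd (ob X c 0) (ob X c 1)‖ / 2 := by
            rw [← hw]
            linarith)
  obtain ⟨j0, hj0⟩ := htra
  rw [← hw] at hj0
  obtain ⟨α, hα⟩ : ∃ α : ℂ, α = ∑ l ∈ range (10 + 1), (ob X c l).2 ^ 2 / A l := ⟨_, rfl⟩
  obtain ⟨β, hβ⟩ : ∃ β : ℂ, β = ∑ l ∈ range (10 + 1), (-2 * (ob X c l).1 * (ob X c l).2) / A l :=
    ⟨_, rfl⟩
  obtain ⟨γ, hγ⟩ : ∃ γ : ℂ, γ = ∑ l ∈ range (10 + 1), (ob X c l).1 ^ 2 / A l := ⟨_, rfl⟩
  have hT : ∀ x y : ℂ, ∑ l ∈ range (10 + 1), (wd (x, y) (ob X c l)) ^ 2 / A l =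
      α * x ^ 2 + β * (x * y) + γ * y ^ 2 := by
    intro x y
    rw [hα, hβ, hγ, Finset.sum_mul, Finset.sum_mul, Finset.sum_mul, ← Finset.sum_add_distrib,
      ← Finset.sum_add_distrib]
    refine Finset.sum_congr rfl fun l _ => ?_
    unfold wd
    ring
  have hmax : w / 30 ≤ ‖α‖ ∨ w / 30 ≤ ‖β‖ ∨ w / 30 ≤ ‖γ‖ := by
    by_contra hcon
    push Not at hcon
    obtain ⟨q1, q2, q3⟩ := hcon
    have h3 : ∀ j : Fin 3, ‖∑ l ∈ range (10 + 1), (wd (e3 j) (ob X c l)) ^ 2 / A l‖ ≤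
        ‖α‖ + ‖β‖ + ‖γ‖ := by
      have na := norm_nonneg α
      have nb := norm_nonneg β
      have nc := norm_nonneg γ
      intro j
      fin_cases j
      · show ‖∑ l ∈ range (10 + 1), (wd ((1 : ℂ), (0 : ℂ)) (ob X c l)) ^ 2 / A l‖ ≤ _
        rw [hT]
        simp only [one_pow, mul_one, mul_zero, add_zero, ne_eq, OfNat.ofNat_ne_zero,
          not_false_eq_true, zero_pow]
        linarith
      · show ‖∑ l ∈ range (10 + 1), (wd ((0 : ℂ), (1 : ℂ)) (ob X c l)) ^ 2 / A l‖ ≤ _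
        rw [hT]
        simp only [one_pow, mul_one, mul_zero, zero_add, ne_eq, OfNat.ofNat_ne_zero,
          not_false_eq_true, zero_pow]
        linarith
      · show ‖∑ l ∈ range (10 + 1), (wd ((1 : ℂ), (1 : ℂ)) (ob X c l)) ^ 2 / A l‖ ≤ _
        rw [hT]
        simp only [one_pow, mul_one]
        exact (norm_add_le _ _).trans (add_le_add (norm_add_le _ _) le_rfl)
    have h4 := hj0.trans (h3 j0)
    linarith
  have hw0 : 0 < w := lt_of_lt_of_le hb1 hb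
  refine Pool.Agent.H47.SF.grid (by omega) (by positivity) hmax ?_ hS
  intro i hi
  obtain ⟨k, hk1, hk2, hk3⟩ := hbad i hi
  have hphk : 0 < Ph X c k := lt_of_lt_of_le (by positivity) (hph k (by omega))
  rw [om_Tm _ _ _ _ (fun l hl => hal l (by omega))] at hk3
  have h5 : ‖Tm (ei d i) X c k‖ ≤ ((d : ℝ) ^ 3)⁻¹ := le_of_mul_le_mul_left hk3 hphk
  have hei : ∀ l, ‖wd (ei d i) (ob X c l)‖ ^ 2 ≤ 2 := by
    intro l
    have h6 := wd_le (ei d i) (ob X c l)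
    have h7 : nn (ob X c l) = 1 := by
      unfold nn
      rw [show n2 (ob X c l) = 1 from hy l, Real.sqrt_one]
    rw [h7, mul_one] at h6
    have h8 : nn (ei d i) ^ 2 = n2 (ei d i) := by
      unfold nn
      rw [Real.sq_sqrt]
      unfold n2
      positivity
    calc ‖wd (ei d i) (ob X c l)‖ ^ 2 ≤ nn (ei d i) ^ 2 := pow_le_pow_left₀ (norm_nonneg _) h6 2
      _ ≤ 2 := by rw [h8]; exact ei_n2 (by omega) (hS i hi)
  have h9 : Tm (ei d i) X c k = Tm (ei d i) X c 10 +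
      ∑ l ∈ Ico 11 (k + 1), (wd (ei d i) (ob X c l)) ^ 2 / A l := by
    unfold Tm
    rw [hA, Finset.sum_range_add_sum_Ico _ (by omega : 10 + 1 ≤ k + 1)]
  have h10 : ‖∑ l ∈ Ico 11 (k + 1), (wd (ei d i) (ob X c l)) ^ 2 / A l‖ ≤
      2 * n * ((d : ℝ) ^ 3)⁻¹ := by
    refine (norm_sum_le _ _).trans ?_
    have h11 : ∀ l ∈ Ico 11 (k + 1), ‖(wd (ei d i) (ob X c l)) ^ 2 / A l‖ ≤ 2 * ((d : ℝ) ^ 3)⁻¹ := by
      intro l hl
      rw [mem_Ico] at hl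
      rw [norm_div, norm_pow, div_eq_mul_inv]
      refine mul_le_mul (hei l) ?_ (by positivity) (by norm_num)
      refine (hAi l (by omega)).trans ?_
      rw [← Real.rpow_add hd0, ← Real.rpow_natCast, ← Real.rpow_neg hd0.le]
      refine Real.rpow_le_rpow_of_exponent_le hd1 ?_
      have : (11 : ℝ) ≤ l := by exact_mod_cast hl.1
      push_cast
      linarith
    refine (Finset.sum_le_sum h11).trans ?_
    rw [Finset.sum_const, Nat.card_Ico, nsmul_eq_mul]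
    have h12 : ((k + 1 - 11 : ℕ) : ℝ) ≤ n := by exact_mod_cast (by omega : k + 1 - 11 ≤ n)
    have h13 : 0 ≤ 2 * ((d : ℝ) ^ 3)⁻¹ := by positivity
    calc ((k + 1 - 11 : ℕ) : ℝ) * (2 * ((d : ℝ) ^ 3)⁻¹) ≤ n * (2 * ((d : ℝ) ^ 3)⁻¹) :=
          mul_le_mul_of_nonneg_right h12 h13
      _ = _ := by ring
  have h14 : ‖Tm (ei d i) X c 10‖ ≤ (2 * n + 1) * ((d : ℝ) ^ 3)⁻¹ := by
    have h15 : Tm (ei d i) X c 10 = Tm (ei d i) X c k -
        ∑ l ∈ Ico 11 (k + 1), (wd (ei d i) (ob X c l)) ^ 2 / A l := by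
      rw [h9]
      ring
    rw [h15]
    refine (norm_sub_le _ _).trans ?_
    linarith
  have h16 : Tm (ei d i) X c 10 = α + β * ((i : ℂ) / (8 * d)) + γ * ((i : ℂ) / (8 * d)) ^ 2 := by
    have h17 := hT 1 ((i : ℂ) / (8 * d))
    simp only [one_pow, mul_one, one_mul] at h17
    rw [← h17]
    unfold Tm ei
    rw [hA]
  rw [h16] at h14
  refine lt_of_le_of_lt h14 ?_
  have h18 : (d : ℝ) ^ (-b) / 30 / (1000 * (d : ℝ) ^ 2) ≤ w / 30 / (1000 * (d : ℝ) ^ 2) :=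
    div_le_div_of_nonneg_right (div_le_div_of_nonneg_right hb (by norm_num)) (by positivity)
  refine lt_of_lt_of_le ?_ h18
  have h19 : D * ((d : ℝ) ^ 1)⁻¹ ≤ (d : ℝ) ^ (-b) := by
    rw [hD, pow_one, ← Real.rpow_neg_one, ← Real.rpow_add hd0]
    refine Real.rpow_le_rpow_of_exponent_le hd1 ?_
    linarith
  rw [div_div, lt_div_iff₀ (by positivity)]
  refine lt_of_lt_of_le ?_ h19
  have h20 : (2 * (n : ℝ) + 1) * ((d : ℝ) ^ 3)⁻¹ * (30 * (1000 * (d : ℝ) ^ 2)) =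
      (30000 * (2 * (n : ℝ) + 1)) * ((d : ℝ) ^ 1)⁻¹ := by
    field_simp
    ring
  rw [h20]
  refine mul_lt_mul_of_pos_right ?_ (by positivity)
  linarith

end Pool.Agent.H73.ES
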