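import Pool.Agent.H73.ES.Main
import Pool.Agent.H47.SF.Nda

/-!
# [H73 ES Goo] From admissible exponents to helper47's structure `Good`
-/

set_option autoImplicit false

open Finset MeasureTheory

namespace Pool.Agent.H73.ES

open Pool.H70.SF
open Pool.Agent.H47.SF (nuF Wc qq Sz f2 Good)

private theorem goo_exp {d : ℕ} (hd : 2 ≤ d) {V N : ℝ} (A : ℝ) (hN : 0 < N) :
    ∃ e, 0 ≤ e ∧ e ≤ 1 ∧ (e = 0 ∨ V ≤ (d : ℝ) ^ (A - e) * N) ∧
      (e < 1 → (d : ℝ) ^ (A - e) * N ≤ V) := by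
  have hd1 : (1 : ℝ) < d := by
    have : (2 : ℝ) ≤ d := by exact_mod_cast hd
    linarith
  have hd0 : (0 : ℝ) < d := by linarith
  by_cases h : V ≤ (d : ℝ) ^ (A - 1) * N
  · exact ⟨1, by norm_num, le_rfl, Or.inr h, fun h => absurd h (lt_irrefl _)⟩
  · push Not at h
    have hx : 0 < V / N := by
      have : 0 < V := lt_of_le_of_lt (by positivity) h
      positivity
    obtain ⟨x, hx'⟩ : ∃ x, x = Real.logb d (V / N) := ⟨_, rfl⟩
    have h1 : (d : ℝ) ^ x = V / N := by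
      rw [hx']
      exact Real.rpow_logb hd0 hd1.ne' hx
    have h2 : (d : ℝ) ^ x * N = V := by
      rw [h1]
      field_simp
    have h3 : A - 1 < x := by
      have h4 : (d : ℝ) ^ (A - 1) < (d : ℝ) ^ x := by
        rw [h1, lt_div_iff₀ hN]
        exact h
      exact (Real.rpow_lt_rpow_left_iff hd1).1 h4
    rcases le_total x A with h5 | h5
    · refine ⟨A - x, by linarith, by linarith, Or.inr ?_, fun _ => ?_⟩
      · rw [sub_sub_cancel, h2]
      · rw [sub_sub_cancel, h2]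
    · refine ⟨0, le_rfl, by norm_num, Or.inl rfl, fun _ => ?_⟩
      rw [sub_zero, ← h2]
      exact mul_le_mul_of_nonneg_right (Real.rpow_le_rpow_of_exponent_le hd1.le h5) hN.le

theorem ob_unit {d : ℕ} {X : CV d} (h : ∀ u, IsU u → 0 < nn (FF X u)) {c : ℂ × ℂ} (hc : IsU c)
    (l : ℕ) : IsU (ob X c l) := by
  induction l with
  | zero => exact Pool.Agent.H47.SF.nx_isU (h c hc)
  | succ l ih => exact Pool.Agent.H47.SF.nx_isU (h _ ih)

private theorem goo_aa {d : ℕ} (hd : 1 ≤ d) {X : CV d} {u : ℂ × ℂ} (hu : IsU u) {x κ : ℝ}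
    (hN : 0 < nn (FF X u)) (hR : nn (FF X u) ≤ (d : ℝ) ^ κ)
    (h : (d : ℝ) ^ x * nn (FF X u) ≤ ‖wd (FF X u) (jv X u 1)‖) :
    (d : ℝ) ^ (x - κ) ≤ ‖aa X u‖ := by
  have hd0 : (0 : ℝ) < d := by exact_mod_cast hd
  have h1 := Pool.Agent.H47.SF.aa_zero_chart X (u := u) hN
  rw [Pool.Agent.H47.SF.Wc_zero_jv hd X hu] at h1
  obtain ⟨N, hN'⟩ : ∃ N, N = nn (FF X u) := ⟨_, rfl⟩
  have h2 : nuF X u = N := by rw [hN']; rfl
  rw [h1, h2, ← hN'] at h
  rw [← hN'] at hN hR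
  have h3 : (d : ℝ) ^ x ≤ ‖aa X u‖ * N := by
    have h4 : (d : ℝ) ^ x * N ≤ ‖aa X u‖ * N * N := by
      calc (d : ℝ) ^ x * N ≤ ‖aa X u‖ * N ^ 2 := h
        _ = _ := by ring
    exact le_of_mul_le_mul_right h4 hN
  rw [Real.rpow_sub hd0, div_le_iff₀ (by positivity)]
  exact h3.trans (mul_le_mul_of_nonneg_left hR (norm_nonneg _))

/-- exponents along a critical orbit -/
theorem adm_exp {d n : ℕ} (hd : 2 ≤ d) (hn : 1 ≤ n) {κ ε : ℝ} (hκ : 0 ≤ κ) (hε : ε ≤ 1 / 2)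
    {X : CV d} (hG : GG ((d : ℝ) ^ κ) X) {c : ℂ × ℂ} (hc : IsU c)
    (hA : ∀ (th hc : ℝ) (be h b : ℕ → ℝ), Adm X c n th hc be h b →
        4 * th + 4 * hc + ∑ l ∈ range (n + 1), (2 * be l + 4 * h l + 2 * b l) ≤ 1 + ε) :
    ∃ (s b : ℝ) (g h : ℕ → ℝ), 0 ≤ s ∧ 0 ≤ b ∧ (∀ l, 0 ≤ g l) ∧ (∀ l, 0 ≤ h l) ∧
      (d : ℝ) ^ (1 - s) ≤ f2 X c ∧ (∀ l ≤ n, (d : ℝ) ^ (1 / 2 - g l) ≤ ‖al X c l‖) ∧
      (∀ l ≤ n, (d : ℝ) ^ (-h l) ≤ nuF X (ob X c l)) ∧
      (d : ℝ) ^ (-b) ≤ ‖wd (ob X c 0) (ob X c 1)‖ ∧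
      2 * s + b + ∑ l ∈ range (n + 1), (g l + 2 * h l) ≤ 1 / 2 + ε / 2 + (n + 3) * κ := by
  have hd0 : (0 : ℝ) < d := by exact_mod_cast (by omega : 0 < d)
  have hpos : ∀ u, IsU u → 0 < nn (FF X u) := fun u hu =>
    lt_of_lt_of_le (by positivity) (hG u hu).1
  have hy : ∀ l, IsU (ob X c l) := fun l => ob_unit hpos hc l
  obtain ⟨th, th0, th1, th2, th3⟩ := goo_exp (V := 2 * ‖wd (FF X c) (jv X c 2)‖) hd 1 (hpos c hc)
  choose be be0 be1 be2 be3 using fun l : ℕ =>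
    goo_exp (V := ‖wd (FF X (ob X c l)) (jv X (ob X c l) 1)‖) hd (1 / 2) (hpos _ (hy l))
  choose h h0 h1 h2 h3 using fun l : ℕ =>
    goo_exp (V := nn (FF X (ob X c l))) hd 0 (by norm_num : (0 : ℝ) < 1)
  obtain ⟨b, b0, b1, b2, b3⟩ :=
    goo_exp (V := ‖wd (ob X c 1) (ob X c 0)‖) hd 0 (by norm_num : (0 : ℝ) < 1)
  simp only [zero_sub, mul_one] at h2 h3 b2 b3
  have hadm : Adm X c n th 0 be h (fun l => if l = 1 then b else 0) := by
    refine ⟨⟨th0, th1⟩, ⟨le_rfl, by norm_num⟩, fun l => ⟨be0 l, be1 l⟩, fun l => ⟨h0 l, h1 l⟩,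
      fun l => ?_, th2, Or.inl rfl, fun l _ => be2 l, fun l _ => h2 l, fun l _ => ?_⟩
    · by_cases hl : l = 1
      · simp only [hl, if_true]
        exact ⟨b0, b1⟩
      · simp only [hl, if_false]
        norm_num
    · by_cases hl : l = 1
      · subst hl
        simp only [if_true]
        rcases b2 with h | h
        · exact Or.inl h
        · exact Or.inr ⟨1, le_rfl, h⟩
      · left
        simp [hl]
  have hsum := hA th 0 be h _ hadm
  have hb : ∑ l ∈ range (n + 1), (2 * be l + 4 * h l + 2 * (if l = 1 then b else 0)) =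
      ∑ l ∈ range (n + 1), (2 * be l + 4 * h l) + 2 * b := by
    rw [Finset.sum_add_distrib]
    congr 1
    rw [Finset.sum_eq_single 1]
    · simp
    · intro j _ hj
      simp [hj]
    · intro h
      exact absurd (mem_range.2 (by omega)) h
  rw [hb] at hsum
  have hbeh : ∀ l ∈ range (n + 1), 0 ≤ 2 * be l + 4 * h l := fun l _ => by
    have := be0 l
    have := h0 l
    linarith
  have hS0 := Finset.sum_nonneg hbeh
  have hth : th < 1 := by linarith
  have hbl : b < 1 := by linarith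
  have hl : ∀ l ≤ n, 2 * be l + 4 * h l ≤ 3 / 2 := by
    intro l hl
    have := Finset.single_le_sum hbeh (mem_range.2 (by omega : l < n + 1))
    linarith
  have hbel : ∀ l ≤ n, be l < 1 := by
    intro l hl'
    have := hl l hl'
    have := h0 l
    linarith
  have hhl : ∀ l ≤ n, h l < 1 := by
    intro l hl'
    have := hl l hl'
    have := be0 l
    linarith
  refine ⟨th + κ, b, fun l => be l + κ, h, by linarith, b0, fun l => by have := be0 l; positivity,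
    h0, ?_, ?_, ?_, ?_, ?_⟩
  · unfold f2
    rw [Pool.Agent.H47.SF.deriv_Wc_zero_jv (by omega) X hc, norm_mul, Complex.norm_ofNat]
    have e1 := th3 hth
    have e2 : n2 (FF X c) = nn (FF X c) ^ 2 := by
      unfold nn
      rw [Real.sq_sqrt]
      unfold n2
      positivity
    have e3 := (hG c hc).2
    have e4 := hpos c hc
    rw [e2, le_div_iff₀ (by positivity)]
    refine le_trans ?_ e1
    have e5 : (d : ℝ) ^ (1 - (th + κ)) * nn (FF X c) ≤ (d : ℝ) ^ (1 - th) := by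
      calc (d : ℝ) ^ (1 - (th + κ)) * nn (FF X c) ≤ (d : ℝ) ^ (1 - (th + κ)) * (d : ℝ) ^ κ :=
            mul_le_mul_of_nonneg_left e3 (by positivity)
        _ = (d : ℝ) ^ (1 - th) := by
            rw [← Real.rpow_add hd0]
            congr 1
            ring
    calc (d : ℝ) ^ (1 - (th + κ)) * nn (FF X c) ^ 2
        = (d : ℝ) ^ (1 - (th + κ)) * nn (FF X c) * nn (FF X c) := by ring
      _ ≤ (d : ℝ) ^ (1 - th) * nn (FF X c) := mul_le_mul_of_nonneg_right e5 e4.le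
  · intro l hl'
    have e1 := be3 l (hbel l hl')
    have e2 := goo_aa (by omega) (hy l) (hpos _ (hy l)) (hG _ (hy l)).2 e1
    show (d : ℝ) ^ (1 / 2 - (be l + κ)) ≤ ‖al X c l‖
    rw [← sub_sub]
    exact e2
  · intro l hl'
    exact h3 l (hhl l hl')
  · rw [show wd (ob X c 0) (ob X c 1) = -wd (ob X c 1) (ob X c 0) by unfold wd; ring, norm_neg]
    exact b3 hbl
  · have e1 : ∑ l ∈ range (n + 1), (be l + κ + 2 * h l) =
        (∑ l ∈ range (n + 1), (2 * be l + 4 * h l)) / 2 + (n + 1) * κ := by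
      have e2 : ∑ l ∈ range (n + 1), κ = (n + 1) * κ := by
        rw [Finset.sum_const, Finset.card_range, nsmul_eq_mul]
        push_cast
        ring
      rw [Finset.sum_div, ← e2, ← Finset.sum_add_distrib]
      refine Finset.sum_congr rfl fun l _ => ?_
      ring
    rw [e1]
    linarith

end Pool.Agent.H73.ES
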