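import Pool.Agent.H73.ES.Cnt
import Pool.Agent.H73.ES.Net
import Pool.Agent.H73.ES.Codc
import Pool.Agent.H73.ES.Codz

/-!
# [H73 ES Pb] The measure of the bad set of a pattern

`K, d0` from `cod n`, `C` from `cnt n` for this `K`; nets `N k` of mesh `et d (6n+30) k` from `exists_net` (`0 < η ≤ 1` for `k ≤ n + 2`, `1 ≤ d`). `Z = Cod K R (et ..) N p T`: `cod_closed`, `cod`, `cnt`.
-/

set_option autoImplicit false

open Finset MeasureTheory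

namespace Pool.Agent.H73.ES

open Pool.H70.SF

theorem pb (n : ℕ) : ∃ (C : ℝ) (d0 : ℕ), 0 ≤ C ∧ ∀ d ≥ d0, ∀ (A : ℝ) (X0 : CV d) (τ : ℝ),
    0 ≤ A → 0 < τ → τ ≤ 1 → gau A X0 τ Set.univ ≤ 1 → ∀ R : ℝ, 1 ≤ R → R ≤ d →
    ∀ p : Pat, p.ok → ∀ T ≤ n + 1, ∃ Z : Set (CV d), IsClosed Z ∧ BadP R p T ⊆ Z ∧
      gau A X0 τ Z ≤ ENNReal.ofReal (C * (R / τ) ^ (6 * T + 8) * (d : ℝ) ^ bdE p T) := by
  obtain ⟨K, d0, hK, H⟩ := cod n
  obtain ⟨C, hC, HC⟩ := cnt n hK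
  refine ⟨C, max d0 (2 * n + 10), hC, ?_⟩
  intro d hd A X0 τ hA hτ hτ1 hg R hR hRd p hp T hT
  have hd0 : d0 ≤ d := (le_max_left _ _).trans hd
  have hdn : 2 * n + 10 ≤ d := (le_max_right _ _).trans hd
  have hd1 : 1 ≤ d := by omega
  have hD1 : (1 : ℝ) ≤ d := by exact_mod_cast hd1
  have hle : ∀ k ≤ n + 2, et d (6 * n + 30) k ≤ 1 := by
    intro k hk
    have h1 : (d : ℝ) ^ 10 * et d (6 * n + 30) k ≤ 1 := et_f5 hd1 hk
    have h2 : (1 : ℝ) ≤ (d : ℝ) ^ 10 := one_le_pow₀ hD1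
    have h3 := mul_le_mul_of_nonneg_right h2 (et_pos (B := 6 * n + 30) hd1 k).le
    linarith
  have hex : ∀ k, ∃ N : Finset (ℂ × ℂ), k ≤ T + 1 → IsNet N (et d (6 * n + 30) k) := by
    intro k
    by_cases hk : k ≤ T + 1
    · obtain ⟨N, hN⟩ := exists_net (et_pos (B := 6 * n + 30) hd1 k) (hle k (by omega))
      exact ⟨N, fun _ => hN⟩
    · exact ⟨∅, fun h => absurd h hk⟩
  choose N hN using hex
  exact ⟨Cod K R (et d (6 * n + 30)) N p T, cod_closed K R _ N p T,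
    H d hd0 R hR hRd p hp T hT N hN,
    HC d hdn A X0 τ hA hτ hτ1 hg R hR p hp T hT N hN⟩

end Pool.Agent.H73.ES
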