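import Pool.Agent.H73.ES.Dir
import Pool.Agent.H47.SF.Ndb
import Pool.Agent.H70.SF.CR
import Pool.Agent.H41.RF.Meas

/-!
# [H73 ES Rp] The random part of SMOOTHED FATOU

`rp_main`: for every `n` there are `κ, a > 0` such that for `d` large, `τ ∈ [d^(-κ), 1]` there are OPEN sets `O i`, `i ≤ 8 d`, whose union has a
complement of measure `≤ d^(-a)`, and for `X ∈ O i`: `BN2 (X - X0) ≤ d² + 1`, `Good n (d^κ) X`, exponents `Ex n X c` at every critical point, and the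
direction `ei d i = (1, i/(8 d))` is transversal at every critical point: `Ph X c k / d³ < |om (ei d i) X c k|` for `10 ≤ k ≤ n`.
-/

set_option autoImplicit false

open Finset MeasureTheory Topology

namespace Pool.Agent.H73.ES

open Pool.H70.SF
open Pool.Agent.H47.SF (nuF Wc qq Sz f2 Good)

/-- the direction `e` is transversal at all critical points -/
def Dr {d : ℕ} (n : ℕ) (e : ℂ × ℂ) (X : CV d) : Prop :=
  ∀ c, IsU c → JJ X c = 0 → ∀ k, 10 ≤ k → k ≤ n → Ph X c k * ((d : ℝ) ^ 3)⁻¹ < ‖om e X c k‖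

theorem dir_all {d n : ℕ} (hd : 2 ≤ d) (hn : 10 ≤ n)
    (hbig : 30000 * (2 * (n : ℝ) + 3) < (d : ℝ) ^ ((1 : ℝ) / 2 - 1 / 400)) {X : CV d}
    (hpos : ∀ u, IsU u → 0 < nn (FF X u)) (hE : ∀ c, IsU c → JJ X c = 0 → Ex n X c) :
    ∃ i ≤ 8 * d, Dr n (ei d i) X := by
  classical
  have hd0 : (0 : ℝ) < d := by exact_mod_cast (by omega : 0 < d)
  have hne : ∃ u, JJ X u ≠ 0 := by
    by_contra hcon
    push Not at hcon
    have hu : IsU ((1 : ℂ), (0 : ℂ)) := by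
      unfold IsU n2
      simp
    obtain ⟨s, b, g, h, -, -, -, -, h1, -⟩ := hE _ hu (hcon _)
    have h2 : Wc X ((1 : ℂ), (0 : ℂ)) = fun _ => 0 := by
      funext t
      unfold Wc
      rw [hcon, zero_div]
    have h3 : f2 X ((1 : ℂ), (0 : ℂ)) = 0 := by
      unfold f2
      rw [h2, deriv_const, norm_zero, zero_div]
    rw [h3] at h1
    have : 0 < (d : ℝ) ^ (1 - s) := by positivity
    linarith
  obtain ⟨C, hC1, hC2, hC3⟩ := crit_finite (by omega) X hne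
  obtain ⟨B, hB⟩ : ∃ B : ℂ × ℂ → Finset ℕ, B = fun c => (range (8 * d + 1)).filter fun i =>
      ∃ k, 10 ≤ k ∧ k ≤ n ∧ ‖om (ei d i) X c k‖ ≤ Ph X c k * ((d : ℝ) ^ 3)⁻¹ := ⟨_, rfl⟩
  obtain ⟨C', hC'⟩ : ∃ C' : Finset (ℂ × ℂ), C' = C.filter fun c => JJ X c = 0 := ⟨_, rfl⟩
  have hcard : (C'.biUnion B).card < (range (8 * d + 1)).card := by
    calc (C'.biUnion B).card ≤ ∑ c ∈ C', (B c).card := Finset.card_biUnion_le
      _ ≤ ∑ c ∈ C', 2 := by
          refine Finset.sum_le_sum fun c hc => ?_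
          rw [hC', Finset.mem_filter] at hc
          rw [hB]
          refine dir_one hd hn hbig hpos (hC2 c hc.1) (hE c (hC2 c hc.1) hc.2) ?_ ?_
          · intro i hi
            rw [Finset.mem_filter, mem_range] at hi
            omega
          · intro i hi
            rw [Finset.mem_filter] at hi
            exact hi.2
      _ = C'.card * 2 := by rw [Finset.sum_const, smul_eq_mul]
      _ ≤ C.card * 2 := by
          rw [hC']
          exact Nat.mul_le_mul_right 2 (Finset.card_filter_le _ _)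
      _ < (range (8 * d + 1)).card := by
          rw [card_range]
          omega
  obtain ⟨i, hi1, hi2⟩ := Finset.exists_mem_notMem_of_card_lt_card hcard
  rw [mem_range] at hi1
  refine ⟨i, by omega, ?_⟩
  intro c hc hJ k hk1 hk2
  obtain ⟨c', hc', z, hz, rfl⟩ := hC3 c hc hJ
  have hJ' : JJ X c' = 0 := by
    rw [JJ_smul] at hJ
    rcases mul_eq_zero.1 hJ with h | h
    · exfalso
      have hz0 : z ≠ 0 := by
        rintro rfl
        rw [norm_zero] at hz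
        norm_num at hz
      exact pow_ne_zero _ (pow_ne_zero _ hz0) h
    · exact h
  rw [norm_om_smul (by omega) _ _ hz, Ph_smul _ hz]
  by_contra hcon
  push Not at hcon
  apply hi2
  rw [Finset.mem_biUnion]
  refine ⟨c', ?_, ?_⟩
  · rw [hC', Finset.mem_filter]
    exact ⟨hc', hJ'⟩
  · rw [hB, Finset.mem_filter, mem_range]
    exact ⟨hi1, k, hk1, hk2, hcon⟩

/-- transversality is an open condition -/
theorem dr_open {d : ℕ} (n : ℕ) (e : ℂ × ℂ) {O : Set (CV d)} (hO : IsOpen O)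
    (hpos : ∀ X ∈ O, ∀ u, IsU u → 0 < nn (FF X u)) : IsOpen {X : CV d | X ∈ O ∧ Dr n e X} := by
  rw [isOpen_iff_mem_nhds]
  rintro X ⟨hX, hD⟩
  have hN : Pool.Agent.H41.RF.Ndg X := by
    intro u hu h0
    have h1 := hpos X hX u hu
    rw [h0] at h1
    simp [nn, n2] at h1
  have e2 : ∀ᶠ Y in 𝓝 X, ∀ c ∈ {u : ℂ × ℂ | IsU u}, (JJ Y c = 0 → ∀ k ∈ Icc 10 n,
      Ph Y c k * ((d : ℝ) ^ 3)⁻¹ < ‖om e Y c k‖) := by
    refine Pool.Agent.H41.RF.unit_compact.eventually_forall_of_forall_eventually fun c hc => ?_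
    have hDm : (X, c) ∈ Pool.Agent.H41.RF.Dm d := by
      refine ⟨hN, ?_⟩
      rintro h0
      have h1 : n2 c = 1 := hc
      change c = 0 at h0
      rw [h0] at h1
      simp [n2] at h1
    have hnh := (Pool.Agent.H41.RF.dm_open d).mem_nhds hDm
    have cob : ∀ l, ContinuousAt (fun p : CV d × (ℂ × ℂ) => ob p.1 p.2 l) (X, c) := fun l =>
      (Pool.Agent.H41.RF.ob_contOn l).1.continuousAt hnh
    have cal : ∀ l, ContinuousAt (fun p : CV d × (ℂ × ℂ) => al p.1 p.2 l) (X, c) := fun l =>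
      (Pool.Agent.H41.RF.al_contOn l).continuousAt hnh
    have cwd : ∀ l, ContinuousAt (fun p : CV d × (ℂ × ℂ) =>
        wd (ob p.1 p.2 l) (Nd e (ob p.1 p.2 l))) (X, c) := by
      intro l
      have h1 : Continuous fun u : ℂ × ℂ => wd u (Nd e u) := by
        unfold wd Nd wd
        fun_prop
      exact h1.continuousAt.comp (cob l)
    have com : ∀ l, ContinuousAt (fun p : CV d × (ℂ × ℂ) => om e p.1 p.2 l) (X, c) := by
      intro l
      induction l with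
      | zero => exact cwd 0
      | succ l ih => exact ((cal l).mul ih).add (cwd (l + 1))
    have cph : ∀ k, ContinuousAt (fun p : CV d × (ℂ × ℂ) => Ph p.1 p.2 k) (X, c) := by
      intro k
      unfold Ph
      exact tendsto_finsetProd _ fun l _ => (cal l).norm
    by_cases hJ : JJ X c = 0
    · have h1 : ∀ k ∈ Icc 10 n, ∀ᶠ p : CV d × (ℂ × ℂ) in 𝓝 (X, c),
          Ph p.1 p.2 k * ((d : ℝ) ^ 3)⁻¹ < ‖om e p.1 p.2 k‖ := by
        intro k hk
        rw [mem_Icc] at hk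
        exact ((cph k).mul continuousAt_const).eventually_lt (com k).norm (hD c hc hJ k hk.1 hk.2)
      have h2 := (Filter.eventually_all_finset (Icc 10 n)).2 h1
      filter_upwards [h2] with p hp _ k hk
      exact hp k hk
    · have h1 : ∀ᶠ p : CV d × (ℂ × ℂ) in 𝓝 (X, c), JJ p.1 p.2 ≠ 0 :=
        (Pool.Agent.H41.RF.JJ_cont (d := d)).continuousAt.eventually_ne hJ
      filter_upwards [h1] with p hp h0
      exact absurd h0 hp
  filter_upwards [hO.mem_nhds hX, e2] with Y h3 h4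
  exact ⟨h3, fun c hc hJ k hk1 hk2 => h4 c hc hJ k (mem_Icc.2 ⟨hk1, hk2⟩)⟩

theorem rp_main (n : ℕ) (hn : 10 ≤ n) : ∃ κ a : ℝ, 0 < κ ∧ κ ≤ 1 / 2000 ∧ 0 < a ∧ ∃ d0 : ℕ,
    ∀ d ≥ d0, Sz n d ((d : ℝ) ^ κ) ∧ ∀ (A : ℝ) (X0 : CV d) (τ : ℝ), 0 ≤ A → (d : ℝ) ^ (-κ) ≤ τ →
    τ ≤ 1 → gau A X0 τ Set.univ ≤ 1 → (∀ u, IsU u → nn (FF X0 u) ≤ (d : ℝ) ^ κ / 2) →
    ∃ O : ℕ → Set (CV d), (∀ i, IsOpen (O i)) ∧
      gau A X0 τ (⋃ i ∈ range (8 * d + 1), O i)ᶜ ≤ ENNReal.ofReal ((d : ℝ) ^ (-a)) ∧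
      ∀ i, ∀ X ∈ O i, BN2 (X - X0) ≤ (d : ℝ) ^ 2 + 1 ∧ Good n ((d : ℝ) ^ κ) X ∧
        (∀ c, IsU c → JJ X c = 0 → Ex n X c) ∧ Dr n (ei d i) X := by
  have hn0 : (0 : ℝ) ≤ n := Nat.cast_nonneg n
  have hε0 : (0 : ℝ) < 1 / (2000 * (n + 3)) := by positivity
  have hε2 : (1 : ℝ) / (2000 * (n + 3)) ≤ 1 / 2000 := by
    refine one_div_le_one_div_of_le (by norm_num) ?_
    linarith
  obtain ⟨κ, a, κ0, κ1, a0, d1, hd1⟩ := es_main n hε0 (by linarith)
  obtain ⟨d2, hd2⟩ := Pool.Agent.H47.SF.nd_event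
  obtain ⟨d3, hd3⟩ := Pool.Agent.H47.SF.sz_large n
  have hκn : ((n : ℝ) + 3) * κ ≤ 1 / 2000 := by
    calc ((n : ℝ) + 3) * κ ≤ (n + 3) * (1 / (2000 * (n + 3))) :=
          mul_le_mul_of_nonneg_left κ1 (by positivity)
      _ = 1 / 2000 := by field_simp
  have hE1 : ∀ᶠ d : ℕ in Filter.atTop,
      30000 * (2 * (n : ℝ) + 3) < (d : ℝ) ^ ((1 : ℝ) / 2 - 1 / 400) :=
    ((tendsto_rpow_atTop (by norm_num : (0 : ℝ) < 1 / 2 - 1 / 400)).comp
      tendsto_natCast_atTop_atTop).eventually_gt_atTop _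
  obtain ⟨a', ha'⟩ : ∃ a' : ℝ, a' = min (a / 2) (1 / 4) := ⟨_, rfl⟩
  have ha0 : 0 < a' := by
    rw [ha']
    exact lt_min (by linarith) (by norm_num)
  have hE2 : ∀ᶠ d : ℕ in Filter.atTop, (2 : ℝ) < (d : ℝ) ^ a' :=
    ((tendsto_rpow_atTop ha0).comp tendsto_natCast_atTop_atTop).eventually_gt_atTop _
  obtain ⟨d4, hd4⟩ := Filter.eventually_atTop.1 (hE1.and hE2)
  refine ⟨κ, a', κ0, κ1.trans hε2, ha0, max (max d1 d2) (max (max d3 d4) 2), ?_⟩
  intro d hd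
  have h2d : 2 ≤ d := by omega
  have hD2 : (2 : ℝ) ≤ d := by exact_mod_cast h2d
  have hd0 : (0 : ℝ) < d := by linarith
  have hR1 : (1 : ℝ) ≤ (d : ℝ) ^ κ := Real.one_le_rpow (by linarith) κ0.le
  have hRq : ((d : ℝ) ^ κ) ^ 10 ≤ qq d := by
    unfold qq
    rw [← Real.rpow_natCast, ← Real.rpow_mul hd0.le]
    refine Real.rpow_le_rpow_of_exponent_le (by linarith) ?_
    push_cast
    linarith
  refine ⟨hd3 d (by omega) _ hR1 hRq, ?_⟩
  intro A X0 τ hA hτ hτ1 huniv hX0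
  obtain ⟨O, hO1, hO2, hO3⟩ := hd1 d (by omega) A X0 τ hA hτ hτ1 huniv hX0
  obtain ⟨Z, hZ1, hZ2, hZ3⟩ := hd2 d (by omega) _ hR1 hRq A X0 τ hA
    (by rw [← Real.rpow_neg hd0.le]; exact hτ) huniv
  obtain ⟨hbig, ha2⟩ := hd4 d (by omega)
  have hpos : ∀ X ∈ O ∩ Zᶜ, ∀ u, IsU u → 0 < nn (FF X u) := fun X hX u hu =>
    lt_of_lt_of_le (by positivity) ((hO3 X hX.1).2.1 u hu).1
  have hOZ : IsOpen (O ∩ Zᶜ) := hO1.inter hZ1.isOpen_compl
  have hEx : ∀ X ∈ O ∩ Zᶜ, ∀ c, IsU c → JJ X c = 0 → Ex n X c := by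
    intro X hX c hc hJ
    obtain ⟨s, b, g, h, q1, q2, q3, q4, q5, q6, q7, q8, q9⟩ := adm_exp h2d (by omega) κ0.le
      (by linarith) (hO3 X hX.1).2.1 hc ((hO3 X hX.1).2.2 c hc hJ)
    refine ⟨s, b, g, h, q1, q2, q3, q4, q5, q6, q7, q8, ?_⟩
    linarith
  refine ⟨fun i => {X | X ∈ O ∩ Zᶜ ∧ Dr n (ei d i) X}, fun i => dr_open n _ hOZ hpos, ?_, ?_⟩
  · have hsub : (⋃ i ∈ range (8 * d + 1), {X : CV d | X ∈ O ∩ Zᶜ ∧ Dr n (ei d i) X})ᶜ ⊆
        Oᶜ ∪ Z := by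
      intro X hX
      by_contra hcon
      rw [Set.mem_union, not_or, Set.mem_compl_iff, not_not] at hcon
      have hX' : X ∈ O ∩ Zᶜ := ⟨hcon.1, hcon.2⟩
      obtain ⟨i, hi, hDi⟩ := dir_all h2d hn hbig (hpos X hX') (hEx X hX')
      apply hX
      rw [Set.mem_iUnion₂]
      exact ⟨i, mem_range.2 (by omega), hX', hDi⟩
    refine (measure_mono hsub).trans ((measure_union_le _ _).trans ((add_le_add hO2 hZ2).trans ?_))
    rw [← ENNReal.ofReal_add (by positivity) (by positivity)]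
    refine ENNReal.ofReal_le_ofReal ?_
    have e1 : (d : ℝ) ^ (-a) ≤ (d : ℝ) ^ (-(2 * a')) := by
      refine Real.rpow_le_rpow_of_exponent_le (by linarith) ?_
      have : a' ≤ a / 2 := by rw [ha']; exact min_le_left _ _
      linarith
    have e2 : (d : ℝ) ^ (-(1 : ℝ) / 2) ≤ (d : ℝ) ^ (-(2 * a')) := by
      refine Real.rpow_le_rpow_of_exponent_le (by linarith) ?_
      have : a' ≤ 1 / 4 := by rw [ha']; exact min_le_right _ _
      linarith
    have e3 : (d : ℝ) ^ (-(2 * a')) = (d : ℝ) ^ (-a') * ((d : ℝ) ^ a')⁻¹ := by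
      rw [← Real.rpow_neg hd0.le, ← Real.rpow_add hd0]
      congr 1
      ring
    have e4 : ((d : ℝ) ^ a')⁻¹ ≤ 1 / 2 := by
      rw [inv_le_comm₀ (by positivity) (by norm_num)]
      norm_num
      exact ha2.le
    have e5 : (d : ℝ) ^ (-a') * ((d : ℝ) ^ a')⁻¹ ≤ (d : ℝ) ^ (-a') * (1 / 2) :=
      mul_le_mul_of_nonneg_left e4 (by positivity)
    linarith
  · rintro i X ⟨hX, hDi⟩
    obtain ⟨h1, h2, h3⟩ := hO3 X hX.1
    refine ⟨h1, ⟨fun u hu => (h2 u hu).2, fun u hu => (h2 u hu).1, fun c hc hJ => ?_,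
      hZ3 X hX.2 h2⟩, hEx X hX, hDi⟩
    obtain ⟨s, b, g, h, q1, q2, q3, q4, q5, q6, q7, q8, q9⟩ := hEx X hX c hc hJ
    exact ⟨s, g, h, q1, q3, q4, q5, q6, q7, by linarith⟩

end Pool.Agent.H73.ES
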