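import Pool.Agent.H26.SF.Gau
import Pool.Agent.H73.ES.Defs

/-!
# [H73 ES Tl] Tails of the Gaussian measure

`gau A X0 τ = ofReal A • gm τ X0` (`Pool.H26.SF.gau_eq`), so it is enough to treat `gm`. Exponential moments: for `φ ∈ ℂ`, `‖φ‖ = 1`, `s ≥ 0` and the translation `X = Y + (φ s) • e`
(volume is translation invariant): `BN2 (X - X0 - φ s e) = BN2 (X - X0) - 2 s Re (conj φ * ipK (X - X0) e) + s^2` (`BN2_add_smul`, `BN2 e = 1`), so the density at `X` is
`exp (-BN2 (X - X0)/τ^2) ≤ exp (-s^2/τ^2) * (density at X - φ s e)` on `{s ≤ Re (conj φ * ipK (X - X0) e)}` : there `- BN2(X-X0) ≤ - BN2 (X - X0 - φ s e) - s^2`. Hence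
`gm {s ≤ Re (conj φ * ipK (X - X0) e)} ≤ exp (-s^2/τ^2) gm univ`. If `r < ‖z‖` then one of `Re z, -Re z, Im z, -Im z` is `≥ r/√2`: take `s = r/√2` and the four `φ ∈ {1, -1, i, -i}`.
-/

set_option autoImplicit false

open Finset MeasureTheory

namespace Pool.Agent.H73.ES

open Pool.H70.SF

private theorem tl_cont {d : ℕ} (X0 e : CV d) :
    Continuous fun X : CV d => Pool.H26.SF.ipK (X - X0) e := by
  unfold Pool.H26.SF.ipK
  refine continuous_finset_sum _ fun k _ => ?_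
  refine Continuous.div_const ?_ _
  have h1 : Continuous fun X : CV d => (X - X0).1 k := by fun_prop
  have h2 : Continuous fun X : CV d => (X - X0).2 k := by fun_prop
  exact (h1.mul continuous_const).add (h2.mul continuous_const)

/-- exponential moment in one real direction -/
private theorem tl_one {d : ℕ} (X0 : CV d) {τ : ℝ} (hτ : 0 < τ) {e : CV d} (he : BN2 e = 1)
    {φ : ℂ} (hφ : ‖φ‖ = 1) {s : ℝ} (hs : 0 ≤ s) :
    Pool.H26.SF.gm τ X0 {X | s ≤ ((starRingEnd ℂ) φ * Pool.H26.SF.ipK (X - X0) e).re} ≤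
      ENNReal.ofReal (Real.exp (-(s ^ 2 / τ ^ 2))) * Pool.H26.SF.gm τ X0 Set.univ := by
  have hmeas : MeasurableSet {X : CV d | s ≤ ((starRingEnd ℂ) φ * Pool.H26.SF.ipK (X - X0) e).re} := by
    refine (isClosed_le continuous_const ?_).measurableSet
    exact Complex.continuous_re.comp (continuous_const.mul (tl_cont X0 e))
  unfold Pool.H26.SF.gm
  rw [withDensity_apply _ hmeas, withDensity_apply _ MeasurableSet.univ, Measure.restrict_univ]
  have hpt : ∀ X ∈ {X : CV d | s ≤ ((starRingEnd ℂ) φ * Pool.H26.SF.ipK (X - X0) e).re},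
      Pool.H26.SF.gd τ X0 X ≤ ENNReal.ofReal (Real.exp (-(s ^ 2 / τ ^ 2))) *
        Pool.H26.SF.gd τ X0 (X - (φ * (s : ℂ)) • e) := by
    intro X hX
    have hX' : s ≤ ((starRingEnd ℂ) φ * Pool.H26.SF.ipK (X - X0) e).re := hX
    unfold Pool.H26.SF.gd
    rw [← ENNReal.ofReal_mul (Real.exp_pos _).le, ← Real.exp_add]
    refine ENNReal.ofReal_le_ofReal (Real.exp_le_exp.2 ?_)
    have e1 : X - (φ * (s : ℂ)) • e - X0 = (X - X0) + (-(φ * (s : ℂ))) • e := by
      rw [neg_smul]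
      abel
    have e2 : ((starRingEnd ℂ) (-(φ * (s : ℂ))) * Pool.H26.SF.ipK (X - X0) e).re =
        -(s * ((starRingEnd ℂ) φ * Pool.H26.SF.ipK (X - X0) e).re) := by
      rw [map_neg, map_mul, Complex.conj_ofReal, neg_mul, Complex.neg_re, mul_right_comm,
        Complex.re_mul_ofReal, mul_comm]
    have e3 : ‖-(φ * (s : ℂ))‖ ^ 2 = s ^ 2 := by
      rw [norm_neg, norm_mul, hφ, one_mul, Complex.norm_real, Real.norm_eq_abs, sq_abs]
    rw [e1, Pool.H26.SF.BN2_add_smul, e2, e3, he, mul_one]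
    have hτ2 : 0 < τ ^ 2 := by positivity
    rw [← neg_div, ← add_div, div_le_div_iff_of_pos_right hτ2]
    nlinarith [mul_le_mul_of_nonneg_left hX' hs]
  calc ∫⁻ X in {X : CV d | s ≤ ((starRingEnd ℂ) φ * Pool.H26.SF.ipK (X - X0) e).re},
        Pool.H26.SF.gd τ X0 X
      ≤ ∫⁻ X in {X : CV d | s ≤ ((starRingEnd ℂ) φ * Pool.H26.SF.ipK (X - X0) e).re},
        ENNReal.ofReal (Real.exp (-(s ^ 2 / τ ^ 2))) *
          Pool.H26.SF.gd τ X0 (X - (φ * (s : ℂ)) • e) := setLIntegral_mono' hmeas hpt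
    _ ≤ ∫⁻ X, ENNReal.ofReal (Real.exp (-(s ^ 2 / τ ^ 2))) *
          Pool.H26.SF.gd τ X0 (X - (φ * (s : ℂ)) • e) := setLIntegral_le_lintegral _ _
    _ = ENNReal.ofReal (Real.exp (-(s ^ 2 / τ ^ 2))) *
          ∫⁻ X, Pool.H26.SF.gd τ X0 (X - (φ * (s : ℂ)) • e) :=
        lintegral_const_mul' _ _ ENNReal.ofReal_ne_top
    _ = ENNReal.ofReal (Real.exp (-(s ^ 2 / τ ^ 2))) * ∫⁻ X, Pool.H26.SF.gd τ X0 X := by
        congr 1
        exact lintegral_sub_right_eq_self (μ := (volume : Measure (CV d)))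
          (fun X => Pool.H26.SF.gd τ X0 X) _

theorem gau_tl {d : ℕ} {A : ℝ} (hA : 0 ≤ A) (X0 : CV d) {τ : ℝ} (hτ : 0 < τ) {e : CV d}
    (he : BN2 e = 1) {r : ℝ} (hr : 0 ≤ r) :
    gau A X0 τ {X | r < ‖Pool.H26.SF.ipK (X - X0) e‖} ≤
      ENNReal.ofReal (4 * Real.exp (-(r ^ 2 / (2 * τ ^ 2)))) * gau A X0 τ Set.univ := by
  rw [Pool.H26.SF.gau_eq hA, Measure.smul_apply, Measure.smul_apply, smul_eq_mul, smul_eq_mul,
    mul_left_comm]
  gcongr
  set s : ℝ := r / Real.sqrt 2 with hs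
  have h2 : (0 : ℝ) < Real.sqrt 2 := Real.sqrt_pos.2 (by norm_num)
  have hs0 : 0 ≤ s := by positivity
  have hs2 : s ^ 2 = r ^ 2 / 2 := by
    rw [hs, div_pow, Real.sq_sqrt (by norm_num)]
  have hexp : s ^ 2 / τ ^ 2 = r ^ 2 / (2 * τ ^ 2) := by
    rw [hs2, div_div]
  have hsub : {X : CV d | r < ‖Pool.H26.SF.ipK (X - X0) e‖} ⊆
      (({X : CV d | s ≤ ((starRingEnd ℂ) 1 * Pool.H26.SF.ipK (X - X0) e).re} ∪
        {X : CV d | s ≤ ((starRingEnd ℂ) (-1) * Pool.H26.SF.ipK (X - X0) e).re}) ∪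
      ({X : CV d | s ≤ ((starRingEnd ℂ) Complex.I * Pool.H26.SF.ipK (X - X0) e).re} ∪
        {X : CV d | s ≤ ((starRingEnd ℂ) (-Complex.I) * Pool.H26.SF.ipK (X - X0) e).re})) := by
    intro X hX
    have hX' : r < ‖Pool.H26.SF.ipK (X - X0) e‖ := hX
    by_contra hnot
    simp only [Set.mem_union, Set.mem_setOf_eq, not_or, not_le, map_one, one_mul, map_neg,
      neg_mul, Complex.neg_re, Complex.conj_I, neg_neg] at hnot
    obtain ⟨⟨a1, a2⟩, a3, a4⟩ := hnot
    set z := Pool.H26.SF.ipK (X - X0) e with hz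
    have e3 : (Complex.I * z).re = -z.im := by simp
    rw [e3] at a3 a4
    have b1 : z.re ^ 2 < s ^ 2 := by
      apply sq_lt_sq'
      · linarith
      · linarith
    have b2 : z.im ^ 2 < s ^ 2 := by
      apply sq_lt_sq'
      · linarith
      · linarith
    have b3 : ‖z‖ ^ 2 = z.re ^ 2 + z.im ^ 2 := by
      rw [← Complex.normSq_eq_norm_sq, Complex.normSq_apply]
      ring
    have b4 : r ^ 2 < ‖z‖ ^ 2 := by
      apply sq_lt_sq'
      · linarith
      · exact hX'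
    rw [hs2] at b1 b2
    linarith
  have hI : ‖Complex.I‖ = 1 := Complex.norm_I
  have k1 := tl_one X0 hτ he (φ := 1) norm_one hs0
  have k2 := tl_one X0 hτ he (φ := -1) (by rw [norm_neg, norm_one]) hs0
  have k3 := tl_one X0 hτ he (φ := Complex.I) hI hs0
  have k4 := tl_one X0 hτ he (φ := -Complex.I) (by rw [norm_neg, hI]) hs0
  rw [hexp] at k1 k2 k3 k4
  calc Pool.H26.SF.gm τ X0 {X : CV d | r < ‖Pool.H26.SF.ipK (X - X0) e‖}
      ≤ _ := measure_mono hsub
    _ ≤ _ := (measure_union_le _ _).trans (add_le_add (measure_union_le _ _) (measure_union_le _ _))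
    _ ≤ _ := add_le_add (add_le_add k1 k2) (add_le_add k3 k4)
    _ = ENNReal.ofReal (4 * Real.exp (-(r ^ 2 / (2 * τ ^ 2)))) * Pool.H26.SF.gm τ X0 Set.univ := by
        rw [ENNReal.ofReal_mul (by norm_num)]
        have : ENNReal.ofReal 4 = 4 := by simp
        rw [this]
        ring

end Pool.Agent.H73.ES
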